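import Pool.Agent.Lib.MP_87840f_co.Defs

/-!
The construction: 3-chromatic cliques with any possible number of vertices.
-/

open Finset

namespace Pool.Agent.Lib.MP_87840f_co

namespace Constr

/-- the `(n-1)`-subsets of `range N` that contain `0` -/
def HH (n N : ℕ) : Finset (Finset ℕ) := ((range N).powersetCard (n - 1)).filter (fun S => 0 ∈ S)

theorem mem_HH {n N : ℕ} {S : Finset ℕ} :
    S ∈ HH n N ↔ S ⊆ range N ∧ S.card = n - 1 ∧ 0 ∈ S := by
  unfold HH
  rw [mem_filter, mem_powersetCard, and_assoc]

theorem card_HH (n : ℕ) (hn : 2 ≤ n) :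
    2 * (HH n (2 * n - 2)).card = (2 * n - 2).choose (n - 1) := by
  set N := 2 * n - 2 with hN
  have h1 : ((range N).powersetCard (n - 1)).card = N.choose (n - 1) := by
    rw [card_powersetCard, card_range]
  have h2 : (HH n N).card + (((range N).powersetCard (n - 1)).filter (fun S => ¬ 0 ∈ S)).card =
      ((range N).powersetCard (n - 1)).card :=
    card_filter_add_card_filter_not (fun S => 0 ∈ S)
  have h0 : (0 : ℕ) ∈ range N := by rw [mem_range]; omega
  have h3 : (HH n N).card = (((range N).powersetCard (n - 1)).filter (fun S => ¬ 0 ∈ S)).card := by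
    refine card_bij' (fun S _ => range N \ S) (fun S _ => range N \ S) ?_ ?_ ?_ ?_
    · intro S hS
      rw [mem_HH] at hS
      rw [mem_filter, mem_powersetCard, card_sdiff_of_subset hS.1, card_range, hS.2.1]
      refine ⟨⟨sdiff_subset, by omega⟩, fun h => ?_⟩
      exact (mem_sdiff.mp h).2 hS.2.2
    · intro S hS
      rw [mem_filter, mem_powersetCard] at hS
      rw [mem_HH, card_sdiff_of_subset hS.1.1, card_range, hS.1.2]
      exact ⟨sdiff_subset, by omega, mem_sdiff.mpr ⟨h0, hS.2⟩⟩
    · intro S hS
      rw [mem_HH] at hS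
      exact Finset.sdiff_sdiff_eq_self hS.1
    · intro S hS
      rw [mem_filter, mem_powersetCard] at hS
      exact Finset.sdiff_sdiff_eq_self hS.1.1
  omega

open Classical in
/-- the labels -/
noncomputable def gg (n N m : ℕ) (S : Finset ℕ) : ℕ :=
  if h : S ∈ HH n N then min ((HH n N).equivFin ⟨S, h⟩ : ℕ) (m - 1) else 0

theorem gg_lt {n N m : ℕ} (hm : 1 ≤ m) (S : Finset ℕ) : gg n N m S < m := by
  unfold gg
  split_ifs
  · have := min_le_right ((HH n N).equivFin ⟨S, ‹_›⟩ : ℕ) (m - 1)
    omega
  · omega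

theorem gg_surj {n N m : ℕ} (hm : m ≤ (HH n N).card) {j : ℕ} (hj : j < m) :
    ∃ S ∈ HH n N, gg n N m S = j := by
  have hj' : j < (HH n N).card := by omega
  set S := (HH n N).equivFin.symm ⟨j, hj'⟩ with hS
  refine ⟨S.1, S.2, ?_⟩
  unfold gg
  rw [dif_pos S.2]
  have h1 : (HH n N).equivFin ⟨S.1, S.2⟩ = ⟨j, hj'⟩ := by
    rw [hS]
    exact Equiv.apply_symm_apply _ _
  rw [h1]
  show min j (m - 1) = j
  omega

open Classical in
/-- the edges -/
noncomputable def FF (n N m : ℕ) : Finset (Finset ℕ) :=
  (range N).powersetCard n ∪ ((HH n N).image (fun S => insert (N + gg n N m S) S) ∪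
    (HH n N).image (fun S => insert (N + gg n N m S) (range N \ S)))

theorem mem_FF {n N m : ℕ} {A : Finset ℕ} : A ∈ FF n N m ↔
    (A ⊆ range N ∧ A.card = n) ∨ ∃ S ∈ HH n N, ∃ P : Finset ℕ, (P = S ∨ P = range N \ S) ∧
      A = insert (N + gg n N m S) P := by
  unfold FF
  rw [mem_union, mem_union, mem_powersetCard, mem_image, mem_image]
  constructor
  · rintro (h | ⟨S, hS, rfl⟩ | ⟨S, hS, rfl⟩)
    · exact Or.inl h
    · exact Or.inr ⟨S, hS, S, Or.inl rfl, rfl⟩
    · exact Or.inr ⟨S, hS, _, Or.inr rfl, rfl⟩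
  · rintro (h | ⟨S, hS, P, rfl | rfl, rfl⟩)
    · exact Or.inl h
    · exact Or.inr (Or.inl ⟨_, hS, rfl⟩)
    · exact Or.inr (Or.inr ⟨_, hS, rfl⟩)

theorem part {n : ℕ} (hn : 2 ≤ n) {S P : Finset ℕ} (hS : S ∈ HH n (2 * n - 2))
    (hP : P = S ∨ P = range (2 * n - 2) \ S) : P ⊆ range (2 * n - 2) ∧ P.card = n - 1 := by
  rw [mem_HH] at hS
  rcases hP with rfl | rfl
  · exact ⟨hS.1, hS.2.1⟩
  · refine ⟨sdiff_subset, ?_⟩
    rw [card_sdiff_of_subset hS.1, card_range, hS.2.1]
    omega

theorem meet {N : ℕ} {A P : Finset ℕ} (hA : A ⊆ range N) (hP : P ⊆ range N)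
    (h : N < A.card + P.card) : ∃ x, x ∈ A ∧ x ∈ P := by
  by_contra hne
  push Not at hne
  have hd : Disjoint A P := disjoint_left.mpr hne
  have h1 := card_union_of_disjoint hd
  have h2 := card_le_card (union_subset hA hP)
  rw [card_range] at h2
  omega

theorem clique (n m : ℕ) (hn : 2 ≤ n) : IsUniformClique n (FF n (2 * n - 2) m) := by
  set N := 2 * n - 2 with hN
  have hnew : ∀ (S P : Finset ℕ), P ⊆ range N → N + gg n N m S ∉ P := by
    intro S P hP h
    have := mem_range.mp (hP h)
    omega
  constructor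
  · intro A hA
    rw [mem_FF] at hA
    rcases hA with h | ⟨S, hS, P, hP, rfl⟩
    · exact h.2
    · obtain ⟨h1, h2⟩ := part hn hS hP
      rw [card_insert_of_notMem (hnew S P h1), h2]
      omega
  · intro A hA B hB
    rw [mem_FF] at hA hB
    rcases hA with h | ⟨S, hS, P, hP, rfl⟩
    · rcases hB with h' | ⟨S', hS', P', hP', rfl⟩
      · exact meet h.1 h'.1 (by omega)
      · obtain ⟨h1, h2⟩ := part hn hS' hP'
        obtain ⟨x, hx1, hx2⟩ := meet h.1 h1 (by omega)
        exact ⟨x, hx1, mem_insert_of_mem hx2⟩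
    · obtain ⟨k1, k2⟩ := part hn hS hP
      rcases hB with h' | ⟨S', hS', P', hP', rfl⟩
      · obtain ⟨x, hx1, hx2⟩ := meet h'.1 k1 (by omega)
        exact ⟨x, mem_insert_of_mem hx2, hx1⟩
      · obtain ⟨h1, h2⟩ := part hn hS' hP'
        by_cases hd : ∃ x, x ∈ P ∧ x ∈ P'
        · obtain ⟨x, hx1, hx2⟩ := hd
          exact ⟨x, mem_insert_of_mem hx1, mem_insert_of_mem hx2⟩
        · push Not at hd
          have hsub : P' ⊆ range N \ P := by
            intro x hx
            rw [mem_sdiff]
            exact ⟨h1 hx, fun h' => hd x h' hx⟩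
          have heq : P' = range N \ P := by
            refine eq_of_subset_of_card_le hsub ?_
            rw [card_sdiff_of_subset k1, card_range, k2, h2]
            omega
          rw [mem_HH] at hS hS'
          have hSS : S = S' := by
            rcases hP with rfl | rfl
            · rcases hP' with rfl | rfl
              · have h3 := hS'.2.2
                rw [heq] at h3
                exact absurd hS.2.2 (mem_sdiff.mp h3).2
              · have h3 := congrArg (fun Y => range N \ Y) heq
                rw [Finset.sdiff_sdiff_eq_self hS'.1, Finset.sdiff_sdiff_eq_self hS.1] at h3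
                exact h3.symm
            · rw [Finset.sdiff_sdiff_eq_self hS.1] at heq
              rcases hP' with rfl | rfl
              · exact heq.symm
              · have h3 := hS.2.2
                rw [← heq] at h3
                exact absurd hS'.2.2 (mem_sdiff.mp h3).2
          subst hSS
          exact ⟨N + gg n N m S, mem_insert_self _ _, mem_insert_self _ _⟩

theorem not_two (n m : ℕ) (hn : 2 ≤ n) : ¬ ProperlyColourable 2 (FF n (2 * n - 2) m) := by
  set N := 2 * n - 2 with hN
  rintro ⟨c, hc⟩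
  have h0 : (0 : ℕ) ∈ range N := by rw [mem_range]; omega
  set S := (range N).filter (fun x => c x = c 0) with hS
  set S' := (range N).filter (fun x => ¬ c x = c 0) with hS'
  have hcard : S.card + S'.card = N := by
    rw [hS, hS', card_filter_add_card_filter_not, card_range]
  have hlt : ∀ (Y : Finset ℕ) (i : Fin 2), Y ⊆ range N → (∀ x ∈ Y, c x = i) → Y.card < n := by
    intro Y i hY hi
    by_contra hge
    push Not at hge
    obtain ⟨A, hA, hAc⟩ := exists_subset_card_eq hge
    refine hc A ?_ ⟨i, fun x hx => hi x (hA hx)⟩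
    rw [mem_FF]
    exact Or.inl ⟨hA.trans hY, hAc⟩
  have htwo : ∀ a b d : Fin 2, a ≠ b → d ≠ b → a = d := by decide
  have hSsub : S ⊆ range N := filter_subset _ _
  have hS'sub : S' ⊆ range N := filter_subset _ _
  have h1 : S.card < n := hlt S (c 0) hSsub fun x hx => (mem_filter.mp hx).2
  have h2 : S'.card < n := by
    by_cases hne : S'.Nonempty
    · obtain ⟨y, hy⟩ := hne
      refine hlt S' (c y) hS'sub fun x hx => ?_
      exact htwo _ _ _ (mem_filter.mp hx).2 (mem_filter.mp hy).2
    · rw [not_nonempty_iff_eq_empty] at hne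
      rw [hne, card_empty]; omega
  have hSH : S ∈ HH n N := by
    rw [mem_HH]
    exact ⟨hSsub, by omega, mem_filter.mpr ⟨h0, rfl⟩⟩
  have hcomp : range N \ S = S' := by
    ext x
    rw [mem_sdiff, mem_filter, mem_filter]
    tauto
  by_cases hv : c (N + gg n N m S) = c 0
  · refine hc (insert (N + gg n N m S) S) ?_ ⟨c 0, fun x hx => ?_⟩
    · rw [mem_FF]
      exact Or.inr ⟨S, hSH, S, Or.inl rfl, rfl⟩
    · rcases mem_insert.mp hx with rfl | hx
      · exact hv
      · exact (mem_filter.mp hx).2
  · refine hc (insert (N + gg n N m S) (range N \ S)) ?_ ⟨c (N + gg n N m S), fun x hx => ?_⟩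
    · rw [mem_FF]
      exact Or.inr ⟨S, hSH, _, Or.inr rfl, rfl⟩
    · rcases mem_insert.mp hx with rfl | hx
      · rfl
      · rw [hcomp] at hx
        exact htwo _ _ _ (mem_filter.mp hx).2 hv

theorem three {n : ℕ} (hn : 2 ≤ n) {F : Finset (Finset ℕ)} (hF : IsUniformClique n F)
    (hne : F.Nonempty) : ProperlyColourable 3 F := by
  obtain ⟨A, hA⟩ := hne
  have hAc := hF.1 A hA
  have hAne : A.Nonempty := by
    rw [← card_pos]; omega
  obtain ⟨x, hx⟩ := hAne
  refine ⟨fun y => if y = x then 0 else if y ∈ A then 1 else 2, fun B hB => ?_⟩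
  rintro ⟨i, hi⟩
  have hBc := hF.1 B hB
  have key : i = 0 ∨ i = 1 ∨ i = 2 := by
    have : ∀ i : Fin 3, i = 0 ∨ i = 1 ∨ i = 2 := by decide
    exact this i
  rcases key with rfl | rfl | rfl
  · have hsub : B ⊆ {x} := by
      intro y hy
      rw [mem_singleton]
      by_contra hyx
      have := hi y hy
      simp only [hyx, if_false] at this
      split_ifs at this
      · exact absurd this (by decide)
      · exact absurd this (by decide)
    have := card_le_card hsub
    rw [card_singleton] at this
    omega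
  · have hsub : B ⊆ A.erase x := by
      intro y hy
      have h1 := hi y hy
      by_cases hyx : y = x
      · simp only [hyx, if_true] at h1
        exact absurd h1 (by decide)
      · simp only [hyx, if_false] at h1
        by_cases hyA : y ∈ A
        · exact mem_erase.mpr ⟨hyx, hyA⟩
        · simp only [hyA, if_false] at h1
          exact absurd h1 (by decide)
    have := card_le_card hsub
    rw [card_erase_of_mem hx] at this
    omega
  · obtain ⟨y, hyA, hyB⟩ := hF.2 A hA B hB
    have h1 := hi y hyB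
    by_cases hyx : y = x
    · simp only [hyx, if_true] at h1
      exact absurd h1 (by decide)
    · simp only [hyx, if_false, hyA, if_true] at h1
      exact absurd h1 (by decide)

theorem union_eq (n m : ℕ) (hn : 2 ≤ n) (hm : 1 ≤ m) (hm2 : m ≤ (HH n (2 * n - 2)).card) :
    (FF n (2 * n - 2) m).biUnion id = range (2 * n - 2 + m) := by
  set N := 2 * n - 2 with hN
  ext y
  rw [mem_biUnion]
  constructor
  · rintro ⟨A, hA, hy⟩
    rw [id] at hy
    rw [mem_FF] at hA
    rw [mem_range]
    rcases hA with h | ⟨S, hS, P, hP, rfl⟩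
    · have := mem_range.mp (h.1 hy)
      omega
    · obtain ⟨h1, h2⟩ := part hn hS hP
      rcases mem_insert.mp hy with rfl | hy
      · have := gg_lt (n := n) (N := N) hm S
        omega
      · have := mem_range.mp (h1 hy)
        omega
  · intro hy
    rw [mem_range] at hy
    by_cases hyN : y < N
    · obtain ⟨A, hA1, hA2, hA3⟩ := exists_subsuperset_card_eq (s := {y}) (t := range N) (n := n)
        (by rw [singleton_subset_iff, mem_range]; exact hyN) (by rw [card_singleton]; omega)
        (by rw [card_range]; omega)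
      refine ⟨A, ?_, ?_⟩
      · rw [mem_FF]
        exact Or.inl ⟨hA2, hA3⟩
      · exact hA1 (mem_singleton_self y)
    · obtain ⟨S, hS, hg⟩ := gg_surj hm2 (j := y - N) (by omega)
      refine ⟨insert (N + gg n N m S) S, ?_, ?_⟩
      · rw [mem_FF]
        exact Or.inr ⟨S, hS, S, Or.inl rfl, rfl⟩
      · rw [id, mem_insert]
        left
        omega

end Constr

open Constr in
theorem construction (n v : ℕ) (hn : 2 ≤ n) (h1 : 2 * n - 1 ≤ v)
    (h2 : 2 * v ≤ 2 * (2 * n - 2) + (2 * n - 2).choose (n - 1)) :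
    ∃ F : Finset (Finset ℕ), IsThreeChromaticClique n F ∧ (F.biUnion id).card = v := by
  have hc := card_HH n hn
  have hm : 1 ≤ v - (2 * n - 2) := by omega
  have hm2 : v - (2 * n - 2) ≤ (HH n (2 * n - 2)).card := by omega
  have hu := union_eq n (v - (2 * n - 2)) hn hm hm2
  have hcl := clique n (v - (2 * n - 2)) hn
  refine ⟨FF n (2 * n - 2) (v - (2 * n - 2)), ⟨hcl, three hn hcl ?_, not_two n _ hn⟩, ?_⟩
  · rw [nonempty_iff_ne_empty]
    intro he
    rw [he, biUnion_empty] at hu
    have : (0 : ℕ) ∈ range (2 * n - 2 + (v - (2 * n - 2))) := by rw [mem_range]; omega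
    rw [← hu] at this
    exact absurd this (notMem_empty 0)
  · rw [hu, card_range]
    omega

end Pool.Agent.Lib.MP_87840f_co
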