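import Mathlib

/-!
# MP_87840f_co: vertex numbers of 3-chromatic uniform intersecting hypergraphs (definitions)
-/

namespace Pool.Agent.Lib.MP_87840f_co

/-- `F` is an `n`-uniform clique: all edges have exactly `n` elements and any two edges meet. -/
def IsUniformClique {α : Type*} (n : ℕ) (F : Finset (Finset α)) : Prop :=
  (∀ A ∈ F, A.card = n) ∧ ∀ A ∈ F, ∀ B ∈ F, ∃ x, x ∈ A ∧ x ∈ B

/-- `F` has a proper `k`-colouring: a map from the vertices to `k` colours under which no edge is
monochromatic (contained in one colour class). -/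
def ProperlyColourable {α : Type*} (k : ℕ) (F : Finset (Finset α)) : Prop :=
  ∃ c : α → Fin k, ∀ A ∈ F, ¬ ∃ i : Fin k, ∀ x ∈ A, c x = i

/-- A 3-chromatic `n`-uniform clique. -/
def IsThreeChromaticClique {α : Type*} (n : ℕ) (F : Finset (Finset α)) : Prop :=
  IsUniformClique n F ∧ ProperlyColourable 3 F ∧ ¬ ProperlyColourable 2 F

/-- The numberings in which every element of `A` comes before every element of `B`. -/
def before {V : Type*} [Fintype V] [DecidableEq V] (A B : Finset V) :
    Finset (V ≃ Fin (Fintype.card V)) :=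
  Finset.univ.filter (fun f => ∀ x ∈ A, ∀ y ∈ B, f x < f y)

@[simp] theorem mem_before {V : Type*} [Fintype V] [DecidableEq V] {A B : Finset V}
    {f : V ≃ Fin (Fintype.card V)} : f ∈ before A B ↔ ∀ x ∈ A, ∀ y ∈ B, f x < f y := by
  simp [before]

end Pool.Agent.Lib.MP_87840f_co
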