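import Pool.Agent.Lib.MP_87840f_co.Defs

/-!
The number of numberings with `A` before `B`.
-/

set_option autoImplicit false

namespace Pool.Agent.Lib.MP_87840f_co

open Finset

/-- The `a` smallest elements of `T`. -/
private theorem exists_smallest {V : Type*} [DecidableEq V] {N : ℕ} (f : V ≃ Fin N)
    (T : Finset V) : ∀ a : ℕ, a ≤ T.card →
      ∃ A' ∈ powersetCard a T, ∀ x ∈ A', ∀ y ∈ T \ A', f x < f y := by
  intro a
  induction a with
  | zero => intro _; exact ⟨∅, by simp, by simp⟩
  | succ a ih =>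
    intro ha
    obtain ⟨A', hA', h⟩ := ih (by omega)
    rw [mem_powersetCard] at hA'
    have hne : (T \ A').Nonempty := by
      rw [← card_pos, card_sdiff_of_subset hA'.1]
      omega
    obtain ⟨z, hz, hmin⟩ := exists_min_image (T \ A') f hne
    rw [mem_sdiff] at hz
    refine ⟨insert z A', ?_, ?_⟩
    · rw [mem_powersetCard, card_insert_of_notMem hz.2, hA'.2]
      exact ⟨insert_subset hz.1 hA'.1, rfl⟩
    · intro x hx y hy
      rw [mem_sdiff, mem_insert, not_or] at hy
      rw [mem_insert] at hx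
      have hy' : y ∈ T \ A' := mem_sdiff.2 ⟨hy.1, hy.2.2⟩
      rcases hx with rfl | hx
      · refine lt_of_le_of_ne (hmin y hy') fun e => hy.2.1 (f.injective e).symm
      · exact h x hx y hy'

/-- A permutation moving `A` to `A'` inside `T`. -/
private theorem exists_perm {V : Type*} [Fintype V] [DecidableEq V] {A A' T : Finset V}
    (hA : A ⊆ T) (hA' : A' ⊆ T) (hc : A.card = A'.card) :
    ∃ π : Equiv.Perm V, (∀ x ∈ A, π x ∈ A') ∧ ∀ x ∈ T \ A, π x ∈ T \ A' := by
  have e0 : {x : {x // x ∈ T} // x.1 ∈ A} ≃ {x : {x // x ∈ T} // x.1 ∈ A'} := by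
    refine Fintype.equivOfCardEq ?_
    have key : ∀ B : Finset V, B ⊆ T → Fintype.card {x : {x // x ∈ T} // x.1 ∈ B} = B.card := by
      intro B hB
      rw [← Fintype.card_coe]
      refine Fintype.card_congr ⟨fun x => ⟨x.1.1, x.2⟩, fun x => ⟨⟨x.1, hB x.2⟩, x.2⟩, ?_, ?_⟩
      · intro x; rfl
      · intro x; rfl
    rw [key A hA, key A' hA', hc]
  let π0 : Equiv.Perm {x // x ∈ T} := e0.extendSubtype
  refine ⟨Equiv.Perm.ofSubtype π0, ?_, ?_⟩
  · intro x hx
    rw [Equiv.Perm.ofSubtype_apply_of_mem π0 (hA hx)]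
    exact e0.extendSubtype_mem ⟨x, hA hx⟩ hx
  · intro x hx
    rw [mem_sdiff] at hx
    rw [Equiv.Perm.ofSubtype_apply_of_mem π0 hx.1, mem_sdiff]
    exact ⟨(π0 ⟨x, hx.1⟩).2, e0.extendSubtype_not_mem ⟨x, hx.1⟩ hx.2⟩

theorem card_before_ge {V : Type*} [Fintype V] [DecidableEq V] (A B : Finset V)
    (hAB : Disjoint A B) :
    (Fintype.card V).factorial ≤ (before A B).card * (A.card + B.card).choose A.card := by
  have hT : (A ∪ B).card = A.card + B.card := card_union_of_disjoint hAB
  have hBT : (A ∪ B) \ A = B := by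
    rw [union_sdiff_cancel_left hAB]
  have h1 : (univ : Finset (V ≃ Fin (Fintype.card V))) ⊆
      (powersetCard A.card (A ∪ B)).biUnion fun A' => before A' ((A ∪ B) \ A') := by
    intro f _
    obtain ⟨A', hA', h⟩ := exists_smallest f (A ∪ B) A.card (by omega)
    rw [mem_biUnion]
    exact ⟨A', hA', mem_before.2 h⟩
  have h2 : ∀ A' ∈ powersetCard A.card (A ∪ B),
      (before A' ((A ∪ B) \ A')).card ≤ (before A B).card := by
    intro A' hA'
    rw [mem_powersetCard] at hA'
    obtain ⟨π, hπ1, hπ2⟩ := exists_perm (T := A ∪ B) subset_union_left hA'.1 hA'.2.symm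
    refine card_le_card_of_injOn (fun f => π.trans f) ?_ ?_
    · intro f hf
      simp only [mem_coe, mem_before] at hf ⊢
      intro x hx y hy
      refine hf _ (hπ1 x hx) _ (hπ2 y ?_)
      rw [hBT]; exact hy
    · intro f _ g _ hfg
      ext x
      have := congrArg (fun e => (e (π.symm x)).val) hfg
      simpa using this
  have h3 := card_le_card h1
  rw [card_univ, Fintype.card_equiv (Fintype.equivFin V)] at h3
  refine h3.trans (card_biUnion_le.trans ((sum_le_card_nsmul _ _ _ h2).trans ?_))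
  rw [card_powersetCard, hT, smul_eq_mul, mul_comm]

end Pool.Agent.Lib.MP_87840f_co
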