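import Mathlib
import Pool.Agent.Lib.MP_87840f_co.Defs
import Pool.Agent.Lib.MP_87840f_co.Perm

section

/-!
The local lemma for tight crossing pairs.
-/

set_option autoImplicit false
set_option linter.unusedSectionVars false

namespace Pool.Agent.Lib.MP_87840f_co

open Finset

section Local

variable {V : Type*} [DecidableEq V]

/-- A state. -/
private structure LSt (X : Finset V) (A B : Finset (Finset V)) (I : Finset V)
    (a b : V → Finset V) : Prop where
  subA : ∀ s ∈ A, s ⊆ X
  subB : ∀ t ∈ B, t ⊆ X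
  cross : ∀ s ∈ A, ∀ t ∈ B, (s ∩ t).Nonempty
  memA : ∀ u ∈ I, a u ∈ A
  memB : ∀ u ∈ I, b u ∈ B
  tight : ∀ u ∈ I, a u ∩ b u = {u}

/-- The potential. -/
private noncomputable def lphi (I : Finset V) (a b : V → Finset V) : ℝ :=
  ∑ u ∈ I, (4 : ℝ) / 2 ^ ((a u).card + (b u).card)

private theorem LSt.swap {X : Finset V} {A B : Finset (Finset V)} {I : Finset V}
    {a b : V → Finset V} (h : LSt X A B I a b) : LSt X B A I b a where
  subA := h.subB
  subB := h.subA
  cross := fun s hs t ht => by rw [inter_comm]; exact h.cross t ht s hs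
  memA := h.memB
  memB := h.memA
  tight := fun u hu => by rw [inter_comm]; exact h.tight u hu

private theorem lphi_swap (I : Finset V) (a b : V → Finset V) : lphi I a b = lphi I b a := by
  unfold lphi
  refine sum_congr rfl fun u _ => ?_
  rw [add_comm]

private theorem LSt.mem {X : Finset V} {A B : Finset (Finset V)} {I : Finset V}
    {a b : V → Finset V} (h : LSt X A B I a b) {u : V} (hu : u ∈ I) : u ∈ a u ∧ u ∈ b u := by
  have h1 : u ∈ a u ∩ b u := by rw [h.tight u hu]; exact mem_singleton_self u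
  exact mem_inter.1 h1

private theorem LSt.red {X : Finset V} {A B : Finset (Finset V)} {I : Finset V}
    {a b : V → Finset V} (h : LSt X A B I a b) (x : V) :
    LSt (X.erase x) (A.image fun s => s.erase x) (B.filter fun t => x ∉ t)
      (I.filter fun u => x ∉ b u) (fun u => (a u).erase x) b where
  subA := fun s hs => by
    obtain ⟨s', hs', rfl⟩ := mem_image.1 hs
    exact erase_subset_erase x (h.subA s' hs')
  subB := fun t ht => by
    obtain ⟨ht1, ht2⟩ := mem_filter.1 ht
    exact fun y hy => mem_erase.2 ⟨fun e => ht2 (e ▸ hy), h.subB t ht1 hy⟩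
  cross := fun s hs t ht => by
    obtain ⟨s', hs', rfl⟩ := mem_image.1 hs
    obtain ⟨ht1, ht2⟩ := mem_filter.1 ht
    obtain ⟨y, hy⟩ := h.cross s' hs' t ht1
    obtain ⟨hy1, hy2⟩ := mem_inter.1 hy
    exact ⟨y, mem_inter.2 ⟨mem_erase.2 ⟨fun e => ht2 (e ▸ hy2), hy1⟩, hy2⟩⟩
  memA := fun u hu => mem_image_of_mem _ (h.memA u (mem_filter.1 hu).1)
  memB := fun u hu => mem_filter.2 ⟨h.memB u (mem_filter.1 hu).1, (mem_filter.1 hu).2⟩
  tight := fun u hu => by
    obtain ⟨hu1, hu2⟩ := mem_filter.1 hu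
    rw [erase_inter, h.tight u hu1]
    refine erase_eq_of_notMem ?_
    rw [mem_singleton]
    rintro rfl
    exact hu2 (h.mem hu1).2

private theorem LSt.blue {X : Finset V} {A B : Finset (Finset V)} {I : Finset V}
    {a b : V → Finset V} (h : LSt X A B I a b) (x : V) :
    LSt (X.erase x) (A.filter fun t => x ∉ t) (B.image fun s => s.erase x)
      (I.filter fun u => x ∉ a u) a (fun u => (b u).erase x) :=
  (h.swap.red x).swap

/-- The weight of `x`. -/
private noncomputable def lw (I : Finset V) (a b : V → Finset V) (x : V) : ℝ :=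
  if x ∈ I then (4 : ℝ) / 2 ^ ((a x).card + (b x).card) else 0

private theorem lphi_split {X : Finset V} {A B : Finset (Finset V)} {I : Finset V}
    {a b : V → Finset V} (h : LSt X A B I a b) (x : V) :
    lphi I a b = lw I a b x + 1 / 2 * lphi (I.filter fun u => x ∉ b u) (fun u => (a u).erase x) b
      + 1 / 2 * lphi (I.filter fun u => x ∉ a u) a (fun u => (b u).erase x) := by
  have hw : lw I a b x = ∑ u ∈ I, if x = u then (4 : ℝ) / 2 ^ ((a u).card + (b u).card) else 0 := by
    rw [lw, sum_ite_eq]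
  unfold lphi
  rw [hw, sum_filter, sum_filter, mul_sum, mul_sum, ← sum_add_distrib, ← sum_add_distrib]
  refine sum_congr rfl fun u hu => ?_
  have hm := h.mem hu
  by_cases hxu : x = u
  · subst hxu
    rw [if_pos rfl, if_neg (by simpa using hm.2), if_neg (by simpa using hm.1)]
    ring
  · rw [if_neg hxu]
    by_cases hxa : x ∈ a u
    · have hxb : x ∉ b u := by
        intro hxb
        have h1 : x ∈ a u ∩ b u := mem_inter.2 ⟨hxa, hxb⟩
        rw [h.tight u hu, mem_singleton] at h1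
        exact hxu h1
      rw [if_pos hxb, if_neg (by simpa using hxa), card_erase_of_mem hxa]
      have h2 : (a u).card + (b u).card = ((a u).card - 1 + (b u).card) + 1 := by
        have := card_pos.2 ⟨x, hxa⟩
        omega
      rw [h2, pow_succ]
      field_simp
      ring
    · by_cases hxb : x ∈ b u
      · rw [if_neg (by simpa using hxb), if_pos hxa, card_erase_of_mem hxb]
        have h2 : (a u).card + (b u).card = ((a u).card + ((b u).card - 1)) + 1 := by
          have := card_pos.2 ⟨x, hxb⟩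
          omega
        rw [h2, pow_succ]
        field_simp
        ring
      · rw [if_pos hxb, if_pos hxa]
        beta_reduce
        rw [erase_eq_of_notMem hxa, erase_eq_of_notMem hxb]
        ring

private theorem lphi_zero {X : Finset V} {A B : Finset (Finset V)} {I : Finset V}
    {a b : V → Finset V} (h : LSt X A B I a b) (h0 : ∅ ∈ A) : lphi I a b = 0 := by
  refine sum_eq_zero fun u hu => ?_
  obtain ⟨y, hy⟩ := h.cross ∅ h0 (b u) (h.memB u hu)
  simp at hy

private theorem lw_le {X : Finset V} {A B : Finset (Finset V)} {I : Finset V}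
    {a b : V → Finset V} (h : LSt X A B I a b) {r s : ℕ} (hr : ∀ t ∈ A, r ≤ t.card)
    (hs : ∀ t ∈ B, s ≤ t.card) (x : V) : lw I a b x ≤ 4 / 2 ^ (r + s) := by
  unfold lw
  split_ifs with hx
  · refine div_le_div_of_nonneg_left (by norm_num) (by positivity) ?_
    refine pow_le_pow_right₀ (by norm_num) ?_
    exact add_le_add (hr _ (h.memA x hx)) (hs _ (h.memB x hx))
  · positivity

/-- Lemma M. -/
private theorem lemM (N : ℕ)
    (H : ∀ (X : Finset V) (A B : Finset (Finset V)) (I : Finset V) (a b : V → Finset V),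
      X.card < N → LSt X A B I a b → lphi I a b ≤ 5 / 4) (s : ℕ) : ∀ (r : ℕ)
    (X : Finset V) (A B : Finset (Finset V)) (I : Finset V) (a b : V → Finset V),
      X.card ≤ N → LSt X A B I a b → (∃ A0 ∈ A, A0.card = r) → (∀ t ∈ A, r ≤ t.card) →
      (∀ t ∈ B, s ≤ t.card) →
      lphi I a b ≤ r * (4 / 2 ^ (r + s)) + (1 - (1 / 2) ^ r) * (5 / 4) := by
  intro r
  induction r with
  | zero =>
    intro X A B I a b _ h ⟨A0, hA0, hc⟩ _ _
    rw [card_eq_zero] at hc
    subst hc
    rw [lphi_zero h hA0]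
    norm_num
  | succ r ih =>
    intro X A B I a b hX h ⟨A0, hA0, hc⟩ hr hs
    obtain ⟨x, hx⟩ : A0.Nonempty := card_pos.1 (by omega)
    have hxX : x ∈ X := h.subA A0 hA0 hx
    have hcX : (X.erase x).card < N := by
      rw [card_erase_of_mem hxX]
      have := card_pos.2 ⟨x, hxX⟩
      omega
    have h1 := ih _ _ _ _ _ _ hcX.le (h.red x)
      ⟨A0.erase x, mem_image_of_mem _ hA0, by rw [card_erase_of_mem hx, hc]; rfl⟩
      (fun t ht => by
        obtain ⟨t', ht', rfl⟩ := mem_image.1 ht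
        have h2 := hr t' ht'
        have h3 := pred_card_le_card_erase (s := t') (a := x)
        omega)
      (fun t ht => hs t (mem_filter.1 ht).1)
    have h2 := H _ _ _ _ _ _ hcX (h.blue x)
    have h3 := lw_le h hr hs x
    rw [lphi_split h x]
    have h4 : (4 : ℝ) / 2 ^ (r + s) = 2 * (4 / 2 ^ (r + 1 + s)) := by
      rw [add_right_comm, pow_succ]
      field_simp
    rw [h4] at h1
    have h5 : ((1 : ℝ) / 2) ^ (r + 1) = 1 / 2 * (1 / 2) ^ r := by rw [pow_succ]; ring
    rw [h5]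
    push_cast
    nlinarith

private theorem part_a (N : ℕ)
    (H : ∀ (X : Finset V) (A B : Finset (Finset V)) (I : Finset V) (a b : V → Finset V),
      X.card < N → LSt X A B I a b → lphi I a b ≤ 5 / 4)
    (H' : ∀ (X : Finset V) (A B : Finset (Finset V)) (I : Finset V) (a b : V → Finset V),
      X.card < N → LSt X A B I a b → ((∃ t ∈ A, t.card ≤ 1) ∨ ∃ t ∈ B, t.card ≤ 1) →
        lphi I a b ≤ 1)
    (X : Finset V) (A B : Finset (Finset V)) (I : Finset V) (a b : V → Finset V)
    (hX : X.card = N) (h : LSt X A B I a b) (h1 : ∃ t ∈ A, t.card ≤ 1) : lphi I a b ≤ 1 := by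
  obtain ⟨A0, hA0, hc⟩ := h1
  rcases Nat.le_one_iff_eq_zero_or_eq_one.1 hc with hc | hc
  · rw [card_eq_zero] at hc
    subst hc
    rw [lphi_zero h hA0]; norm_num
  · obtain ⟨y, rfl⟩ := card_eq_one.1 hc
    have hyB : ∀ t ∈ B, y ∈ t := by
      intro t ht
      obtain ⟨z, hz⟩ := h.cross _ hA0 t ht
      rw [mem_inter, mem_singleton] at hz
      rw [← hz.1]; exact hz.2
    have hyX : y ∈ X := h.subA _ hA0 (mem_singleton_self y)
    have hcX : (X.erase y).card < N := by
      rw [card_erase_of_mem hyX]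
      have := card_pos.2 ⟨y, hyX⟩
      omega
    have hred : lphi (I.filter fun u => y ∉ b u) (fun u => (a u).erase y) b = 0 := by
      refine sum_eq_zero fun u hu => ?_
      obtain ⟨hu1, hu2⟩ := mem_filter.1 hu
      exact absurd (hyB _ (h.memB u hu1)) hu2
    have hA1 : ∀ t ∈ A, t.card = 0 ∨ 1 ≤ t.card := fun t _ => by omega
    by_cases h0 : ∅ ∈ A
    · rw [lphi_zero h h0]; norm_num
    have hA1 : ∀ t ∈ A, 1 ≤ t.card := by
      intro t ht
      rw [Nat.one_le_iff_ne_zero, Ne, card_eq_zero]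
      rintro rfl
      exact h0 ht
    rw [lphi_split h y, hred]
    by_cases hB1 : ∃ t ∈ B, t.card ≤ 1
    · obtain ⟨B0, hB0, hcB⟩ := hB1
      have hB0y : B0 = {y} := by
        refine (eq_of_subset_of_card_le (singleton_subset_iff.2 (hyB B0 hB0)) ?_).symm
        rwa [card_singleton]
      subst hB0y
      have hyA : ∀ t ∈ A, y ∈ t := by
        intro t ht
        obtain ⟨z, hz⟩ := h.cross t ht _ hB0
        rw [mem_inter, mem_singleton] at hz
        rw [← hz.2]; exact hz.1
      have hblue : lphi (I.filter fun u => y ∉ a u) a (fun u => (b u).erase y) = 0 := by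
        refine sum_eq_zero fun u hu => ?_
        obtain ⟨hu1, hu2⟩ := mem_filter.1 hu
        exact absurd (hyA _ (h.memA u hu1)) hu2
      rw [hblue]
      have h3 := lw_le h hA1 (s := 1) (fun t ht => card_pos.2 ⟨y, hyB t ht⟩) y
      norm_num at h3 ⊢
      exact h3
    · push Not at hB1
      by_cases hB2 : ∃ t ∈ B, t.card ≤ 2
      · obtain ⟨B0, hB0, hcB⟩ := hB2
        have h3 := lw_le h hA1 (s := 2) (fun t ht => hB1 t ht) y
        have h4 := H' _ _ _ _ _ _ hcX (h.blue y) (Or.inr ⟨B0.erase y, mem_image_of_mem _ hB0, by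
          rw [card_erase_of_mem (hyB B0 hB0)]; omega⟩)
        norm_num at h3 ⊢
        linarith
      · push Not at hB2
        have h3 := lw_le h hA1 (s := 3) (fun t ht => hB2 t ht) y
        have h4 := H _ _ _ _ _ _ hcX (h.blue y)
        norm_num at h3 ⊢
        linarith

private theorem part_b (N : ℕ)
    (H : ∀ (X : Finset V) (A B : Finset (Finset V)) (I : Finset V) (a b : V → Finset V),
      X.card < N → LSt X A B I a b → lphi I a b ≤ 5 / 4)
    (H' : ∀ (X : Finset V) (A B : Finset (Finset V)) (I : Finset V) (a b : V → Finset V),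
      X.card < N → LSt X A B I a b → ((∃ t ∈ A, t.card ≤ 1) ∨ ∃ t ∈ B, t.card ≤ 1) →
        lphi I a b ≤ 1)
    (X : Finset V) (A B : Finset (Finset V)) (I : Finset V) (a b : V → Finset V)
    (hX : X.card = N) (h : LSt X A B I a b) (hA : ∀ t ∈ A, 2 ≤ t.card)
    (hB : ∀ t ∈ B, 2 ≤ t.card) {r s : ℕ} (hrs : r ≤ s) {A0 B0 : Finset V} (hA0 : A0 ∈ A)
    (hB0 : B0 ∈ B) (hcA : A0.card = r) (hcB : B0.card = s) (hr : ∀ t ∈ A, r ≤ t.card)
    (hs : ∀ t ∈ B, s ≤ t.card) : lphi I a b ≤ 5 / 4 := by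
  have hr2 : 2 ≤ r := hcA ▸ hA A0 hA0
  have hcX : ∀ x ∈ X, (X.erase x).card < N := by
    intro x hxX
    rw [card_erase_of_mem hxX]
    have := card_pos.2 ⟨x, hxX⟩
    omega
  rcases Nat.lt_or_ge r 3 with hr3 | hr3
  · have hr' : r = 2 := by omega
    subst hr'
    rcases Nat.lt_or_ge s 3 with hs3 | hs3
    · have hs' : s = 2 := by omega
      subst hs'
      obtain ⟨x, hx⟩ := h.cross A0 hA0 B0 hB0
      obtain ⟨hxA, hxB⟩ := mem_inter.1 hx
      have hxX := h.subA A0 hA0 hxA
      have h3 := lw_le h hr hs x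
      have h4 := H' _ _ _ _ _ _ (hcX x hxX) (h.red x) (Or.inl ⟨A0.erase x,
        mem_image_of_mem _ hA0, by rw [card_erase_of_mem hxA, hcA]⟩)
      have h5 := H' _ _ _ _ _ _ (hcX x hxX) (h.blue x) (Or.inr ⟨B0.erase x,
        mem_image_of_mem _ hB0, by rw [card_erase_of_mem hxB, hcB]⟩)
      rw [lphi_split h x]
      norm_num at h3
      linarith
    · obtain ⟨x, hxA⟩ : A0.Nonempty := card_pos.1 (by omega)
      have hxX := h.subA A0 hA0 hxA
      have h3 := lw_le h hr (s := 3) (fun t ht => hs3.trans (hs t ht)) x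
      have h4 := H' _ _ _ _ _ _ (hcX x hxX) (h.red x) (Or.inl ⟨A0.erase x,
        mem_image_of_mem _ hA0, by rw [card_erase_of_mem hxA, hcA]⟩)
      have h5 := H _ _ _ _ _ _ (hcX x hxX) (h.blue x)
      rw [lphi_split h x]
      norm_num at h3
      linarith
  · rcases Nat.lt_or_ge s 4 with hs4 | hs4
    · have hs' : s = 3 := by omega
      have hr' : r = 3 := by omega
      subst hs' hr'
      obtain ⟨x, hx⟩ := h.cross A0 hA0 B0 hB0
      obtain ⟨hxA, hxB⟩ := mem_inter.1 hx
      have hxX := h.subA A0 hA0 hxA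
      have h3 := lw_le h hr hs x
      have h4 := lemM N H 3 2 _ _ _ _ _ _ (hcX x hxX).le (h.red x) ⟨A0.erase x,
        mem_image_of_mem _ hA0, by rw [card_erase_of_mem hxA, hcA]⟩
        (fun t ht => by
          obtain ⟨t', ht', rfl⟩ := mem_image.1 ht
          have h2 := hr t' ht'
          have h3 := pred_card_le_card_erase (s := t') (a := x)
          omega)
        (fun t ht => hs t (mem_filter.1 ht).1)
      have h5 := lemM N H 3 2 _ _ _ _ _ _ (hcX x hxX).le (h.blue x).swap ⟨B0.erase x,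
        mem_image_of_mem _ hB0, by rw [card_erase_of_mem hxB, hcB]⟩
        (fun t ht => by
          obtain ⟨t', ht', rfl⟩ := mem_image.1 ht
          have h2 := hs t' ht'
          have h3 := pred_card_le_card_erase (s := t') (a := x)
          omega)
        (fun t ht => hr t (mem_filter.1 ht).1)
      rw [lphi_swap] at h5
      rw [lphi_split h x]
      norm_num at h3 h4 h5
      linarith
    · have h4 := lemM N H s r X A B I a b hX.le h ⟨A0, hA0, hcA⟩ hr hs
      refine h4.trans ?_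
      have h6 : (4 * r : ℝ) ≤ 5 / 4 * 2 ^ s := by
        rcases Nat.lt_or_ge r 4 with hr4 | hr4
        · have hr' : r = 3 := by omega
          subst hr'
          have h7 : (2 : ℝ) ^ 4 ≤ 2 ^ s := pow_le_pow_right₀ (by norm_num) hs4
          norm_num at h7 ⊢
          linarith
        · have h7 : 4 * r ≤ 2 ^ r := by
            clear * - hr4
            induction r, hr4 using Nat.le_induction with
            | base => norm_num
            | succ n hn ih => rw [pow_succ]; omega
          have h8 : 2 ^ r ≤ 2 ^ s := Nat.pow_le_pow_right (by norm_num) hrs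
          have h9 : ((4 * r : ℕ) : ℝ) ≤ ((2 ^ s : ℕ) : ℝ) := by exact_mod_cast h7.trans h8
          push_cast at h9
          have h10 : (0 : ℝ) < 2 ^ s := by positivity
          linarith
      have h11 : (r : ℝ) * (4 / 2 ^ (r + s)) ≤ (1 / 2) ^ r * (5 / 4) := by
        rw [pow_add, one_div, inv_pow]
        have h12 : (0 : ℝ) < 2 ^ r := by positivity
        have h13 : (0 : ℝ) < 2 ^ s := by positivity
        rw [mul_div_assoc', div_le_iff₀ (by positivity)]
        have h14 : ((2:ℝ) ^ r)⁻¹ * (5 / 4) * (2 ^ r * 2 ^ s) = 5 / 4 * 2 ^ s := by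
          field_simp
        rw [h14]
        linarith
      linarith

private theorem main_aux : ∀ (N : ℕ) (X : Finset V) (A B : Finset (Finset V)) (I : Finset V)
    (a b : V → Finset V), X.card = N → LSt X A B I a b →
      (((∃ t ∈ A, t.card ≤ 1) ∨ ∃ t ∈ B, t.card ≤ 1) → lphi I a b ≤ 1) ∧ lphi I a b ≤ 5 / 4 := by
  intro N
  induction N using Nat.strong_induction_on with
  | _ N IH =>
    have H : ∀ (X : Finset V) (A B : Finset (Finset V)) (I : Finset V) (a b : V → Finset V),
      X.card < N → LSt X A B I a b → lphi I a b ≤ 5 / 4 :=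
      fun X A B I a b hX h => (IH X.card hX X A B I a b rfl h).2
    have H' : ∀ (X : Finset V) (A B : Finset (Finset V)) (I : Finset V) (a b : V → Finset V),
      X.card < N → LSt X A B I a b → ((∃ t ∈ A, t.card ≤ 1) ∨ ∃ t ∈ B, t.card ≤ 1) →
        lphi I a b ≤ 1 := fun X A B I a b hX h h' => (IH X.card hX X A B I a b rfl h).1 h'
    intro X A B I a b hX h
    have ha : ((∃ t ∈ A, t.card ≤ 1) ∨ ∃ t ∈ B, t.card ≤ 1) → lphi I a b ≤ 1 := by
      rintro (h1 | h1)
      · exact part_a N H H' X A B I a b hX h h1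
      · rw [lphi_swap]
        exact part_a N H H' X B A I b a hX h.swap h1
    refine ⟨ha, ?_⟩
    by_cases h1 : (∃ t ∈ A, t.card ≤ 1) ∨ ∃ t ∈ B, t.card ≤ 1
    · exact (ha h1).trans (by norm_num)
    · push Not at h1
      obtain ⟨hA, hB⟩ := h1
      rcases I.eq_empty_or_nonempty with hI | ⟨u, hu⟩
      · subst hI
        unfold lphi
        rw [sum_empty]; norm_num
      · obtain ⟨A0, hA0, hr⟩ := exists_min_image A card ⟨_, h.memA u hu⟩
        obtain ⟨B0, hB0, hs⟩ := exists_min_image B card ⟨_, h.memB u hu⟩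
        rcases le_total A0.card B0.card with hle | hle
        · exact part_b N H H' X A B I a b hX h hA hB hle hA0 hB0 rfl rfl hr hs
        · rw [lphi_swap]
          exact part_b N H H' X B A I b a hX h.swap hB hA hle hB0 hA0 rfl rfl hs hr

end Local

theorem local_lemma {V ι : Type*} [DecidableEq V] (S : Finset ι) (a b : ι → Finset V) (u : ι → V)
    (hinj : ∀ i ∈ S, ∀ j ∈ S, u i = u j → i = j)
    (htight : ∀ i ∈ S, a i ∩ b i = {u i})
    (hcross : ∀ i ∈ S, ∀ j ∈ S, (a i ∩ b j).Nonempty) :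
    ∑ i ∈ S, (4 : ℝ) / 2 ^ ((a i).card + (b i).card) ≤ 5 / 4 := by
  classical
  rcases S.eq_empty_or_nonempty with hS | ⟨i0, hi0⟩
  · subst hS; rw [sum_empty]; norm_num
  · have : Nonempty ι := ⟨i0⟩
    have hinj' : Set.InjOn u (S : Set ι) := fun i hi j hj hij => hinj i hi j hj hij
    let g : V → ι := Function.invFunOn u (S : Set ι)
    have hg : ∀ i ∈ S, g (u i) = i := fun i hi => hinj'.leftInvOn_invFunOn hi
    have h : LSt (S.biUnion a ∪ S.biUnion b) (S.image a) (S.image b) (S.image u)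
        (fun v => a (g v)) (fun v => b (g v)) := by
      constructor
      · intro s hs
        obtain ⟨i, hi, rfl⟩ := mem_image.1 hs
        exact (subset_biUnion_of_mem a hi).trans subset_union_left
      · intro s hs
        obtain ⟨i, hi, rfl⟩ := mem_image.1 hs
        exact (subset_biUnion_of_mem b hi).trans subset_union_right
      · intro s hs t ht
        obtain ⟨i, hi, rfl⟩ := mem_image.1 hs
        obtain ⟨j, hj, rfl⟩ := mem_image.1 ht
        exact hcross i hi j hj
      · intro v hv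
        obtain ⟨i, hi, rfl⟩ := mem_image.1 hv
        rw [hg i hi]
        exact mem_image_of_mem _ hi
      · intro v hv
        obtain ⟨i, hi, rfl⟩ := mem_image.1 hv
        rw [hg i hi]
        exact mem_image_of_mem _ hi
      · intro v hv
        obtain ⟨i, hi, rfl⟩ := mem_image.1 hv
        rw [hg i hi]
        exact htight i hi
    have h1 := (main_aux _ _ _ _ _ _ _ rfl h).2
    unfold lphi at h1
    rw [sum_image hinj'] at h1
    refine le_trans (le_of_eq ?_) h1
    refine sum_congr rfl fun i hi => ?_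
    beta_reduce
    rw [hg i hi]

end Pool.Agent.Lib.MP_87840f_co
end

section

/-!
# Swap lemma
-/

open Finset

namespace Pool.Agent.Lib.MP_87840f_co

theorem swap_bound {V : Type*} [Fintype V] [DecidableEq V] (A B C : Finset V) (y : V)
    (hyA : y ∉ A) (hyC : y ∉ C) (hAC : Disjoint A C) (hyB : y ∈ B) :
    ((before A B).filter (fun f => ∀ c ∈ C, f y < f c)).card * (C.card + 1) ≤
      (before A B).card := by
  classical
  set P := (before A B).filter (fun f => ∀ c ∈ C, f y < f c) with hP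
  have hPm : ∀ f ∈ P, (∀ a ∈ A, ∀ b ∈ B, f a < f b) ∧ ∀ c ∈ C, f y < f c := by
    intro f hf
    rw [hP, mem_filter, mem_before] at hf
    exact hf
  have hinj : ∀ c : V, Function.Injective
      (fun f : V ≃ Fin (Fintype.card V) => (Equiv.swap y c).trans f) := by
    intro c f g h
    ext v
    have := congrArg (fun e : V ≃ Fin (Fintype.card V) => e (Equiv.swap y c v)) h
    simpa using congrArg Fin.val this
  have hmem : ∀ c ∈ insert y C, ∀ f ∈ P, (Equiv.swap y c).trans f ∈ before A B := by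
    intro c hc f hf
    obtain ⟨h1, h2⟩ := hPm f hf
    rw [mem_before]
    intro a ha b hb
    have hay : a ≠ y := fun h => hyA (h ▸ ha)
    have hac : a ≠ c := by
      rintro rfl
      rcases mem_insert.1 hc with h | h
      · exact hay h
      · exact disjoint_left.1 hAC ha h
    simp only [Equiv.trans_apply]
    rw [Equiv.swap_apply_of_ne_of_ne hay hac]
    have hcy : f a < f c := by
      rcases mem_insert.1 hc with h | h
      · rw [h]; exact h1 a ha y hyB
      · exact (h1 a ha y hyB).trans (h2 c h)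
    by_cases hby : b = y
    · subst hby
      rw [Equiv.swap_apply_left]
      exact hcy
    · by_cases hbc : b = c
      · subst hbc
        rw [Equiv.swap_apply_right]
        exact h1 a ha y hyB
      · rw [Equiv.swap_apply_of_ne_of_ne hby hbc]
        exact h1 a ha b hb
  have hmin : ∀ c ∈ insert y C, ∀ f ∈ P, ∀ c' ∈ insert y C, c' ≠ c →
      ((Equiv.swap y c).trans f) c < ((Equiv.swap y c).trans f) c' := by
    intro c hc f hf c' hc' hne
    obtain ⟨h1, h2⟩ := hPm f hf
    simp only [Equiv.trans_apply, Equiv.swap_apply_right]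
    by_cases hcy' : c' = y
    · subst hcy'
      rw [Equiv.swap_apply_left]
      rcases mem_insert.1 hc with h | h
      · exact absurd h.symm hne
      · exact h2 c h
    · rw [Equiv.swap_apply_of_ne_of_ne hcy' hne]
      rcases mem_insert.1 hc' with h | h
      · exact absurd h hcy'
      · exact h2 c' h
  have hdisj : ∀ c ∈ insert y C, ∀ c' ∈ insert y C, c ≠ c' →
      Disjoint (P.image fun f => (Equiv.swap y c).trans f)
        (P.image fun f => (Equiv.swap y c').trans f) := by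
    intro c hc c' hc' hne
    rw [disjoint_left]
    intro g hg hg'
    obtain ⟨f, hf, rfl⟩ := mem_image.1 hg
    obtain ⟨f', hf', he⟩ := mem_image.1 hg'
    have h1 := hmin c hc f hf c' hc' hne.symm
    have h2 := hmin c' hc' f' hf' c hc hne
    rw [he] at h2
    exact lt_asymm h1 h2
  calc P.card * (C.card + 1)
      = ∑ c ∈ insert y C, (P.image fun f => (Equiv.swap y c).trans f).card := by
        rw [sum_congr rfl (fun c _ => card_image_of_injective P (hinj c)), sum_const,
          card_insert_of_notMem hyC, smul_eq_mul, mul_comm]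
    _ = ((insert y C).biUnion fun c => P.image fun f => (Equiv.swap y c).trans f).card :=
        (card_biUnion hdisj).symm
    _ ≤ (before A B).card := by
        apply card_le_card
        intro g hg
        obtain ⟨c, hc, hg⟩ := mem_biUnion.1 hg
        obtain ⟨f, hf, rfl⟩ := mem_image.1 hg
        exact hmem c hc f hf

theorem swap_bound_rev {V : Type*} [Fintype V] [DecidableEq V] (A B C : Finset V) (y : V)
    (hyA : y ∉ A) (hyC : y ∉ C) (hAC : Disjoint A C) (hyB : y ∈ B) :
    ((before B A).filter (fun f => ∀ c ∈ C, f c < f y)).card * (C.card + 1) ≤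
      (before B A).card := by
  have h := swap_bound A B C y hyA hyC hAC hyB
  have h1 : (before B A).card = (before A B).card := by
    refine card_equiv ((Equiv.refl V).equivCongr Fin.revPerm) fun f => ?_
    simp only [mem_before]
    constructor
    · intro hf a ha b hb
      simpa using hf b hb a ha
    · intro hf b hb a ha
      simpa using hf a ha b hb
  have h2 : ((before B A).filter (fun f => ∀ c ∈ C, f c < f y)).card =
      ((before A B).filter (fun f => ∀ c ∈ C, f y < f c)).card := by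
    refine card_equiv ((Equiv.refl V).equivCongr Fin.revPerm) fun f => ?_
    simp only [mem_filter, mem_before]
    constructor
    · rintro ⟨hf, hc⟩
      exact ⟨fun a ha b hb => by simpa using hf b hb a ha, fun c hc' => by simpa using hc c hc'⟩
    · rintro ⟨hf, hc⟩
      exact ⟨fun b hb a ha => by simpa using hf a ha b hb, fun c hc' => by simpa using hc c hc'⟩
  rw [h1, h2]
  exact h

end Pool.Agent.Lib.MP_87840f_co
end

section

/-!
# MP_87840f_co: main counting (J6)
-/

set_option linter.unusedSectionVars false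

open Finset

namespace Pool.Agent.Lib.MP_87840f_co

section count

variable {V : Type*} [Fintype V] [DecidableEq V]

/-- First set of an oriented pair. -/
def mcP (A B : V → Finset V) (i : V × Bool) : Finset V := if i.2 then A i.1 else B i.1

/-- Second set of an oriented pair. -/
def mcQ (A B : V → Finset V) (i : V × Bool) : Finset V := if i.2 then B i.1 else A i.1

/-- The event of an oriented pair. -/
def mcE (U : Finset V) (A B : V → Finset V) (i : V × Bool) : Finset (V ≃ Fin (Fintype.card V)) :=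
  before (mcP A B i \ U) (mcQ A B i \ U)

/-- The oriented pairs in half conflict with `i`. -/
def mcH (U : Finset V) (A B : V → Finset V) (i : V × Bool) : Finset (V × Bool) :=
  (U ×ˢ (univ : Finset Bool)).filter (fun j => j.1 ≠ i.1 ∧
    ¬ ((mcP A B i \ U) ∩ (mcQ A B j \ U) = ∅ ↔ (mcP A B j \ U) ∩ (mcQ A B i \ U) = ∅))

/-- The hypotheses, for oriented pairs. -/
structure MC (n k : ℕ) (U : Finset V) (A B : V → Finset V) : Prop where
  cP : ∀ i : V × Bool, i.1 ∈ U → (mcP A B i).card = n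
  cQ : ∀ i : V × Bool, i.1 ∈ U → (mcQ A B i).card = n
  tight : ∀ i : V × Bool, i.1 ∈ U → mcP A B i ∩ mcQ A B i = {i.1}
  cross : ∀ i j : V × Bool, i.1 ∈ U → j.1 ∈ U → (mcP A B i ∩ mcQ A B j).Nonempty
  kP : ∀ i : V × Bool, i.1 ∈ U → (mcP A B i ∩ U).card ≤ k
  kQ : ∀ i : V × Bool, i.1 ∈ U → (mcQ A B i ∩ U).card ≤ k
  kn : k < n

variable {n k : ℕ} {U : Finset V} {A B : V → Finset V}

theorem MC.dis (h : MC n k U A B) {i : V × Bool} (hi : i.1 ∈ U) {x : V} (h1 : x ∈ mcP A B i \ U)
    (h2 : x ∈ mcQ A B i \ U) : False := by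
  rw [mem_sdiff] at h1 h2
  have h3 : x ∈ mcP A B i ∩ mcQ A B i := mem_inter.2 ⟨h1.1, h2.1⟩
  rw [h.tight i hi, mem_singleton] at h3
  exact h1.2 (h3 ▸ hi)

theorem MC.cP' (h : MC n k U A B) {i : V × Bool} (hi : i.1 ∈ U) :
    (mcP A B i \ U).card = n - (mcP A B i ∩ U).card := by
  have h1 := card_sdiff_add_card_inter (mcP A B i) U
  rw [h.cP i hi] at h1
  omega

theorem MC.cQ' (h : MC n k U A B) {i : V × Bool} (hi : i.1 ∈ U) :
    (mcQ A B i \ U).card = n - (mcQ A B i ∩ U).card := by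
  have h1 := card_sdiff_add_card_inter (mcQ A B i) U
  rw [h.cQ i hi] at h1
  omega

/-- A half conflict has small probability. -/
theorem MC.half (h : MC n k U A B) {i j : V × Bool} (hi : i.1 ∈ U) (hj : j ∈ mcH U A B i)
    (S : Finset (V ≃ Fin (Fintype.card V))) (hS : ∀ f ∈ S, f ∈ mcE U A B i ∧ f ∈ mcE U A B j) :
    S.card * (n - k + 1) ≤ (mcE U A B i).card := by
  unfold mcH at hj
  rw [mem_filter, mem_product] at hj
  obtain ⟨⟨hjU, -⟩, -, hnot⟩ := hj
  have hkP := h.kP j hjU
  have hkQ := h.kQ j hjU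
  have hcP := h.cP' hjU
  have hcQ := h.cQ' hjU
  by_cases h1 : (mcP A B i \ U) ∩ (mcQ A B j \ U) = ∅
  · have h2 : (mcP A B j \ U) ∩ (mcQ A B i \ U) ≠ ∅ := fun h2 => hnot ⟨fun _ => h2, fun _ => h1⟩
    obtain ⟨y, hy⟩ := nonempty_iff_ne_empty.2 h2
    rw [mem_inter] at hy
    have hb := swap_bound (mcP A B i \ U) (mcQ A B i \ U) (mcQ A B j \ U) y
      (fun hy' => h.dis hi hy' hy.2) (fun hy' => h.dis hjU hy.1 hy')
      (disjoint_iff_inter_eq_empty.2 h1) hy.2
    refine le_trans ?_ hb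
    refine Nat.mul_le_mul (card_le_card fun f hf => ?_) (by omega)
    obtain ⟨hf1, hf2⟩ := hS f hf
    refine mem_filter.2 ⟨hf1, fun c hc => ?_⟩
    exact (mem_before.1 hf2) y hy.1 c hc
  · have h2 : (mcP A B j \ U) ∩ (mcQ A B i \ U) = ∅ := by
      by_contra h2
      exact hnot ⟨fun h3 => absurd h3 h1, fun h3 => absurd h3 h2⟩
    obtain ⟨y, hy⟩ := nonempty_iff_ne_empty.2 h1
    rw [mem_inter] at hy
    have hb := swap_bound_rev (mcQ A B i \ U) (mcP A B i \ U) (mcP A B j \ U) y
      (fun hy' => h.dis hi hy.1 hy') (fun hy' => h.dis hjU hy' hy.2)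
      (disjoint_iff_inter_eq_empty.2 (by rw [inter_comm]; exact h2)) hy.1
    refine le_trans ?_ hb
    refine Nat.mul_le_mul (card_le_card fun f hf => ?_) (by omega)
    obtain ⟨hf1, hf2⟩ := hS f hf
    refine mem_filter.2 ⟨hf1, fun c hc => ?_⟩
    exact (mem_before.1 hf2) c hc y hy.2

theorem mc_mem_union {i : V × Bool} {z : V} (h : z ∈ mcP A B i ∨ z ∈ mcQ A B i) :
    z ∈ A i.1 ∪ B i.1 := by
  obtain ⟨u, e⟩ := i
  cases e
  · simp only [mcP, mcQ, mem_union] at h ⊢
    rcases h with h | h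
    · right; simpa using h
    · left; simpa using h
  · simp only [mcP, mcQ, mem_union] at h ⊢
    rcases h with h | h
    · left; simpa using h
    · right; simpa using h

theorem MC.cardH (h : MC n k U A B) {D : ℕ}
    (hD : ∀ z ∈ U, (U.filter (fun u => u ≠ z ∧ (z ∈ A u ∨ z ∈ B u))).card ≤ D)
    {i : V × Bool} (hi : i.1 ∈ U) : (mcH U A B i).card ≤ 4 * k * (D + 1) := by
  have hsub : mcH U A B i ⊆ (((A i.1 ∪ B i.1) ∩ U).biUnion
      (fun z => U.filter (fun v => z ∈ A v ∨ z ∈ B v))) ×ˢ (univ : Finset Bool) := by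
    intro j hj
    unfold mcH at hj
    rw [mem_filter, mem_product] at hj
    obtain ⟨⟨hjU, -⟩, -, hnot⟩ := hj
    rw [mem_product]
    refine ⟨?_, mem_univ _⟩
    have key : ∃ z ∈ U, (z ∈ mcP A B i ∨ z ∈ mcQ A B i) ∧ (z ∈ mcP A B j ∨ z ∈ mcQ A B j) := by
      by_cases h1 : (mcP A B i \ U) ∩ (mcQ A B j \ U) = ∅
      · obtain ⟨z, hz⟩ := h.cross i j hi hjU
        rw [mem_inter] at hz
        refine ⟨z, ?_, Or.inl hz.1, Or.inr hz.2⟩
        by_contra hzU
        have : z ∈ (mcP A B i \ U) ∩ (mcQ A B j \ U) :=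
          mem_inter.2 ⟨mem_sdiff.2 ⟨hz.1, hzU⟩, mem_sdiff.2 ⟨hz.2, hzU⟩⟩
        rw [h1] at this
        exact absurd this (notMem_empty _)
      · have h2 : (mcP A B j \ U) ∩ (mcQ A B i \ U) = ∅ := by
          by_contra h2
          exact hnot ⟨fun h3 => absurd h3 h1, fun h3 => absurd h3 h2⟩
        obtain ⟨z, hz⟩ := h.cross j i hjU hi
        rw [mem_inter] at hz
        refine ⟨z, ?_, Or.inr hz.2, Or.inl hz.1⟩
        by_contra hzU
        have : z ∈ (mcP A B j \ U) ∩ (mcQ A B i \ U) :=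
          mem_inter.2 ⟨mem_sdiff.2 ⟨hz.1, hzU⟩, mem_sdiff.2 ⟨hz.2, hzU⟩⟩
        rw [h2] at this
        exact absurd this (notMem_empty _)
    obtain ⟨z, hzU, h1, h2⟩ := key
    rw [mem_biUnion]
    refine ⟨z, mem_inter.2 ⟨mc_mem_union h1, hzU⟩, mem_filter.2 ⟨hjU, ?_⟩⟩
    exact mem_union.1 (mc_mem_union h2)
  have hcard1 : ((A i.1 ∪ B i.1) ∩ U).card ≤ 2 * k := by
    have h1 := h.kP (i.1, true) hi
    have h2 := h.kP (i.1, false) hi
    simp only [mcP] at h1 h2
    rw [union_inter_distrib_right]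
    refine (card_union_le _ _).trans ?_
    simp at h1 h2
    omega
  have hcard2 : ∀ z ∈ (A i.1 ∪ B i.1) ∩ U, (U.filter (fun v => z ∈ A v ∨ z ∈ B v)).card ≤ D + 1 := by
    intro z hz
    have hzU := (mem_inter.1 hz).2
    have hs : U.filter (fun v => z ∈ A v ∨ z ∈ B v) ⊆
        insert z (U.filter (fun u => u ≠ z ∧ (z ∈ A u ∨ z ∈ B u))) := by
      intro v hv
      rw [mem_filter] at hv
      rw [mem_insert, mem_filter]
      by_cases hvz : v = z
      · exact Or.inl hvz
      · exact Or.inr ⟨hv.1, hvz, hv.2⟩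
    exact (card_le_card hs).trans ((card_insert_le _ _).trans (Nat.add_le_add_right (hD z hzU) 1))
  refine (card_le_card hsub).trans ?_
  rw [card_product, card_univ, Fintype.card_bool]
  have h3 : (((A i.1 ∪ B i.1) ∩ U).biUnion (fun z => U.filter (fun v => z ∈ A v ∨ z ∈ B v))).card ≤
      (2 * k) * (D + 1) :=
    (card_biUnion_le_card_mul _ _ _ hcard2).trans (Nat.mul_le_mul_right _ hcard1)
  calc _ ≤ (2 * k) * (D + 1) * 2 := Nat.mul_le_mul_right _ h3
    _ = 4 * k * (D + 1) := by ring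

/-- The numberings for which `i` is chosen. -/
def mcG (U : Finset V) (A B : V → Finset V) (i : V × Bool) : Finset (V ≃ Fin (Fintype.card V)) :=
  (mcE U A B i).filter (fun f => ∀ j ∈ mcH U A B i, f ∉ mcE U A B j)

theorem MC.good (h : MC n k U A B) {D : ℕ}
    (hD : ∀ z ∈ U, (U.filter (fun u => u ≠ z ∧ (z ∈ A u ∨ z ∈ B u))).card ≤ D)
    {i : V × Bool} (hi : i.1 ∈ U) :
    (1 - (4 * k * (D + 1) : ℝ) / (n - k + 1 : ℝ)) * (mcE U A B i).card ≤ (mcG U A B i).card := by
  have hkn : (k : ℝ) < n := by exact_mod_cast h.kn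
  have hpos : (0:ℝ) < n - k + 1 := by linarith
  have h1 : (mcE U A B i).card ≤ (mcG U A B i).card +
      ∑ j ∈ mcH U A B i, ((mcE U A B i).filter (fun f => f ∈ mcE U A B j)).card := by
    have hs : mcE U A B i ⊆ mcG U A B i ∪
        (mcH U A B i).biUnion (fun j => (mcE U A B i).filter (fun f => f ∈ mcE U A B j)) := by
      intro f hf
      rw [mem_union, mem_biUnion]
      by_cases hg : ∀ j ∈ mcH U A B i, f ∉ mcE U A B j
      · exact Or.inl (mem_filter.2 ⟨hf, hg⟩)
      · push Not at hg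
        obtain ⟨j, hj, hfj⟩ := hg
        exact Or.inr ⟨j, hj, mem_filter.2 ⟨hf, hfj⟩⟩
    refine (card_le_card hs).trans ((card_union_le _ _).trans ?_)
    exact Nat.add_le_add_left card_biUnion_le _
  have h2 : ∀ j ∈ mcH U A B i, (((mcE U A B i).filter (fun f => f ∈ mcE U A B j)).card : ℝ) ≤
      (mcE U A B i).card / (n - k + 1 : ℝ) := by
    intro j hj
    have h3 := h.half hi hj _ (fun f hf => mem_filter.1 hf)
    rw [le_div_iff₀ hpos]
    have h4 : (((mcE U A B i).filter (fun f => f ∈ mcE U A B j)).card * (n - k + 1) : ℝ) ≤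
        (mcE U A B i).card := by
      have h5 : ((n - k + 1 : ℕ) : ℝ) = (n - k + 1 : ℝ) := by
        rw [Nat.cast_add, Nat.cast_sub h.kn.le, Nat.cast_one]
      rw [← h5]
      exact_mod_cast h3
    exact h4
  have h3 : (∑ j ∈ mcH U A B i, (((mcE U A B i).filter (fun f => f ∈ mcE U A B j)).card : ℝ)) ≤
      (4 * k * (D + 1) : ℝ) * ((mcE U A B i).card / (n - k + 1 : ℝ)) := by
    refine (sum_le_card_nsmul _ _ _ h2).trans ?_
    rw [nsmul_eq_mul]
    refine mul_le_mul_of_nonneg_right ?_ (by positivity)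
    exact_mod_cast h.cardH hD hi
  have h4 : ((mcE U A B i).card : ℝ) ≤ (mcG U A B i).card +
      ∑ j ∈ mcH U A B i, (((mcE U A B i).filter (fun f => f ∈ mcE U A B j)).card : ℝ) := by
    exact_mod_cast h1
  have h5 : (1 - (4 * k * (D + 1) : ℝ) / (n - k + 1 : ℝ)) * (mcE U A B i).card =
      (mcE U A B i).card - (4 * k * (D + 1) : ℝ) * ((mcE U A B i).card / (n - k + 1 : ℝ)) := by
    ring
  rw [h5]
  linarith

theorem MC.nonempty_P (h : MC n k U A B) {i : V × Bool} (hi : i.1 ∈ U) :
    (mcP A B i \ U).Nonempty := by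
  rw [← card_pos, h.cP' hi]
  have := h.kP i hi
  have := h.kn
  omega

theorem MC.nonempty_Q (h : MC n k U A B) {i : V × Bool} (hi : i.1 ∈ U) :
    (mcQ A B i \ U).Nonempty := by
  rw [← card_pos, h.cQ' hi]
  have := h.kQ i hi
  have := h.kn
  omega

theorem MC.inj (h : MC n k U A B) {f : V ≃ Fin (Fintype.card V)} {i j : V × Bool} (hi : i.1 ∈ U)
    (hfi : f ∈ mcE U A B i) (hfj : f ∈ mcE U A B j) (hij : i.1 = j.1) : i = j := by
  obtain ⟨u, e⟩ := i
  obtain ⟨v, e'⟩ := j
  simp only at hij hi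
  subst hij
  obtain ⟨x, hx⟩ := h.nonempty_P (i := (u, e)) hi
  obtain ⟨y, hy⟩ := h.nonempty_Q (i := (u, e)) hi
  have h1 := (mem_before.1 hfi) x hx y hy
  by_contra hne
  have hee : e' = !e := by
    cases e <;> cases e' <;> simp_all
  have hP : mcP A B (u, e') = mcQ A B (u, e) := by
    rw [hee]; cases e <;> simp [mcP, mcQ]
  have hQ : mcQ A B (u, e') = mcP A B (u, e) := by
    rw [hee]; cases e <;> simp [mcP, mcQ]
  unfold mcE at hfj
  rw [hP, hQ] at hfj
  have h2 := (mem_before.1 hfj) y hy x hx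
  exact absurd (h1.trans h2) (lt_irrefl _)

theorem MC.local (h : MC n k U A B) (f : V ≃ Fin (Fintype.card V)) :
    ∑ i ∈ (U ×ˢ (univ : Finset Bool)).filter (fun i => f ∈ mcG U A B i),
      (4 : ℝ) / 2 ^ ((mcP A B i ∩ U).card + (mcQ A B i ∩ U).card) ≤ 5 / 4 := by
  have hmem : ∀ i ∈ (U ×ˢ (univ : Finset Bool)).filter (fun i => f ∈ mcG U A B i),
      i.1 ∈ U ∧ f ∈ mcE U A B i ∧ ∀ j ∈ mcH U A B i, f ∉ mcE U A B j := by
    intro i hi
    rw [mem_filter, mem_product] at hi
    exact ⟨hi.1.1, (mem_filter.1 hi.2).1, (mem_filter.1 hi.2).2⟩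
  refine local_lemma _ (fun i => mcP A B i ∩ U) (fun i => mcQ A B i ∩ U) (fun i => i.1) ?_ ?_ ?_
  · intro i hi j hj hij
    obtain ⟨hiU, hfi, -⟩ := hmem i hi
    obtain ⟨-, hfj, -⟩ := hmem j hj
    exact h.inj hiU hfi hfj hij
  · intro i hi
    obtain ⟨hiU, -, -⟩ := hmem i hi
    have h1 := h.tight i hiU
    ext x
    simp only [mem_inter, mem_singleton]
    constructor
    · rintro ⟨⟨hx1, -⟩, hx2, -⟩
      have : x ∈ mcP A B i ∩ mcQ A B i := mem_inter.2 ⟨hx1, hx2⟩
      rw [h1, mem_singleton] at this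
      exact this
    · rintro rfl
      have : i.1 ∈ mcP A B i ∩ mcQ A B i := by rw [h1]; exact mem_singleton_self _
      rw [mem_inter] at this
      exact ⟨⟨this.1, hiU⟩, this.2, hiU⟩
  · intro i hi j hj
    obtain ⟨hiU, hfi, hHi⟩ := hmem i hi
    obtain ⟨hjU, hfj, -⟩ := hmem j hj
    by_cases hij : j.1 = i.1
    · have hij' := h.inj hjU hfj hfi hij
      subst hij'
      have h1 := h.tight j hjU
      have : j.1 ∈ mcP A B j ∩ mcQ A B j := by rw [h1]; exact mem_singleton_self _
      rw [mem_inter] at this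
      exact ⟨j.1, mem_inter.2 ⟨mem_inter.2 ⟨this.1, hiU⟩, mem_inter.2 ⟨this.2, hiU⟩⟩⟩
    · have hnH : ¬ j ∈ mcH U A B i := fun hjH => hHi j hjH hfj
      unfold mcH at hnH
      rw [mem_filter, mem_product] at hnH
      have hiff : (mcP A B i \ U) ∩ (mcQ A B j \ U) = ∅ ↔ (mcP A B j \ U) ∩ (mcQ A B i \ U) = ∅ := by
        by_contra hcon
        exact hnH ⟨⟨hjU, mem_univ _⟩, hij, hcon⟩
      have he : (mcP A B i \ U) ∩ (mcQ A B j \ U) = ∅ := by
        by_contra hne
        have hne2 : (mcP A B j \ U) ∩ (mcQ A B i \ U) ≠ ∅ := fun h3 => hne (hiff.2 h3)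
        obtain ⟨x, hx⟩ := nonempty_iff_ne_empty.2 hne
        obtain ⟨y, hy⟩ := nonempty_iff_ne_empty.2 hne2
        rw [mem_inter] at hx hy
        have h1 := (mem_before.1 hfi) x hx.1 y hy.2
        have h2 := (mem_before.1 hfj) y hy.1 x hx.2
        exact absurd (h1.trans h2) (lt_irrefl _)
      obtain ⟨z, hz⟩ := h.cross i j hiU hjU
      rw [mem_inter] at hz
      have hzU : z ∈ U := by
        by_contra hzU
        have : z ∈ (mcP A B i \ U) ∩ (mcQ A B j \ U) :=
          mem_inter.2 ⟨mem_sdiff.2 ⟨hz.1, hzU⟩, mem_sdiff.2 ⟨hz.2, hzU⟩⟩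
        rw [he] at this
        exact absurd this (notMem_empty _)
      exact ⟨z, mem_inter.2 ⟨mem_inter.2 ⟨hz.1, hzU⟩, mem_inter.2 ⟨hz.2, hzU⟩⟩⟩

theorem MC.total (h : MC n k U A B) :
    ∑ i ∈ U ×ˢ (univ : Finset Bool), (4 : ℝ) / 2 ^ ((mcP A B i ∩ U).card + (mcQ A B i ∩ U).card) *
      (mcG U A B i).card ≤ 5 / 4 * (Fintype.card V).factorial := by
  have h1 : ∀ i ∈ U ×ˢ (univ : Finset Bool),
      (4 : ℝ) / 2 ^ ((mcP A B i ∩ U).card + (mcQ A B i ∩ U).card) * (mcG U A B i).card =
      ∑ f : V ≃ Fin (Fintype.card V), if f ∈ mcG U A B i then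
        (4 : ℝ) / 2 ^ ((mcP A B i ∩ U).card + (mcQ A B i ∩ U).card) else 0 := by
    intro i _
    rw [sum_ite_mem, univ_inter, sum_const, nsmul_eq_mul, mul_comm]
  rw [sum_congr rfl h1, sum_comm]
  have h2 : ∀ f ∈ (univ : Finset (V ≃ Fin (Fintype.card V))),
      (∑ i ∈ U ×ˢ (univ : Finset Bool), if f ∈ mcG U A B i then
        (4 : ℝ) / 2 ^ ((mcP A B i ∩ U).card + (mcQ A B i ∩ U).card) else 0) ≤ 5 / 4 := by
    intro f _
    rw [← sum_filter]
    exact h.local f
  refine (sum_le_card_nsmul _ _ _ h2).trans (le_of_eq ?_)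
  rw [nsmul_eq_mul, card_univ, Fintype.card_equiv (Fintype.equivFin V)]
  ring

theorem mc_mk (hA : ∀ u ∈ U, (A u).card = n) (hB : ∀ u ∈ U, (B u).card = n)
    (htight : ∀ u ∈ U, A u ∩ B u = {u})
    (hAA : ∀ u ∈ U, ∀ v ∈ U, (A u ∩ A v).Nonempty)
    (hAB : ∀ u ∈ U, ∀ v ∈ U, (A u ∩ B v).Nonempty)
    (hBB : ∀ u ∈ U, ∀ v ∈ U, (B u ∩ B v).Nonempty)
    (hkA : ∀ u ∈ U, (A u ∩ U).card ≤ k) (hkB : ∀ u ∈ U, (B u ∩ U).card ≤ k) (hkn : k < n) :
    MC n k U A B where
  cP := by
    rintro ⟨u, e⟩ hu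
    cases e
    · exact hB u hu
    · exact hA u hu
  cQ := by
    rintro ⟨u, e⟩ hu
    cases e
    · exact hA u hu
    · exact hB u hu
  tight := by
    rintro ⟨u, e⟩ hu
    cases e
    · show B u ∩ A u = {u}
      rw [inter_comm]; exact htight u hu
    · exact htight u hu
  cross := by
    rintro ⟨u, e⟩ ⟨v, e'⟩ hu hv
    cases e <;> cases e'
    · show (B u ∩ A v).Nonempty
      rw [inter_comm]; exact hAB v hv u hu
    · exact hBB u hu v hv
    · exact hAA u hu v hv
    · exact hAB u hu v hv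
  kP := by
    rintro ⟨u, e⟩ hu
    cases e
    · exact hkB u hu
    · exact hkA u hu
  kQ := by
    rintro ⟨u, e⟩ hu
    cases e
    · exact hkA u hu
    · exact hkB u hu
  kn := hkn

end count

theorem main_count {V : Type*} [Fintype V] [DecidableEq V] (n k D : ℕ) (U : Finset V)
    (A B : V → Finset V)
    (hA : ∀ u ∈ U, (A u).card = n) (hB : ∀ u ∈ U, (B u).card = n)
    (htight : ∀ u ∈ U, A u ∩ B u = {u})
    (hAA : ∀ u ∈ U, ∀ v ∈ U, (A u ∩ A v).Nonempty)
    (hAB : ∀ u ∈ U, ∀ v ∈ U, (A u ∩ B v).Nonempty)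
    (hBB : ∀ u ∈ U, ∀ v ∈ U, (B u ∩ B v).Nonempty)
    (hkA : ∀ u ∈ U, (A u ∩ U).card ≤ k) (hkB : ∀ u ∈ U, (B u ∩ U).card ≤ k) (hkn : k < n)
    (hD : ∀ z ∈ U, (U.filter (fun u => u ≠ z ∧ (z ∈ A u ∨ z ∈ B u))).card ≤ D) :
    (1 - (4 * k * (D + 1) : ℝ) / (n - k + 1 : ℝ)) *
      ∑ u ∈ U, 2 * ((4 : ℝ) / 2 ^ ((A u ∩ U).card + (B u ∩ U).card)) /
        ((2 * n - (A u ∩ U).card - (B u ∩ U).card).choose (n - (A u ∩ U).card) : ℝ) ≤ 5 / 4 := by
  have h := mc_mk hA hB htight hAA hAB hBB hkA hkB hkn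
  set δ : ℝ := (4 * k * (D + 1) : ℝ) / (n - k + 1 : ℝ) with hδ
  have hsum0 : 0 ≤ ∑ u ∈ U, 2 * ((4 : ℝ) / 2 ^ ((A u ∩ U).card + (B u ∩ U).card)) /
        ((2 * n - (A u ∩ U).card - (B u ∩ U).card).choose (n - (A u ∩ U).card) : ℝ) :=
    sum_nonneg fun u _ => by positivity
  rcases le_or_gt (1 - δ) 0 with h0 | h0
  · exact (mul_nonpos_of_nonpos_of_nonneg h0 hsum0).trans (by norm_num)
  have hN : (0:ℝ) < (Fintype.card V).factorial := by exact_mod_cast Nat.factorial_pos _
  -- probabilities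
  have hprob : ∀ i ∈ U ×ˢ (univ : Finset Bool),
      ((Fintype.card V).factorial : ℝ) /
        ((2 * n - (A i.1 ∩ U).card - (B i.1 ∩ U).card).choose (n - (A i.1 ∩ U).card) : ℝ) ≤
        (mcE U A B i).card := by
    intro i hi
    have hiU := (mem_product.1 hi).1
    have h1 := card_before_ge (mcP A B i \ U) (mcQ A B i \ U)
      (disjoint_left.2 fun x hx hx' => h.dis hiU hx hx')
    have hkA' := hkA i.1 hiU
    have hkB' := hkB i.1 hiU
    have h2 : ((mcP A B i \ U).card + (mcQ A B i \ U).card).choose (mcP A B i \ U).card =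
        (2 * n - (A i.1 ∩ U).card - (B i.1 ∩ U).card).choose (n - (A i.1 ∩ U).card) := by
      rw [h.cP' hiU, h.cQ' hiU]
      obtain ⟨u, e⟩ := i
      simp only at hkA' hkB' hiU ⊢
      cases e
      · show ((n - (B u ∩ U).card) + (n - (A u ∩ U).card)).choose (n - (B u ∩ U).card) = _
        rw [show 2 * n - (A u ∩ U).card - (B u ∩ U).card =
          (n - (B u ∩ U).card) + (n - (A u ∩ U).card) by omega]
        exact Nat.choose_symm_add
      · show ((n - (A u ∩ U).card) + (n - (B u ∩ U).card)).choose (n - (A u ∩ U).card) = _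
        congr 1
        omega
    rw [h2] at h1
    have h3 : 0 < (2 * n - (A i.1 ∩ U).card - (B i.1 ∩ U).card).choose (n - (A i.1 ∩ U).card) :=
      Nat.choose_pos (by omega)
    rw [div_le_iff₀ (by exact_mod_cast h3)]
    exact_mod_cast h1
  have hw : ∀ i : V × Bool, (mcP A B i ∩ U).card + (mcQ A B i ∩ U).card =
      (A i.1 ∩ U).card + (B i.1 ∩ U).card := by
    rintro ⟨u, e⟩
    cases e
    · exact add_comm _ _
    · rfl
  have h1 : (1 - δ) * ∑ i ∈ U ×ˢ (univ : Finset Bool),
      (4 : ℝ) / 2 ^ ((A i.1 ∩ U).card + (B i.1 ∩ U).card) * (((Fintype.card V).factorial : ℝ) /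
        ((2 * n - (A i.1 ∩ U).card - (B i.1 ∩ U).card).choose (n - (A i.1 ∩ U).card) : ℝ)) ≤
      5 / 4 * (Fintype.card V).factorial := by
    refine le_trans ?_ h.total
    rw [mul_sum]
    refine sum_le_sum fun i hi => ?_
    have hiU := (mem_product.1 hi).1
    rw [hw i]
    have h2 := h.good hD hiU
    have h3 := hprob i hi
    have h4 : (1 - δ) * (((Fintype.card V).factorial : ℝ) /
        ((2 * n - (A i.1 ∩ U).card - (B i.1 ∩ U).card).choose (n - (A i.1 ∩ U).card) : ℝ)) ≤
        (mcG U A B i).card := (mul_le_mul_of_nonneg_left h3 h0.le).trans h2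
    calc (1 - δ) * ((4 : ℝ) / 2 ^ ((A i.1 ∩ U).card + (B i.1 ∩ U).card) *
          (((Fintype.card V).factorial : ℝ) /
          ((2 * n - (A i.1 ∩ U).card - (B i.1 ∩ U).card).choose (n - (A i.1 ∩ U).card) : ℝ)))
        = (4 : ℝ) / 2 ^ ((A i.1 ∩ U).card + (B i.1 ∩ U).card) * ((1 - δ) *
          (((Fintype.card V).factorial : ℝ) /
          ((2 * n - (A i.1 ∩ U).card - (B i.1 ∩ U).card).choose (n - (A i.1 ∩ U).card) : ℝ))) := by ring
      _ ≤ _ := mul_le_mul_of_nonneg_left h4 (by positivity)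
  have h2 : ∑ i ∈ U ×ˢ (univ : Finset Bool),
      (4 : ℝ) / 2 ^ ((A i.1 ∩ U).card + (B i.1 ∩ U).card) * (((Fintype.card V).factorial : ℝ) /
        ((2 * n - (A i.1 ∩ U).card - (B i.1 ∩ U).card).choose (n - (A i.1 ∩ U).card) : ℝ)) =
      (Fintype.card V).factorial * ∑ u ∈ U, 2 * ((4 : ℝ) / 2 ^ ((A u ∩ U).card + (B u ∩ U).card)) /
        ((2 * n - (A u ∩ U).card - (B u ∩ U).card).choose (n - (A u ∩ U).card) : ℝ) := by
    rw [sum_product, mul_sum]
    refine sum_congr rfl fun u _ => ?_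
    rw [Fintype.sum_bool]
    ring
  rw [h2] at h1
  have h3 : (Fintype.card V).factorial * ((1 - δ) *
      ∑ u ∈ U, 2 * ((4 : ℝ) / 2 ^ ((A u ∩ U).card + (B u ∩ U).card)) /
        ((2 * n - (A u ∩ U).card - (B u ∩ U).card).choose (n - (A u ∩ U).card) : ℝ)) ≤
      (Fintype.card V).factorial * (5 / 4 : ℝ) := by
    linarith
  exact le_of_mul_le_mul_left h3 hN

end Pool.Agent.Lib.MP_87840f_co
end
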