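import Mathlib
import Pool.Agent.Lib.MP_87840f_co.Defs

/-!
# MP_87840f_co: covers of a non 2-colourable clique and tight pairs
-/

open Finset

namespace Pool.Agent.Lib.MP_87840f_co

theorem cover_contains_edge {V : Type*} [DecidableEq V] {n : ℕ} {F : Finset (Finset V)}
    (hc : IsUniformClique n F) (h2 : ¬ ProperlyColourable 2 F) (S : Finset V)
    (hS : ∀ A ∈ F, (S ∩ A).Nonempty) : ∃ A ∈ F, A ⊆ S := by
  by_contra hcon
  apply h2
  refine ⟨fun x => if x ∈ S then 0 else 1, fun A hA => ?_⟩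
  rintro ⟨i, hi⟩
  obtain ⟨x, hx⟩ := hS A hA
  rw [mem_inter] at hx
  have h0 := hi x hx.2
  beta_reduce at h0
  rw [if_pos hx.1] at h0
  apply hcon
  refine ⟨A, hA, fun y hy => ?_⟩
  by_contra hyS
  have h1 := hi y hy
  beta_reduce at h1
  rw [if_neg hyS, ← h0] at h1
  exact absurd h1 (by decide)

theorem exists_tight_pair {V : Type*} [DecidableEq V] {n : ℕ} {F : Finset (Finset V)}
    (hc : IsUniformClique n F) (h2 : ¬ ProperlyColourable 2 F) (u : V)
    (hu : ∃ A ∈ F, u ∈ A) : ∃ A ∈ F, ∃ B ∈ F, A ∩ B = {u} := by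
  obtain ⟨A, hA, huA⟩ := hu
  have hcard := hc.1 A hA
  have hpos : 0 < A.card := card_pos.2 ⟨u, huA⟩
  have hne : ¬ ∀ B ∈ F, ((A.erase u) ∩ B).Nonempty := by
    intro h
    obtain ⟨B, hB, hBS⟩ := cover_contains_edge hc h2 _ h
    have h1 := card_le_card hBS
    rw [card_erase_of_mem huA, hc.1 B hB] at h1
    omega
  push Not at hne
  obtain ⟨B, hB, hBe⟩ := hne
  refine ⟨A, hA, B, hB, ?_⟩
  have hsub : ∀ x ∈ A ∩ B, x = u := by
    intro x hx
    rw [mem_inter] at hx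
    by_contra hxu
    have : x ∈ A.erase u ∩ B := mem_inter.2 ⟨mem_erase.2 ⟨hxu, hx.1⟩, hx.2⟩
    rw [hBe] at this
    simp at this
  obtain ⟨x, hxA, hxB⟩ := hc.2 A hA B hB
  have hx := hsub x (mem_inter.2 ⟨hxA, hxB⟩)
  ext y
  constructor
  · intro hy
    rw [mem_singleton]
    exact hsub y hy
  · intro hy
    rw [mem_singleton] at hy
    rw [hy, ← hx]
    exact mem_inter.2 ⟨hxA, hxB⟩

end Pool.Agent.Lib.MP_87840f_co
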