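import Mathlib

section

/-!
# MP_87840f_co: definitions for the sharp local lemma

`𝒜` and `ℬ` are finite families of finite sets such that every member of `𝒜` meets every member
of `ℬ`. A pair `(A, B)` with `A ∩ B = {x}` is tight at `x`; `wt 𝒜 ℬ x = 4 / 2 ^ (|A| + |B|)` for a
tight pair at `x` with `|A| + |B|` as large as possible (and `0` if there is none). The sharp
local lemma says that the sum `Phi` of all weights is at most `1`.
-/

open Finset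

namespace Pool.Agent.Lib.MP_87840f_co

variable {V : Type*} [DecidableEq V]

/-- Every member of `𝒜` meets every member of `ℬ`. -/
def Cross (𝒜 ℬ : Finset (Finset V)) : Prop := ∀ A ∈ 𝒜, ∀ B ∈ ℬ, (A ∩ B).Nonempty

/-- The pairs that are tight at `x`. -/
def tp (𝒜 ℬ : Finset (Finset V)) (x : V) : Finset (Finset V × Finset V) :=
  (𝒜 ×ˢ ℬ).filter (fun p => p.1 ∩ p.2 = {x})

/-- The largest `|A| + |B|` of a pair tight at `x`. -/
def mx (𝒜 ℬ : Finset (Finset V)) (x : V) : ℕ := (tp 𝒜 ℬ x).sup (fun p => p.1.card + p.2.card)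

/-- The weight of `x`. -/
noncomputable def wt (𝒜 ℬ : Finset (Finset V)) (x : V) : ℝ :=
  if (tp 𝒜 ℬ x).Nonempty then 4 / 2 ^ (mx 𝒜 ℬ x) else 0

/-- The sum of all weights. -/
noncomputable def Phi (𝒜 ℬ : Finset (Finset V)) : ℝ := ∑ x ∈ 𝒜.biUnion id, wt 𝒜 ℬ x

/-- The ground set. -/
def ground (𝒜 ℬ : Finset (Finset V)) : Finset V := 𝒜.biUnion id ∪ ℬ.biUnion id

/-- The members of `𝒜` disjoint from the blue set `L`, with the red set `R` removed. -/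
def res (𝒜 : Finset (Finset V)) (R L : Finset V) : Finset (Finset V) :=
  (𝒜.filter (fun A => Disjoint A L)).image (fun A => A \ R)

end Pool.Agent.Lib.MP_87840f_co
end

section

set_option autoImplicit false

/-!
# MP_87840f_co, K1: basic facts on weights, exposure of colours
-/

open Finset

namespace Pool.Agent.Lib.MP_87840f_co

variable {V : Type*} [DecidableEq V]

theorem Cross.symm {𝒜 ℬ : Finset (Finset V)} (h : Cross 𝒜 ℬ) : Cross ℬ 𝒜 := by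
  intro A hA B hB
  rw [inter_comm]
  exact h B hB A hA

theorem mem_tp {𝒜 ℬ : Finset (Finset V)} {x : V} {p : Finset V × Finset V} :
    p ∈ tp 𝒜 ℬ x ↔ (p.1 ∈ 𝒜 ∧ p.2 ∈ ℬ) ∧ p.1 ∩ p.2 = {x} := by
  rw [tp, mem_filter, mem_product]

theorem le_mx {𝒜 ℬ : Finset (Finset V)} {x : V} {A B : Finset V} (hA : A ∈ 𝒜) (hB : B ∈ ℬ)
    (h : A ∩ B = {x}) : A.card + B.card ≤ mx 𝒜 ℬ x :=
  Finset.le_sup (f := fun p : Finset V × Finset V => p.1.card + p.2.card)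
    (mem_tp.2 ⟨⟨hA, hB⟩, h⟩ : (A, B) ∈ tp 𝒜 ℬ x)

theorem mx_le {𝒜 ℬ : Finset (Finset V)} {x : V} {m : ℕ}
    (h : ∀ A ∈ 𝒜, ∀ B ∈ ℬ, A ∩ B = {x} → A.card + B.card ≤ m) : mx 𝒜 ℬ x ≤ m := by
  refine Finset.sup_le fun p hp => ?_
  obtain ⟨⟨h1, h2⟩, h3⟩ := mem_tp.1 hp
  exact h _ h1 _ h2 h3

theorem wt_nonneg (𝒜 ℬ : Finset (Finset V)) (x : V) : 0 ≤ wt 𝒜 ℬ x := by
  unfold wt
  split_ifs
  · positivity
  · exact le_rfl

theorem wt_eq_of_tight {𝒜 ℬ : Finset (Finset V)} {x : V} {A B : Finset V} (hA : A ∈ 𝒜)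
    (hB : B ∈ ℬ) (h : A ∩ B = {x}) : wt 𝒜 ℬ x = 4 / 2 ^ (mx 𝒜 ℬ x) := by
  unfold wt
  rw [if_pos ⟨(A, B), mem_tp.2 ⟨⟨hA, hB⟩, h⟩⟩]

theorem wt_eq_zero {𝒜 ℬ : Finset (Finset V)} {x : V} (h : ∀ A ∈ 𝒜, ∀ B ∈ ℬ, A ∩ B ≠ {x}) :
    wt 𝒜 ℬ x = 0 := by
  unfold wt
  rw [if_neg]
  rintro ⟨p, hp⟩
  obtain ⟨⟨h1, h2⟩, h3⟩ := mem_tp.1 hp
  exact h _ h1 _ h2 h3

theorem wt_comm (𝒜 ℬ : Finset (Finset V)) (x : V) : wt 𝒜 ℬ x = wt ℬ 𝒜 x := by
  by_cases h : ∃ A ∈ 𝒜, ∃ B ∈ ℬ, A ∩ B = {x}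
  · obtain ⟨A, hA, B, hB, hAB⟩ := h
    rw [wt_eq_of_tight hA hB hAB, wt_eq_of_tight hB hA (by rw [inter_comm]; exact hAB)]
    congr 2
    apply le_antisymm
    · refine mx_le fun A hA B hB hAB => ?_
      rw [add_comm]
      exact le_mx hB hA (by rw [inter_comm]; exact hAB)
    · refine mx_le fun A hA B hB hAB => ?_
      rw [add_comm]
      exact le_mx hB hA (by rw [inter_comm]; exact hAB)
  · push Not at h
    rw [wt_eq_zero h, wt_eq_zero]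
    intro A hA B hB
    rw [inter_comm]
    exact h B hB A hA

theorem wt_le {𝒜 ℬ : Finset (Finset V)} {x : V} {A B : Finset V} (hA : A ∈ 𝒜) (hB : B ∈ ℬ)
    (h : A ∩ B = {x}) : wt 𝒜 ℬ x ≤ 4 / 2 ^ (A.card + B.card) := by
  rw [wt_eq_of_tight hA hB h]
  exact div_le_div_of_nonneg_left (by norm_num) (by positivity)
    (pow_le_pow_right₀ (by norm_num) (le_mx hA hB h))

/-- If the weight is not zero, it is attained. -/
theorem exists_wt_eq {𝒜 ℬ : Finset (Finset V)} {x : V} (h : wt 𝒜 ℬ x ≠ 0) :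
    ∃ A ∈ 𝒜, ∃ B ∈ ℬ, A ∩ B = {x} ∧ wt 𝒜 ℬ x = 4 / 2 ^ (A.card + B.card) := by
  have hne : (tp 𝒜 ℬ x).Nonempty := by
    by_contra hcon
    apply h
    unfold wt
    rw [if_neg hcon]
  obtain ⟨p, hp, hpm⟩ := Finset.exists_mem_eq_sup (tp 𝒜 ℬ x) hne
    (fun p => p.1.card + p.2.card)
  obtain ⟨⟨h1, h2⟩, h3⟩ := mem_tp.1 hp
  refine ⟨p.1, h1, p.2, h2, h3, ?_⟩
  rw [wt_eq_of_tight h1 h2 h3, mx, hpm]

/-- General upper bound from a lower bound on sizes. -/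
theorem wt_le_of_forall {𝒜 ℬ : Finset (Finset V)} {x : V} (m : ℕ)
    (h : ∀ A ∈ 𝒜, ∀ B ∈ ℬ, A ∩ B = {x} → m ≤ A.card + B.card) : wt 𝒜 ℬ x ≤ 4 / 2 ^ m := by
  by_cases h0 : wt 𝒜 ℬ x = 0
  · rw [h0]
    positivity
  · obtain ⟨A, hA, B, hB, hAB, hw⟩ := exists_wt_eq h0
    rw [hw]
    exact div_le_div_of_nonneg_left (by norm_num) (by positivity)
      (pow_le_pow_right₀ (by norm_num) (h A hA B hB hAB))

/-- The weights are powers of two: either at most half of the next one, or equal. -/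
theorem wt_eq_or_le {𝒜 ℬ : Finset (Finset V)} {x : V} (m : ℕ)
    (h : ∀ A ∈ 𝒜, ∀ B ∈ ℬ, A ∩ B = {x} → m ≤ A.card + B.card) :
    (wt 𝒜 ℬ x = 4 / 2 ^ m ∧ (∃ A ∈ 𝒜, ∃ B ∈ ℬ, A ∩ B = {x}) ∧
      ∀ A ∈ 𝒜, ∀ B ∈ ℬ, A ∩ B = {x} → A.card + B.card = m) ∨ wt 𝒜 ℬ x ≤ 4 / 2 ^ (m + 1) := by
  by_cases h1 : ∃ A ∈ 𝒜, ∃ B ∈ ℬ, A ∩ B = {x} ∧ m + 1 ≤ A.card + B.card
  · obtain ⟨A, hA, B, hB, hAB, hm⟩ := h1
    right
    refine (wt_le hA hB hAB).trans ?_
    exact div_le_div_of_nonneg_left (by norm_num) (by positivity)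
      (pow_le_pow_right₀ (by norm_num) hm)
  · push Not at h1
    have h2 : ∀ A ∈ 𝒜, ∀ B ∈ ℬ, A ∩ B = {x} → A.card + B.card = m := by
      intro A hA B hB hAB
      have := h A hA B hB hAB
      have := h1 A hA B hB hAB
      omega
    by_cases h0 : wt 𝒜 ℬ x = 0
    · right
      rw [h0]
      positivity
    · left
      obtain ⟨A, hA, B, hB, hAB, hw⟩ := exists_wt_eq h0
      refine ⟨?_, ⟨A, hA, B, hB, hAB⟩, h2⟩
      rw [hw, h2 A hA B hB hAB]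

theorem wt_eq_zero_of_notMem_ground {𝒜 ℬ : Finset (Finset V)} {x : V}
    (hx : x ∉ 𝒜.biUnion id) : wt 𝒜 ℬ x = 0 := by
  apply wt_eq_zero
  intro A hA B hB hAB
  apply hx
  rw [mem_biUnion]
  refine ⟨A, hA, ?_⟩
  have : x ∈ A ∩ B := by rw [hAB]; exact mem_singleton_self x
  exact (mem_inter.1 this).1

/-- `Phi` as a sum over any set containing the ground set. -/
theorem Phi_eq_sum {𝒜 ℬ : Finset (Finset V)} {X : Finset V} (hX : ground 𝒜 ℬ ⊆ X) :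
    Phi 𝒜 ℬ = ∑ x ∈ X, wt 𝒜 ℬ x := by
  unfold Phi
  apply Finset.sum_subset
  · exact subset_union_left.trans hX
  · intro x _ hx
    exact wt_eq_zero_of_notMem_ground hx

theorem ground_comm (𝒜 ℬ : Finset (Finset V)) : ground 𝒜 ℬ = ground ℬ 𝒜 := by
  unfold ground
  exact union_comm _ _

theorem Phi_comm (𝒜 ℬ : Finset (Finset V)) : Phi 𝒜 ℬ = Phi ℬ 𝒜 := by
  rw [Phi_eq_sum (Subset.refl (ground 𝒜 ℬ)), Phi_eq_sum (X := ground 𝒜 ℬ) (by rw [ground_comm])]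
  exact Finset.sum_congr rfl fun x _ => wt_comm 𝒜 ℬ x

theorem mem_res {𝒜 : Finset (Finset V)} {R L A' : Finset V} :
    A' ∈ res 𝒜 R L ↔ ∃ A ∈ 𝒜, Disjoint A L ∧ A \ R = A' := by
  rw [res, mem_image]
  constructor
  · rintro ⟨A, hA, rfl⟩
    obtain ⟨h1, h2⟩ := mem_filter.1 hA
    exact ⟨A, h1, h2, rfl⟩
  · rintro ⟨A, h1, h2, rfl⟩
    exact ⟨A, mem_filter.2 ⟨h1, h2⟩, rfl⟩

theorem cross_res {𝒜 ℬ : Finset (Finset V)} (h : Cross 𝒜 ℬ) {R L : Finset V}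
    (hRL : Disjoint R L) : Cross (res 𝒜 R L) (res ℬ L R) := by
  intro A' hA' B' hB'
  obtain ⟨A, hA, hAL, rfl⟩ := mem_res.1 hA'
  obtain ⟨B, hB, hBR, rfl⟩ := mem_res.1 hB'
  obtain ⟨x, hx⟩ := h A hA B hB
  obtain ⟨hxA, hxB⟩ := mem_inter.1 hx
  refine ⟨x, mem_inter.2 ⟨mem_sdiff.2 ⟨hxA, ?_⟩, mem_sdiff.2 ⟨hxB, ?_⟩⟩⟩
  · exact Finset.disjoint_left.1 hBR hxB
  · exact Finset.disjoint_left.1 hAL hxA

theorem ground_res (𝒜 ℬ : Finset (Finset V)) (R L : Finset V) :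
    ground (res 𝒜 R L) (res ℬ L R) ⊆ ground 𝒜 ℬ \ (R ∪ L) := by
  intro x hx
  rw [ground, mem_union, mem_biUnion, mem_biUnion] at hx
  rw [mem_sdiff, ground, mem_union, mem_biUnion, mem_biUnion, mem_union]
  rcases hx with ⟨A', hA', hx⟩ | ⟨B', hB', hx⟩
  · obtain ⟨A, hA, hAL, rfl⟩ := mem_res.1 hA'
    obtain ⟨h1, h2⟩ := mem_sdiff.1 hx
    refine ⟨Or.inl ⟨A, hA, h1⟩, ?_⟩
    rintro (h3 | h3)
    · exact h2 h3
    · exact Finset.disjoint_left.1 hAL h1 h3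
  · obtain ⟨B, hB, hBR, rfl⟩ := mem_res.1 hB'
    obtain ⟨h1, h2⟩ := mem_sdiff.1 hx
    refine ⟨Or.inr ⟨B, hB, h1⟩, ?_⟩
    rintro (h3 | h3)
    · exact Finset.disjoint_left.1 hBR h1 h3
    · exact h2 h3

theorem res_res (𝒜 : Finset (Finset V)) {R₁ L₁ R₂ L₂ : Finset V} (h : Disjoint R₁ L₂) :
    res (res 𝒜 R₁ L₁) R₂ L₂ = res 𝒜 (R₁ ∪ R₂) (L₁ ∪ L₂) := by
  have key : ∀ A : Finset V, Disjoint (A \ R₁) L₂ ↔ Disjoint A L₂ := by
    intro A
    rw [Finset.disjoint_left, Finset.disjoint_left]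
    constructor
    · intro h1 x hx hx2
      exact h1 (mem_sdiff.2 ⟨hx, fun h3 => Finset.disjoint_left.1 h h3 hx2⟩) hx2
    · intro h1 x hx
      exact h1 (mem_sdiff.1 hx).1
  have key2 : ∀ A : Finset V, (A \ R₁) \ R₂ = A \ (R₁ ∪ R₂) := by
    intro A
    ext x
    simp only [mem_sdiff, mem_union]
    tauto
  ext A'
  rw [mem_res, mem_res]
  constructor
  · rintro ⟨A1, hA1, hd, rfl⟩
    obtain ⟨A, hA, hAL, rfl⟩ := mem_res.1 hA1
    refine ⟨A, hA, ?_, (key2 A).symm⟩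
    rw [Finset.disjoint_union_right]
    exact ⟨hAL, (key A).1 hd⟩
  · rintro ⟨A, hA, hd, rfl⟩
    rw [Finset.disjoint_union_right] at hd
    exact ⟨A \ R₁, mem_res.2 ⟨A, hA, hd.1, rfl⟩, (key A).2 hd.2, key2 A⟩

/-- the tight pairs of the red state come from tight pairs -/
theorem tight_red {𝒜 ℬ : Finset (Finset V)} {y z : V} {A' B' : Finset V}
    (hA' : A' ∈ res 𝒜 {z} ∅) (hB' : B' ∈ res ℬ ∅ {z}) (h : A' ∩ B' = {y}) :
    ∃ A ∈ 𝒜, ∃ B ∈ ℬ, A ∩ B = {y} ∧ z ∉ B ∧ A' = A \ {z} ∧ B' = B := by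
  obtain ⟨A, hA, -, rfl⟩ := mem_res.1 hA'
  obtain ⟨B, hB, hBz, rfl⟩ := mem_res.1 hB'
  have hz : z ∉ B := by
    rw [Finset.disjoint_singleton_right] at hBz
    exact hBz
  refine ⟨A, hA, B, hB, ?_, hz, rfl, sdiff_empty⟩
  rw [← h]
  ext x
  simp only [mem_inter, mem_sdiff, mem_singleton, notMem_empty, not_false_eq_true, and_true]
  constructor
  · rintro ⟨h1, h2⟩
    refine ⟨⟨h1, ?_⟩, h2⟩
    rintro rfl
    exact hz h2
  · rintro ⟨⟨h1, -⟩, h2⟩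
    exact ⟨h1, h2⟩

/-- tight pairs give tight pairs of the red state -/
theorem tight_red' {𝒜 ℬ : Finset (Finset V)} {y z : V} {A B : Finset V}
    (hA : A ∈ 𝒜) (hB : B ∈ ℬ) (h : A ∩ B = {y}) (hz : z ∉ B) :
    A \ {z} ∈ res 𝒜 {z} ∅ ∧ B ∈ res ℬ ∅ {z} ∧ (A \ {z}) ∩ B = {y} := by
  refine ⟨mem_res.2 ⟨A, hA, disjoint_empty_right A, rfl⟩,
    mem_res.2 ⟨B, hB, by rw [Finset.disjoint_singleton_right]; exact hz, sdiff_empty⟩, ?_⟩
  rw [← h]
  ext x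
  simp only [mem_inter, mem_sdiff, mem_singleton]
  constructor
  · rintro ⟨⟨h1, -⟩, h2⟩
    exact ⟨h1, h2⟩
  · rintro ⟨h1, h2⟩
    refine ⟨⟨h1, ?_⟩, h2⟩
    rintro rfl
    exact hz h2

theorem wt_red_ge {𝒜 ℬ : Finset (Finset V)} {y z : V}
    (h : ∃ A ∈ 𝒜, ∃ B ∈ ℬ, A ∩ B = {y} ∧ z ∉ B) :
    wt 𝒜 ℬ y ≤ wt (res 𝒜 {z} ∅) (res ℬ ∅ {z}) y := by
  obtain ⟨A, hA, B, hB, hAB, hz⟩ := h
  obtain ⟨h1, h2, h3⟩ := tight_red' hA hB hAB hz
  rw [wt_eq_of_tight hA hB hAB, wt_eq_of_tight h1 h2 h3]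
  refine div_le_div_of_nonneg_left (by norm_num) (by positivity)
    (pow_le_pow_right₀ (by norm_num) ?_)
  refine mx_le fun A' hA' B' hB' hAB' => ?_
  obtain ⟨A1, hA1, B1, hB1, h4, -, rfl, rfl⟩ := tight_red hA' hB' hAB'
  refine le_trans ?_ (le_mx hA1 hB1 h4)
  exact Nat.add_le_add_right (card_le_card sdiff_subset) _

theorem wt_red_ge2 {𝒜 ℬ : Finset (Finset V)} {y z : V} (hyz : y ≠ z)
    (h0 : ∃ A ∈ 𝒜, ∃ B ∈ ℬ, A ∩ B = {y})
    (h : ∀ A ∈ 𝒜, ∀ B ∈ ℬ, A ∩ B = {y} → z ∈ A) :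
    2 * wt 𝒜 ℬ y ≤ wt (res 𝒜 {z} ∅) (res ℬ ∅ {z}) y := by
  obtain ⟨A, hA, B, hB, hAB⟩ := h0
  have hz : z ∉ B := by
    intro hzB
    have : z ∈ A ∩ B := mem_inter.2 ⟨h A hA B hB hAB, hzB⟩
    rw [hAB, mem_singleton] at this
    exact hyz this.symm
  obtain ⟨h1, h2, h3⟩ := tight_red' hA hB hAB hz
  rw [wt_eq_of_tight hA hB hAB, wt_eq_of_tight h1 h2 h3]
  have hm : mx (res 𝒜 {z} ∅) (res ℬ ∅ {z}) y + 1 ≤ mx 𝒜 ℬ y := by
    have hpos : 1 ≤ mx 𝒜 ℬ y := by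
      refine le_trans ?_ (le_mx hA hB hAB)
      have : 0 < A.card := card_pos.2 ⟨z, h A hA B hB hAB⟩
      omega
    have h5 : mx (res 𝒜 {z} ∅) (res ℬ ∅ {z}) y ≤ mx 𝒜 ℬ y - 1 := by
      refine mx_le fun A' hA' B' hB' hAB' => ?_
      obtain ⟨A1, hA1, B1, hB1, h4, -, rfl, rfl⟩ := tight_red hA' hB' hAB'
      have h6 := le_mx hA1 hB1 h4
      have h7 : (A1 \ {z}).card = A1.card - 1 := by
        rw [card_sdiff_of_subset (by rw [singleton_subset_iff]; exact h A1 hA1 _ hB1 h4),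
          card_singleton]
      have h8 : 0 < A1.card := card_pos.2 ⟨z, h A1 hA1 _ hB1 h4⟩
      omega
    omega
  calc 2 * ((4 : ℝ) / 2 ^ mx 𝒜 ℬ y)
      ≤ 2 * (4 / 2 ^ (mx (res 𝒜 {z} ∅) (res ℬ ∅ {z}) y + 1)) := by
        refine mul_le_mul_of_nonneg_left ?_ (by norm_num)
        exact div_le_div_of_nonneg_left (by norm_num) (by positivity)
          (pow_le_pow_right₀ (by norm_num) hm)
    _ = 4 / 2 ^ (mx (res 𝒜 {z} ∅) (res ℬ ∅ {z}) y) := by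
        rw [pow_succ]
        field_simp

theorem wt_expose_one (𝒜 ℬ : Finset (Finset V)) {y z : V} (hyz : y ≠ z) :
    wt 𝒜 ℬ y ≤ (wt (res 𝒜 {z} ∅) (res ℬ ∅ {z}) y + wt (res 𝒜 ∅ {z}) (res ℬ {z} ∅) y) / 2 := by
  have hr := wt_nonneg (res 𝒜 {z} ∅) (res ℬ ∅ {z}) y
  have hb := wt_nonneg (res 𝒜 ∅ {z}) (res ℬ {z} ∅) y
  by_cases h0 : ∃ A ∈ 𝒜, ∃ B ∈ ℬ, A ∩ B = {y}
  swap
  · push Not at h0
    rw [wt_eq_zero h0]
    linarith
  have h0' : ∃ B ∈ ℬ, ∃ A ∈ 𝒜, B ∩ A = {y} := by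
    obtain ⟨A, hA, B, hB, hAB⟩ := h0
    exact ⟨B, hB, A, hA, by rw [inter_comm]; exact hAB⟩
  by_cases h1 : ∀ A ∈ 𝒜, ∀ B ∈ ℬ, A ∩ B = {y} → z ∈ A
  · have := wt_red_ge2 hyz h0 h1
    linarith
  by_cases h2 : ∀ B ∈ ℬ, ∀ A ∈ 𝒜, B ∩ A = {y} → z ∈ B
  · have h3 := wt_red_ge2 hyz h0' h2
    rw [wt_comm ℬ 𝒜, wt_comm (res ℬ {z} ∅) (res 𝒜 ∅ {z})] at h3
    linarith
  push Not at h1 h2
  have h3 : wt 𝒜 ℬ y ≤ wt (res 𝒜 {z} ∅) (res ℬ ∅ {z}) y := by
    obtain ⟨B, hB, A, hA, hAB, hz⟩ := h2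
    exact wt_red_ge ⟨A, hA, B, hB, by rw [inter_comm]; exact hAB, hz⟩
  have h4 : wt ℬ 𝒜 y ≤ wt (res ℬ {z} ∅) (res 𝒜 ∅ {z}) y := by
    obtain ⟨A, hA, B, hB, hAB, hz⟩ := h1
    exact wt_red_ge ⟨B, hB, A, hA, by rw [inter_comm]; exact hAB, hz⟩
  rw [wt_comm ℬ 𝒜, wt_comm (res ℬ {z} ∅) (res 𝒜 ∅ {z})] at h4
  linarith

theorem wt_expose_aux (T : Finset V) : ∀ (𝒜 ℬ : Finset (Finset V)) {y : V}, y ∉ T →
    wt 𝒜 ℬ y ≤ (∑ R ∈ T.powerset, wt (res 𝒜 R (T \ R)) (res ℬ (T \ R) R) y) / 2 ^ T.card := by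
  induction T using Finset.induction_on with
  | empty =>
    intro 𝒜 ℬ y _
    have h1 : ∀ 𝒜 : Finset (Finset V), res 𝒜 ∅ ∅ = 𝒜 := by
      intro 𝒜
      ext A
      rw [mem_res]
      constructor
      · rintro ⟨A1, h1, -, rfl⟩
        rwa [sdiff_empty]
      · intro h
        exact ⟨A, h, disjoint_empty_right A, sdiff_empty⟩
    simp [h1]
  | insert z T hz ih =>
    intro 𝒜 ℬ y hy
    rw [mem_insert, not_or] at hy
    have h1 := wt_expose_one 𝒜 ℬ hy.1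
    have hred := ih (res 𝒜 {z} ∅) (res ℬ ∅ {z}) hy.2
    have hblue := ih (res 𝒜 ∅ {z}) (res ℬ {z} ∅) hy.2
    have e1 : ∀ R ∈ T.powerset,
        wt (res (res 𝒜 {z} ∅) R (T \ R)) (res (res ℬ ∅ {z}) (T \ R) R) y =
        wt (res 𝒜 (insert z R) (insert z T \ insert z R))
          (res ℬ (insert z T \ insert z R) (insert z R)) y := by
      intro R hR
      have hRT := mem_powerset.1 hR
      have hs : insert z T \ insert z R = T \ R := by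
        ext x
        simp only [mem_sdiff, mem_insert, not_or]
        constructor
        · rintro ⟨h2 | h2, h3, h4⟩
          · exact absurd h2 h3
          · exact ⟨h2, h4⟩
        · rintro ⟨h2, h3⟩
          refine ⟨Or.inr h2, ?_, h3⟩
          rintro rfl
          exact hz h2
      rw [hs, res_res 𝒜 (by
          rw [Finset.disjoint_singleton_left]
          exact fun h => hz (mem_sdiff.1 h).1),
        res_res ℬ (disjoint_empty_left R), empty_union, insert_eq]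
    have e2 : ∀ R ∈ T.powerset,
        wt (res (res 𝒜 ∅ {z}) R (T \ R)) (res (res ℬ {z} ∅) (T \ R) R) y =
        wt (res 𝒜 R (insert z T \ R)) (res ℬ (insert z T \ R) R) y := by
      intro R hR
      have hRT := mem_powerset.1 hR
      have hzR : z ∉ R := fun h => hz (hRT h)
      have hs : insert z T \ R = {z} ∪ (T \ R) := by
        ext x
        simp only [mem_sdiff, mem_insert, mem_union, mem_singleton]
        constructor
        · rintro ⟨h2 | h2, h3⟩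
          · exact Or.inl h2
          · exact Or.inr ⟨h2, h3⟩
        · rintro (rfl | ⟨h2, h3⟩)
          · exact ⟨Or.inl rfl, hzR⟩
          · exact ⟨Or.inr h2, h3⟩
      rw [hs, res_res 𝒜 (disjoint_empty_left _), res_res ℬ (by
          rw [Finset.disjoint_singleton_left]
          exact hzR), empty_union]
    rw [Finset.sum_congr rfl e1] at hred
    rw [Finset.sum_congr rfl e2] at hblue
    rw [Finset.sum_powerset_insert hz, card_insert_of_notMem hz]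
    refine h1.trans ?_
    calc _ ≤ ((∑ R ∈ T.powerset, wt (res 𝒜 (insert z R) (insert z T \ insert z R))
          (res ℬ (insert z T \ insert z R) (insert z R)) y) / 2 ^ T.card +
          (∑ R ∈ T.powerset, wt (res 𝒜 R (insert z T \ R)) (res ℬ (insert z T \ R) R) y) /
            2 ^ T.card) / 2 := by linarith
      _ = _ := by
        rw [pow_succ]
        field_simp
        ring

/-- Exposing the colours of the elements of `T` (red set `R ⊆ T`, blue set `T \ R`). -/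
theorem wt_expose {𝒜 ℬ : Finset (Finset V)} (h : Cross 𝒜 ℬ) (T : Finset V) {y : V} (hy : y ∉ T) :
    wt 𝒜 ℬ y ≤ (∑ R ∈ T.powerset, wt (res 𝒜 R (T \ R)) (res ℬ (T \ R) R) y) / 2 ^ T.card :=
  wt_expose_aux T 𝒜 ℬ hy

theorem Phi_expose {𝒜 ℬ : Finset (Finset V)} (h : Cross 𝒜 ℬ) (T : Finset V) :
    Phi 𝒜 ℬ ≤ ∑ x ∈ T, wt 𝒜 ℬ x +
      (∑ R ∈ T.powerset, Phi (res 𝒜 R (T \ R)) (res ℬ (T \ R) R)) / 2 ^ T.card := by
  rw [Phi_eq_sum (X := T ∪ (ground 𝒜 ℬ \ T)) (by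
      intro x hx
      rw [mem_union, mem_sdiff]
      tauto),
    Finset.sum_union (Finset.disjoint_sdiff)]
  have h1 : ∀ R ∈ T.powerset, Phi (res 𝒜 R (T \ R)) (res ℬ (T \ R) R) =
      ∑ y ∈ ground 𝒜 ℬ \ T, wt (res 𝒜 R (T \ R)) (res ℬ (T \ R) R) y := by
    intro R hR
    have hRT := mem_powerset.1 hR
    apply Phi_eq_sum
    have h2 := ground_res 𝒜 ℬ R (T \ R)
    rwa [union_sdiff_of_subset hRT] at h2
  rw [Finset.sum_congr rfl h1, Finset.sum_comm, Finset.sum_div]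
  have h3 : ∑ y ∈ ground 𝒜 ℬ \ T, wt 𝒜 ℬ y ≤ ∑ y ∈ ground 𝒜 ℬ \ T,
      (∑ R ∈ T.powerset, wt (res 𝒜 R (T \ R)) (res ℬ (T \ R) R) y) / 2 ^ T.card :=
    Finset.sum_le_sum fun y hy => wt_expose h T (mem_sdiff.1 hy).2
  linarith

end Pool.Agent.Lib.MP_87840f_co
end

section

/-!
# MP_87840f_co, sharp version, job K2: exposure of named elements

`IH`: the bound `1` for all systems with a smaller ground set.
-/

open Finset

namespace Pool.Agent.Lib.MP_87840f_co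

variable {V : Type*} [DecidableEq V]

/-- The induction hypothesis. -/
def IH (𝒜 ℬ : Finset (Finset V)) : Prop :=
  ∀ 𝒜' ℬ' : Finset (Finset V), Cross 𝒜' ℬ' → (ground 𝒜' ℬ').card < (ground 𝒜 ℬ).card →
    Phi 𝒜' ℬ' ≤ 1

theorem Phi_empty_left (ℬ : Finset (Finset V)) : Phi ∅ ℬ = 0 := by
  simp [Phi]

theorem Phi_empty_right (𝒜 : Finset (Finset V)) : Phi 𝒜 ∅ = 0 := by
  rw [Phi_comm]; exact Phi_empty_left 𝒜

theorem res_eq_empty {𝒜 : Finset (Finset V)} {R L : Finset V}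
    (h : ∀ A ∈ 𝒜, ¬ Disjoint A L) : res 𝒜 R L = ∅ := by
  unfold res
  rw [Finset.image_eq_empty, Finset.filter_eq_empty_iff]
  exact fun A hA => h A hA

theorem Phi_res_le_one {𝒜 ℬ : Finset (Finset V)} (h : Cross 𝒜 ℬ) (ih : IH 𝒜 ℬ)
    {R L : Finset V} (hRL : Disjoint R L) (hg : ∃ x ∈ R ∪ L, x ∈ ground 𝒜 ℬ) :
    Phi (res 𝒜 R L) (res ℬ L R) ≤ 1 := by
  apply ih _ _ (cross_res h hRL)
  obtain ⟨x, hx, hxg⟩ := hg
  apply card_lt_card
  refine ⟨(ground_res 𝒜 ℬ R L).trans sdiff_subset, fun hcon => ?_⟩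
  exact (mem_sdiff.1 (ground_res 𝒜 ℬ R L (hcon hxg))).2 hx

theorem Phi_res_zero_of_red {𝒜 ℬ : Finset (Finset V)} (h : Cross 𝒜 ℬ) {R L A : Finset V}
    (hA : A ∈ 𝒜) (hAR : A ⊆ R) : Phi (res 𝒜 R L) (res ℬ L R) = 0 := by
  have : res ℬ L R = ∅ := by
    apply res_eq_empty
    intro B hB hdis
    obtain ⟨z, hz⟩ := h A hA B hB
    rw [mem_inter] at hz
    exact Finset.disjoint_left.1 hdis hz.2 (hAR hz.1)
  rw [this, Phi_empty_right]

theorem Phi_res_zero_of_blue {𝒜 ℬ : Finset (Finset V)} {R L : Finset V}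
    (hL : ∀ A ∈ 𝒜, ∃ z ∈ A, z ∈ L) : Phi (res 𝒜 R L) (res ℬ L R) = 0 := by
  have : res 𝒜 R L = ∅ := by
    apply res_eq_empty
    intro A hA hdis
    obtain ⟨z, hz, hzL⟩ := hL A hA
    exact Finset.disjoint_left.1 hdis hz hzL
  rw [this, Phi_empty_left]

/-- Exposure of `m` named elements `e 0, ..., e (m-1)`. `LA` lists (as index sets) known members
of `𝒜`; `LB` lists index sets `J` such that every `A ∈ 𝒜` meets `e '' J` or is one of the members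
listed in `LA` (in particular known members of `ℬ`). Only the colourings `c` (true = red) with no
red `J ∈ LA` and no blue `J ∈ LB` count. -/
theorem Phi_named {𝒜 ℬ : Finset (Finset V)} (h : Cross 𝒜 ℬ) (ih : IH 𝒜 ℬ) {m : ℕ}
    (e : Fin m → V) (he : Function.Injective e) (h0 : ∃ i, e i ∈ ground 𝒜 ℬ)
    (LA LB : Finset (Finset (Fin m)))
    (hLA : ∀ J ∈ LA, J.image e ∈ 𝒜)
    (hLB : ∀ J ∈ LB, ∀ A ∈ 𝒜, (∃ j ∈ J, e j ∈ A) ∨ ∃ K ∈ LA, A = K.image e) :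
    Phi 𝒜 ℬ ≤ ∑ i, wt 𝒜 ℬ (e i) +
      ((univ : Finset (Fin m → Bool)).filter (fun c =>
        (∀ J ∈ LA, ∃ j ∈ J, c j = false) ∧ (∀ J ∈ LB, ∃ j ∈ J, c j = true))).card / 2 ^ m := by
  classical
  set T : Finset V := univ.image e with hT
  have hTcard : T.card = m := by
    rw [hT, card_image_of_injective _ he, card_univ, Fintype.card_fin]
  have hmain := Phi_expose h T
  have hsum : ∑ x ∈ T, wt 𝒜 ℬ x = ∑ i, wt 𝒜 ℬ (e i) := by
    rw [hT, sum_image (fun a _ b _ hab => he hab)]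
  rw [hsum, hTcard] at hmain
  refine hmain.trans ?_
  have hpos : (0 : ℝ) < 2 ^ m := by positivity
  gcongr
  set good : (Fin m → Bool) → Prop := fun c =>
    (∀ J ∈ LA, ∃ j ∈ J, c j = false) ∧ (∀ J ∈ LB, ∃ j ∈ J, c j = true) with hgood
  let col : Finset V → (Fin m → Bool) := fun R i => decide (e i ∈ R)
  have hterm : ∀ R ∈ T.powerset, Phi (res 𝒜 R (T \ R)) (res ℬ (T \ R) R) ≤
      if good (col R) then (1 : ℝ) else 0 := by
    intro R hR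
    rw [mem_powerset] at hR
    split_ifs with hg
    · apply Phi_res_le_one h ih disjoint_sdiff
      obtain ⟨i, hi⟩ := h0
      refine ⟨e i, ?_, hi⟩
      rw [union_sdiff_of_subset hR, hT]
      exact mem_image_of_mem _ (mem_univ _)
    · by_cases h1 : ∀ J ∈ LA, ∃ j ∈ J, col R j = false
      · have h2 : ¬ ∀ J ∈ LB, ∃ j ∈ J, col R j = true := fun h2 => hg ⟨h1, h2⟩
        push Not at h2
        obtain ⟨J, hJ, hJR⟩ := h2
        have hblue : ∀ j, col R j ≠ true → e j ∈ T \ R := by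
          intro j hj
          rw [mem_sdiff]
          refine ⟨by rw [hT]; exact mem_image_of_mem _ (mem_univ _), fun hmem => hj ?_⟩
          simp [col, hmem]
        refine le_of_eq (Phi_res_zero_of_blue ?_)
        intro A hA
        rcases hLB J hJ A hA with ⟨j, hj, hjA⟩ | ⟨K, hK, rfl⟩
        · exact ⟨e j, hjA, hblue j (hJR j hj)⟩
        · obtain ⟨j, hj, hjf⟩ := h1 K hK
          exact ⟨e j, mem_image_of_mem _ hj, hblue j (by rw [hjf]; simp)⟩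
      · push Not at h1
        obtain ⟨J, hJ, hJR⟩ := h1
        refine le_of_eq (Phi_res_zero_of_red h (hLA J hJ) ?_)
        intro y hy
        obtain ⟨j, hj, rfl⟩ := mem_image.1 hy
        have := hJR j hj
        simpa [col] using this
  have hinj : Set.InjOn col (T.powerset : Set (Finset V)) := by
    intro R hR R' hR' hcc
    rw [mem_coe, mem_powerset] at hR hR'
    have key : ∀ i, e i ∈ R ↔ e i ∈ R' := by
      intro i
      have := congrFun hcc i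
      simpa [col] using this
    ext y
    constructor
    · intro hy
      obtain ⟨i, -, rfl⟩ := mem_image.1 (hR hy)
      exact (key i).1 hy
    · intro hy
      obtain ⟨i, -, rfl⟩ := mem_image.1 (hR' hy)
      exact (key i).2 hy
  calc ∑ R ∈ T.powerset, Phi (res 𝒜 R (T \ R)) (res ℬ (T \ R) R)
      ≤ ∑ R ∈ T.powerset, (if good (col R) then (1 : ℝ) else 0) := sum_le_sum hterm
    _ = ((T.powerset.filter (fun R => good (col R))).card : ℝ) := by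
        rw [Finset.sum_ite, sum_const_zero, add_zero, sum_const, nsmul_eq_mul, mul_one]
    _ ≤ ((univ.filter good).card : ℝ) := by
        exact_mod_cast card_le_card_of_injOn col
          (fun R hR => by
            have hR' := (mem_filter.1 (mem_coe.1 hR)).2
            exact mem_coe.2 (mem_filter.2 ⟨mem_univ _, hR'⟩))
          (fun R hR R' hR' hcc => hinj
            (mem_coe.2 (mem_filter.1 (mem_coe.1 hR)).1)
            (mem_coe.2 (mem_filter.1 (mem_coe.1 hR')).1) hcc)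

/-- Exposure of a member of `𝒜`. -/
theorem Phi_member {𝒜 ℬ : Finset (Finset V)} (h : Cross 𝒜 ℬ) (ih : IH 𝒜 ℬ) {A : Finset V}
    (hA : A ∈ 𝒜) (hne : A.Nonempty) :
    Phi 𝒜 ℬ ≤ ∑ x ∈ A, wt 𝒜 ℬ x + (1 - 1 / 2 ^ A.card) := by
  have hmain := Phi_expose h A
  refine hmain.trans ?_
  have hpos : (0 : ℝ) < 2 ^ A.card := by positivity
  have hterm : ∀ R ∈ A.powerset, Phi (res 𝒜 R (A \ R)) (res ℬ (A \ R) R) ≤
      if R = A then (0 : ℝ) else 1 := by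
    intro R hR
    rw [mem_powerset] at hR
    split_ifs with hRA
    · exact le_of_eq (Phi_res_zero_of_red h hA hRA.ge)
    · apply Phi_res_le_one h ih disjoint_sdiff
      obtain ⟨x, hx⟩ := hne
      refine ⟨x, by rw [union_sdiff_of_subset hR]; exact hx, ?_⟩
      unfold ground
      exact mem_union_left _ (mem_biUnion.2 ⟨A, hA, hx⟩)
  have hsum : ∑ R ∈ A.powerset, Phi (res 𝒜 R (A \ R)) (res ℬ (A \ R) R) ≤ 2 ^ A.card - 1 := by
    refine (sum_le_sum hterm).trans (le_of_eq ?_)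
    have h1 : ∀ R ∈ A.powerset, (if R = A then (0 : ℝ) else 1) = 1 - (if R = A then 1 else 0) := by
      intro R _; split_ifs <;> simp
    rw [sum_congr rfl h1, sum_sub_distrib, sum_const, card_powerset, Finset.sum_ite_eq',
      if_pos (mem_powerset_self A)]
    simp
  have h2 : (∑ R ∈ A.powerset, Phi (res 𝒜 R (A \ R)) (res ℬ (A \ R) R)) / 2 ^ A.card ≤
      1 - 1 / 2 ^ A.card := by
    rw [div_le_iff₀ hpos, sub_mul, one_mul, div_mul_cancel₀ _ hpos.ne']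
    exact hsum
  linarith

/-- Exposure of one element `x` (one step). -/
theorem Phi_one {𝒜 ℬ : Finset (Finset V)} (h : Cross 𝒜 ℬ) (x : V) :
    Phi 𝒜 ℬ ≤ wt 𝒜 ℬ x + (Phi (res 𝒜 {x} ∅) (res ℬ ∅ {x}) + Phi (res 𝒜 ∅ {x}) (res ℬ {x} ∅)) / 2 := by
  have hmain := Phi_expose h {x}
  have hps : ({x} : Finset V).powerset = {∅, {x}} := by
    ext s; simp [Finset.subset_singleton_iff]
  rw [hps, sum_pair (Finset.singleton_ne_empty x).symm] at hmain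
  simp only [sum_singleton, card_singleton, pow_one, sdiff_empty, sdiff_self,
    Finset.bot_eq_empty] at hmain
  linarith

/-- If all members of `ℬ` contain `x`. -/
theorem Phi_all {𝒜 ℬ : Finset (Finset V)} (h : Cross 𝒜 ℬ) (ih : IH 𝒜 ℬ) {x : V}
    (hx : x ∈ ground 𝒜 ℬ) (hall : ∀ B ∈ ℬ, x ∈ B) :
    Phi 𝒜 ℬ ≤ wt 𝒜 ℬ x + 1 / 2 := by
  have hmain := Phi_one h x
  have h1 : res ℬ ∅ {x} = ∅ := by
    apply res_eq_empty
    intro B hB hdis
    exact Finset.disjoint_left.1 hdis (hall B hB) (mem_singleton_self x)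
  have h2 : Phi (res 𝒜 ∅ {x}) (res ℬ {x} ∅) ≤ 1 :=
    Phi_res_le_one h ih (Finset.disjoint_empty_left _) ⟨x, by simp, hx⟩
  rw [h1, Phi_empty_right] at hmain
  linarith

end Pool.Agent.Lib.MP_87840f_co
end
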