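import Mathlib
import Pool.Agent.Lib.MP_87840f_co.SExpose
import Pool.Agent.Lib.MP_87840f_co.Defs
import Pool.Agent.Lib.MP_87840f_co.Perm
import Pool.Agent.Lib.MP_87840f_co.Cover

section

/-! # MP_87840f_co: binomial estimates -/

open Finset

namespace Pool.Agent.Lib.MP_87840f_co

lemma bin_q_ge {n k : ℕ} (hkn : k < n) {M : ℝ} (hM : (2 * n - 2 * k : ℝ) ≤ M) :
    M + 2 * k ≤ (1 + 2 * k / (2 * n - 2 * k : ℝ)) * M := by
  have hD : (0 : ℝ) < 2 * n - 2 * k := by
    have : (k : ℝ) < n := by exact_mod_cast hkn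
    linarith
  have h1 : (2 * k : ℝ) ≤ 2 * k / (2 * n - 2 * k : ℝ) * M := by
    rw [div_mul_eq_mul_div, le_div_iff₀ hD]
    exact mul_le_mul_of_nonneg_left hM (by positivity)
  linarith

lemma bin_step1 {n k r s : ℕ} (hrk : r < k) (hsk : s ≤ k) (hkn : k < n) :
    ((2 * n - (r + 1) - s).choose (n - (r + 1)) : ℝ) * 2 ≤
      ((2 * n - r - s).choose (n - r) : ℝ) * (1 + 2 * k / (2 * n - 2 * k : ℝ)) := by
  obtain ⟨a, ha⟩ : ∃ a, n - r = a + 1 := ⟨n - r - 1, by omega⟩
  obtain ⟨N, hN⟩ : ∃ N, 2 * n - r - s = N + 1 := ⟨2 * n - r - s - 1, by omega⟩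
  rw [show 2 * n - (r + 1) - s = N by omega, show n - (r + 1) = a by omega, hN, ha]
  have h : ((N : ℝ) + 1) * (N.choose a : ℝ) = ((N + 1).choose (a + 1) : ℝ) * ((a : ℝ) + 1) := by
    exact_mod_cast Nat.add_one_mul_choose_eq N a
  have hNr : (2 * n : ℝ) = N + 1 + r + s := by
    have : 2 * n = N + 1 + r + s := by omega
    exact_mod_cast this
  have har : (n : ℝ) = a + 1 + r := by
    have : n = a + 1 + r := by omega
    exact_mod_cast this
  have hrk' : (r : ℝ) ≤ k := by exact_mod_cast hrk.le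
  have hsk' : (s : ℝ) ≤ k := by exact_mod_cast hsk
  have hr0 : (0 : ℝ) ≤ r := Nat.cast_nonneg r
  have hk0 : (0 : ℝ) ≤ k := Nat.cast_nonneg k
  have hq := bin_q_ge hkn (M := (N : ℝ) + 1) (by linarith)
  have hC : (0 : ℝ) ≤ ((N + 1).choose (a + 1) : ℝ) := Nat.cast_nonneg _
  have hpos : (0 : ℝ) < (N : ℝ) + 1 := by positivity
  refine le_of_mul_le_mul_right ?_ hpos
  calc (N.choose a : ℝ) * 2 * ((N : ℝ) + 1) = 2 * (((N : ℝ) + 1) * (N.choose a : ℝ)) := by ring
    _ = ((N + 1).choose (a + 1) : ℝ) * (2 * ((a : ℝ) + 1)) := by rw [h]; ring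
    _ ≤ ((N + 1).choose (a + 1) : ℝ) * ((1 + 2 * k / (2 * n - 2 * k : ℝ)) * ((N : ℝ) + 1)) := by
        apply mul_le_mul_of_nonneg_left _ hC
        linarith
    _ = _ := by ring

lemma bin_step2 {n k r s : ℕ} (hrk : r ≤ k) (hsk : s < k) (hkn : k < n) :
    ((2 * n - r - (s + 1)).choose (n - r) : ℝ) * 2 ≤
      ((2 * n - r - s).choose (n - r) : ℝ) * (1 + 2 * k / (2 * n - 2 * k : ℝ)) := by
  obtain ⟨N, hN⟩ : ∃ N, 2 * n - r - s = N + 1 := ⟨2 * n - r - s - 1, by omega⟩
  obtain ⟨a, ha⟩ : ∃ a, n - r = a := ⟨_, rfl⟩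
  rw [show 2 * n - r - (s + 1) = N by omega, hN, ha]
  have h0 := Nat.choose_mul_succ_eq N a
  rw [show N + 1 - a = n - s by omega] at h0
  have h : (N.choose a : ℝ) * ((N : ℝ) + 1) = ((N + 1).choose a : ℝ) * ((n - s : ℕ) : ℝ) := by
    exact_mod_cast h0
  have hns : ((n - s : ℕ) : ℝ) = (n : ℝ) - s := by
    rw [Nat.cast_sub (by omega)]
  rw [hns] at h
  have hNr : (2 * n : ℝ) = N + 1 + r + s := by
    have : 2 * n = N + 1 + r + s := by omega
    exact_mod_cast this
  have hrk' : (r : ℝ) ≤ k := by exact_mod_cast hrk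
  have hsk' : (s : ℝ) ≤ k := by exact_mod_cast hsk.le
  have hs0 : (0 : ℝ) ≤ s := Nat.cast_nonneg s
  have hk0 : (0 : ℝ) ≤ k := Nat.cast_nonneg k
  have hq := bin_q_ge hkn (M := (N : ℝ) + 1) (by linarith)
  have hC : (0 : ℝ) ≤ ((N + 1).choose a : ℝ) := Nat.cast_nonneg _
  have hpos : (0 : ℝ) < (N : ℝ) + 1 := by positivity
  refine le_of_mul_le_mul_right ?_ hpos
  calc (N.choose a : ℝ) * 2 * ((N : ℝ) + 1) = 2 * ((N.choose a : ℝ) * ((N : ℝ) + 1)) := by ring
    _ = ((N + 1).choose a : ℝ) * (2 * ((n : ℝ) - s)) := by rw [h]; ring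
    _ ≤ ((N + 1).choose a : ℝ) * ((1 + 2 * k / (2 * n - 2 * k : ℝ)) * ((N : ℝ) + 1)) := by
        apply mul_le_mul_of_nonneg_left _ hC
        linarith
    _ = _ := by ring

theorem choose_le_of_remove (n k r s : ℕ) (hr : 1 ≤ r) (hs : 1 ≤ s) (hrk : r ≤ k) (hsk : s ≤ k)
    (hkn : k < n) :
    ((2 * n - r - s).choose (n - r) : ℝ) * 2 ^ (r + s) ≤
      4 * ((2 * n - 2).choose (n - 1) : ℝ) * (1 + 2 * k / (2 * n - 2 * k : ℝ)) ^ (2 * k) := by
  have hD : (0 : ℝ) < 2 * n - 2 * k := by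
    have : (k : ℝ) < n := by exact_mod_cast hkn
    linarith
  set q : ℝ := 1 + 2 * k / (2 * n - 2 * k : ℝ) with hq
  have hq1 : 1 ≤ q := by
    rw [hq]
    have : (0 : ℝ) ≤ 2 * k / (2 * n - 2 * k : ℝ) := by positivity
    linarith
  have hq0 : 0 ≤ q := by linarith
  -- first in `r`
  have h1 : ∀ i, i + 1 ≤ k → ((2 * n - (i + 1) - 1).choose (n - (i + 1)) : ℝ) * 2 ^ (i + 2) ≤
      4 * ((2 * n - 2).choose (n - 1) : ℝ) * q ^ i := by
    intro i
    induction i with
    | zero =>
      intro _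
      rw [show 2 * n - (0 + 1) - 1 = 2 * n - 2 by omega]
      norm_num
      linarith
    | succ i ih =>
      intro hi
      have h2 := ih (by omega)
      have h3 := bin_step1 (n := n) (k := k) (r := i + 1) (s := 1) (by omega) (by omega) hkn
      rw [← hq] at h3
      have h4 := mul_le_mul_of_nonneg_right h3 (by positivity : (0 : ℝ) ≤ 2 ^ (i + 2))
      have h5 := mul_le_mul_of_nonneg_right h2 hq0
      calc ((2 * n - (i + 1 + 1) - 1).choose (n - (i + 1 + 1)) : ℝ) * 2 ^ (i + 1 + 2)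
          = ((2 * n - (i + 1 + 1) - 1).choose (n - (i + 1 + 1)) : ℝ) * 2 * 2 ^ (i + 2) := by ring
        _ ≤ ((2 * n - (i + 1) - 1).choose (n - (i + 1)) : ℝ) * q * 2 ^ (i + 2) := h4
        _ = ((2 * n - (i + 1) - 1).choose (n - (i + 1)) : ℝ) * 2 ^ (i + 2) * q := by ring
        _ ≤ 4 * ((2 * n - 2).choose (n - 1) : ℝ) * q ^ i * q := h5
        _ = 4 * ((2 * n - 2).choose (n - 1) : ℝ) * q ^ (i + 1) := by ring
  -- then in `s`
  have h2 : ∀ j, j + 1 ≤ k → ((2 * n - r - (j + 1)).choose (n - r) : ℝ) * 2 ^ (r + (j + 1)) ≤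
      4 * ((2 * n - 2).choose (n - 1) : ℝ) * q ^ (r - 1 + j) := by
    intro j
    induction j with
    | zero =>
      intro _
      have h3 := h1 (r - 1) (by omega)
      rw [show r - 1 + 1 = r by omega, show r - 1 + 2 = r + (0 + 1) by omega] at h3
      simpa using h3
    | succ j ih =>
      intro hj
      have h3 := ih (by omega)
      have h4 := bin_step2 (n := n) (k := k) (r := r) (s := j + 1) hrk (by omega) hkn
      rw [← hq] at h4
      have h5 := mul_le_mul_of_nonneg_right h4 (by positivity : (0 : ℝ) ≤ 2 ^ (r + (j + 1)))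
      have h6 := mul_le_mul_of_nonneg_right h3 hq0
      calc ((2 * n - r - (j + 1 + 1)).choose (n - r) : ℝ) * 2 ^ (r + (j + 1 + 1))
          = ((2 * n - r - (j + 1 + 1)).choose (n - r) : ℝ) * 2 * 2 ^ (r + (j + 1)) := by
            rw [show r + (j + 1 + 1) = r + (j + 1) + 1 by ring, pow_succ]; ring
        _ ≤ ((2 * n - r - (j + 1)).choose (n - r) : ℝ) * q * 2 ^ (r + (j + 1)) := h5
        _ = ((2 * n - r - (j + 1)).choose (n - r) : ℝ) * 2 ^ (r + (j + 1)) * q := by ring
        _ ≤ 4 * ((2 * n - 2).choose (n - 1) : ℝ) * q ^ (r - 1 + j) * q := h6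
        _ = 4 * ((2 * n - 2).choose (n - 1) : ℝ) * q ^ (r - 1 + (j + 1)) := by
            rw [show r - 1 + (j + 1) = r - 1 + j + 1 by ring, pow_succ]; ring
  have h3 := h2 (s - 1) (by omega)
  rw [show s - 1 + 1 = s by omega] at h3
  refine h3.trans ?_
  apply mul_le_mul_of_nonneg_left _ (by positivity)
  exact pow_le_pow_right₀ hq1 (by omega)

theorem kernel_binom (n k : ℕ) (hk : 1 ≤ k) (hkn : k < n) :
    ((2 * n - k - 1).choose n : ℝ) * 2 ^ (k - 1) ≤ ((2 * n - 2).choose (n - 1) : ℝ) := by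
  have h1 : ∀ i, i + 1 < n → (2 * n - (i + 1) - 1).choose n * 2 ^ i ≤ (2 * n - 2).choose n := by
    intro i
    induction i with
    | zero =>
      intro _
      rw [show 2 * n - (0 + 1) - 1 = 2 * n - 2 by omega]
      simp
    | succ i ih =>
      intro hi
      have h2 := ih (by omega)
      obtain ⟨N, hN⟩ : ∃ N, 2 * n - (i + 1) - 1 = N + 1 := ⟨2 * n - (i + 1) - 2, by omega⟩
      obtain ⟨a, ha⟩ : ∃ a, n = a + 1 := ⟨n - 1, by omega⟩
      rw [show 2 * n - (i + 1 + 1) - 1 = N by omega]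
      rw [hN] at h2
      have h3 : N.choose n * 2 ≤ (N + 1).choose n := by
        rw [ha, Nat.choose_succ_succ, Nat.succ_eq_add_one]
        have h4 : N.choose (a + 1) ≤ N.choose a := by
          have h5 := Nat.choose_succ_right_eq N a
          have h6 : N - a ≤ a + 1 := by omega
          have h7 : N.choose (a + 1) * (a + 1) ≤ N.choose a * (a + 1) := by
            rw [h5]
            exact Nat.mul_le_mul_left _ h6
          exact Nat.le_of_mul_le_mul_right h7 (Nat.succ_pos a)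
        omega
      calc N.choose n * 2 ^ (i + 1) = N.choose n * 2 * 2 ^ i := by ring
        _ ≤ (N + 1).choose n * 2 ^ i := Nat.mul_le_mul_right _ h3
        _ ≤ _ := h2
  have h2 := h1 (k - 1) (by omega)
  rw [show k - 1 + 1 = k by omega] at h2
  have h3 : (2 * n - 2).choose n ≤ (2 * n - 2).choose (n - 1) := by
    have := Nat.choose_le_centralBinom n (n - 1)
    rw [Nat.centralBinom] at this
    rwa [show 2 * (n - 1) = 2 * n - 2 by omega] at this
  exact_mod_cast h2.trans h3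

end Pool.Agent.Lib.MP_87840f_co
end

section

/-!
# MP_87840f_co, sharp version, job K8: the selection lemma
-/

open Finset

namespace Pool.Agent.Lib.MP_87840f_co

variable {V : Type*} [DecidableEq V]

/-- value of a pair on `X` -/
def selVal (X : Finset V) (p : Finset V × Finset V) : ℕ := (p.1 ∩ X).card + (p.2 ∩ X).card

/-- best value of a pair of `T u` on `X` -/
def selMax (T : V → Finset (Finset V × Finset V)) (X : Finset V) (u : V) : ℕ :=
  (T u).sup (selVal X)

/-- load of `z` -/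
def selLoad (I : Finset V) (d : V → Finset V × Finset V) (z : V) : ℕ :=
  (I.filter (fun u => u ≠ z ∧ (z ∈ (d u).1 ∨ z ∈ (d u).2))).card

theorem selVal_mono {X Y : Finset V} (h : X ⊆ Y) (p : Finset V × Finset V) :
    selVal X p ≤ selVal Y p :=
  add_le_add (card_le_card (inter_subset_inter_left h)) (card_le_card (inter_subset_inter_left h))

theorem selVal_lt {X Z : Finset V} {p : Finset V × Finset V} {z : V} (hzX : z ∈ X) (hz : z ∈ Z)
    (hp : z ∈ p.1 ∨ z ∈ p.2) : selVal (X \ Z) p < selVal X p := by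
  have hsub : ∀ q : Finset V, q ∩ (X \ Z) ⊆ q ∩ X := fun q => inter_subset_inter_left sdiff_subset
  have hlt : ∀ q : Finset V, z ∈ q → (q ∩ (X \ Z)).card < (q ∩ X).card := by
    intro q hq
    apply card_lt_card
    refine ⟨hsub q, fun hcon => ?_⟩
    have := hcon (mem_inter.2 ⟨hq, hzX⟩)
    rw [mem_inter, mem_sdiff] at this
    exact this.2.2 hz
  unfold selVal
  rcases hp with h | h
  · exact add_lt_add_of_lt_of_le (hlt _ h) (card_le_card (hsub _))
  · exact add_lt_add_of_le_of_lt (card_le_card (hsub _)) (hlt _ h)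

theorem selMax_mono (T : V → Finset (Finset V × Finset V)) {X Y : Finset V} (h : X ⊆ Y) (u : V) :
    selMax T X u ≤ selMax T Y u :=
  Finset.sup_mono_fun (fun p _ => selVal_mono h p)

/-- Selection: `T u` is the (nonempty) set of pairs tight at `u`. We find `I ⊆ U' ⊆ U` and a pair
`d u ∈ T u` for `u ∈ I` with `|d.1 ∩ U'| + |d.2 ∩ U'|` maximal in `T u`, such that few elements are
lost and every `z ∈ U'` lies in at most `D` of the chosen pairs. -/
theorem selection (U : Finset V) (T : V → Finset (Finset V × Finset V)) (k L D : ℕ)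
    (hL : 0 < L) (hD : 0 < D)
    (hne : ∀ u ∈ U, (T u).Nonempty)
    (hk : ∀ u ∈ U, ∀ p ∈ T u, (p.1 ∩ U).card ≤ k ∧ (p.2 ∩ U).card ≤ k) :
    ∃ (U' I : Finset V) (d : V → Finset V × Finset V), I ⊆ U' ∧ U' ⊆ U ∧
      (∀ u ∈ I, d u ∈ T u) ∧
      (∀ u ∈ I, ∀ p ∈ T u, (p.1 ∩ U').card + (p.2 ∩ U').card ≤
        ((d u).1 ∩ U').card + ((d u).2 ∩ U').card) ∧
      (∀ z ∈ U', (I.filter (fun u => u ≠ z ∧ (z ∈ (d u).1 ∨ z ∈ (d u).2))).card ≤ D) ∧
      L * (U \ U').card ≤ 2 * k * U.card ∧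
      D * (U' \ I).card ≤ (L + 1) * (2 * k * U.card) := by
  classical
  -- the potential
  set Psi : Finset V → ℕ := fun X => ∑ u ∈ X, selMax T X u + L * (U \ X).card with hPsi
  obtain ⟨U', hU'mem, hmin⟩ := exists_min_image U.powerset Psi ⟨U, mem_powerset_self U⟩
  have hU' : U' ⊆ U := mem_powerset.1 hU'mem
  have hval2k : ∀ X ⊆ U, ∀ u ∈ U, ∀ p ∈ T u, selVal X p ≤ 2 * k := by
    intro X hX u hu p hp
    have h1 := hk u hu p hp
    have h2 := selVal_mono hX p
    have h3 : selVal U p ≤ 2 * k := by unfold selVal; omega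
    exact h2.trans h3
  have hPsiU : Psi U ≤ 2 * k * U.card := by
    have h1 : ∑ u ∈ U, selMax T U u ≤ U.card * (2 * k) := by
      refine Finset.sum_le_card_nsmul U _ (2 * k) (fun u hu => ?_) |>.trans (by simp)
      exact Finset.sup_le (fun p hp => hval2k U (Subset.refl U) u hu p hp)
    have h2 : Psi U = ∑ u ∈ U, selMax T U u := by simp [hPsi]
    rw [h2]; calc _ ≤ U.card * (2 * k) := h1
      _ = 2 * k * U.card := by ring
  have hPsiU' : Psi U' ≤ 2 * k * U.card := (hmin U (mem_powerset_self U)).trans hPsiU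
  have hlost : L * (U \ U').card ≤ 2 * k * U.card := by
    refine le_trans ?_ hPsiU'
    simp only [hPsi]
    exact Nat.le_add_left _ _
  -- the hereditary bound
  have hH : ∀ Z ⊆ U', ((U' \ Z).filter (fun u => ∀ p ∈ T u, selVal U' p = selMax T U' u →
      ∃ z ∈ Z, z ∈ p.1 ∨ z ∈ p.2)).card ≤ L * Z.card := by
    intro Z hZ
    set Bd := (U' \ Z).filter (fun u => ∀ p ∈ T u, selVal U' p = selMax T U' u →
      ∃ z ∈ Z, z ∈ p.1 ∨ z ∈ p.2) with hBd
    have h1 : Psi U' ≤ Psi (U' \ Z) :=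
      hmin (U' \ Z) (mem_powerset.2 (sdiff_subset.trans hU'))
    have h2 : (U \ (U' \ Z)).card = (U \ U').card + Z.card := by
      have : U \ (U' \ Z) = (U \ U') ∪ Z := by
        ext x
        simp only [mem_sdiff, mem_union, not_and, not_not]
        constructor
        · rintro ⟨hx, hx'⟩
          by_cases hxU : x ∈ U'
          · exact Or.inr (hx' hxU)
          · exact Or.inl ⟨hx, hxU⟩
        · rintro (⟨hx, hx'⟩ | hx)
          · exact ⟨hx, fun h => absurd h hx'⟩
          · exact ⟨hU' (hZ hx), fun _ => hx⟩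
      rw [this, card_union_of_disjoint]
      rw [Finset.disjoint_left]
      intro x hx hxZ
      exact (mem_sdiff.1 hx).2 (hZ hxZ)
    have h3 : ∑ u ∈ U' \ Z, selMax T (U' \ Z) u + Bd.card ≤ ∑ u ∈ U' \ Z, selMax T U' u := by
      have : ∀ u ∈ U' \ Z, selMax T (U' \ Z) u + (if u ∈ Bd then 1 else 0) ≤ selMax T U' u := by
        intro u hu
        split_ifs with hb
        · rw [hBd, mem_filter] at hb
          obtain ⟨-, hb⟩ := hb
          have huU : u ∈ U := hU' (mem_sdiff.1 hu).1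
          obtain ⟨p, hp, hpe⟩ := Finset.exists_mem_eq_sup (T u) (hne u huU) (selVal (U' \ Z))
          have hpe' : selMax T (U' \ Z) u = selVal (U' \ Z) p := hpe
          rw [hpe']
          by_cases hmax : selVal U' p = selMax T U' u
          · obtain ⟨z, hz, hzp⟩ := hb p hp hmax
            rw [← hmax]
            exact selVal_lt (hZ hz) hz hzp
          · have h5 : selVal U' p ≤ selMax T U' u := Finset.le_sup (f := selVal U') hp
            have h6 : selVal (U' \ Z) p ≤ selVal U' p := selVal_mono sdiff_subset p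
            omega
        · simpa using selMax_mono T sdiff_subset u
      have h4 := Finset.sum_le_sum this
      rw [Finset.sum_add_distrib] at h4
      have h5 : ∑ u ∈ U' \ Z, (if u ∈ Bd then 1 else 0) = Bd.card := by
        rw [Finset.sum_ite_mem, Finset.sum_const, smul_eq_mul, mul_one]
        congr 1
        rw [Finset.inter_eq_right]
        rw [hBd]; exact filter_subset _ _
      rw [h5] at h4
      exact h4
    have h6 : ∑ u ∈ U' \ Z, selMax T U' u ≤ ∑ u ∈ U', selMax T U' u :=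
      Finset.sum_le_sum_of_subset sdiff_subset
    simp only [hPsi] at h1
    rw [h2] at h1
    have h7 : L * ((U \ U').card + Z.card) = L * (U \ U').card + L * Z.card := by ring
    omega
  -- greedy choice
  let good : Finset V → Prop := fun I => ∃ d : V → Finset V × Finset V,
    (∀ u ∈ I, d u ∈ T u ∧ selVal U' (d u) = selMax T U' u) ∧ ∀ z ∈ U', selLoad I d z ≤ D
  have hgood0 : good ∅ := ⟨fun _ => (∅, ∅), by simp, by simp [selLoad]⟩
  obtain ⟨I, hImem, hImax⟩ := exists_max_image (U'.powerset.filter good) Finset.card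
    ⟨∅, by rw [mem_filter]; exact ⟨empty_mem_powerset _, hgood0⟩⟩
  rw [mem_filter, mem_powerset] at hImem
  obtain ⟨hIU', d, hd, hload⟩ := hImem
  set Z := U'.filter (fun z => D ≤ selLoad I d z) with hZdef
  have hZU' : Z ⊆ U' := filter_subset _ _
  -- counting loads
  have hDZ : D * Z.card ≤ 2 * k * U.card := by
    have h1 : D * Z.card ≤ ∑ z ∈ Z, selLoad I d z := by
      rw [mul_comm, ← smul_eq_mul]
      exact Finset.card_nsmul_le_sum Z _ D (fun z hz => (mem_filter.1 hz).2)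
    have h2 : ∑ z ∈ Z, selLoad I d z ≤ ∑ z ∈ U', selLoad I d z :=
      Finset.sum_le_sum_of_subset hZU'
    have h3 : ∑ z ∈ U', selLoad I d z =
        ∑ u ∈ I, (U'.filter (fun z => u ≠ z ∧ (z ∈ (d u).1 ∨ z ∈ (d u).2))).card := by
      unfold selLoad
      simp only [Finset.card_filter]
      exact Finset.sum_comm
    have h4 : ∀ u ∈ I, (U'.filter (fun z => u ≠ z ∧ (z ∈ (d u).1 ∨ z ∈ (d u).2))).card
        ≤ 2 * k := by
      intro u hu
      have h5 : U'.filter (fun z => u ≠ z ∧ (z ∈ (d u).1 ∨ z ∈ (d u).2)) ⊆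
          ((d u).1 ∩ U') ∪ ((d u).2 ∩ U') := by
        intro z hz
        rw [mem_filter] at hz
        rw [mem_union, mem_inter, mem_inter]
        rcases hz.2.2 with h | h
        · exact Or.inl ⟨h, hz.1⟩
        · exact Or.inr ⟨h, hz.1⟩
      calc _ ≤ _ := card_le_card h5
        _ ≤ ((d u).1 ∩ U').card + ((d u).2 ∩ U').card := card_union_le _ _
        _ ≤ 2 * k := hval2k U' hU' u (hU' (hIU' hu)) (d u) (hd u hu).1
    have h5 : ∑ u ∈ I, (U'.filter (fun z => u ≠ z ∧ (z ∈ (d u).1 ∨ z ∈ (d u).2))).card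
        ≤ I.card * (2 * k) :=
      (Finset.sum_le_card_nsmul I _ (2 * k) h4).trans (by simp)
    have h6 : I.card ≤ U.card := card_le_card (hIU'.trans hU')
    calc D * Z.card ≤ I.card * (2 * k) := (h1.trans h2).trans (h3.le.trans h5)
      _ ≤ U.card * (2 * k) := Nat.mul_le_mul_right _ h6
      _ = 2 * k * U.card := by ring
  -- the elements not chosen
  have hcover : U' \ I ⊆ Z ∪ (U' \ Z).filter (fun u => ∀ p ∈ T u, selVal U' p = selMax T U' u →
      ∃ z ∈ Z, z ∈ p.1 ∨ z ∈ p.2) := by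
    intro u hu
    rw [mem_sdiff] at hu
    by_contra hcon
    rw [mem_union, not_or] at hcon
    obtain ⟨huZ, hcon⟩ := hcon
    have h1 : ¬ ∀ p ∈ T u, selVal U' p = selMax T U' u → ∃ z ∈ Z, z ∈ p.1 ∨ z ∈ p.2 :=
      fun h => hcon (mem_filter.2 ⟨mem_sdiff.2 ⟨hu.1, huZ⟩, h⟩)
    push Not at h1
    obtain ⟨p, hp, hpmax, hpZ⟩ := h1
    have hgood : good (insert u I) := by
      refine ⟨Function.update d u p, ?_, ?_⟩
      · intro v hv
        by_cases hvu : v = u
        · subst hvu; simp [hp, hpmax]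
        · rw [Function.update_of_ne hvu]
          exact hd v ((mem_insert.1 hv).resolve_left hvu)
      · intro z hz
        unfold selLoad
        rw [Finset.filter_insert]
        have hsame : I.filter (fun w => w ≠ z ∧
            (z ∈ (Function.update d u p w).1 ∨ z ∈ (Function.update d u p w).2)) =
            I.filter (fun w => w ≠ z ∧ (z ∈ (d w).1 ∨ z ∈ (d w).2)) := by
          apply Finset.filter_congr
          intro w hw
          have : w ≠ u := fun h => hu.2 (h ▸ hw)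
          rw [Function.update_of_ne this]
        rw [hsame, Function.update_self]
        have hl : (I.filter (fun w => w ≠ z ∧ (z ∈ (d w).1 ∨ z ∈ (d w).2))).card ≤ D :=
          hload z hz
        split_ifs with hif
        · have hzZ : z ∉ Z := by
            intro hzZ
            have := hpZ z hzZ
            rcases hif.2 with h | h
            · exact this.1 h
            · exact this.2 h
          have hlt : selLoad I d z < D := by
            by_contra hge
            exact hzZ (by rw [hZdef, mem_filter]; exact ⟨hz, not_lt.1 hge⟩)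
          unfold selLoad at hlt
          exact (card_insert_le _ _).trans hlt
        · exact hl
    have h2 := hImax (insert u I) (by
      rw [mem_filter, mem_powerset]
      exact ⟨insert_subset hu.1 hIU', hgood⟩)
    rw [card_insert_of_notMem hu.2] at h2
    omega
  refine ⟨U', I, d, hIU', hU', fun u hu => (hd u hu).1, ?_, hload, hlost, ?_⟩
  · intro u hu p hp
    have h1 : selVal U' p ≤ selMax T U' u := Finset.le_sup (f := selVal U') hp
    rw [← (hd u hu).2] at h1
    exact h1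
  · have h1 := card_le_card hcover
    have h2 := h1.trans (card_union_le _ _)
    have h3 := hH Z hZU'
    have h4 : (U' \ I).card ≤ (L + 1) * Z.card := by
      calc (U' \ I).card ≤ Z.card + L * Z.card := by omega
        _ = (L + 1) * Z.card := by ring
    calc D * (U' \ I).card ≤ D * ((L + 1) * Z.card) := Nat.mul_le_mul_left _ h4
      _ = (L + 1) * (D * Z.card) := by ring
      _ ≤ (L + 1) * (2 * k * U.card) := Nat.mul_le_mul_left _ hDZ

end Pool.Agent.Lib.MP_87840f_co
end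

section

/-!
# MP_87840f_co: an element of weight 1/4 (K4)
-/

open Finset

namespace Pool.Agent.Lib.MP_87840f_co

variable {V : Type*} [DecidableEq V]

/-- The elements `a ≠ x` with `{x, a} ∈ 𝒜`. -/
def nbr (𝒜 : Finset (Finset V)) (x : V) : Finset V :=
  (𝒜.biUnion id).filter (fun a => a ≠ x ∧ ({x, a} : Finset V) ∈ 𝒜)

theorem mem_nbr {𝒜 : Finset (Finset V)} {x a : V} :
    a ∈ nbr 𝒜 x ↔ a ≠ x ∧ ({x, a} : Finset V) ∈ 𝒜 := by
  unfold nbr
  rw [mem_filter]
  constructor
  · exact fun h => h.2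
  · intro h
    refine ⟨mem_biUnion.2 ⟨{x, a}, h.2, ?_⟩, h⟩
    simp

theorem heavy_ih_symm {𝒜 ℬ : Finset (Finset V)} (ih : IH 𝒜 ℬ) : IH ℬ 𝒜 := by
  intro 𝒜' ℬ' hc hlt
  rw [Phi_comm]
  apply ih _ _ hc.symm
  rw [ground_comm ℬ' 𝒜', ground_comm 𝒜 ℬ]
  exact hlt

theorem heavy_tight_card {𝒜 ℬ : Finset (Finset V)}
    (hA : ∀ A ∈ 𝒜, 2 ≤ A.card) (hB : ∀ B ∈ ℬ, 2 ≤ B.card) {x : V} (hx : wt 𝒜 ℬ x = 1 / 4)
    {A B : Finset V} (hAm : A ∈ 𝒜) (hBm : B ∈ ℬ) (h : A ∩ B = {x}) :
    A.card = 2 ∧ B.card = 2 := by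
  have h1 := wt_le hAm hBm h
  have h2 := hA A hAm
  have h3 := hB B hBm
  have h4 : A.card + B.card ≤ 4 := by
    by_contra hcon
    have h5 : 5 ≤ A.card + B.card := by omega
    have h6 : (2 : ℝ) ^ 5 ≤ 2 ^ (A.card + B.card) := pow_le_pow_right₀ (by norm_num) h5
    have h7 : (4 : ℝ) / 2 ^ (A.card + B.card) ≤ 4 / 2 ^ 5 :=
      div_le_div_of_nonneg_left (by norm_num) (by positivity) h6
    rw [hx] at h1
    norm_num at h7
    linarith
  omega

theorem heavy_eq_pair {A : Finset V} {x : V} (hx : x ∈ A) (h : A.card = 2) :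
    ∃ a, a ≠ x ∧ A = {x, a} := by
  obtain ⟨u, v, huv, rfl⟩ := card_eq_two.1 h
  rw [mem_insert, mem_singleton] at hx
  rcases hx with rfl | rfl
  · exact ⟨v, huv.symm, rfl⟩
  · exact ⟨u, huv, pair_comm _ _⟩

/-- Every member of `𝒜` is a pair at `x`, or contains all the partners in `ℬ`. -/
theorem heavy_alt {𝒜 ℬ : Finset (Finset V)} (h : Cross 𝒜 ℬ)
    (hA : ∀ A ∈ 𝒜, 2 ≤ A.card) (hB : ∀ B ∈ ℬ, 2 ≤ B.card) {x : V} (hx : wt 𝒜 ℬ x = 1 / 4)
    {A : Finset V} (hAm : A ∈ 𝒜) :
    (∃ a ∈ nbr 𝒜 x, A = {x, a}) ∨ nbr ℬ x ⊆ A := by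
  by_cases hs : nbr ℬ x ⊆ A
  · exact Or.inr hs
  · left
    rw [not_subset] at hs
    obtain ⟨b, hb, hbA⟩ := hs
    rw [mem_nbr] at hb
    obtain ⟨z, hz⟩ := h A hAm _ hb.2
    have hz' := mem_inter.1 hz
    have hzx : z = x := by
      have := hz'.2
      rw [mem_insert, mem_singleton] at this
      rcases this with h1 | h1
      · exact h1
      · exact absurd (h1 ▸ hz'.1) hbA
    subst hzx
    have hin : A ∩ {z, b} = {z} := by
      ext w
      rw [mem_inter, mem_insert, mem_singleton, mem_singleton]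
      constructor
      · rintro ⟨hw, h1 | h1⟩
        · exact h1
        · exact absurd (h1 ▸ hw) hbA
      · rintro rfl
        exact ⟨hz'.1, Or.inl rfl⟩
    obtain ⟨hc, -⟩ := heavy_tight_card hA hB hx hAm hb.2 hin
    obtain ⟨a, ha, rfl⟩ := heavy_eq_pair hz'.1 hc
    exact ⟨a, mem_nbr.2 ⟨ha, hAm⟩, rfl⟩

theorem heavy_pow_half_le {p S : ℕ} (h : p ≤ S) : (p : ℝ) / 2 ^ S ≤ 1 / 2 := by
  have h1 : (p : ℝ) * 2 ≤ 2 ^ S := by
    have h2 : p * 2 ≤ 2 ^ S := by
      rcases Nat.eq_zero_or_pos p with h0 | h0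
      · subst h0; simp
      · obtain ⟨k, rfl⟩ : ∃ k, S = k + 1 := ⟨S - 1, by omega⟩
        rw [pow_succ]
        have : k < 2 ^ k := Nat.lt_two_pow_self
        omega
    exact_mod_cast h2
  rw [div_le_div_iff₀ (by positivity) (by norm_num)]
  linarith

theorem heavy_pow_quarter_le {p S : ℕ} (h : p + 1 ≤ S) : (p : ℝ) / 2 ^ S ≤ 1 / 4 := by
  obtain ⟨k, rfl⟩ : ∃ k, S = k + 1 := ⟨S - 1, by omega⟩
  have h1 := heavy_pow_half_le (p := p) (S := k) (by omega)
  have h2 : (p : ℝ) / 2 ^ (k + 1) = (p : ℝ) / 2 ^ k / 2 := by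
    rw [pow_succ, div_div]
  rw [h2]
  linarith

/-- The sum over the partners of `x` in `𝒜`. -/
theorem heavy_sum_nbr_le {𝒜 ℬ : Finset (Finset V)} {x : V} {B : Finset V} (hB : B ∈ ℬ) (hxB : x ∉ B)
    (hN : nbr 𝒜 x ⊆ B) {T : Finset V} (hT : T ⊆ nbr 𝒜 x) :
    ∑ a ∈ T, wt 𝒜 ℬ a ≤ (T.card : ℝ) / 2 ^ B.card := by
  have h1 : ∀ a ∈ T, wt 𝒜 ℬ a ≤ 1 / 2 ^ B.card := by
    intro a ha
    have ha' := mem_nbr.1 (hT ha)
    have hin : ({x, a} : Finset V) ∩ B = {a} := by
      ext w
      rw [mem_inter, mem_insert]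
      simp only [mem_singleton]
      constructor
      · rintro ⟨h1 | h1, h2⟩
        · exact absurd (h1 ▸ h2) hxB
        · exact h1
      · rintro rfl
        exact ⟨Or.inr rfl, hN (hT ha)⟩
    have h2 := wt_le ha'.2 hB hin
    rw [card_pair ha'.1.symm] at h2
    refine h2.trans (le_of_eq ?_)
    rw [pow_add]
    field_simp
    norm_num
  calc ∑ a ∈ T, wt 𝒜 ℬ a ≤ ∑ a ∈ T, (1 : ℝ) / 2 ^ B.card := sum_le_sum h1
    _ = (T.card : ℝ) / 2 ^ B.card := by
        rw [sum_const, nsmul_eq_mul]; ring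

theorem Phi_heavy {𝒜 ℬ : Finset (Finset V)} (h : Cross 𝒜 ℬ) (ih : IH 𝒜 ℬ)
    (hA : ∀ A ∈ 𝒜, 2 ≤ A.card) (hB : ∀ B ∈ ℬ, 2 ≤ B.card) {x : V} (hx : wt 𝒜 ℬ x = 1 / 4) :
    Phi 𝒜 ℬ ≤ 1 := by
  have hx' : wt ℬ 𝒜 x = 1 / 4 := by rw [← wt_comm]; exact hx
  obtain ⟨A0, hA0, B0, hB0, hAB0, -⟩ := exists_wt_eq (𝒜 := 𝒜) (ℬ := ℬ) (x := x)
    (by rw [hx]; norm_num)
  obtain ⟨hcA0, hcB0⟩ := heavy_tight_card hA hB hx hA0 hB0 hAB0
  have hxA0 : x ∈ A0 := (mem_inter.1 (hAB0 ▸ mem_singleton_self x : x ∈ A0 ∩ B0)).1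
  have hxB0 : x ∈ B0 := (mem_inter.1 (hAB0 ▸ mem_singleton_self x : x ∈ A0 ∩ B0)).2
  obtain ⟨a0, ha0, hA0e⟩ := heavy_eq_pair hxA0 hcA0
  obtain ⟨b0, hb0, hB0e⟩ := heavy_eq_pair hxB0 hcB0
  have ha0N : a0 ∈ nbr 𝒜 x := mem_nbr.2 ⟨ha0, hA0e ▸ hA0⟩
  have hb0N : b0 ∈ nbr ℬ x := mem_nbr.2 ⟨hb0, hB0e ▸ hB0⟩
  have hab0 : a0 ≠ b0 := by
    rintro rfl
    have : a0 ∈ A0 ∩ B0 := by rw [hA0e, hB0e]; simp
    rw [hAB0, mem_singleton] at this
    exact ha0 this
  have hxg : x ∈ ground 𝒜 ℬ := by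
    unfold ground
    exact mem_union_left _ (mem_biUnion.2 ⟨A0, hA0, hxA0⟩)
  -- one of the families has all members through `x`
  by_cases hallB : ∀ B ∈ ℬ, x ∈ B
  · have := Phi_all h ih hxg hallB
    rw [hx] at this
    linarith
  by_cases hallA : ∀ A ∈ 𝒜, x ∈ A
  · have := Phi_all h.symm (heavy_ih_symm ih) (x := x) (by rw [ground_comm]; exact hxg) hallA
    rw [hx', Phi_comm] at this
    linarith
  -- largest members missing `x`
  obtain ⟨B1, hB1m, hB1max⟩ : ∃ B1 ∈ ℬ.filter (fun B => x ∉ B),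
      ∀ B ∈ ℬ.filter (fun B => x ∉ B), B.card ≤ B1.card := by
    apply exists_max_image
    push Not at hallB
    obtain ⟨B, hB', hxB⟩ := hallB
    exact ⟨B, mem_filter.2 ⟨hB', hxB⟩⟩
  obtain ⟨A1, hA1m, hA1max⟩ : ∃ A1 ∈ 𝒜.filter (fun A => x ∉ A),
      ∀ A ∈ 𝒜.filter (fun A => x ∉ A), A.card ≤ A1.card := by
    apply exists_max_image
    push Not at hallA
    obtain ⟨A, hA', hxA⟩ := hallA
    exact ⟨A, mem_filter.2 ⟨hA', hxA⟩⟩
  rw [mem_filter] at hB1m hA1m
  obtain ⟨hB1, hxB1⟩ := hB1m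
  obtain ⟨hA1, hxA1⟩ := hA1m
  set Na := nbr 𝒜 x with hNa
  set Nb := nbr ℬ x with hNb
  have hNaB1 : Na ⊆ B1 := by
    rcases heavy_alt h.symm hB hA hx' hB1 with ⟨b, -, hb⟩ | h1
    · exact absurd (by rw [hb]; simp) hxB1
    · exact h1
  have hNbA1 : Nb ⊆ A1 := by
    rcases heavy_alt h hA hB hx hA1 with ⟨b, -, hb⟩ | h1
    · exact absurd (by rw [hb]; simp) hxA1
    · exact h1
  have hpS : Na.card ≤ B1.card := card_le_card hNaB1
  have hqR : Nb.card ≤ A1.card := card_le_card hNbA1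
  have hS2 : 2 ≤ B1.card := hB B1 hB1
  have hR2 : 2 ≤ A1.card := hA A1 hA1
  have hp1 : 1 ≤ Na.card := card_pos.2 ⟨a0, ha0N⟩
  have hq1 : 1 ≤ Nb.card := card_pos.2 ⟨b0, hb0N⟩
  -- sums over the partners
  have hsumA : ∀ T, T ⊆ Na → ∑ a ∈ T, wt 𝒜 ℬ a ≤ (T.card : ℝ) / 2 ^ B1.card :=
    fun T hT => heavy_sum_nbr_le hB1 hxB1 hNaB1 hT
  have hsumB : ∀ T, T ⊆ Nb → ∑ a ∈ T, wt 𝒜 ℬ a ≤ (T.card : ℝ) / 2 ^ A1.card := by
    intro T hT
    have := heavy_sum_nbr_le (𝒜 := ℬ) (ℬ := 𝒜) hA1 hxA1 hNbA1 hT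
    simpa only [wt_comm ℬ 𝒜] using this
  -- elements outside
  have hxNa : x ∉ Na := fun hh => (mem_nbr.1 hh).1 rfl
  have hxNb : x ∉ Nb := fun hh => (mem_nbr.1 hh).1 rfl
  have hout : ∀ y, y ≠ x → y ∉ Na → y ∉ Nb → ∀ A ∈ 𝒜, ∀ B ∈ ℬ, A ∩ B = {y} →
      Nb ⊆ A ∧ Na ⊆ B := by
    intro y hyx hyNa hyNb A hA' B hB' hAB
    have hyA : y ∈ A := (mem_inter.1 (hAB ▸ mem_singleton_self y : y ∈ A ∩ B)).1
    have hyB : y ∈ B := (mem_inter.1 (hAB ▸ mem_singleton_self y : y ∈ A ∩ B)).2
    constructor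
    · rcases heavy_alt h hA hB hx hA' with ⟨a, ha, rfl⟩ | h1
      · rw [mem_insert, mem_singleton] at hyA
        rcases hyA with h2 | h2
        · exact absurd h2 hyx
        · exact absurd (h2 ▸ ha) hyNa
      · exact h1
    · rcases heavy_alt h.symm hB hA hx' hB' with ⟨a, ha, rfl⟩ | h1
      · rw [mem_insert, mem_singleton] at hyB
        rcases hyB with h2 | h2
        · exact absurd h2 hyx
        · exact absurd (h2 ▸ ha) hyNb
      · exact h1
  have hdisj : ∀ y, y ≠ x → y ∉ Na → y ∉ Nb → ∀ A ∈ 𝒜, ∀ B ∈ ℬ, A ∩ B = {y} →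
      Disjoint Na Nb ∧ Disjoint A Na ∧ Disjoint B Nb := by
    intro y hyx hyNa hyNb A hA' B hB' hAB
    obtain ⟨h1, h2⟩ := hout y hyx hyNa hyNb A hA' B hB' hAB
    refine ⟨?_, ?_, ?_⟩
    · rw [disjoint_left]
      intro z hz1 hz2
      have : z ∈ A ∩ B := mem_inter.2 ⟨h1 hz2, h2 hz1⟩
      rw [hAB, mem_singleton] at this
      exact hyNa (this ▸ hz1)
    · rw [disjoint_left]
      intro z hz1 hz2
      have : z ∈ A ∩ B := mem_inter.2 ⟨hz1, h2 hz2⟩
      rw [hAB, mem_singleton] at this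
      exact hyNa (this ▸ hz2)
    · rw [disjoint_left]
      intro z hz1 hz2
      have : z ∈ A ∩ B := mem_inter.2 ⟨h1 hz2, hz1⟩
      rw [hAB, mem_singleton] at this
      exact hyNb (this ▸ hz2)
  -- split the sum
  set X := ground 𝒜 ℬ ∪ ({x} ∪ (Na ∪ Nb)) with hX
  have hPhi : Phi 𝒜 ℬ = ∑ y ∈ X \ ({x} ∪ (Na ∪ Nb)), wt 𝒜 ℬ y +
      (wt 𝒜 ℬ x + (∑ y ∈ Na, wt 𝒜 ℬ y + ∑ y ∈ Nb \ Na, wt 𝒜 ℬ y)) := by
    rw [Phi_eq_sum (X := X) subset_union_left,
      ← sum_sdiff (s₁ := {x} ∪ (Na ∪ Nb)) (s₂ := X) subset_union_right]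
    congr 1
    rw [sum_union (by
      rw [disjoint_singleton_left, mem_union]
      rintro (h1 | h1)
      · exact hxNa h1
      · exact hxNb h1), sum_singleton, ← union_sdiff_self_eq_union, sum_union disjoint_sdiff]
  by_cases hNN : Disjoint Na Nb
  swap
  · -- the partners overlap
    have h0 : ∑ y ∈ X \ ({x} ∪ (Na ∪ Nb)), wt 𝒜 ℬ y = 0 := by
      apply sum_eq_zero
      intro y hy
      simp only [hX, mem_sdiff, mem_union, mem_singleton, not_or] at hy
      apply wt_eq_zero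
      intro A hA' B hB' hAB
      exact hNN (hdisj y hy.2.1 hy.2.2.1 hy.2.2.2 A hA' B hB' hAB).1
    have h1 := hsumA Na (Subset.refl _)
    have h2 := hsumB (Nb \ Na) sdiff_subset
    have h3 := heavy_pow_half_le hpS
    have h4 : (Nb \ Na).card + 1 ≤ A1.card := by
      have : (Nb \ Na).card < Nb.card := by
        apply card_lt_card
        rw [ssubset_iff_subset_ne]
        refine ⟨sdiff_subset, ?_⟩
        intro heq
        apply hNN
        rw [disjoint_comm]
        rw [← heq]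
        exact sdiff_disjoint
      omega
    have h5 := heavy_pow_quarter_le h4
    rw [hPhi, h0, hx]
    linarith
  -- disjoint partners
  have hsd : Nb \ Na = Nb := sdiff_eq_self_of_disjoint hNN.symm
  rw [hsd] at hPhi
  have hcardT : (Na ∪ Nb).card = Na.card + Nb.card := card_union_of_disjoint hNN
  have hrest : ∑ y ∈ X \ ({x} ∪ (Na ∪ Nb)), wt 𝒜 ℬ y ≤ 1 / 4 := by
    have hdd : Disjoint Nb Na := hNN.symm
    have hle : ∀ y ∈ X \ ({x} ∪ (Na ∪ Nb)), wt 𝒜 ℬ y ≤
        wt (res 𝒜 Nb Na) (res ℬ Na Nb) y / 2 ^ (Na ∪ Nb).card := by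
      intro y hy
      simp only [hX, mem_sdiff, mem_union, mem_singleton, not_or] at hy
      have hyT : y ∉ Na ∪ Nb := by
        rw [mem_union, not_or]; exact hy.2.2
      refine (wt_expose h (Na ∪ Nb) hyT).trans ?_
      apply div_le_div_of_nonneg_right _ (by positivity)
      have hsub : (Na ∪ Nb) \ Nb = Na := by
        rw [union_sdiff_right]
        exact sdiff_eq_self_of_disjoint hNN
      rw [sum_eq_single Nb]
      · rw [hsub]
      · intro R hR hRne
        rw [mem_powerset] at hR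
        apply wt_eq_zero
        intro A hA' B hB' hAB
        unfold res at hA' hB'
        rw [mem_image] at hA' hB'
        obtain ⟨A', hA'm, rfl⟩ := hA'
        obtain ⟨B', hB'm, rfl⟩ := hB'
        rw [mem_filter] at hA'm hB'm
        obtain ⟨hA'm, hdA⟩ := hA'm
        obtain ⟨hB'm, hdB⟩ := hB'm
        have hin : A' ∩ B' = {y} := by
          rw [← hAB]
          ext z
          rw [mem_inter, mem_inter, mem_sdiff, mem_sdiff]
          constructor
          · rintro ⟨h1, h2⟩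
            exact ⟨⟨h1, disjoint_left.1 hdB h2⟩, ⟨h2, disjoint_left.1 hdA h1⟩⟩
          · rintro ⟨h1, h2⟩
            exact ⟨h1.1, h2.1⟩
        obtain ⟨h1, h2⟩ := hout y hy.2.1 hy.2.2.1 hy.2.2.2 A' hA'm B' hB'm hin
        apply hRne
        apply Subset.antisymm
        · intro z hz
          have hz' := hR hz
          rw [mem_union] at hz'
          rcases hz' with h3 | h3
          · exact absurd hz (disjoint_left.1 hdB (h2 h3))
          · exact h3
        · intro z hz
          by_contra hzR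
          exact disjoint_left.1 hdA (h1 hz) (mem_sdiff.2 ⟨mem_union_right _ hz, hzR⟩)
      · intro hcon
        exact absurd (mem_powerset.2 subset_union_right) hcon
    have hgr : ground (res 𝒜 Nb Na) (res ℬ Na Nb) ⊆ ground 𝒜 ℬ \ (Nb ∪ Na) := ground_res 𝒜 ℬ Nb Na
    have hPle : Phi (res 𝒜 Nb Na) (res ℬ Na Nb) ≤ 1 := by
      apply ih _ _ (cross_res h hdd)
      apply card_lt_card
      rw [ssubset_iff_subset_ne]
      refine ⟨hgr.trans sdiff_subset, ?_⟩
      intro heq
      have h1 : a0 ∈ ground 𝒜 ℬ := by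
        unfold ground
        refine mem_union_left _ (mem_biUnion.2 ⟨A0, hA0, ?_⟩)
        rw [hA0e]; simp
      rw [← heq] at h1
      have h2 := hgr h1
      rw [mem_sdiff, mem_union, not_or] at h2
      exact h2.2.2 ha0N
    calc ∑ y ∈ X \ ({x} ∪ (Na ∪ Nb)), wt 𝒜 ℬ y
        ≤ ∑ y ∈ X \ ({x} ∪ (Na ∪ Nb)), wt (res 𝒜 Nb Na) (res ℬ Na Nb) y / 2 ^ (Na ∪ Nb).card :=
          sum_le_sum hle
      _ = (∑ y ∈ X \ ({x} ∪ (Na ∪ Nb)), wt (res 𝒜 Nb Na) (res ℬ Na Nb) y) / 2 ^ (Na ∪ Nb).card := by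
          rw [sum_div]
      _ ≤ (∑ y ∈ X, wt (res 𝒜 Nb Na) (res ℬ Na Nb) y) / 2 ^ (Na ∪ Nb).card := by
          apply div_le_div_of_nonneg_right _ (by positivity)
          apply sum_le_sum_of_subset_of_nonneg sdiff_subset
          intro i _ _
          exact wt_nonneg _ _ _
      _ = Phi (res 𝒜 Nb Na) (res ℬ Na Nb) / 2 ^ (Na ∪ Nb).card := by
          rw [Phi_eq_sum (X := X)]
          exact (hgr.trans sdiff_subset).trans subset_union_left
      _ ≤ 1 / 2 ^ (Na ∪ Nb).card := by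
          apply div_le_div_of_nonneg_right hPle (by positivity)
      _ ≤ 1 / 2 ^ 2 := by
          apply div_le_div_of_nonneg_left (by norm_num) (by positivity)
          apply pow_le_pow_right₀ (by norm_num)
          omega
      _ = 1 / 4 := by norm_num
  have hsA := hsumA Na (Subset.refl _)
  have hsB := hsumB Nb (Subset.refl _)
  -- `Na ∈ ℬ` kills the rest
  have hzero : (Na ∈ ℬ ∨ Nb ∈ 𝒜) → ∑ y ∈ X \ ({x} ∪ (Na ∪ Nb)), wt 𝒜 ℬ y = 0 := by
    intro hor
    apply sum_eq_zero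
    intro y hy
    simp only [hX, mem_sdiff, mem_union, mem_singleton, not_or] at hy
    apply wt_eq_zero
    intro A hA' B hB' hAB
    obtain ⟨-, h2, h3⟩ := hdisj y hy.2.1 hy.2.2.1 hy.2.2.2 A hA' B hB' hAB
    rcases hor with hor | hor
    · exact (not_disjoint_iff_nonempty_inter.2 (h A hA' Na hor)) h2
    · exact (not_disjoint_iff_nonempty_inter.2 (h Nb hor B hB')) h3.symm
  by_cases hSp : B1.card = Na.card
  · have hNaB : Na ∈ ℬ := by
      have : Na = B1 := eq_of_subset_of_card_le hNaB1 (by omega)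
      rw [this]; exact hB1
    have h0 := hzero (Or.inl hNaB)
    have hqR' : Nb.card + 1 ≤ A1.card := by
      rcases Nat.lt_or_ge Nb.card A1.card with h1 | h1
      · omega
      · exfalso
        have : Nb = A1 := eq_of_subset_of_card_le hNbA1 h1
        have h2 := h Nb (by rw [this]; exact hA1) Na hNaB
        exact (not_disjoint_iff_nonempty_inter.2 h2) hNN.symm
    have h3 := heavy_pow_half_le hpS
    have h4 := heavy_pow_quarter_le hqR'
    rw [hPhi, h0, hx]
    linarith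
  · have hpS' : Na.card + 1 ≤ B1.card := by omega
    have h3 := heavy_pow_quarter_le hpS'
    by_cases hRq : A1.card = Nb.card
    · have hNbA : Nb ∈ 𝒜 := by
        have : Nb = A1 := eq_of_subset_of_card_le hNbA1 (by omega)
        rw [this]; exact hA1
      have h0 := hzero (Or.inr hNbA)
      have h4 := heavy_pow_half_le hqR
      rw [hPhi, h0, hx]
      linarith
    · have hqR' : Nb.card + 1 ≤ A1.card := by omega
      have h4 := heavy_pow_quarter_le hqR'
      rw [hPhi, hx]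
      linarith

end Pool.Agent.Lib.MP_87840f_co
end

section

/-! # MP_87840f_co, K5: sizes (2,3), every element of a pair has degree at least 2 -/

open Finset

namespace Pool.Agent.Lib.MP_87840f_co

variable {V : Type*} [DecidableEq V]

/-- Common situation of K5 and K6. -/
structure Psi (𝒜 ℬ : Finset (Finset V)) : Prop where
  cross : Cross 𝒜 ℬ
  ih : IH 𝒜 ℬ
  hA : ∀ A ∈ 𝒜, 2 ≤ A.card
  hB : ∀ B ∈ ℬ, 3 ≤ B.card
  heavy : ∀ A ∈ 𝒜, A.card = 2 → ∀ x ∈ A, wt 𝒜 ℬ x = 1 / 8
  miss : ∀ x : V, ∃ B ∈ ℬ, x ∉ B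

/-- Pair members have weight 1/8. -/
theorem Psi.wt_pair {𝒜 ℬ : Finset (Finset V)} (h : Psi 𝒜 ℬ) {s t : V} (hst : s ≠ t)
    (hm : ({s, t} : Finset V) ∈ 𝒜) : wt 𝒜 ℬ s = 1 / 8 ∧ wt 𝒜 ℬ t = 1 / 8 :=
  ⟨h.heavy _ hm (card_pair hst) s (by simp), h.heavy _ hm (card_pair hst) t (by simp)⟩

/-- (F1) If `y` has a neighbour `s` and `y ∉ B`, then `s ∈ B` and `|B| = 3`. -/
theorem Psi.F1 {𝒜 ℬ : Finset (Finset V)} (h : Psi 𝒜 ℬ) {y s : V} (hys : y ≠ s)
    (hm : ({y, s} : Finset V) ∈ 𝒜) {B : Finset V} (hB : B ∈ ℬ) (hy : y ∉ B) :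
    s ∈ B ∧ B.card = 3 := by
  have hs : s ∈ B := by
    obtain ⟨w, hw⟩ := h.cross _ hm _ hB
    rw [mem_inter, mem_insert, mem_singleton] at hw
    rcases hw with ⟨rfl | rfl, hw⟩
    · exact absurd hw hy
    · exact hw
  refine ⟨hs, ?_⟩
  have htight : ({y, s} : Finset V) ∩ B = {s} := by
    ext w
    rw [mem_inter, mem_insert, mem_singleton]
    constructor
    · rintro ⟨rfl | rfl, hw⟩
      · exact absurd hw hy
      · rfl
    · rintro rfl
      exact ⟨Or.inr rfl, hs⟩
  have h1 := wt_le hm hB htight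
  rw [(h.wt_pair hys hm).2, card_pair hys] at h1
  have h3 := h.hB B hB
  by_contra hne
  have h4 : 4 ≤ B.card := by omega
  have h5 : (2 : ℝ) ^ 6 ≤ 2 ^ (2 + B.card) := pow_le_pow_right₀ (by norm_num) (by omega)
  have h6 : (4 : ℝ) / 2 ^ (2 + B.card) ≤ 4 / 2 ^ 6 :=
    div_le_div_of_nonneg_left (by norm_num) (by norm_num) h5
  norm_num at h6 h1
  linarith

theorem Psi.degree_two {𝒜 ℬ : Finset (Finset V)} (h : Psi 𝒜 ℬ) {x a b : V} (hab : a ≠ b)
    (hxa : x ≠ a) (hxb : x ≠ b) (ha : ({x, a} : Finset V) ∈ 𝒜) (hb : ({x, b} : Finset V) ∈ 𝒜)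
    (hdeg : ∀ t : V, (∃ s, s ≠ t ∧ ({t, s} : Finset V) ∈ 𝒜) →
      ∃ s s', s ≠ s' ∧ s ≠ t ∧ s' ≠ t ∧ ({t, s} : Finset V) ∈ 𝒜 ∧ ({t, s'} : Finset V) ∈ 𝒜) :
    Phi 𝒜 ℬ ≤ 15 / 16 := by
  obtain ⟨B, hB, hxB⟩ := h.miss x
  obtain ⟨haB, hcard⟩ := h.F1 hxa ha hB hxB
  obtain ⟨hbB, -⟩ := h.F1 hxb hb hB hxB
  -- the third element
  obtain ⟨z, hza, hzb, hBz⟩ : ∃ z, z ≠ a ∧ z ≠ b ∧ B = {a, b, z} := by
    have h1 : ((B.erase a).erase b).card = 1 := by
      rw [card_erase_of_mem (mem_erase.2 ⟨hab.symm, hbB⟩), card_erase_of_mem haB, hcard]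
    obtain ⟨z, hz⟩ := card_eq_one.1 h1
    have hz' : z ∈ (B.erase a).erase b := by rw [hz]; exact mem_singleton_self z
    rw [mem_erase, mem_erase] at hz'
    refine ⟨z, hz'.2.1, hz'.1, ?_⟩
    rw [← insert_erase haB, ← insert_erase (mem_erase.2 ⟨hab.symm, hbB⟩ : b ∈ B.erase a), hz]
  have hxz : x ≠ z := by
    rintro rfl
    exact hxB (by rw [hBz]; simp)
  have hwx := (h.wt_pair hxa ha).1
  have hwa := (h.wt_pair hxa ha).2
  have hwb := (h.wt_pair hxb hb).2
  have hxg : x ∈ ground 𝒜 ℬ := by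
    unfold ground
    rw [mem_union, mem_biUnion]
    exact Or.inl ⟨_, ha, by simp⟩
  -- every member of `𝒜` meets `B`
  have hmeet : ∀ A ∈ 𝒜, a ∈ A ∨ b ∈ A ∨ z ∈ A := by
    intro A hA
    obtain ⟨w, hw⟩ := h.cross A hA B hB
    rw [hBz, mem_inter, mem_insert, mem_insert, mem_singleton] at hw
    rcases hw with ⟨hw, rfl | rfl | rfl⟩
    · exact Or.inl hw
    · exact Or.inr (Or.inl hw)
    · exact Or.inr (Or.inr hw)
  have hinj : Function.Injective ![x, a, b, z] := by
    intro i j hij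
    fin_cases i <;> fin_cases j <;> simp_all [eq_comm]
  have hLB4 : ∀ (LA : Finset (Finset (Fin 4))), ∀ J ∈ ({{1, 2, 3}} : Finset (Finset (Fin 4))),
      ∀ A ∈ 𝒜, (∃ j ∈ J, (![x, a, b, z] : Fin 4 → V) j ∈ A) ∨
        ∃ K ∈ LA, A = K.image ![x, a, b, z] := by
    intro LA J hJ A hA
    rw [mem_singleton] at hJ
    subst hJ
    left
    rcases hmeet A hA with h1 | h1 | h1
    · exact ⟨1, by simp, h1⟩
    · exact ⟨2, by simp, h1⟩
    · exact ⟨3, by simp, h1⟩
  by_cases hxzA : ({x, z} : Finset V) ∈ 𝒜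
  · -- (1)
    have hwz := (h.wt_pair hxz hxzA).2
    have key := Phi_named h.cross h.ih ![x, a, b, z] hinj ⟨0, hxg⟩
      {{0, 1}, {0, 2}, {0, 3}} {{1, 2, 3}} (by
        intro J hJ
        rw [mem_insert, mem_insert, mem_singleton] at hJ
        rcases hJ with rfl | rfl | rfl
        · simpa using ha
        · simpa using hb
        · simpa using hxzA) (hLB4 _)
    have hc : ((univ : Finset (Fin 4 → Bool)).filter (fun c =>
        (∀ J ∈ ({{0, 1}, {0, 2}, {0, 3}} : Finset (Finset (Fin 4))), ∃ j ∈ J, c j = false) ∧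
        (∀ J ∈ ({{1, 2, 3}} : Finset (Finset (Fin 4))), ∃ j ∈ J, c j = true))).card = 7 := by
      decide +kernel
    rw [hc, Fin.sum_univ_four] at key
    simp only [Matrix.cons_val_zero, Matrix.cons_val_one, Matrix.cons_val] at key
    rw [hwx, hwa, hwb, hwz] at key
    norm_num at key ⊢
    linarith
  by_cases habA : ({a, b} : Finset V) ∈ 𝒜
  · have hinj3 : Function.Injective ![x, a, b] := by
      intro i j hij
      fin_cases i <;> fin_cases j <;> simp_all [eq_comm]
    have key := Phi_named h.cross h.ih ![x, a, b] hinj3 ⟨0, hxg⟩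
      {{0, 1}, {0, 2}, {1, 2}} ∅ (by
        intro J hJ
        rw [mem_insert, mem_insert, mem_singleton] at hJ
        rcases hJ with rfl | rfl | rfl
        · simpa using ha
        · simpa using hb
        · simpa using habA) (by simp)
    have hc : ((univ : Finset (Fin 3 → Bool)).filter (fun c =>
        (∀ J ∈ ({{0, 1}, {0, 2}, {1, 2}} : Finset (Finset (Fin 3))), ∃ j ∈ J, c j = false) ∧
        (∀ J ∈ (∅ : Finset (Finset (Fin 3))), ∃ j ∈ J, c j = true))).card = 4 := by
      decide +kernel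
    rw [hc, Fin.sum_univ_three] at key
    simp only [Matrix.cons_val_zero, Matrix.cons_val_one, Matrix.cons_val] at key
    rw [hwx, hwa, hwb] at key
    norm_num at key ⊢
    linarith
  rcases wt_eq_or_le (𝒜 := 𝒜) (ℬ := ℬ) (x := z) 5
    (fun A hA B hB _ => by have := h.hA A hA; have := h.hB B hB; omega) with ⟨hwz, ⟨A₀, hA₀, B₀, hB₀, ht⟩, hall⟩ | hwz
  · -- `z` has a neighbour
    have hwz' : wt 𝒜 ℬ z = 1 / 8 := by rw [hwz]; norm_num
    have hA2 : A₀.card = 2 := by
      have h1 := hall A₀ hA₀ B₀ hB₀ ht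
      have h2 := h.hA A₀ hA₀
      have h3 := h.hB B₀ hB₀
      omega
    have hzA₀ : z ∈ A₀ := by
      have : z ∈ A₀ ∩ B₀ := by rw [ht]; exact mem_singleton_self z
      exact (mem_inter.1 this).1
    obtain ⟨t, htz, hA₀t⟩ : ∃ t, t ≠ z ∧ A₀ = {z, t} := by
      have h1 : (A₀.erase z).card = 1 := by rw [card_erase_of_mem hzA₀, hA2]
      obtain ⟨t, ht'⟩ := card_eq_one.1 h1
      have ht2 : t ∈ A₀.erase z := by rw [ht']; exact mem_singleton_self t
      exact ⟨t, (mem_erase.1 ht2).1, by rw [← ht', insert_erase hzA₀]⟩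
    subst hA₀t
    -- the case of a neighbour among `a`, `b`
    have case1 : ({z, a} : Finset V) ∈ 𝒜 → Phi 𝒜 ℬ ≤ 15 / 16 := by
      intro hm
      have key := Phi_named h.cross h.ih ![x, a, b, z] hinj ⟨0, hxg⟩
        {{0, 1}, {0, 2}, {3, 1}} {{1, 2, 3}} (by
          intro J hJ
          rw [mem_insert, mem_insert, mem_singleton] at hJ
          rcases hJ with rfl | rfl | rfl
          · simpa using ha
          · simpa using hb
          · simpa using hm) (hLB4 _)
      have hc : ((univ : Finset (Fin 4 → Bool)).filter (fun c =>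
          (∀ J ∈ ({{0, 1}, {0, 2}, {3, 1}} : Finset (Finset (Fin 4))), ∃ j ∈ J, c j = false) ∧
          (∀ J ∈ ({{1, 2, 3}} : Finset (Finset (Fin 4))), ∃ j ∈ J, c j = true))).card = 6 := by
        decide +kernel
      rw [hc, Fin.sum_univ_four] at key
      simp only [Matrix.cons_val_zero, Matrix.cons_val_one, Matrix.cons_val] at key
      rw [hwx, hwa, hwb, hwz'] at key
      norm_num at key ⊢
      linarith
    have case2 : ({z, b} : Finset V) ∈ 𝒜 → Phi 𝒜 ℬ ≤ 15 / 16 := by
      intro hm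
      have key := Phi_named h.cross h.ih ![x, a, b, z] hinj ⟨0, hxg⟩
        {{0, 1}, {0, 2}, {3, 2}} {{1, 2, 3}} (by
          intro J hJ
          rw [mem_insert, mem_insert, mem_singleton] at hJ
          rcases hJ with rfl | rfl | rfl
          · simpa using ha
          · simpa using hb
          · simpa using hm) (hLB4 _)
      have hc : ((univ : Finset (Fin 4 → Bool)).filter (fun c =>
          (∀ J ∈ ({{0, 1}, {0, 2}, {3, 2}} : Finset (Finset (Fin 4))), ∃ j ∈ J, c j = false) ∧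
          (∀ J ∈ ({{1, 2, 3}} : Finset (Finset (Fin 4))), ∃ j ∈ J, c j = true))).card = 6 := by
        decide +kernel
      rw [hc, Fin.sum_univ_four] at key
      simp only [Matrix.cons_val_zero, Matrix.cons_val_one, Matrix.cons_val] at key
      rw [hwx, hwa, hwb, hwz'] at key
      norm_num at key ⊢
      linarith
    by_cases hta : t = a
    · subst hta
      exact case1 hA₀
    by_cases htb : t = b
    · subst htb
      exact case2 hA₀
    have htx : t ≠ x := by
      rintro rfl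
      exact hxzA (by rw [pair_comm]; exact hA₀)
    have htB : t ∉ B := by
      rw [hBz]
      simp [hta, htb, htz]
    have hwt := (h.wt_pair htz.symm hA₀).2
    have hnb : ∀ s, s ≠ t → ({t, s} : Finset V) ∈ 𝒜 → s = a ∨ s = b ∨ s = z := by
      intro s hst hm
      have := (h.F1 hst.symm hm hB htB).1
      rw [hBz] at this
      simpa using this
    have hinj5 : Function.Injective ![x, a, b, z, t] := by
      intro i j hij
      fin_cases i <;> fin_cases j <;>
      first
        | rfl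
        | exact absurd hij hxa
        | exact absurd hij.symm hxa
        | exact absurd hij hxb
        | exact absurd hij.symm hxb
        | exact absurd hij hxz
        | exact absurd hij.symm hxz
        | exact absurd hij hab
        | exact absurd hij.symm hab
        | exact absurd hij hza
        | exact absurd hij.symm hza
        | exact absurd hij hzb
        | exact absurd hij.symm hzb
        | exact absurd hij hta
        | exact absurd hij.symm hta
        | exact absurd hij htb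
        | exact absurd hij.symm htb
        | exact absurd hij htz
        | exact absurd hij.symm htz
        | exact absurd hij htx
        | exact absurd hij.symm htx
    have hLB5 : ∀ (LA : Finset (Finset (Fin 5))), ∀ J ∈ ({{1, 2, 3}} : Finset (Finset (Fin 5))),
        ∀ A ∈ 𝒜, (∃ j ∈ J, (![x, a, b, z, t] : Fin 5 → V) j ∈ A) ∨
          ∃ K ∈ LA, A = K.image ![x, a, b, z, t] := by
      intro LA J hJ A hA
      rw [mem_singleton] at hJ
      subst hJ
      left
      rcases hmeet A hA with h1 | h1 | h1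
      · exact ⟨1, by simp, h1⟩
      · exact ⟨2, by simp, h1⟩
      · exact ⟨3, by simp, h1⟩
    have case3 : ({t, a} : Finset V) ∈ 𝒜 → Phi 𝒜 ℬ ≤ 15 / 16 := by
      intro hm
      have key := Phi_named h.cross h.ih ![x, a, b, z, t] hinj5 ⟨0, hxg⟩
        {{0, 1}, {0, 2}, {3, 4}, {4, 1}} {{1, 2, 3}} (by
          intro J hJ
          rw [mem_insert, mem_insert, mem_insert, mem_singleton] at hJ
          rcases hJ with rfl | rfl | rfl | rfl
          · simpa using ha
          · simpa using hb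
          · simpa using hA₀
          · simpa using hm) (hLB5 _)
      have hc : ((univ : Finset (Fin 5 → Bool)).filter (fun c =>
          (∀ J ∈ ({{0, 1}, {0, 2}, {3, 4}, {4, 1}} : Finset (Finset (Fin 5))),
            ∃ j ∈ J, c j = false) ∧
          (∀ J ∈ ({{1, 2, 3}} : Finset (Finset (Fin 5))), ∃ j ∈ J, c j = true))).card = 9 := by
        decide +kernel
      rw [hc, Fin.sum_univ_five] at key
      simp only [Matrix.cons_val_zero, Matrix.cons_val_one, Matrix.cons_val] at key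
      rw [hwx, hwa, hwb, hwz', hwt] at key
      norm_num at key ⊢
      linarith
    have case4 : ({t, b} : Finset V) ∈ 𝒜 → Phi 𝒜 ℬ ≤ 15 / 16 := by
      intro hm
      have key := Phi_named h.cross h.ih ![x, a, b, z, t] hinj5 ⟨0, hxg⟩
        {{0, 1}, {0, 2}, {3, 4}, {4, 2}} {{1, 2, 3}} (by
          intro J hJ
          rw [mem_insert, mem_insert, mem_insert, mem_singleton] at hJ
          rcases hJ with rfl | rfl | rfl | rfl
          · simpa using ha
          · simpa using hb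
          · simpa using hA₀
          · simpa using hm) (hLB5 _)
      have hc : ((univ : Finset (Fin 5 → Bool)).filter (fun c =>
          (∀ J ∈ ({{0, 1}, {0, 2}, {3, 4}, {4, 2}} : Finset (Finset (Fin 5))),
            ∃ j ∈ J, c j = false) ∧
          (∀ J ∈ ({{1, 2, 3}} : Finset (Finset (Fin 5))), ∃ j ∈ J, c j = true))).card = 9 := by
        decide +kernel
      rw [hc, Fin.sum_univ_five] at key
      simp only [Matrix.cons_val_zero, Matrix.cons_val_one, Matrix.cons_val] at key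
      rw [hwx, hwa, hwb, hwz', hwt] at key
      norm_num at key ⊢
      linarith
    obtain ⟨s, s', hss, hst, hs't, hm, hm'⟩ := hdeg t ⟨z, htz.symm, by rw [pair_comm]; exact hA₀⟩
    rcases hnb s hst hm with rfl | rfl | rfl
    · exact case3 hm
    · exact case4 hm
    · rcases hnb s' hs't hm' with rfl | rfl | rfl
      · exact case3 hm'
      · exact case4 hm'
      · exact absurd rfl hss
  · -- `z` is light
    have key := Phi_named h.cross h.ih ![x, a, b, z] hinj ⟨0, hxg⟩
      {{0, 1}, {0, 2}} {{1, 2, 3}} (by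
        intro J hJ
        rw [mem_insert, mem_singleton] at hJ
        rcases hJ with rfl | rfl
        · simpa using ha
        · simpa using hb) (hLB4 _)
    have hc : ((univ : Finset (Fin 4 → Bool)).filter (fun c =>
        (∀ J ∈ ({{0, 1}, {0, 2}} : Finset (Finset (Fin 4))), ∃ j ∈ J, c j = false) ∧
        (∀ J ∈ ({{1, 2, 3}} : Finset (Finset (Fin 4))), ∃ j ∈ J, c j = true))).card = 8 := by
      decide +kernel
    rw [hc, Fin.sum_univ_four] at key
    simp only [Matrix.cons_val_zero, Matrix.cons_val_one, Matrix.cons_val] at key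
    rw [hwx, hwa, hwb] at key
    norm_num at key hwz ⊢
    linarith

end Pool.Agent.Lib.MP_87840f_co
end

section

/-!
# MP_87840f_co: kernel of a non 2-colourable clique
-/

open Finset

namespace Pool.Agent.Lib.MP_87840f_co

/-- If `w'` is in `A w` or the other way for all pairs of distinct elements of `S`, then `S` has
at most `2 n - 1` elements. -/
theorem ker_tournament {V : Type*} [DecidableEq V] {n : ℕ} (S : Finset V) (A : V → Finset V)
    (hA : ∀ w ∈ S, (A w).card = n) (hmem : ∀ w ∈ S, w ∈ A w)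
    (h : ∀ w ∈ S, ∀ w' ∈ S, w ≠ w' → w ∈ A w' ∨ w' ∈ A w) : S.card ≤ 2 * n - 1 := by
  classical
  rcases S.eq_empty_or_nonempty with rfl | hne
  · simp
  have h1 : S.offDiag.card ≤ 2 * (S.card * (n - 1)) := by
    have hsub : S.offDiag ⊆ (S.sigma (fun w => (A w).erase w)).image (fun p => (p.1, p.2)) ∪
        (S.sigma (fun w => (A w).erase w)).image (fun p => (p.2, p.1)) := by
      rintro ⟨w, w'⟩ hp
      rw [mem_offDiag] at hp
      obtain ⟨hw, hw', hne⟩ := hp
      rw [mem_union, mem_image, mem_image]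
      rcases h w hw w' hw' hne with h1 | h1
      · right
        exact ⟨⟨w', w⟩, mem_sigma.2 ⟨hw', mem_erase.2 ⟨hne, h1⟩⟩, rfl⟩
      · left
        exact ⟨⟨w, w'⟩, mem_sigma.2 ⟨hw, mem_erase.2 ⟨hne.symm, h1⟩⟩, rfl⟩
    have hcard : (S.sigma (fun w => (A w).erase w)).card = S.card * (n - 1) := by
      rw [card_sigma, sum_congr rfl (fun w hw => ?_), sum_const, smul_eq_mul]
      rw [card_erase_of_mem (hmem w hw), hA w hw]
    refine (card_le_card hsub).trans ((card_union_le _ _).trans ?_)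
    have a1 := card_image_le (s := S.sigma (fun w => (A w).erase w)) (f := fun p => (p.1, p.2))
    have a2 := card_image_le (s := S.sigma (fun w => (A w).erase w)) (f := fun p => (p.2, p.1))
    rw [hcard] at a1 a2
    omega
  rw [offDiag_card] at h1
  have hpos := card_pos.2 hne
  have h2 : S.card * (S.card - 1) ≤ S.card * (2 * (n - 1)) := by
    rw [Nat.mul_sub, mul_one]
    calc S.card * S.card - S.card ≤ 2 * (S.card * (n - 1)) := h1
      _ = _ := by ring
  have h3 := Nat.le_of_mul_le_mul_left h2 hpos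
  obtain ⟨w, hw⟩ := hne
  have hn : 0 < n := by
    rw [← hA w hw]
    exact card_pos.2 ⟨w, hmem w hw⟩
  omega

theorem kernel {V : Type*} [Fintype V] [DecidableEq V] {n k : ℕ} {F : Finset (Finset V)}
    (hkn : k < n)
    (hc : IsUniformClique n F) (h2 : ¬ ProperlyColourable 2 F) :
    ∃ W : Finset V, (∀ A ∈ F, (A \ W).card ≤ k) ∧
      W.card ≤ (2 * n - 1) * (2 * n - k - 1).choose n := by
  classical
  -- good sets
  set good : Finset V → Prop := fun W => ∀ C : Finset V, C.card ≤ n - k - 1 →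
    ∃ A ∈ F, A ⊆ W ∧ Disjoint A C with hgood
  have huniv : good univ := by
    intro C hC
    by_contra hcon
    push Not at hcon
    have hS : ∀ A ∈ F, (C ∩ A).Nonempty := by
      intro A hA
      have h1 := hcon A hA (subset_univ _)
      rw [not_disjoint_iff] at h1
      obtain ⟨x, hx, hx'⟩ := h1
      exact ⟨x, mem_inter.2 ⟨hx', hx⟩⟩
    obtain ⟨A, hA, hAC⟩ := cover_contains_edge hc h2 C hS
    have := card_le_card hAC
    rw [hc.1 A hA] at this
    omega
  -- minimal good set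
  obtain ⟨W, hW, hmin⟩ : ∃ W : Finset V, good W ∧ ∀ W' : Finset V, good W' → W.card ≤ W'.card := by
    have hne : ((univ : Finset (Finset V)).filter good).Nonempty :=
      ⟨univ, mem_filter.2 ⟨mem_univ _, huniv⟩⟩
    obtain ⟨W, hW, hmin⟩ := exists_min_image _ (fun W => W.card) hne
    exact ⟨W, (mem_filter.1 hW).2, fun W' hW' => hmin W' (mem_filter.2 ⟨mem_univ _, hW'⟩)⟩
  refine ⟨W, fun A hA => ?_, ?_⟩
  · by_contra hcon
    push Not at hcon
    have h1 : (A ∩ W).card ≤ n - k - 1 := by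
      have := card_inter_add_card_sdiff A W
      rw [hc.1 A hA] at this
      omega
    obtain ⟨B, hB, hBW, hdisj⟩ := hW _ h1
    obtain ⟨x, hxA, hxB⟩ := hc.2 A hA B hB
    exact (disjoint_left.1 hdisj hxB) (mem_inter.2 ⟨hxA, hBW hxB⟩)
  · have hex : ∀ w ∈ W, ∃ A ∈ F, ∃ C : Finset V, A ⊆ W ∧ w ∈ A ∧ Disjoint A C ∧
        C.card ≤ n - k - 1 ∧ (∀ B ∈ F, B ⊆ W → w ∉ B → (B ∩ C).Nonempty) := by
      intro w hw
      have hng : ¬ good (W.erase w) := by
        intro hg
        have := hmin _ hg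
        rw [card_erase_of_mem hw] at this
        have := card_pos.2 ⟨w, hw⟩
        omega
      rw [hgood] at hng
      push Not at hng
      obtain ⟨C, hC, hCall⟩ := hng
      obtain ⟨A, hA, hAW, hdisj⟩ := hW C hC
      have hCall' : ∀ B ∈ F, B ⊆ W → w ∉ B → (B ∩ C).Nonempty := by
        intro B hB hBW hwB
        have h1 : B ⊆ W.erase w := fun x hx =>
          mem_erase.2 ⟨fun h => hwB (h ▸ hx), hBW hx⟩
        have h3 := hCall B hB h1
        rw [not_disjoint_iff] at h3
        obtain ⟨x, hx, hx'⟩ := h3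
        exact ⟨x, mem_inter.2 ⟨hx, hx'⟩⟩
      refine ⟨A, hA, C, hAW, ?_, hdisj, hC, hCall'⟩
      by_contra hwA
      obtain ⟨x, hx⟩ := hCall' A hA hAW hwA
      rw [mem_inter] at hx
      exact disjoint_left.1 hdisj hx.1 hx.2
    choose! A hAF C hAW hwA hdisj hCcard hCall using hex
    -- counting
    have hS : ∀ f : V ≃ Fin (Fintype.card V),
        (W.filter (fun w => f ∈ before (A w) (C w))).card ≤ 2 * n - 1 := by
      intro f
      refine ker_tournament (n := n) _ A (fun w hw => hc.1 _ (hAF w (mem_filter.1 hw).1))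
        (fun w hw => hwA w (mem_filter.1 hw).1) ?_
      intro w hw w' hw' hne
      obtain ⟨hwW, hwf⟩ := mem_filter.1 hw
      obtain ⟨hwW', hwf'⟩ := mem_filter.1 hw'
      by_contra hcon
      push Not at hcon
      obtain ⟨x, hx⟩ := hCall w hwW (A w') (hAF w' hwW') (hAW w' hwW') hcon.1
      obtain ⟨y, hy⟩ := hCall w' hwW' (A w) (hAF w hwW) (hAW w hwW) hcon.2
      rw [mem_inter] at hx hy
      rw [mem_before] at hwf hwf'
      have l1 := hwf y hy.1 x hx.2
      have l2 := hwf' x hx.1 y hy.2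
      exact lt_irrefl _ (l1.trans l2)
    have hdc : ∑ w ∈ W, (before (A w) (C w)).card ≤ (2 * n - 1) * (Fintype.card V).factorial := by
      have h1 : ∑ w ∈ W, (before (A w) (C w)).card =
          ∑ f : V ≃ Fin (Fintype.card V), (W.filter (fun w => f ∈ before (A w) (C w))).card := by
        simp_rw [card_eq_sum_ones, sum_filter]
        rw [sum_comm]
        refine sum_congr rfl fun w _ => ?_
        rw [← sum_filter]
        refine sum_congr ?_ fun _ _ => rfl
        ext f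
        simp
      rw [h1]
      calc ∑ f : V ≃ Fin (Fintype.card V), (W.filter (fun w => f ∈ before (A w) (C w))).card
          ≤ ∑ _f : V ≃ Fin (Fintype.card V), (2 * n - 1) := sum_le_sum fun f _ => hS f
        _ = (2 * n - 1) * (Fintype.card V).factorial := by
            rw [sum_const, smul_eq_mul, mul_comm, card_univ,
              Fintype.card_equiv (Fintype.equivFin V)]
    have hlow : ∀ w ∈ W, (Fintype.card V).factorial ≤
        (before (A w) (C w)).card * (2 * n - k - 1).choose n := by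
      intro w hw
      refine (card_before_ge (A w) (C w) (hdisj w hw)).trans ?_
      refine Nat.mul_le_mul_left _ ?_
      rw [hc.1 _ (hAF w hw)]
      refine Nat.choose_le_choose n ?_
      have := hCcard w hw
      omega
    have h3 : W.card * (Fintype.card V).factorial ≤
        ((2 * n - 1) * (2 * n - k - 1).choose n) * (Fintype.card V).factorial := by
      calc W.card * (Fintype.card V).factorial
          = ∑ _w ∈ W, (Fintype.card V).factorial := by rw [sum_const, smul_eq_mul]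
        _ ≤ ∑ w ∈ W, (before (A w) (C w)).card * (2 * n - k - 1).choose n := sum_le_sum hlow
        _ = (∑ w ∈ W, (before (A w) (C w)).card) * (2 * n - k - 1).choose n := by
            rw [sum_mul]
        _ ≤ ((2 * n - 1) * (Fintype.card V).factorial) * (2 * n - k - 1).choose n :=
            Nat.mul_le_mul_right _ hdc
        _ = _ := by ring
    exact Nat.le_of_mul_le_mul_right h3 (Nat.factorial_pos _)

end Pool.Agent.Lib.MP_87840f_co
end
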