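import Mathlib
import Pool.Agent.Lib.MP_87840f_co.Defs
import Pool.Agent.Lib.MP_87840f_co.Cover
import Pool.Agent.Lib.MP_87840f_co.Kernel
import Pool.Agent.Lib.MP_87840f_co.Count
import Pool.Agent.Lib.MP_87840f_co.Binom

/-!
# J8: hub removal and the finite inequality
-/

open Finset

namespace Pool.Agent.Lib.MP_87840f_co

/-- finite inequality: combination of everything. -/
theorem finite_bound {V : Type*} [Fintype V] [DecidableEq V] {n k D : ℕ} {F : Finset (Finset V)}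
    (hk : 1 ≤ k) (hkn : k < n) (hD : 2 * k < D + 1) (hδ : (4 * k * (D + 1) : ℝ) < (n - k + 1 : ℝ))
    (hc : IsUniformClique n F) (h2 : ¬ ProperlyColourable 2 F) :
    ((F.biUnion id).card : ℝ) * (1 - 2 * k / (D + 1 : ℝ)) ≤
      (4 * n / 2 ^ k + 5 / 8 * (1 + 2 * k / (2 * n - 2 * k : ℝ)) ^ (2 * k) /
        (1 - (4 * k * (D + 1) : ℝ) / (n - k + 1 : ℝ))) * ((2 * n - 2).choose (n - 1) : ℝ) := by
  classical
  obtain ⟨W, hW1, hW2⟩ := kernel hkn hc h2
  set V0 := F.biUnion id with hV0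
  set U0 := V0 \ W with hU0
  have hex : ∀ u ∈ U0, ∃ A B : Finset V, A ∈ F ∧ B ∈ F ∧ A ∩ B = {u} := by
    intro u hu
    have hu0 : u ∈ V0 := (Finset.mem_sdiff.mp hu).1
    rw [hV0, Finset.mem_biUnion] at hu0
    obtain ⟨A', hA', huA'⟩ := hu0
    obtain ⟨A, hA, B, hB, hAB⟩ := exists_tight_pair hc h2 u ⟨A', hA', huA'⟩
    exact ⟨A, B, hA, hB, hAB⟩
  choose! A B hAF hBF hAB using hex
  have hmeet : ∀ P ∈ F, ∀ Q ∈ F, (P ∩ Q).Nonempty := by
    intro P hP Q hQ
    obtain ⟨x, hx1, hx2⟩ := hc.2 P hP Q hQ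
    exact ⟨x, Finset.mem_inter.mpr ⟨hx1, hx2⟩⟩
  have hk0 : ∀ P ∈ F, (P ∩ U0).card ≤ k := by
    intro P hP
    refine (Finset.card_le_card ?_).trans (hW1 P hP)
    intro x hx
    rw [Finset.mem_inter, hU0, Finset.mem_sdiff] at hx
    exact Finset.mem_sdiff.mpr ⟨hx.1, hx.2.2⟩
  -- the hubs
  set deg : V → Finset V := fun z => U0.filter (fun u => u ≠ z ∧ (z ∈ A u ∨ z ∈ B u)) with hdeg
  set Z := U0.filter (fun z => D < (deg z).card) with hZ
  set U := U0 \ Z with hU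
  have hUU0 : U ⊆ U0 := Finset.sdiff_subset
  have hZU0 : Z ⊆ U0 := Finset.filter_subset _ _
  have hZcard : Z.card * (D + 1) ≤ 2 * k * V0.card := by
    have h1 : Z.card * (D + 1) ≤ ∑ z ∈ Z, (deg z).card := by
      rw [← smul_eq_mul, ← Finset.sum_const]
      refine Finset.sum_le_sum fun z hz => ?_
      exact (Finset.mem_filter.mp hz).2
    have h2 : ∑ z ∈ Z, (deg z).card ≤ ∑ z ∈ U0, (deg z).card :=
      Finset.sum_le_sum_of_subset hZU0
    have h3 : ∑ z ∈ U0, (deg z).card =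
        ∑ u ∈ U0, (U0.filter (fun z => u ≠ z ∧ (z ∈ A u ∨ z ∈ B u))).card := by
      simp only [hdeg, Finset.card_filter]
      rw [Finset.sum_comm]
    have h4 : ∑ u ∈ U0, (U0.filter (fun z => u ≠ z ∧ (z ∈ A u ∨ z ∈ B u))).card ≤
        ∑ _u ∈ U0, 2 * k := by
      refine Finset.sum_le_sum fun u hu => ?_
      have h5 : U0.filter (fun z => u ≠ z ∧ (z ∈ A u ∨ z ∈ B u)) ⊆ (A u ∩ U0) ∪ (B u ∩ U0) := by
        intro z hz
        rw [Finset.mem_filter] at hz
        rw [Finset.mem_union, Finset.mem_inter, Finset.mem_inter]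
        rcases hz.2.2 with h | h
        · exact Or.inl ⟨h, hz.1⟩
        · exact Or.inr ⟨h, hz.1⟩
      have h6 := hk0 (A u) (hAF u hu)
      have h7 := hk0 (B u) (hBF u hu)
      calc _ ≤ ((A u ∩ U0) ∪ (B u ∩ U0)).card := Finset.card_le_card h5
        _ ≤ (A u ∩ U0).card + (B u ∩ U0).card := Finset.card_union_le _ _
        _ ≤ 2 * k := by omega
    rw [Finset.sum_const, smul_eq_mul] at h4
    have h5 : U0.card ≤ V0.card := Finset.card_le_card Finset.sdiff_subset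
    calc Z.card * (D + 1) ≤ U0.card * (2 * k) := by
          rw [h3] at h2
          exact h1.trans (h2.trans h4)
      _ ≤ V0.card * (2 * k) := Nat.mul_le_mul_right _ h5
      _ = 2 * k * V0.card := by ring
  -- the main count
  have hkU : ∀ P ∈ F, (P ∩ U).card ≤ k := fun P hP =>
    (Finset.card_le_card (Finset.inter_subset_inter_left hUU0)).trans (hk0 P hP)
  have hmain := main_count n k D U A B (fun u hu => hc.1 _ (hAF u (hUU0 hu)))
    (fun u hu => hc.1 _ (hBF u (hUU0 hu))) (fun u hu => hAB u (hUU0 hu))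
    (fun u hu v hv => hmeet _ (hAF u (hUU0 hu)) _ (hAF v (hUU0 hv)))
    (fun u hu v hv => hmeet _ (hAF u (hUU0 hu)) _ (hBF v (hUU0 hv)))
    (fun u hu v hv => hmeet _ (hBF u (hUU0 hu)) _ (hBF v (hUU0 hv)))
    (fun u hu => hkU _ (hAF u (hUU0 hu))) (fun u hu => hkU _ (hBF u (hUU0 hu))) hkn
    (fun z hz => by
      have hz1 := Finset.mem_sdiff.mp hz
      have hz2 : ¬ D < (deg z).card := fun h => hz1.2 (Finset.mem_filter.mpr ⟨hz1.1, h⟩)
      refine le_trans (Finset.card_le_card ?_) (not_lt.mp hz2)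
      exact Finset.filter_subset_filter _ hUU0)
  -- real numbers
  obtain ⟨N, hN⟩ : ∃ N : ℝ, N = ((2 * n - 2).choose (n - 1) : ℝ) := ⟨_, rfl⟩
  obtain ⟨η, hη⟩ : ∃ η : ℝ, η = (1 + 2 * k / (2 * n - 2 * k : ℝ)) ^ (2 * k) := ⟨_, rfl⟩
  obtain ⟨δ, hδ'⟩ : ∃ δ : ℝ, δ = (4 * k * (D + 1) : ℝ) / (n - k + 1 : ℝ) := ⟨_, rfl⟩
  rw [← hδ'] at hmain ⊢
  rw [← hη, ← hN]
  have hknR : (k : ℝ) < n := by exact_mod_cast hkn
  have hN0 : 0 < N := by
    rw [hN]
    exact_mod_cast Nat.choose_pos (by omega)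
  have hη0 : 0 < η := by
    rw [hη]
    have : (0 : ℝ) ≤ 2 * k / (2 * n - 2 * k : ℝ) := div_nonneg (by positivity) (by linarith)
    positivity
  have hδ1 : δ < 1 := by
    rw [hδ', div_lt_one (by linarith)]
    exact hδ
  have hterm : ∀ u ∈ U, 2 / (N * η) ≤
      2 * ((4 : ℝ) / 2 ^ ((A u ∩ U).card + (B u ∩ U).card)) /
        ((2 * n - (A u ∩ U).card - (B u ∩ U).card).choose (n - (A u ∩ U).card) : ℝ) := by
    intro u hu
    have hu0 := hUU0 hu
    have huAB : u ∈ A u ∩ B u := by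
      rw [hAB u hu0]
      exact Finset.mem_singleton_self u
    rw [Finset.mem_inter] at huAB
    have hr1 : 1 ≤ (A u ∩ U).card :=
      Finset.card_pos.mpr ⟨u, Finset.mem_inter.mpr ⟨huAB.1, hu⟩⟩
    have hs1 : 1 ≤ (B u ∩ U).card :=
      Finset.card_pos.mpr ⟨u, Finset.mem_inter.mpr ⟨huAB.2, hu⟩⟩
    have hrk := hkU _ (hAF u hu0)
    have hsk := hkU _ (hBF u hu0)
    have hch := choose_le_of_remove n k _ _ hr1 hs1 hrk hsk hkn
    rw [← hN, ← hη] at hch
    obtain ⟨r, hr⟩ : ∃ r, r = (A u ∩ U).card := ⟨_, rfl⟩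
    obtain ⟨s, hs⟩ : ∃ s, s = (B u ∩ U).card := ⟨_, rfl⟩
    rw [← hr, ← hs] at hch ⊢
    rw [← hr] at hr1 hrk
    rw [← hs] at hs1 hsk
    have hCpos : (0 : ℝ) < ((2 * n - r - s).choose (n - r) : ℝ) := by
      exact_mod_cast Nat.choose_pos (by omega)
    have h2pos : (0 : ℝ) < 2 ^ (r + s) := by positivity
    rw [div_le_div_iff₀ (by positivity) hCpos]
    have e1 : 2 * ((4 : ℝ) / 2 ^ (r + s)) * (N * η) = 2 * (4 * N * η) / 2 ^ (r + s) := by ring
    rw [e1, le_div_iff₀ h2pos]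
    linarith
  have hsum : (U.card : ℝ) * (2 / (N * η)) ≤ ∑ u ∈ U,
      2 * ((4 : ℝ) / 2 ^ ((A u ∩ U).card + (B u ∩ U).card)) /
        ((2 * n - (A u ∩ U).card - (B u ∩ U).card).choose (n - (A u ∩ U).card) : ℝ) := by
    rw [← nsmul_eq_mul, ← Finset.sum_const]
    exact Finset.sum_le_sum hterm
  have h1δ : 0 < 1 - δ := by linarith
  have hUc : (U.card : ℝ) ≤ 5 / 8 * η / (1 - δ) * N := by
    have h1 : (1 - δ) * ((U.card : ℝ) * (2 / (N * η))) ≤ 5 / 4 :=
      (mul_le_mul_of_nonneg_left hsum h1δ.le).trans hmain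
    have h2 : (1 - δ) * ((U.card : ℝ) * (2 / (N * η))) = (U.card : ℝ) * (1 - δ) * 2 / (N * η) := by
      ring
    rw [h2, div_le_iff₀ (by positivity)] at h1
    have h3 : 5 / 8 * η / (1 - δ) * N = 5 / 8 * η * N / (1 - δ) := by ring
    rw [h3, le_div_iff₀ h1δ]
    linarith
  have hWc : (W.card : ℝ) ≤ 4 * n / 2 ^ k * N := by
    have h1 : (W.card : ℝ) ≤ 2 * n * ((2 * n - k - 1).choose n : ℝ) := by
      have h3 : W.card ≤ 2 * n * (2 * n - k - 1).choose n :=
        hW2.trans (Nat.mul_le_mul_right _ (by omega))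
      exact_mod_cast h3
    have h2 := kernel_binom n k hk hkn
    rw [← hN] at h2
    have h3 : (2 : ℝ) ^ k = 2 * 2 ^ (k - 1) := by
      rw [← pow_succ', Nat.sub_add_cancel hk]
    have h4 : (0 : ℝ) < 2 ^ (k - 1) := by positivity
    have h5 : ((2 * n - k - 1).choose n : ℝ) ≤ N / 2 ^ (k - 1) := by
      rw [le_div_iff₀ h4]
      exact h2
    calc (W.card : ℝ) ≤ 2 * n * ((2 * n - k - 1).choose n : ℝ) := h1
      _ ≤ 2 * n * (N / 2 ^ (k - 1)) := mul_le_mul_of_nonneg_left h5 (by positivity)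
      _ = 4 * n / 2 ^ k * N := by
          rw [h3]
          field_simp
          ring
  have hZc : (Z.card : ℝ) ≤ 2 * k / (D + 1 : ℝ) * V0.card := by
    have h1 : (Z.card : ℝ) * (D + 1) ≤ 2 * k * V0.card := by exact_mod_cast hZcard
    have h2 : (0 : ℝ) < D + 1 := by positivity
    rw [div_mul_eq_mul_div, le_div_iff₀ h2]
    exact h1
  have hVc : (V0.card : ℝ) ≤ W.card + (Z.card + U.card) := by
    have h1 : V0 ⊆ W ∪ (Z ∪ U) := by
      intro x hx
      by_cases hxW : x ∈ W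
      · exact Finset.mem_union_left _ hxW
      · refine Finset.mem_union_right _ ?_
        have hx0 : x ∈ U0 := Finset.mem_sdiff.mpr ⟨hx, hxW⟩
        by_cases hxZ : x ∈ Z
        · exact Finset.mem_union_left _ hxZ
        · exact Finset.mem_union_right _ (Finset.mem_sdiff.mpr ⟨hx0, hxZ⟩)
    have h2 := (Finset.card_le_card h1).trans (Finset.card_union_le _ _)
    have h3 := Finset.card_union_le Z U
    have h4 : V0.card ≤ W.card + (Z.card + U.card) := by omega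
    exact_mod_cast h4
  rw [add_mul, mul_sub, mul_one]
  have h9 : (V0.card : ℝ) * (2 * k / (D + 1 : ℝ)) = 2 * k / (D + 1 : ℝ) * V0.card := mul_comm _ _
  rw [h9]
  linarith

end Pool.Agent.Lib.MP_87840f_co
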