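import Mathlib

/-!
# Linear algebra for the strongly colourable case

`Ω` is a set of `2k+1` colours.  A *system* assigns to each `k`-set `K` of colours and each
colour `i ∉ K` a point `y K i`, subject to two rules.
-/

open Finset

namespace Pool.Agent.Lib.MP_87840f_co.KS

variable {Ω V : Type*} [Fintype Ω] [DecidableEq Ω] [DecidableEq V]

/-- the rules a system of points satisfies -/
structure Sys (k : ℕ) (y : Finset Ω → Ω → V) : Prop where
  one : ∀ (K L : Finset Ω) (i : Ω), K.card = k → L.card = k → Disjoint K L → i ∉ K → i ∉ L →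
    y K i = y L i
  two : ∀ (P : Finset Ω) (a b e : Ω), P.card + 1 = k → a ∉ P → b ∉ P → e ∉ P → a ≠ b → a ≠ e →
    b ≠ e → y (insert b P) a = y (insert e P) a ∨ y (insert a P) b = y (insert e P) b

/-- the relations -/
def Rel (k : ℕ) (α : Finset Ω → ZMod 2) : Prop :=
  ∀ P : Finset Ω, P.card + 1 = k → ∑ j ∈ Pᶜ, α (insert j P) = 0

/-- `α` only sees the point `v` in colour `l` -/
def Sup (k : ℕ) (y : Finset Ω → Ω → V) (α : Finset Ω → ZMod 2) (l : Ω) (v : V) : Prop :=
  ∀ K : Finset Ω, K.card = k → l ∉ K → α K ≠ 0 → y K l = v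

/-- the projection to the point `v` of colour `l` -/
def proj (y : Finset Ω → Ω → V) (l : Ω) (v : V) (α : Finset Ω → ZMod 2) (K : Finset Ω) : ZMod 2 :=
  if l ∈ K then ∑ j ∈ Kᶜ, (if y (insert j (K.erase l)) l = v then α (insert j (K.erase l)) else 0)
  else (if y K l = v then α K else 0)

/-- a symmetric function summed over the ordered pairs of distinct elements vanishes mod 2 -/
theorem sum_offdiag {ι : Type*} [DecidableEq ι] (s : Finset ι) (f : ι → ι → ZMod 2)
    (hf : ∀ a b, f a b = f b a) : ∑ a ∈ s, ∑ b ∈ s.erase a, f a b = 0 := by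
  induction s using Finset.induction_on with
  | empty => simp
  | insert a s ha ih =>
    rw [sum_insert ha, erase_insert ha]
    have h1 : ∀ b ∈ s, ∑ c ∈ (insert a s).erase b, f b c = f b a + ∑ c ∈ s.erase b, f b c := by
      intro b hb
      have hab : a ≠ b := fun h => ha (h ▸ hb)
      rw [erase_insert_of_ne hab, sum_insert]
      intro h
      exact ha (mem_of_mem_erase h)
    rw [sum_congr rfl h1, sum_add_distrib, ih, add_zero]
    rw [sum_congr rfl (fun b _ => hf a b)]
    exact CharTwo.add_self_eq_zero _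

theorem proj_rel (k : ℕ) (y : Finset Ω → Ω → V) (l : Ω) (v : V) (α : Finset Ω → ZMod 2) :
    Rel k (proj y l v α) := by
  intro P _
  by_cases hl : l ∈ P
  · have h1 : ∀ j ∈ Pᶜ, proj y l v α (insert j P) = ∑ m ∈ Pᶜ.erase j,
        (if y (insert m (insert j (P.erase l))) l = v then α (insert m (insert j (P.erase l)))
          else 0) := by
      intro j hj
      rw [mem_compl] at hj
      have hjl : j ≠ l := fun h => hj (h ▸ hl)
      unfold proj
      rw [if_pos (mem_insert_of_mem hl), erase_insert_of_ne hjl, compl_insert]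
    rw [sum_congr rfl h1]
    refine sum_offdiag (Pᶜ) (fun j m =>
      (if y (insert m (insert j (P.erase l))) l = v then α (insert m (insert j (P.erase l)))
          else 0)) ?_
    intro a b
    simp only [Finset.insert_comm a b]
  · have hlc : l ∈ Pᶜ := mem_compl.mpr hl
    rw [← add_sum_erase _ _ hlc]
    have h0 : proj y l v α (insert l P) = ∑ m ∈ Pᶜ.erase l,
        (if y (insert m P) l = v then α (insert m P) else 0) := by
      unfold proj
      rw [if_pos (mem_insert_self l P), erase_insert hl, compl_insert]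
    have h1 : ∀ j ∈ Pᶜ.erase l, proj y l v α (insert j P) =
        (if y (insert j P) l = v then α (insert j P) else 0) := by
      intro j hj
      have hjl : j ≠ l := ne_of_mem_erase hj
      unfold proj
      rw [if_neg]
      rw [mem_insert]
      rintro (h | h)
      · exact hjl h.symm
      · exact hl h
    rw [h0, sum_congr rfl h1]
    exact CharTwo.add_self_eq_zero _

theorem proj_sup_self (k : ℕ) (y : Finset Ω → Ω → V) (l : Ω) (v : V) (α : Finset Ω → ZMod 2) :
    Sup k y (proj y l v α) l v := by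
  intro K _ hl h
  unfold proj at h
  rw [if_neg hl] at h
  by_contra hne
  rw [if_neg hne] at h
  exact h rfl

theorem proj_val (y : Finset Ω → Ω → V) (l : Ω) (v : V) (α : Finset Ω → ZMod 2) (K : Finset Ω)
    (hl : l ∉ K) (hv : y K l = v) : proj y l v α K = α K := by
  unfold proj
  rw [if_neg hl, if_pos hv]

theorem proj_sup {k : ℕ} {y : Finset Ω → Ω → V} (hy : Sys k y) {α : Finset Ω → ZMod 2}
    (hα : Rel k α) {m : Ω} {d : V} (hm : Sup k y α m d) (l : Ω) (v : V) (hml : m ≠ l) :
    Sup k y (proj y l v α) m d := by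
  intro K hK hmK h
  by_cases hl : l ∈ K
  · unfold proj at h
    rw [if_pos hl] at h
    by_contra hd
    apply h
    set P := K.erase l with hP
    have hlP : l ∉ P := notMem_erase l K
    have hKP : insert l P = K := insert_erase hl
    have hmP : m ∉ P := fun h' => hmK (mem_of_mem_erase h')
    have hPc : P.card + 1 = k := by
      rw [hP, card_erase_of_mem hl, hK]
      have : 0 < K.card := card_pos.mpr ⟨l, hl⟩
      omega
    -- the value at `K` vanishes
    have hK0 : α K = 0 := by
      by_contra h0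
      exact hd (hm K hK hmK h0)
    have hrel := hα P hPc
    rw [← add_sum_erase _ _ (mem_compl.mpr hlP), hKP, hK0, zero_add] at hrel
    have hc : Kᶜ = Pᶜ.erase l := by rw [← hKP, compl_insert]
    rw [hc]
    have key : ∀ j ∈ Pᶜ.erase l, (if y (insert j P) l = v then α (insert j P) else 0) =
        (if y (insert m P) l = v then (1 : ZMod 2) else 0) * α (insert j P) := by
      intro j hj
      have hjl : j ≠ l := ne_of_mem_erase hj
      have hjP : j ∉ P := mem_compl.mp (mem_of_mem_erase hj)
      by_cases h0 : α (insert j P) = 0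
      · rw [h0]; simp
      · by_cases hjm : j = m
        · subst hjm
          split_ifs <;> simp
        · have hmj : m ∉ insert j P := by
            rw [mem_insert]
            rintro (h' | h')
            · exact hjm h'.symm
            · exact hmP h'
          have hcj : (insert j P).card = k := by
            rw [card_insert_of_notMem hjP]; exact hPc
          have e1 : y (insert j P) m = d := hm _ hcj hmj h0
          rcases hy.two P m l j hPc hmP hlP hjP hml (fun h' => hjm h'.symm) (fun h' => hjl h'.symm)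
            with h2 | h2
          · exfalso
            apply hd
            rw [← hKP, h2, e1]
          · rw [h2]
            split_ifs <;> simp
    rw [sum_congr rfl key, ← mul_sum, hrel, mul_zero]
  · unfold proj at h
    rw [if_neg hl] at h
    split_ifs at h with h1
    · exact hm K hK hmK h
    · exact absurd rfl h

/-- the bilinear form -/
def form (k : ℕ) (i : Ω) (α β : Finset Ω → ZMod 2) : ZMod 2 :=
  ∑ K ∈ powersetCard k ({i}ᶜ : Finset Ω), α K * β ({i}ᶜ \ K)

theorem mem_pc {k : ℕ} (hΩ : Fintype.card Ω = 2 * k + 1) {i : Ω} {K : Finset Ω}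
    (hK : K ∈ powersetCard k ({i}ᶜ : Finset Ω)) :
    K.card = k ∧ i ∉ K ∧ ({i}ᶜ \ K).card = k ∧ i ∉ ({i}ᶜ \ K : Finset Ω) ∧
      Disjoint K ({i}ᶜ \ K) ∧ ({i}ᶜ \ K : Finset Ω) ∈ powersetCard k ({i}ᶜ : Finset Ω) ∧
      ({i}ᶜ \ ({i}ᶜ \ K) : Finset Ω) = K := by
  rw [mem_powersetCard] at hK
  obtain ⟨h1, h2⟩ := hK
  have hi : i ∉ K := fun h => by
    have := h1 h
    rw [mem_compl, mem_singleton] at this
    exact this rfl
  have hc : ({i}ᶜ \ K : Finset Ω).card = k := by
    rw [card_sdiff_of_subset h1, card_compl, card_singleton, hΩ, h2]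
    omega
  refine ⟨h2, hi, hc, ?_, disjoint_sdiff, ?_, ?_⟩
  · intro h
    have := (mem_sdiff.mp h).1
    rw [mem_compl, mem_singleton] at this
    exact this rfl
  · rw [mem_powersetCard]
    exact ⟨sdiff_subset, hc⟩
  · exact Finset.sdiff_sdiff_eq_self h1

theorem form_comm {k : ℕ} (hΩ : Fintype.card Ω = 2 * k + 1) (i : Ω) (α β : Finset Ω → ZMod 2) :
    form k i α β = form k i β α := by
  unfold form
  refine sum_bij' (fun K _ => {i}ᶜ \ K) (fun K _ => {i}ᶜ \ K) ?_ ?_ ?_ ?_ ?_
  · intro K hK
    exact (mem_pc hΩ hK).2.2.2.2.2.1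
  · intro K hK
    exact (mem_pc hΩ hK).2.2.2.2.2.1
  · intro K hK
    exact (mem_pc hΩ hK).2.2.2.2.2.2
  · intro K hK
    exact (mem_pc hΩ hK).2.2.2.2.2.2
  · intro K hK
    rw [(mem_pc hΩ hK).2.2.2.2.2.2, mul_comm]

theorem form_self {k : ℕ} (hk : 1 ≤ k) (hΩ : Fintype.card Ω = 2 * k + 1) (i : Ω)
    (α : Finset Ω → ZMod 2) : form k i α α = 0 := by
  unfold form
  refine sum_involution (fun K _ => {i}ᶜ \ K) ?_ ?_ ?_ ?_
  · intro K hK
    rw [(mem_pc hΩ hK).2.2.2.2.2.2, mul_comm]
    exact CharTwo.add_self_eq_zero _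
  · intro K hK _ h
    obtain ⟨h1, _, _, _, h2, _, _⟩ := mem_pc hΩ hK
    rw [h, disjoint_self, bot_eq_empty] at h2
    rw [h2, card_empty] at h1
    omega
  · intro K hK
    exact (mem_pc hΩ hK).2.2.2.2.2.1
  · intro K hK
    exact (mem_pc hΩ hK).2.2.2.2.2.2

omit [DecidableEq V] in
theorem form_eq_zero {k : ℕ} (hΩ : Fintype.card Ω = 2 * k + 1) {y : Finset Ω → Ω → V}
    (hy : Sys k y) {α β : Finset Ω → ZMod 2} {l : Ω} {v v' : V} (hα : Sup k y α l v)
    (hβ : Sup k y β l v') (hv : v ≠ v') : form k l α β = 0 := by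
  unfold form
  refine sum_eq_zero fun K hK => ?_
  obtain ⟨h1, h2, h3, h4, h5, _, _⟩ := mem_pc hΩ hK
  by_contra hne
  have hα0 : α K ≠ 0 := left_ne_zero_of_mul hne
  have hβ0 : β ({l}ᶜ \ K) ≠ 0 := right_ne_zero_of_mul hne
  apply hv
  rw [← hα K h1 h2 hα0, ← hβ _ h3 h4 hβ0]
  exact hy.one _ _ _ h1 h3 h5 h2 h4

theorem form_proj {k : ℕ} (hΩ : Fintype.card Ω = 2 * k + 1) {y : Finset Ω → Ω → V}
    (hy : Sys k y) (α : Finset Ω → ZMod 2) {β : Finset Ω → ZMod 2} {l : Ω} {v : V}
    (hβ : Sup k y β l v) : form k l (proj y l v α) β = form k l α β := by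
  unfold form
  refine sum_congr rfl fun K hK => ?_
  obtain ⟨h1, h2, h3, h4, h5, _, _⟩ := mem_pc hΩ hK
  by_cases h0 : β ({l}ᶜ \ K) = 0
  · rw [h0, mul_zero, mul_zero]
  · rw [proj_val]
    · exact h2
    · rw [← hβ _ h3 h4 h0]
      exact hy.one _ _ _ h1 h3 h5 h2 h4

end Pool.Agent.Lib.MP_87840f_co.KS
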