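import Pool.Agent.Lib.MP_87840f_co.KSCount
import Pool.Agent.Lib.MP_87840f_co.Constr

/-!
# 3-chromatic cliques with a strong colouring in `2n - 1` colours
-/

open Finset

namespace Pool.Agent.Lib.MP_87840f_co.KS

/-- the least number of colours of a strong colouring -/
theorem colours_ge {n q : ℕ} (hn : 2 ≤ n) {F : Finset (Finset ℕ)}
    (hc : IsUniformClique n F) (h2 : ¬ ProperlyColourable 2 F) {c : ℕ → Fin q}
    (hinj : ∀ A ∈ F, Set.InjOn c (A : Set ℕ)) : 2 * n - 1 ≤ q := by
  by_contra hlt
  push Not at hlt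
  apply h2
  refine ⟨fun x => if (c x : ℕ) < n - 1 then 0 else 1, fun A hA => ?_⟩
  rintro ⟨i, hi⟩
  have hcard : (A.image (fun x => (c x : ℕ))).card = n := by
    rw [card_image_of_injOn, hc.1 A hA]
    intro x hx x' hx' h
    exact hinj A hA hx hx' (Fin.ext h)
  by_cases h : i = 0
  · have hsub : A.image (fun x => (c x : ℕ)) ⊆ range (n - 1) := by
      intro z hz
      rw [mem_image] at hz
      obtain ⟨x, hx, rfl⟩ := hz
      have h1 := hi x hx
      beta_reduce at h1
      rw [h] at h1
      rw [mem_range]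
      by_contra h3
      rw [if_neg h3] at h1
      exact absurd h1 (by decide)
    have := card_le_card hsub
    rw [hcard, card_range] at this
    omega
  · have hsub : A.image (fun x => (c x : ℕ)) ⊆ Ico (n - 1) q := by
      intro z hz
      rw [mem_image] at hz
      obtain ⟨x, hx, rfl⟩ := hz
      have h1 := hi x hx
      beta_reduce at h1
      rw [mem_Ico]
      refine ⟨?_, (c x).2⟩
      by_contra h3
      rw [if_pos (not_le.mp h3)] at h1
      exact h h1.symm
    have := card_le_card hsub
    rw [hcard, Nat.card_Ico] at this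
    omega

section

variable {k : ℕ} {F : Finset (Finset ℕ)} {c : ℕ → Fin (2 * k + 1)}

/-- every `n`-set of colours is the colour set of an edge -/
theorem exists_edge (hc : IsUniformClique (k + 1) F) (h2 : ¬ ProperlyColourable 2 F)
    (hinj : ∀ A ∈ F, Set.InjOn c (A : Set ℕ)) (I : Finset (Fin (2 * k + 1)))
    (hI : I.card = k + 1) : ∃ A ∈ F, A.image c = I := by
  classical
  by_contra hne
  push Not at hne
  apply h2
  refine ⟨fun x => if c x ∈ I then 0 else 1, fun A hA => ?_⟩
  rintro ⟨i, hi⟩
  have hcard : (A.image c).card = k + 1 := by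
    rw [card_image_of_injOn (hinj A hA), hc.1 A hA]
  by_cases h : i = 0
  · apply hne A hA
    refine eq_of_subset_of_card_le ?_ (by rw [hcard, hI])
    intro z hz
    rw [mem_image] at hz
    obtain ⟨x, hx, rfl⟩ := hz
    have h1 := hi x hx
    beta_reduce at h1
    rw [h] at h1
    by_contra h3
    rw [if_neg h3] at h1
    exact absurd h1 (by decide)
  · have hsub : A.image c ⊆ Iᶜ := by
      intro z hz
      rw [mem_image] at hz
      obtain ⟨x, hx, rfl⟩ := hz
      have h1 := hi x hx
      beta_reduce at h1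
      rw [mem_compl]
      intro h3
      rw [if_pos h3] at h1
      exact h h1.symm
    have := card_le_card hsub
    rw [hcard, card_compl, Fintype.card_fin, hI] at this
    omega

/-- an edge is determined by its colour set -/
theorem edge_unique (hc : IsUniformClique (k + 1) F) (h2 : ¬ ProperlyColourable 2 F)
    (hinj : ∀ A ∈ F, Set.InjOn c (A : Set ℕ)) {A B : Finset ℕ} (hA : A ∈ F) (hB : B ∈ F)
    (hAB : A.image c = B.image c) : A = B := by
  refine eq_of_subset_of_card_le ?_ (by rw [hc.1 A hA, hc.1 B hB])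
  intro u hu
  have hIc : (A.image c).card = k + 1 := by
    rw [card_image_of_injOn (hinj A hA), hc.1 A hA]
  have hKc : ((A.image c)ᶜ : Finset (Fin (2 * k + 1))).card = k := by
    rw [card_compl, Fintype.card_fin, hIc]
    omega
  have hiK : c u ∉ (A.image c)ᶜ := by
    rw [mem_compl, not_not]
    exact mem_image_of_mem c hu
  have hJc : (insert (c u) (A.image c)ᶜ).card = k + 1 := by
    rw [card_insert_of_notMem hiK, hKc]
  obtain ⟨D, hD, hDJ⟩ := exists_edge hc h2 hinj _ hJc
  have key : ∀ z, c z ∈ A.image c → z ∈ D → c z = c u := by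
    intro z hz1 hz2
    have h5 : c z ∈ D.image c := mem_image_of_mem c hz2
    rw [hDJ, mem_insert] at h5
    rcases h5 with h5 | h5
    · exact h5
    · rw [mem_compl] at h5
      exact absurd hz1 h5
  obtain ⟨z, hz1, hz2⟩ := hc.2 _ hA _ hD
  have h7 := key z (mem_image_of_mem c hz1) hz2
  have h8 : z = u := hinj A hA hz1 hu h7
  obtain ⟨z', hz1', hz2'⟩ := hc.2 _ hB _ hD
  have h7' := key z' (by rw [hAB]; exact mem_image_of_mem c hz1') hz2'
  rw [h8] at hz2
  have h8' : z' = u := hinj D hD hz2' hz2 h7'
  rw [← h8']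
  exact hz1'

/-- the number of edges -/
theorem card_edges' (hc : IsUniformClique (k + 1) F) (h2 : ¬ ProperlyColourable 2 F)
    (hinj : ∀ A ∈ F, Set.InjOn c (A : Set ℕ)) : F.card = (2 * k + 1).choose (k + 1) := by
  have h3 : F.image (fun A => A.image c) =
      powersetCard (k + 1) (univ : Finset (Fin (2 * k + 1))) := by
    ext I
    rw [mem_image, mem_powersetCard]
    constructor
    · rintro ⟨A, hA, rfl⟩
      exact ⟨subset_univ _, by rw [card_image_of_injOn (hinj A hA), hc.1 A hA]⟩
    · rintro ⟨_, hI⟩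
      exact exists_edge hc h2 hinj I hI
  rw [← card_image_of_injOn (s := F) (f := fun A => A.image c), h3, card_powersetCard, card_univ,
    Fintype.card_fin]
  intro A hA B hB h
  exact edge_unique hc h2 hinj hA hB h

/-- the system of points of a clique -/
theorem exists_sys (hk : 1 ≤ k) (hc : IsUniformClique (k + 1) F) (h2 : ¬ ProperlyColourable 2 F)
    (hinj : ∀ A ∈ F, Set.InjOn c (A : Set ℕ)) :
    ∃ y : Finset (Fin (2 * k + 1)) → Fin (2 * k + 1) → ℕ, Sys k y ∧
      F.biUnion id ⊆ verts k y := by
  classical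
  have hE : ∀ I : Finset (Fin (2 * k + 1)), ∃ A : Finset ℕ, I.card = k + 1 →
      A ∈ F ∧ A.image c = I := by
    intro I
    by_cases hI : I.card = k + 1
    · obtain ⟨A, h3, h4⟩ := exists_edge hc h2 hinj I hI
      exact ⟨A, fun _ => ⟨h3, h4⟩⟩
    · exact ⟨∅, fun h => absurd h hI⟩
  choose E hE using hE
  have hx : ∀ (I : Finset (Fin (2 * k + 1))) (i : Fin (2 * k + 1)), ∃ u : ℕ,
      I.card = k + 1 → i ∈ I → u ∈ E I ∧ c u = i := by
    intro I i
    by_cases hI : I.card = k + 1
    · by_cases hi : i ∈ I
      · have h3 := (hE I hI).2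
        have h4 : i ∈ (E I).image c := by rw [h3]; exact hi
        rw [mem_image] at h4
        obtain ⟨u, hu, hu'⟩ := h4
        exact ⟨u, fun _ _ => ⟨hu, hu'⟩⟩
      · exact ⟨0, fun _ h => absurd h hi⟩
    · exact ⟨0, fun h => absurd h hI⟩
  choose x hx using hx
  -- a point of an edge is determined by its colour
  have hux : ∀ (I : Finset (Fin (2 * k + 1))) (u : ℕ), I.card = k + 1 → u ∈ E I →
      u = x I (c u) := by
    intro I u hI hu
    have h3 := (hE I hI).2
    have h4 : c u ∈ I := by rw [← h3]; exact mem_image_of_mem c hu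
    obtain ⟨h5, h6⟩ := hx I (c u) hI h4
    exact hinj (E I) (hE I hI).1 hu h5 h6.symm
  have hmem : ∀ (I : Finset (Fin (2 * k + 1))) (u : ℕ), I.card = k + 1 → u ∈ E I → c u ∈ I := by
    intro I u hI hu
    have h3 := (hE I hI).2
    rw [← h3]
    exact mem_image_of_mem c hu
  have hone : ∀ (K L : Finset (Fin (2 * k + 1))) (i : Fin (2 * k + 1)), K.card = k →
      L.card = k → Disjoint K L → i ∉ K → i ∉ L → x (insert i K) i = x (insert i L) i := by
    intro K L i hK hL hd hiK hiL
    have h3 : (insert i K).card = k + 1 := by rw [card_insert_of_notMem hiK, hK]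
    have h4 : (insert i L).card = k + 1 := by rw [card_insert_of_notMem hiL, hL]
    obtain ⟨u, hu1, hu2⟩ := hc.2 _ (hE _ h3).1 _ (hE _ h4).1
    have h5 := hmem _ _ h3 hu1
    have h6 := hmem _ _ h4 hu2
    have h7 : c u = i := by
      rw [mem_insert] at h5 h6
      rcases h5 with h5 | h5
      · exact h5
      · rcases h6 with h6 | h6
        · exact h6
        · exact absurd h6 (disjoint_left.mp hd h5)
    have h8 := hux _ _ h3 hu1
    have h9 := hux _ _ h4 hu2
    rw [h7] at h8 h9
    rw [← h8, ← h9]
  refine ⟨fun K i => x (insert i K) i, ⟨hone, ?_⟩, ?_⟩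
  · intro P a b e hP ha hb he hab hae hbe
    set Q : Finset (Fin (2 * k + 1)) := (insert a (insert b (insert e P)))ᶜ with hQ
    have haQ : a ∉ Q := by
      rw [hQ, mem_compl, not_not]; simp
    have hbQ : b ∉ Q := by
      rw [hQ, mem_compl, not_not]; simp
    have heQ : e ∉ Q := by
      rw [hQ, mem_compl, not_not]; simp
    have hPQ : Disjoint P Q := by
      rw [disjoint_left]
      intro z hz hz'
      rw [hQ, mem_compl] at hz'
      exact hz' (by simp [hz])
    have hQc : Q.card + 1 = k := by
      rw [hQ, card_compl, Fintype.card_fin, card_insert_of_notMem, card_insert_of_notMem,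
        card_insert_of_notMem he]
      · omega
      · rw [mem_insert]
        rintro (h | h)
        · exact hbe h
        · exact hb h
      · rw [mem_insert, mem_insert]
        rintro (h | h | h)
        · exact hab h
        · exact hae h
        · exact ha h
    have hI : (insert a (insert b P)).card = k + 1 := by
      rw [card_insert_of_notMem, card_insert_of_notMem hb]
      · omega
      · rw [mem_insert]
        rintro (h | h)
        · exact hab h
        · exact ha h
    have hJ : (insert a (insert b Q)).card = k + 1 := by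
      rw [card_insert_of_notMem, card_insert_of_notMem hbQ]
      · omega
      · rw [mem_insert]
        rintro (h | h)
        · exact hab h
        · exact haQ h
    obtain ⟨u, hu1, hu2⟩ := hc.2 _ (hE _ hI).1 _ (hE _ hJ).1
    have h5 := hmem _ _ hI hu1
    have h6 := hmem _ _ hJ hu2
    have h7 : c u = a ∨ c u = b := by
      rw [mem_insert, mem_insert] at h5 h6
      rcases h5 with h5 | h5 | h5
      · exact Or.inl h5
      · exact Or.inr h5
      · rcases h6 with h6 | h6 | h6
        · exact Or.inl h6
        · exact Or.inr h6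
        · exact absurd h6 (disjoint_left.mp hPQ h5)
    have h8 := hux _ _ hI hu1
    have h9 := hux _ _ hJ hu2
    have hd : ∀ z : Fin (2 * k + 1), z ≠ e → z ∉ P → Disjoint (insert e P) (insert z Q) := by
      intro z hz hzP
      rw [disjoint_left]
      intro t ht ht'
      rw [mem_insert] at ht ht'
      rcases ht with rfl | ht
      · rcases ht' with rfl | ht'
        · exact hz rfl
        · exact heQ ht'
      · rcases ht' with rfl | ht'
        · exact hzP ht
        · exact disjoint_left.mp hPQ ht ht'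
    rcases h7 with h7 | h7
    · left
      rw [h7] at h8 h9
      rw [← h8]
      rw [hone (insert e P) (insert b Q) a]
      · exact h9
      · rw [card_insert_of_notMem he]; exact hP
      · rw [card_insert_of_notMem hbQ]; exact hQc
      · exact hd b hbe hb
      · rw [mem_insert]
        rintro (h | h)
        · exact hae h
        · exact ha h
      · rw [mem_insert]
        rintro (h | h)
        · exact hab h
        · exact haQ h
    · right
      rw [h7] at h8 h9
      rw [Finset.insert_comm b a P, ← h8]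
      rw [hone (insert e P) (insert a Q) b]
      · rw [Finset.insert_comm b a Q]
        exact h9
      · rw [card_insert_of_notMem he]; exact hP
      · rw [card_insert_of_notMem haQ]; exact hQc
      · exact hd a hae ha
      · rw [mem_insert]
        rintro (h | h)
        · exact hbe h
        · exact hb h
      · rw [mem_insert]
        rintro (h | h)
        · exact hab h.symm
        · exact hbQ h
  · intro u hu
    rw [mem_biUnion] at hu
    obtain ⟨A, hA, hu⟩ := hu
    rw [id] at hu
    have hIc : (A.image c).card = k + 1 := by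
      rw [card_image_of_injOn (hinj A hA), hc.1 A hA]
    have hKc : ((A.image c)ᶜ : Finset (Fin (2 * k + 1))).card = k := by
      rw [card_compl, Fintype.card_fin, hIc]
      omega
    have hiK : c u ∉ (A.image c)ᶜ := by
      rw [mem_compl, not_not]
      exact mem_image_of_mem c hu
    have hJc : (insert (c u) (A.image c)ᶜ).card = k + 1 := by
      rw [card_insert_of_notMem hiK, hKc]
    obtain ⟨z, hz1, hz2⟩ := hc.2 _ hA _ (hE _ hJc).1
    have h5 := hmem _ _ hJc hz2
    have h7 : c z = c u := by
      rw [mem_insert] at h5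
      rcases h5 with h5 | h5
      · exact h5
      · rw [mem_compl] at h5
        exact absurd (mem_image_of_mem c hz1) h5
    have h8 : z = u := hinj A hA hz1 hu h7
    have h9 := hux _ _ hJc hz2
    rw [h7, h8] at h9
    unfold verts
    rw [mem_image]
    refine ⟨((A.image c)ᶜ, c u), ?_, h9.symm⟩
    rw [mem_pairs, mem_pc_iff]
    exact ⟨hKc, hiK⟩

end

/-- the upper bound -/
theorem card_le {n : ℕ} (hn : 2 ≤ n) {F : Finset (Finset ℕ)} (hc : IsUniformClique n F)
    (h2 : ¬ ProperlyColourable 2 F) {c : ℕ → Fin (2 * n - 1)}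
    (hinj : ∀ A ∈ F, Set.InjOn c (A : Set ℕ)) :
    2 * (F.biUnion id).card ≤ 2 * (2 * n - 2) + (2 * n - 2).choose (n - 1) := by
  obtain ⟨k, rfl⟩ : ∃ k, n = k + 1 := ⟨n - 1, by omega⟩
  have hk : 1 ≤ k := by omega
  have e1 : 2 * (k + 1) - 1 = 2 * k + 1 := by omega
  have e2 : 2 * (k + 1) - 2 = 2 * k := by omega
  rw [e2, Nat.add_sub_cancel]
  set c' : ℕ → Fin (2 * k + 1) := fun x => Fin.cast e1 (c x) with hc'
  have hinj' : ∀ A ∈ F, Set.InjOn c' (A : Set ℕ) := by
    intro A hA x hx x' hx' h
    exact hinj A hA hx hx' (Fin.cast_injective e1 h)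
  obtain ⟨y, hy, hsub⟩ := exists_sys hk hc h2 hinj'
  have h3 := two_card_verts_le hk (Fintype.card_fin _) hy
  have h4 := card_le_card hsub
  omega

/-- the number of edges -/
theorem card_edges {n : ℕ} (hn : 2 ≤ n) {F : Finset (Finset ℕ)} (hc : IsUniformClique n F)
    (h2 : ¬ ProperlyColourable 2 F) {c : ℕ → Fin (2 * n - 1)}
    (hinj : ∀ A ∈ F, Set.InjOn c (A : Set ℕ)) : F.card = (2 * n - 1).choose n := by
  obtain ⟨k, rfl⟩ : ∃ k, n = k + 1 := ⟨n - 1, by omega⟩
  have e1 : 2 * (k + 1) - 1 = 2 * k + 1 := by omega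
  rw [e1]
  have hinj' : ∀ A ∈ F, Set.InjOn (fun x => Fin.cast e1 (c x)) (A : Set ℕ) := by
    intro A hA x hx x' hx' h
    exact hinj A hA hx hx' (Fin.cast_injective e1 h)
  exact card_edges' hc h2 hinj'

/-- the lower bound -/
theorem card_ge {n : ℕ} (hn : 2 ≤ n) {F : Finset (Finset ℕ)} (hc : IsUniformClique n F)
    (h2 : ¬ ProperlyColourable 2 F) {c : ℕ → Fin (2 * n - 1)}
    (hinj : ∀ A ∈ F, Set.InjOn c (A : Set ℕ)) : 2 * n - 1 ≤ (F.biUnion id).card := by
  classical
  obtain ⟨k, rfl⟩ : ∃ k, n = k + 1 := ⟨n - 1, by omega⟩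
  have e1 : 2 * (k + 1) - 1 = 2 * k + 1 := by omega
  set c' : ℕ → Fin (2 * k + 1) := fun x => Fin.cast e1 (c x) with hc'
  have hinj' : ∀ A ∈ F, Set.InjOn c' (A : Set ℕ) := by
    intro A hA x hx x' hx' h
    exact hinj A hA hx hx' (Fin.cast_injective e1 h)
  have hsub : (univ : Finset (Fin (2 * k + 1))) ⊆ (F.biUnion id).image c' := by
    intro i _
    obtain ⟨I, hI1, _, hI2⟩ := exists_subsuperset_card_eq (s := {i})
      (t := (univ : Finset (Fin (2 * k + 1)))) (n := k + 1) (subset_univ _)
      (by rw [card_singleton]; omega) (by rw [card_univ, Fintype.card_fin]; omega)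
    obtain ⟨A, hA, hAI⟩ := exists_edge hc h2 hinj' I hI2
    have h3 : i ∈ A.image c' := by rw [hAI]; exact hI1 (mem_singleton_self i)
    rw [mem_image] at h3 ⊢
    obtain ⟨u, hu, hu'⟩ := h3
    exact ⟨u, mem_biUnion.mpr ⟨A, hA, hu⟩, hu'⟩
  have h4 := (card_le_card hsub).trans card_image_le
  rw [card_univ, Fintype.card_fin] at h4
  omega

open Constr in
/-- the examples -/
theorem exists_clique (n v : ℕ) (hn : 2 ≤ n) (h1 : 2 * n - 1 ≤ v)
    (h2 : 2 * v ≤ 2 * (2 * n - 2) + (2 * n - 2).choose (n - 1)) :
    ∃ F : Finset (Finset ℕ), IsThreeChromaticClique n F ∧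
      (∃ c : ℕ → Fin (2 * n - 1), ∀ A ∈ F, Set.InjOn c (A : Set ℕ)) ∧
      (F.biUnion id).card = v := by
  have hc := card_HH n hn
  have hm : 1 ≤ v - (2 * n - 2) := by omega
  have hm2 : v - (2 * n - 2) ≤ (HH n (2 * n - 2)).card := by omega
  have hu := union_eq n (v - (2 * n - 2)) hn hm hm2
  have hcl := clique n (v - (2 * n - 2)) hn
  refine ⟨FF n (2 * n - 2) (v - (2 * n - 2)), ⟨hcl, three hn hcl ?_, not_two n _ hn⟩, ?_, ?_⟩
  · rw [nonempty_iff_ne_empty]
    intro he
    rw [he, biUnion_empty] at hu
    have : (0 : ℕ) ∈ range (2 * n - 2 + (v - (2 * n - 2))) := by rw [mem_range]; omega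
    rw [← hu] at this
    exact absurd this (notMem_empty 0)
  · refine ⟨fun x => ⟨min x (2 * n - 2), by omega⟩, fun A hA => ?_⟩
    intro x hx x' hx' h
    rw [mem_coe] at hx hx'
    have h3 : min x (2 * n - 2) = min x' (2 * n - 2) := congrArg Fin.val h
    rw [mem_FF] at hA
    rcases hA with h' | ⟨S, hS, P, hP, rfl⟩
    · have h4 := mem_range.mp (h'.1 hx)
      have h5 := mem_range.mp (h'.1 hx')
      omega
    · obtain ⟨k1, k2⟩ := part hn hS hP
      rw [mem_insert] at hx hx'
      rcases hx with hx | hx
      · rcases hx' with hx' | hx'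
        · rw [hx, hx']
        · have h5 := mem_range.mp (k1 hx')
          omega
      · have h4 := mem_range.mp (k1 hx)
        rcases hx' with hx' | hx'
        · omega
        · have h5 := mem_range.mp (k1 hx')
          omega
  · rw [hu, card_range]
    omega

end Pool.Agent.Lib.MP_87840f_co.KS
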