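import Pool.Agent.Lib.MP_87840f_co.KSForm

/-!
# The number of points of a system
-/

open Finset

namespace Pool.Agent.Lib.MP_87840f_co.KS

variable {Ω V : Type*} [Fintype Ω] [DecidableEq Ω] [DecidableEq V]

/-- the valid pairs -/
def pairs (Ω : Type*) [Fintype Ω] [DecidableEq Ω] (k : ℕ) : Finset (Finset Ω × Ω) :=
  univ.filter (fun q => q.1 ∈ powersetCard k ({q.2}ᶜ : Finset Ω))

theorem mem_pairs {k : ℕ} {K : Finset Ω} {i : Ω} :
    (K, i) ∈ pairs Ω k ↔ K ∈ powersetCard k ({i}ᶜ : Finset Ω) := by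
  unfold pairs
  rw [mem_filter]
  exact ⟨fun h => h.2, fun h => ⟨mem_univ _, h⟩⟩

theorem mem_pc_iff {k : ℕ} {K : Finset Ω} {i : Ω} :
    K ∈ powersetCard k ({i}ᶜ : Finset Ω) ↔ K.card = k ∧ i ∉ K := by
  rw [mem_powersetCard]
  constructor
  · rintro ⟨h1, h2⟩
    refine ⟨h2, fun h => ?_⟩
    have := h1 h
    rw [mem_compl, mem_singleton] at this
    exact this rfl
  · rintro ⟨h1, h2⟩
    refine ⟨fun x hx => ?_, h1⟩
    rw [mem_compl, mem_singleton]
    exact fun h => h2 (h ▸ hx)

/-- the pieces -/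
def pieces (k : ℕ) (y : Finset Ω → Ω → V) : Finset (Ω → V) :=
  (pairs Ω k).image (fun q => piece y q.1 q.2)

/-- the points -/
def verts (k : ℕ) (y : Finset Ω → Ω → V) : Finset V :=
  (pairs Ω k).image (fun q => y q.1 q.2)

/-- two dual vectors for each piece -/
theorem exists_two {k : ℕ} (hk : 1 ≤ k) (hΩ : Fintype.card Ω = 2 * k + 1) {y : Finset Ω → Ω → V}
    (hy : Sys k y) (i₀ : Ω) {Y : Ω → V} (hY : Y ∈ pieces k y) :
    ∃ a b : Finset Ω → ZMod 2, Rel k a ∧ Rel k b ∧ (∀ l, Sup k y a l (Y l)) ∧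
      (∀ l, Sup k y b l (Y l)) ∧ form k i₀ a b = 1 := by
  unfold pieces at hY
  rw [mem_image] at hY
  obtain ⟨⟨K, i⟩, hK, rfl⟩ := hY
  rw [mem_pairs] at hK
  obtain ⟨_, _, _, _, _, h6, _⟩ := mem_pc hΩ hK
  obtain ⟨a, a1, a2, _, a4⟩ := exists_vec hk hΩ hy hK
  obtain ⟨b, b1, b2, b3, _⟩ := exists_vec hk hΩ hy h6
  rw [piece_swap hΩ hy hK] at b2
  refine ⟨a, b, a1, b1, a2, b2, ?_⟩
  rw [form_indep hk hΩ a1 b1 i₀ i, a4 b b1 b2, b3]

/-- the pieces give independent vectors -/
theorem card_pieces {k : ℕ} (hk : 1 ≤ k) (hΩ : Fintype.card Ω = 2 * k + 1)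
    {y : Finset Ω → Ω → V} (hy : Sys k y) :
    2 * (pieces k y).card ≤ (2 * k).choose k := by
  classical
  have hne : Nonempty Ω := by
    rw [← Fintype.card_pos_iff, hΩ]; omega
  obtain ⟨i₀⟩ := hne
  have hex : ∀ Y : pieces k y, ∃ a b : Finset Ω → ZMod 2, Rel k a ∧ Rel k b ∧
      (∀ l, Sup k y a l (Y.1 l)) ∧ (∀ l, Sup k y b l (Y.1 l)) ∧ form k i₀ a b = 1 :=
    fun Y => exists_two hk hΩ hy i₀ Y.2
  choose a b ha hb hsa hsb hab using hex
  set va : (pieces k y) ⊕ (pieces k y) → Finset Ω → ZMod 2 := Sum.elim a b with hva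
  set vd : (pieces k y) ⊕ (pieces k y) → Finset Ω → ZMod 2 := Sum.elim b a with hvd
  have hortho : ∀ (Y Y' : pieces k y), Y ≠ Y' → ∀ α β : Finset Ω → ZMod 2, Rel k α → Rel k β →
      (∀ l, Sup k y α l (Y.1 l)) → (∀ l, Sup k y β l (Y'.1 l)) → form k i₀ α β = 0 := by
    intro Y Y' hne α β hα hβ h1 h2
    have hne' : Y.1 ≠ Y'.1 := fun h => hne (Subtype.ext h)
    obtain ⟨l, hl⟩ := Function.ne_iff.1 hne'
    rw [form_indep hk hΩ hα hβ i₀ l]
    exact form_eq_zero hΩ hy (h1 l) (h2 l) hl
  have hdual : ∀ s t, form k i₀ (va s) (vd t) = if s = t then 1 else 0 := by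
    rintro (Y | Y) (Y' | Y')
    · by_cases h : Y = Y'
      · subst h
        rw [if_pos rfl]
        exact hab Y
      · rw [if_neg (fun h' => h (Sum.inl.inj h'))]
        exact hortho Y Y' h _ _ (ha Y) (hb Y') (hsa Y) (hsb Y')
    · rw [if_neg (by simp)]
      by_cases h : Y = Y'
      · subst h
        exact form_self hk hΩ i₀ _
      · exact hortho Y Y' h _ _ (ha Y) (ha Y') (hsa Y) (hsa Y')
    · rw [if_neg (by simp)]
      by_cases h : Y = Y'
      · subst h
        exact form_self hk hΩ i₀ _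
      · exact hortho Y Y' h _ _ (hb Y) (hb Y') (hsb Y) (hsb Y')
    · by_cases h : Y = Y'
      · subst h
        rw [if_pos rfl]
        show form k i₀ (b Y) (a Y) = 1
        rw [form_comm hΩ]
        exact hab Y
      · rw [if_neg (fun h' => h (Sum.inr.inj h'))]
        exact hortho Y Y' h _ _ (hb Y) (ha Y') (hsb Y) (hsa Y')
  have hli : LinearIndependent (ZMod 2) (fun (s : (pieces k y) ⊕ (pieces k y)) =>
      (fun K : {K : Finset Ω // K ∈ powersetCard k ({i₀}ᶜ : Finset Ω)} => va s K.1)) := by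
    rw [Fintype.linearIndependent_iff]
    intro g hg t
    have h1 : ∀ K ∈ powersetCard k ({i₀}ᶜ : Finset Ω), ∑ s, g s * va s K = 0 := by
      intro K hK
      have h2 := congrFun hg ⟨K, hK⟩
      rw [Finset.sum_apply] at h2
      simpa only [Pi.smul_apply, smul_eq_mul, Pi.zero_apply] using h2
    have h3 : ∑ K ∈ powersetCard k ({i₀}ᶜ : Finset Ω), (∑ s, g s * va s K) *
        vd t ({i₀}ᶜ \ K) = 0 := by
      refine sum_eq_zero fun K hK => ?_
      rw [h1 K hK, zero_mul]
    have h4 : ∑ K ∈ powersetCard k ({i₀}ᶜ : Finset Ω), (∑ s, g s * va s K) *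
        vd t ({i₀}ᶜ \ K) = ∑ s, g s * form k i₀ (va s) (vd t) := by
      unfold form
      simp only [sum_mul, mul_sum]
      rw [sum_comm]
      refine sum_congr rfl fun s _ => sum_congr rfl fun K _ => ?_
      ring
    rw [h4] at h3
    rw [sum_congr rfl (fun s _ => by rw [hdual s t])] at h3
    simpa using h3
  have hcard := hli.fintype_card_le_finrank
  rw [Module.finrank_fintype_fun_eq_card, Fintype.card_sum, Fintype.card_coe] at hcard
  have hX : Fintype.card {K : Finset Ω // K ∈ powersetCard k ({i₀}ᶜ : Finset Ω)} =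
      (2 * k).choose k := by
    rw [Fintype.card_coe, card_powersetCard, card_compl, card_singleton, hΩ]
    congr 1
  rw [hX] at hcard
  omega

omit [DecidableEq V] in
/-- the value at a point in terms of the sums along the edges -/
theorem val_eq {k : ℕ} (hΩ : Fintype.card Ω = 2 * k + 1) {y : Finset Ω → Ω → V} (hy : Sys k y)
    (lam : V → ZMod 2) {K : Finset Ω} {i : Ω} (hK : K ∈ powersetCard k ({i}ᶜ : Finset Ω))
    (h0 : ∑ l, lam (piece y K i l) = 0) :
    lam (y K i) = ∑ l ∈ insert i K, lam (y ((insert i K).erase l) l) +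
      ∑ l ∈ Kᶜ, lam (y (Kᶜ.erase l) l) := by
  obtain ⟨h1, h2, h3, h4, h5, h6, h7⟩ := mem_pc hΩ hK
  have hsplit : ∑ l, lam (piece y K i l) = ∑ l ∈ K, lam (y ({i}ᶜ \ K) l) +
      ∑ l ∈ Kᶜ, lam (y K l) := by
    rw [← sum_add_sum_compl K]
    congr 1
    · refine sum_congr rfl fun l hl => ?_
      unfold piece
      rw [if_pos hl]
    · refine sum_congr rfl fun l hl => ?_
      unfold piece
      rw [if_neg (mem_compl.mp hl)]
  rw [sum_insert h2, erase_insert h2]
  have e1 : ∑ l ∈ K, lam (y ((insert i K).erase l) l) = ∑ l ∈ K, lam (y ({i}ᶜ \ K) l) := by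
    refine sum_congr rfl fun l hl => ?_
    congr 1
    have hli : l ≠ i := fun h => h2 (h ▸ hl)
    apply hy.one
    · rw [card_erase_of_mem (mem_insert_of_mem hl), card_insert_of_notMem h2, h1]
      omega
    · exact h3
    · rw [disjoint_left]
      intro x hx hx'
      have := mem_of_mem_erase hx
      rw [mem_insert] at this
      rcases this with rfl | this
      · exact h4 hx'
      · exact (mem_sdiff.mp hx').2 this
    · exact notMem_erase l _
    · intro h
      exact (mem_sdiff.mp h).2 hl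
  have e2 : ∑ l ∈ Kᶜ, lam (y (Kᶜ.erase l) l) = ∑ l ∈ Kᶜ, lam (y K l) := by
    refine sum_congr rfl fun l hl => ?_
    congr 1
    apply hy.one
    · rw [card_erase_of_mem hl, card_compl, hΩ, h1]
      omega
    · exact h1
    · rw [disjoint_left]
      intro x hx hx'
      exact (mem_compl.mp (mem_of_mem_erase hx)) hx'
    · exact notMem_erase l _
    · exact mem_compl.mp hl
  rw [e1, e2, add_assoc, ← hsplit, h0, add_zero]

omit [DecidableEq V] in
/-- one exchange -/
theorem exchange {k : ℕ} (hΩ : Fintype.card Ω = 2 * k + 1) {y : Finset Ω → Ω → V} (hy : Sys k y)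
    (lam : V → ZMod 2) (h0 : ∀ K i, K ∈ powersetCard k ({i}ᶜ : Finset Ω) →
      ∑ l, lam (piece y K i l) = 0) {P : Finset Ω} (hP : P.card + 1 = k) {a b e : Ω} (ha : a ∉ P)
    (hb : b ∉ P) (he : e ∉ P) (hab : a ≠ b) (hae : a ≠ e) (hbe : b ≠ e) :
    lam (y (insert b P) a) = lam (y (insert e P) a) := by
  set s : Finset Ω → ZMod 2 := fun I => ∑ l ∈ I, lam (y (I.erase l) l) with hs
  have hval : ∀ x u : Ω, x ∉ P → u ∉ P → x ≠ u →
      lam (y (insert u P) x) = s (insert x (insert u P)) + s (insert u P)ᶜ := by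
    intro x u hx hu hxu
    refine val_eq hΩ hy lam ?_ (h0 _ _ ?_)
    all_goals
      rw [mem_pc_iff, card_insert_of_notMem hu]
      refine ⟨hP, ?_⟩
      rw [mem_insert]
      rintro (h | h)
      · exact hxu h
      · exact hx h
  -- the six values
  have hpq : ∀ x u : Ω, s (insert x (insert u P)) = s (insert u (insert x P)) := by
    intro x u
    rw [Finset.insert_comm]
  -- two of the three conditions
  have c1 := hy.two P a b e hP ha hb he hab hae hbe
  have c2 := hy.two P a e b hP ha he hb hae hab hbe.symm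
  by_contra hne
  have d1 : y (insert a P) b = y (insert e P) b := by
    rcases c1 with c1 | c1
    · exact absurd (congrArg lam c1) hne
    · exact c1
  have d2 : y (insert a P) e = y (insert b P) e := by
    rcases c2 with c2 | c2
    · exact absurd (congrArg lam c2).symm hne
    · exact c2
  have e1 := congrArg lam d1
  have e2 := congrArg lam d2
  rw [hval b a hb ha hab.symm, hval b e hb he hbe] at e1
  rw [hval e a he ha hae.symm, hval e b he hb hbe.symm] at e2
  rw [hval a b ha hb hab, hval a e ha he hae] at hne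
  rw [hpq b a] at e1
  rw [hpq e a, hpq e b] at e2
  apply hne
  -- e1 : s(ab P) + s((a P)ᶜ) = s(be P) + s((e P)ᶜ)
  -- e2 : s(ae P) + s((a P)ᶜ) = s(be P) + s((b P)ᶜ)
  have e3 : s (insert a (insert b P)) = s (insert b (insert e P)) + s (insert e P)ᶜ -
      s (insert a P)ᶜ := by
    rw [← e1]; ring
  have e4 : s (insert a (insert e P)) = s (insert b (insert e P)) + s (insert b P)ᶜ -
      s (insert a P)ᶜ := by
    rw [← e2]; ring
  rw [e3, e4]
  ring

omit [DecidableEq V] in
/-- a function which vanishes on the pieces is constant on each colour -/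
theorem const_colour {k : ℕ} (hΩ : Fintype.card Ω = 2 * k + 1) {y : Finset Ω → Ω → V}
    (hy : Sys k y) (lam : V → ZMod 2) (h0 : ∀ K i, K ∈ powersetCard k ({i}ᶜ : Finset Ω) →
      ∑ l, lam (piece y K i l) = 0) (i : Ω) {K' : Finset Ω}
    (hK' : K' ∈ powersetCard k ({i}ᶜ : Finset Ω)) : ∀ (m : ℕ) (K : Finset Ω),
      K ∈ powersetCard k ({i}ᶜ : Finset Ω) → (K \ K').card = m → lam (y K i) = lam (y K' i) := by
  rw [mem_pc_iff] at hK'
  intro m
  induction m with
  | zero =>
    intro K hK hm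
    rw [mem_pc_iff] at hK
    rw [card_eq_zero, sdiff_eq_empty_iff_subset] at hm
    rw [eq_of_subset_of_card_le hm (by rw [hK.1, hK'.1])]
  | succ m ih =>
    intro K hK hm
    rw [mem_pc_iff] at hK
    obtain ⟨b, hb⟩ : (K \ K').Nonempty := by
      rw [← card_pos]; omega
    have hc : (K' \ K).card = (K \ K').card :=
      card_sdiff_comm (by rw [hK.1, hK'.1])
    obtain ⟨e, he⟩ : (K' \ K).Nonempty := by
      rw [← card_pos]; omega
    rw [mem_sdiff] at hb he
    set P := K.erase b with hPdef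
    have hPb : insert b P = K := insert_erase hb.1
    have hbP : b ∉ P := notMem_erase b K
    have heP : e ∉ P := fun h => he.2 (mem_of_mem_erase h)
    have hiP : i ∉ P := fun h => hK.2 (mem_of_mem_erase h)
    have hPc : P.card + 1 = k := by
      rw [← hK.1, ← hPb, card_insert_of_notMem hbP]
    have hib : i ≠ b := fun h => hK.2 (h ▸ hb.1)
    have hie : i ≠ e := fun h => hK'.2 (h ▸ he.1)
    have hbe : b ≠ e := fun h => hb.2 (h ▸ he.1)
    have h1 := exchange hΩ hy lam h0 hPc hiP hbP heP hib hie hbe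
    rw [← hPb, h1]
    apply ih
    · rw [mem_pc_iff, card_insert_of_notMem heP]
      refine ⟨hPc, ?_⟩
      rw [mem_insert]
      rintro (h | h)
      · exact hie h
      · exact hiP h
    · have h2 : insert e P \ K' = (K \ K').erase b := by
        ext x
        simp only [mem_sdiff, mem_insert, mem_erase, hPdef]
        constructor
        · rintro ⟨rfl | h3, h4⟩
          · exact absurd he.1 h4
          · exact ⟨h3.1, h3.2, h4⟩
        · rintro ⟨h3, h4, h5⟩
          exact ⟨Or.inr ⟨h3, h4⟩, h5⟩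
      rw [h2, card_erase_of_mem (mem_sdiff.mpr hb), hm]
      omega

/-- the number of points -/
theorem card_verts_le {k : ℕ} (hk : 1 ≤ k) (hΩ : Fintype.card Ω = 2 * k + 1)
    {y : Finset Ω → Ω → V} (hy : Sys k y) :
    (verts k y).card ≤ (pieces k y).card + 2 * k := by
  classical
  have hne : Nonempty Ω := by
    rw [← Fintype.card_pos_iff, hΩ]; omega
  obtain ⟨i₀⟩ := hne
  have hex : ∀ l : Ω, ∃ K : Finset Ω, K ∈ powersetCard k ({l}ᶜ : Finset Ω) := by
    intro l
    have : (powersetCard k ({l}ᶜ : Finset Ω)).Nonempty := by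
      rw [powersetCard_nonempty, card_compl, card_singleton, hΩ]
      omega
    exact this
  choose Ks hKs using hex
  set ext0 : (verts k y → ZMod 2) → V → ZMod 2 := fun f v =>
    if h : v ∈ verts k y then f ⟨v, h⟩ else 0 with hext
  set Φ : (verts k y → ZMod 2) → (pieces k y → ZMod 2) × ({l : Ω // l ≠ i₀} → ZMod 2) :=
    fun f => (fun Y => ∑ l, ext0 f (Y.1 l), fun l => ext0 f (y (Ks l.1) l.1)) with hΦ
  have hinj : Function.Injective Φ := by
    intro f g hfg
    rw [hΦ] at hfg
    simp only [Prod.mk.injEq] at hfg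
    obtain ⟨h1, h2⟩ := hfg
    set lam : V → ZMod 2 := fun v => ext0 f v - ext0 g v with hlam
    have h0 : ∀ K i, K ∈ powersetCard k ({i}ᶜ : Finset Ω) → ∑ l, lam (piece y K i l) = 0 := by
      intro K i hK
      have h3 : piece y K i ∈ pieces k y := by
        unfold pieces
        rw [mem_image]
        exact ⟨(K, i), mem_pairs.mpr hK, rfl⟩
      have h4 := congrFun h1 ⟨_, h3⟩
      simp only at h4
      rw [hlam]
      simp only [sum_sub_distrib]
      rw [h4, sub_self]
    have hne0 : ∀ l : Ω, l ≠ i₀ → lam (y (Ks l) l) = 0 := by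
      intro l hl
      have h3 := congrFun h2 ⟨l, hl⟩
      simp only at h3
      rw [hlam]
      simp only
      rw [h3, sub_self]
    have hcol : ∀ (l : Ω) (K : Finset Ω), K ∈ powersetCard k ({l}ᶜ : Finset Ω) →
        lam (y K l) = lam (y (Ks l) l) := fun l K hK =>
      const_colour hΩ hy lam h0 l (hKs l) _ K hK rfl
    have hi0 : lam (y (Ks i₀) i₀) = 0 := by
      have h3 := h0 (Ks i₀) i₀ (hKs i₀)
      obtain ⟨k1, k2, k3, k4, k5, k6, k7⟩ := mem_pc hΩ (hKs i₀)
      rw [← add_sum_erase _ _ (mem_univ i₀)] at h3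
      have h4 : ∑ l ∈ univ.erase i₀, lam (piece y (Ks i₀) i₀ l) = 0 := by
        refine sum_eq_zero fun l hl => ?_
        have hli : l ≠ i₀ := ne_of_mem_erase hl
        unfold piece
        by_cases hlK : l ∈ Ks i₀
        · rw [if_pos hlK, hcol l, hne0 l hli]
          rw [mem_pc_iff]
          exact ⟨k3, fun h => (mem_sdiff.mp h).2 hlK⟩
        · rw [if_neg hlK, hcol l, hne0 l hli]
          rw [mem_pc_iff]
          exact ⟨k1, hlK⟩
      rw [h4, add_zero] at h3
      unfold piece at h3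
      rw [if_neg k2] at h3
      exact h3
    have hall : ∀ v ∈ verts k y, lam v = 0 := by
      intro v hv
      unfold verts at hv
      rw [mem_image] at hv
      obtain ⟨⟨K, i⟩, hK, rfl⟩ := hv
      rw [mem_pairs] at hK
      simp only
      rw [hcol i K hK]
      by_cases hi : i = i₀
      · rw [hi]; exact hi0
      · exact hne0 i hi
    funext v
    have h5 := hall v.1 v.2
    rw [hlam] at h5
    simp only [hext] at h5
    rw [dif_pos v.2, dif_pos v.2] at h5
    exact sub_eq_zero.mp h5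
  have hcard := Fintype.card_le_of_injective Φ hinj
  rw [Fintype.card_prod, Fintype.card_fun, Fintype.card_fun, Fintype.card_fun, ZMod.card,
    Fintype.card_coe, Fintype.card_coe] at hcard
  have hl : Fintype.card {l : Ω // l ≠ i₀} = 2 * k := by
    rw [Fintype.card_subtype_compl, Fintype.card_subtype_eq, hΩ]
    omega
  rw [hl, ← pow_add] at hcard
  exact (Nat.pow_le_pow_iff_right (by norm_num)).mp hcard

/-- the bound for the number of points -/
theorem two_card_verts_le {k : ℕ} (hk : 1 ≤ k) (hΩ : Fintype.card Ω = 2 * k + 1)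
    {y : Finset Ω → Ω → V} (hy : Sys k y) :
    2 * (verts k y).card ≤ 2 * (2 * k) + (2 * k).choose k := by
  have h1 := card_verts_le hk hΩ hy
  have h2 := card_pieces hk hΩ hy
  omega

end Pool.Agent.Lib.MP_87840f_co.KS
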