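import Pool.Agent.Lib.MP_87840f_co.KSAlg

/-!
# The bilinear form does not depend on the base colour; the vectors attached to a piece
-/

open Finset

namespace Pool.Agent.Lib.MP_87840f_co.KS

variable {Ω V : Type*} [Fintype Ω] [DecidableEq Ω] [DecidableEq V]

/-- the form with base `i`, written as a sum over `(k-1)`-subsets avoiding `i` and `j` -/
theorem form_split {k : ℕ} (hΩ : Fintype.card Ω = 2 * (k + 1) + 1) {i j : Ω} (hij : i ≠ j)
    (α β : Finset Ω → ZMod 2) : form (k + 1) i α β =
      ∑ P ∈ powersetCard k ({i, j}ᶜ : Finset Ω),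
        (α (insert j P) * β ({i, j}ᶜ \ P) + α ({i, j}ᶜ \ P) * β (insert j P)) := by
  set W : Finset Ω := {i, j}ᶜ with hW
  have hjW : j ∉ W := by rw [hW, mem_compl]; simp
  have hWc : W.card = 2 * k + 1 := by
    rw [hW, card_compl, card_pair hij, hΩ]
    omega
  have hi : ({i}ᶜ : Finset Ω) = insert j W := by
    ext x
    rw [hW, mem_compl, mem_insert, mem_compl, mem_insert, mem_singleton, mem_singleton]
    constructor
    · intro h
      by_cases hx : x = j
      · exact Or.inl hx
      · exact Or.inr (by tauto)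
    · rintro (rfl | h)
      · exact fun h => hij h.symm
      · tauto
  unfold form
  rw [hi, powersetCard_succ_insert hjW, sum_union, sum_image, sum_add_distrib, add_comm]
  · congr 1
    · refine sum_congr rfl fun P hP => ?_
      rw [mem_powersetCard] at hP
      have h1 : j ∉ P := fun h => hjW (hP.1 h)
      congr 2
      ext x
      rw [mem_sdiff, mem_insert, mem_insert, mem_sdiff]
      constructor
      · rintro ⟨h2 | h2, h3⟩
        · exact absurd (Or.inl h2) h3
        · exact ⟨h2, fun h4 => h3 (Or.inr h4)⟩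
      · rintro ⟨h2, h3⟩
        refine ⟨Or.inr h2, ?_⟩
        rintro (rfl | h4)
        · exact hjW h2
        · exact h3 h4
    · refine sum_bij' (fun K _ => W \ K) (fun P _ => W \ P) ?_ ?_ ?_ ?_ ?_
      · intro K hK
        rw [mem_powersetCard] at hK ⊢
        refine ⟨sdiff_subset, ?_⟩
        rw [card_sdiff_of_subset hK.1, hWc, hK.2]
        omega
      · intro K hK
        rw [mem_powersetCard] at hK ⊢
        refine ⟨sdiff_subset, ?_⟩
        rw [card_sdiff_of_subset hK.1, hWc, hK.2]
        omega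
      · intro K hK
        rw [mem_powersetCard] at hK
        exact Finset.sdiff_sdiff_eq_self hK.1
      · intro K hK
        rw [mem_powersetCard] at hK
        exact Finset.sdiff_sdiff_eq_self hK.1
      · intro K hK
        rw [mem_powersetCard] at hK
        rw [Finset.sdiff_sdiff_eq_self hK.1]
        congr 2
        ext x
        rw [mem_sdiff, mem_insert, mem_insert, mem_sdiff]
        constructor
        · rintro ⟨h2 | h2, h3⟩
          · exact Or.inl h2
          · exact Or.inr ⟨h2, h3⟩
        · rintro (rfl | ⟨h2, h3⟩)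
          · exact ⟨Or.inl rfl, fun h4 => hjW (hK.1 h4)⟩
          · exact ⟨Or.inr h2, h3⟩
  · intro P hP P' hP' h
    rw [mem_coe, mem_powersetCard] at hP hP'
    have h1 : j ∉ P := fun h => hjW (hP.1 h)
    have h2 : j ∉ P' := fun h => hjW (hP'.1 h)
    have h3 := congrArg (fun S => Finset.erase S j) h
    simp only [erase_insert h1, erase_insert h2] at h3
    exact h3
  · rw [disjoint_left]
    intro K hK hK'
    rw [mem_powersetCard] at hK
    rw [mem_image] at hK'
    obtain ⟨P, _, rfl⟩ := hK'
    exact hjW (hK.1 (mem_insert_self _ _))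

omit [Fintype Ω] in
/-- reindexing of the double sum -/
theorem double_swap {k : ℕ} (W : Finset Ω) (hWc : W.card = 2 * k + 1)
    (α β : Finset Ω → ZMod 2) :
    ∑ P ∈ powersetCard k W, ∑ m ∈ W \ P, α (insert m P) * β (W \ P) =
      ∑ P ∈ powersetCard k W, ∑ m ∈ W \ P, α (W \ P) * β (insert m P) := by
  rw [sum_sigma', sum_sigma']
  refine sum_bij' (fun x _ => ⟨(W \ x.1).erase x.2, x.2⟩)
    (fun x _ => ⟨(W \ x.1).erase x.2, x.2⟩) ?_ ?_ ?_ ?_ ?_
  all_goals try
    rintro ⟨P, m⟩ hx
    rw [mem_sigma, mem_powersetCard] at hx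
    obtain ⟨⟨h1, h2⟩, h3⟩ := hx
    simp only at h1 h2 h3
    have hmP : m ∉ P := (mem_sdiff.mp h3).2
    have hmW : m ∈ W := (mem_sdiff.mp h3).1
    have hc : ((W \ P).erase m).card = k := by
      rw [card_erase_of_mem h3, card_sdiff_of_subset h1, hWc, h2]
      omega
    have hs : (W \ P).erase m ⊆ W := (erase_subset _ _).trans sdiff_subset
    have hW' : W \ ((W \ P).erase m) = insert m P := by
      ext x
      rw [mem_sdiff, mem_erase, mem_sdiff, mem_insert]
      constructor
      · rintro ⟨h4, h5⟩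
        by_cases hxm : x = m
        · exact Or.inl hxm
        · right
          by_contra hxP
          exact h5 ⟨hxm, h4, hxP⟩
      · rintro (rfl | h4)
        · exact ⟨hmW, fun h5 => h5.1 rfl⟩
        · exact ⟨h1 h4, fun h5 => h5.2.2 h4⟩
  · rw [mem_sigma, mem_powersetCard]
    refine ⟨⟨hs, hc⟩, ?_⟩
    simp only
    rw [hW']
    exact mem_insert_self _ _
  · rw [mem_sigma, mem_powersetCard]
    refine ⟨⟨hs, hc⟩, ?_⟩
    simp only
    rw [hW']
    exact mem_insert_self _ _
  · simp only [hW', erase_insert hmP]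
  · simp only [hW', erase_insert hmP]
  · simp only [hW', insert_erase h3]

/-- the form does not depend on the base colour -/
theorem form_indep {k : ℕ} (hk : 1 ≤ k) (hΩ : Fintype.card Ω = 2 * k + 1)
    {α β : Finset Ω → ZMod 2} (hα : Rel k α) (hβ : Rel k β) (i j : Ω) :
    form k i α β = form k j α β := by
  by_cases hij : i = j
  · rw [hij]
  obtain ⟨k, rfl⟩ : ∃ k', k = k' + 1 := ⟨k - 1, by omega⟩
  rw [form_split hΩ hij, form_split hΩ (Ne.symm hij)]
  have hsw : ({j, i}ᶜ : Finset Ω) = {i, j}ᶜ := by rw [pair_comm]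
  rw [hsw]
  set W : Finset Ω := {i, j}ᶜ with hW
  have hWc : W.card = 2 * k + 1 := by
    rw [hW, card_compl, card_pair hij, hΩ]
    omega
  have hiW : i ∉ W := by rw [hW, mem_compl]; simp
  have hjW : j ∉ W := by rw [hW, mem_compl]; simp
  have hrel : ∀ γ : Finset Ω → ZMod 2, Rel (k + 1) γ → ∀ P ∈ powersetCard k W,
      γ (insert i P) + γ (insert j P) = ∑ m ∈ W \ P, γ (insert m P) := by
    intro γ hγ P hP
    rw [mem_powersetCard] at hP
    have hiP : i ∉ P := fun h => hiW (hP.1 h)
    have hjP : j ∉ P := fun h => hjW (hP.1 h)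
    have h1 := hγ P (by rw [hP.2])
    have h2 : (Pᶜ : Finset Ω) = insert i (insert j (W \ P)) := by
      ext x
      rw [mem_compl, mem_insert, mem_insert, mem_sdiff, hW, mem_compl, mem_insert, mem_singleton]
      constructor
      · intro h
        by_cases h3 : x = i
        · exact Or.inl h3
        · by_cases h4 : x = j
          · exact Or.inr (Or.inl h4)
          · exact Or.inr (Or.inr ⟨by tauto, h⟩)
      · rintro (rfl | rfl | h)
        · exact hiP
        · exact hjP
        · exact h.2
    rw [h2, sum_insert, sum_insert, ← add_assoc] at h1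
    · have h5 := CharTwo.add_eq_zero.mp h1
      exact h5
    · intro h
      exact hjW (mem_sdiff.mp h).1
    · rw [mem_insert]
      rintro (h | h)
      · exact hij h
      · exact hiW (mem_sdiff.mp h).1
  rw [← CharTwo.add_eq_zero, ← sum_add_distrib]
  have e1 : ∀ P ∈ powersetCard k W, (α (insert j P) * β (W \ P) + α (W \ P) * β (insert j P)) +
      (α (insert i P) * β (W \ P) + α (W \ P) * β (insert i P)) =
      ∑ m ∈ W \ P, α (insert m P) * β (W \ P) + ∑ m ∈ W \ P, α (W \ P) * β (insert m P) := by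
    intro P hP
    rw [← sum_mul, ← mul_sum, ← hrel α hα P hP, ← hrel β hβ P hP]
    ring
  rw [sum_congr rfl e1, sum_add_distrib, double_swap W hWc]
  exact CharTwo.add_self_eq_zero _

/-- the indicator of disjointness from `L` -/
def alpha0 (L K : Finset Ω) : ZMod 2 := if Disjoint K L then 1 else 0

theorem alpha0_rel {k : ℕ} (hΩ : Fintype.card Ω = 2 * k + 1) {L : Finset Ω} (hL : L.card = k) :
    Rel k (alpha0 L) := by
  intro P hP
  by_cases hd : Disjoint P L
  · have h1 : ∀ j ∈ Pᶜ, alpha0 L (insert j P) = if j ∈ (P ∪ L)ᶜ then 1 else 0 := by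
      intro j hjPc
      have hjP : j ∉ P := mem_compl.mp hjPc
      have hiff : Disjoint (insert j P) L ↔ j ∉ L ∧ Disjoint P L := disjoint_insert_left
      have hiff2 : j ∈ (P ∪ L)ᶜ ↔ j ∉ L := by
        rw [mem_compl, mem_union]
        tauto
      unfold alpha0
      by_cases hj : j ∈ L
      · rw [if_neg (fun h => (hiff.mp h).1 hj), if_neg (fun h => hiff2.mp h hj)]
      · rw [if_pos (hiff.mpr ⟨hj, hd⟩), if_pos (hiff2.mpr hj)]
    rw [sum_congr rfl h1, sum_ite_mem]
    have h2 : (Pᶜ ∩ (P ∪ L)ᶜ : Finset Ω) = (P ∪ L)ᶜ := by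
      rw [inter_eq_right]
      intro x hx
      rw [mem_compl, mem_union] at hx
      rw [mem_compl]
      tauto
    rw [h2, sum_const, card_compl, card_union_of_disjoint hd, hΩ, hL]
    have h3 : 2 * k + 1 - (P.card + k) = 2 := by omega
    rw [h3]
    decide
  · refine sum_eq_zero fun j _ => ?_
    unfold alpha0
    rw [if_neg]
    rw [disjoint_insert_left]
    exact fun h => hd h.2

omit [Fintype Ω] [DecidableEq V] in
theorem alpha0_sup {k : ℕ} {y : Finset Ω → Ω → V} (hy : Sys k y) {L : Finset Ω} (hL : L.card = k)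
    {l : Ω} (hl : l ∉ L) : Sup k y (alpha0 L) l (y L l) := by
  intro K hK hlK h
  unfold alpha0 at h
  split_ifs at h with hd
  · exact hy.one K L l hK hL hd hlK hl
  · exact absurd rfl h

theorem form_alpha0 {k : ℕ} (hΩ : Fintype.card Ω = 2 * k + 1) {L : Finset Ω} (hL : L.card = k)
    {i : Ω} (hi : i ∉ L) (β : Finset Ω → ZMod 2) : form k i (alpha0 L) β = β L := by
  have hLs : L ∈ powersetCard k ({i}ᶜ : Finset Ω) := by
    rw [mem_powersetCard]
    refine ⟨fun x hx => ?_, hL⟩
    rw [mem_compl, mem_singleton]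
    exact fun h => hi (h ▸ hx)
  obtain ⟨_, _, h3, _, h5, h6, h7⟩ := mem_pc hΩ hLs
  unfold form
  rw [sum_eq_single ({i}ᶜ \ L : Finset Ω)]
  · rw [h7]
    unfold alpha0
    rw [if_pos h5.symm, one_mul]
  · intro K hK hne
    unfold alpha0
    rw [if_neg, zero_mul]
    intro hd
    apply hne
    obtain ⟨k1, k2, _⟩ := mem_pc hΩ hK
    refine eq_of_subset_of_card_le ?_ (by rw [h3, k1])
    intro x hx
    rw [mem_sdiff, mem_compl, mem_singleton]
    refine ⟨fun h => k2 (h ▸ hx), fun h => ?_⟩
    exact disjoint_left.mp hd hx h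
  · intro h
    exact absurd h6 h

/-- the piece determined by `K` and `i` -/
def piece (y : Finset Ω → Ω → V) (K : Finset Ω) (i l : Ω) : V :=
  if l ∈ K then y ({i}ᶜ \ K) l else y K l

omit [DecidableEq V] in
theorem piece_swap {k : ℕ} (hΩ : Fintype.card Ω = 2 * k + 1) {y : Finset Ω → Ω → V}
    (hy : Sys k y) {K : Finset Ω} {i : Ω} (hK : K ∈ powersetCard k ({i}ᶜ : Finset Ω)) :
    piece y ({i}ᶜ \ K) i = piece y K i := by
  obtain ⟨h1, h2, h3, h4, h5, h6, h7⟩ := mem_pc hΩ hK
  funext l
  unfold piece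
  rw [h7]
  by_cases hlK : l ∈ K
  · rw [if_pos hlK, if_neg (disjoint_left.mp h5 hlK)]
  · rw [if_neg hlK]
    by_cases hl : l ∈ ({i}ᶜ \ K : Finset Ω)
    · rw [if_pos hl]
    · rw [if_neg hl]
      exact hy.one _ _ _ h3 h1 h5.symm hl hlK

/-- the vector attached to `K` and `i` -/
theorem exists_vec {k : ℕ} (hk : 1 ≤ k) (hΩ : Fintype.card Ω = 2 * k + 1) {y : Finset Ω → Ω → V}
    (hy : Sys k y) {K : Finset Ω} {i : Ω} (hK : K ∈ powersetCard k ({i}ᶜ : Finset Ω)) :
    ∃ a : Finset Ω → ZMod 2, Rel k a ∧ (∀ l, Sup k y a l (piece y K i l)) ∧ a K = 1 ∧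
      ∀ β : Finset Ω → ZMod 2, Rel k β → (∀ l, Sup k y β l (piece y K i l)) →
        form k i a β = β ({i}ᶜ \ K) := by
  obtain ⟨h1, h2, h3, h4, h5, h6, h7⟩ := mem_pc hΩ hK
  set L : Finset Ω := {i}ᶜ \ K with hLdef
  have main : ∀ S : Finset Ω, S ⊆ L → ∃ a : Finset Ω → ZMod 2, Rel k a ∧
      (∀ l, (l ∉ L ∨ l ∈ S) → Sup k y a l (piece y K i l)) ∧ a K = 1 ∧
      ∀ β : Finset Ω → ZMod 2, Rel k β → (∀ l, Sup k y β l (piece y K i l)) →
        form k i a β = β L := by
    intro S
    induction S using Finset.induction_on with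
    | empty =>
      intro _
      refine ⟨alpha0 L, alpha0_rel hΩ h3, ?_, ?_, ?_⟩
      · rintro l (hl | hl)
        · have hp : piece y K i l = y L l := by
            unfold piece
            by_cases hlK : l ∈ K
            · rw [if_pos hlK]
            · rw [if_neg hlK]
              exact hy.one _ _ _ h1 h3 h5 hlK hl
          rw [hp]
          exact alpha0_sup hy h3 hl
        · exact absurd hl (notMem_empty l)
      · unfold alpha0
        rw [if_pos h5]
      · intro β _ _
        exact form_alpha0 hΩ h3 h4 β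
    | insert l S hlS ih =>
      intro hsub
      obtain ⟨a, ha1, ha2, ha3, ha4⟩ := ih ((subset_insert _ _).trans hsub)
      have hlL : l ∈ L := hsub (mem_insert_self _ _)
      have hlK : l ∉ K := fun h => disjoint_left.mp h5 h hlL
      have hp : piece y K i l = y K l := by
        unfold piece
        rw [if_neg hlK]
      refine ⟨proj y l (piece y K i l) a, proj_rel k y l _ a, ?_, ?_, ?_⟩
      · intro m hm
        by_cases hml : m = l
        · subst hml
          exact proj_sup_self k y m _ a
        · refine proj_sup hy ha1 (ha2 m ?_) l _ hml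
          rcases hm with hm | hm
          · exact Or.inl hm
          · rw [mem_insert] at hm
            rcases hm with hm | hm
            · exact absurd hm hml
            · exact Or.inr hm
      · rw [proj_val _ _ _ _ _ hlK hp.symm]
        exact ha3
      · intro β hβ hβ2
        rw [form_indep hk hΩ (proj_rel k y l _ a) hβ i l, form_proj hΩ hy a (hβ2 l),
          ← form_indep hk hΩ ha1 hβ i l]
        exact ha4 β hβ hβ2
  obtain ⟨a, ha1, ha2, ha3, ha4⟩ := main L (subset_refl L)
  exact ⟨a, ha1, fun l => ha2 l (by tauto), ha3, ha4⟩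

end Pool.Agent.Lib.MP_87840f_co.KS
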