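import Mathlib

open Filter Topology

namespace Pool.Agent.Lib.MP_87840f_co

/-- the sequence `k / √n` -/
noncomputable def xlim (n : ℕ) : ℝ := ((2 * Nat.log 2 n + 2 : ℕ) : ℝ) / √(n : ℝ)

lemma xlim_nonneg (n : ℕ) : 0 ≤ xlim n := by unfold xlim; positivity

lemma tendsto_xlim : Tendsto xlim atTop (𝓝 0) := by
  have h1 : Tendsto (fun x : ℝ => Real.log x / x ^ (1 / 2 : ℝ)) atTop (𝓝 0) :=
    (isLittleO_log_rpow_atTop (by norm_num : (0:ℝ) < 1 / 2)).tendsto_div_nhds_zero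
  have h2 : Tendsto (fun n : ℕ => Real.log (n : ℝ) / √(n : ℝ)) atTop (𝓝 0) := by
    have h3 := h1.comp tendsto_natCast_atTop_atTop
    refine h3.congr fun n => ?_
    simp only [Function.comp, Real.sqrt_eq_rpow]
  have h4 : Tendsto (fun n : ℕ => 2 / √(n : ℝ)) atTop (𝓝 0) := by
    refine Tendsto.div_atTop tendsto_const_nhds ?_
    exact Real.tendsto_sqrt_atTop.comp tendsto_natCast_atTop_atTop
  have h5 : Tendsto (fun n : ℕ => 2 / Real.log 2 * (Real.log (n : ℝ) / √(n : ℝ)) + 2 / √(n : ℝ))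
      atTop (𝓝 0) := by
    have := (h2.const_mul (2 / Real.log 2)).add h4
    simpa using this
  refine squeeze_zero (fun n => xlim_nonneg n) (fun n => ?_) h5
  have hlog2 : 0 < Real.log 2 := Real.log_pos (by norm_num)
  have h6 : (Nat.log 2 n : ℝ) ≤ Real.log n / Real.log 2 := by
    have h7 := Real.natLog_le_logb n 2
    rw [Real.logb] at h7
    exact_mod_cast h7
  rw [xlim]
  push_cast
  calc (2 * (Nat.log 2 n : ℝ) + 2) / √(n : ℝ)
      ≤ (2 * (Real.log n / Real.log 2) + 2) / √(n : ℝ) := by gcongr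
    _ = 2 / Real.log 2 * (Real.log (n : ℝ) / √(n : ℝ)) + 2 / √(n : ℝ) := by ring

theorem limit_bound (ε : ℝ) (hε : 0 < ε) : ∃ n₀ : ℕ, ∀ n ≥ n₀, ∃ k D : ℕ, 1 ≤ k ∧ k < n ∧
    2 * k < D + 1 ∧ (4 * k * (D + 1) : ℝ) < (n - k + 1 : ℝ) ∧
      (4 * n / 2 ^ k + 5 / 8 * (1 + 2 * k / (2 * n - 2 * k : ℝ)) ^ (2 * k) /
        (1 - (4 * k * (D + 1) : ℝ) / (n - k + 1 : ℝ))) ≤
        (5 / 8 + ε) * (1 - 2 * k / (D + 1 : ℝ)) := by
  have hx := tendsto_xlim
  have hlhs : Tendsto (fun n : ℕ => 4 / (n : ℝ) + 5 / 8 * Real.exp (4 * xlim n ^ 2) /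
      (1 - 16 * xlim n)) atTop (𝓝 (0 + 5 / 8 * Real.exp (4 * 0 ^ 2) / (1 - 16 * 0))) := by
    refine Tendsto.add ?_ (Tendsto.div ?_ ?_ (by norm_num))
    · exact tendsto_const_nhds.div_atTop tendsto_natCast_atTop_atTop
    · exact ((Real.continuous_exp.tendsto _).comp ((hx.pow 2).const_mul 4)).const_mul _
    · exact (hx.const_mul 16).const_sub 1
  have hrhs : Tendsto (fun n : ℕ => (5 / 8 + ε) * (1 - 2 * xlim n)) atTop
      (𝓝 ((5 / 8 + ε) * (1 - 2 * 0))) := ((hx.const_mul 2).const_sub 1).const_mul _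
  have hev1 := hlhs.eventually_lt hrhs (by
    rw [zero_pow two_ne_zero, mul_zero, Real.exp_zero]
    norm_num
    linarith)
  have hev2 : ∀ᶠ n in atTop, xlim n < 1 / 32 := hx.eventually_lt_const (by norm_num)
  obtain ⟨n₀, hn₀⟩ := eventually_atTop.1 (hev1.and (hev2.and (eventually_ge_atTop 16)))
  refine ⟨n₀, fun n hn => ?_⟩
  obtain ⟨h1, h2, h3⟩ := hn₀ n hn
  set k := 2 * Nat.log 2 n + 2 with hk
  set D := Nat.sqrt n with hD
  set s : ℝ := √(n : ℝ) with hs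
  have hn16 : (16 : ℝ) ≤ n := by exact_mod_cast h3
  have hs4 : 4 ≤ s := by
    rw [hs]
    refine Real.le_sqrt_of_sq_le ?_
    linarith
  have hs0 : 0 < s := by linarith
  have hss : s * s = n := Real.mul_self_sqrt (by positivity)
  have hxs : (k : ℝ) = xlim n * s := by
    rw [xlim, ← hs, ← hk, div_mul_cancel₀ _ hs0.ne']
  set x := xlim n with hxdef
  have hx0 : 0 ≤ x := xlim_nonneg n
  have hk1 : (1 : ℝ) ≤ k := by
    have : 1 ≤ k := by omega
    exact_mod_cast this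
  have hks : (k : ℝ) ≤ s / 32 := by
    rw [hxs]
    nlinarith
  have hDs : (D : ℝ) ≤ s := by
    rw [hs]
    refine Real.le_sqrt_of_sq_le ?_
    have : D * D ≤ n := Nat.sqrt_le n
    rw [sq]
    exact_mod_cast this
  have hDs' : s < D + 1 := by
    have h4 : n < (D + 1) * (D + 1) := Nat.lt_succ_sqrt n
    have h5 : (n : ℝ) < (D + 1) * (D + 1) := by exact_mod_cast h4
    rw [← hss] at h5
    by_contra hcon
    push Not at hcon
    have h6 : (0:ℝ) ≤ D + 1 := by positivity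
    nlinarith
  have hkn : (k : ℝ) < n := by nlinarith
  have hkD : (2 * k : ℝ) < D + 1 := by nlinarith
  have hden : s * s / 2 ≤ n - k + 1 := by nlinarith
  have hden0 : (0 : ℝ) < n - k + 1 := by nlinarith
  have hD1 : ((D : ℝ) + 1) ≤ 2 * s := by linarith
  have hc : (4 * k * (D + 1) : ℝ) ≤ 16 * x * (n - k + 1) := by
    have h5 : (4 * k * (D + 1) : ℝ) ≤ 4 * (x * s) * (2 * s) := by
      rw [hxs]
      gcongr
    have h6 : 4 * (x * s) * (2 * s) = 16 * x * (s * s / 2) := by ring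
    have h7 : 16 * x * (s * s / 2) ≤ 16 * x * (n - k + 1) := by gcongr
    linarith
  have hc' : (4 * k * (D + 1) : ℝ) / (n - k + 1 : ℝ) ≤ 16 * x := by
    rw [div_le_iff₀ hden0]
    exact hc
  have hc1 : (4 * k * (D + 1) : ℝ) < (n - k + 1 : ℝ) := by
    refine hc.trans_lt ?_
    nlinarith
  refine ⟨k, D, by omega, by exact_mod_cast hkn, by exact_mod_cast hkD, hc1, ?_⟩
  -- the three parts
  have p1 : (4 * n / 2 ^ k : ℝ) ≤ 4 / n := by
    have h5 : n * n ≤ 2 ^ k := by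
      have h6 : n < 2 ^ (Nat.log 2 n + 1) := Nat.lt_pow_succ_log_self (by norm_num) n
      have h7 : 2 ^ k = 2 ^ (Nat.log 2 n + 1) * 2 ^ (Nat.log 2 n + 1) := by
        rw [← pow_add]
        congr 1
        omega
      rw [h7]
      exact Nat.mul_le_mul h6.le h6.le
    have h8 : (n : ℝ) * n ≤ 2 ^ k := by exact_mod_cast h5
    rw [div_le_div_iff₀ (by positivity) (by linarith)]
    nlinarith
  have p2 : (1 + 2 * k / (2 * n - 2 * k : ℝ)) ^ (2 * k) ≤ Real.exp (4 * x ^ 2) := by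
    have h5 : (0 : ℝ) < 2 * n - 2 * k := by linarith
    have h6 : 1 + 2 * k / (2 * n - 2 * k : ℝ) ≤ Real.exp (2 * k / (2 * n - 2 * k : ℝ)) := by
      rw [add_comm]
      exact Real.add_one_le_exp _
    have h7 : (0 : ℝ) ≤ 1 + 2 * k / (2 * n - 2 * k : ℝ) := by positivity
    calc (1 + 2 * k / (2 * n - 2 * k : ℝ)) ^ (2 * k)
        ≤ Real.exp (2 * k / (2 * n - 2 * k : ℝ)) ^ (2 * k) := by gcongr
      _ = Real.exp ((2 * k : ℕ) * (2 * k / (2 * n - 2 * k : ℝ))) := by rw [Real.exp_nat_mul]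
      _ ≤ Real.exp (4 * x ^ 2) := by
        apply Real.exp_le_exp.2
        push_cast
        rw [mul_div_assoc', div_le_iff₀ h5]
        have h8 : s * s ≤ 2 * n - 2 * k := by nlinarith
        calc (2 * k * (2 * k) : ℝ) = 4 * x ^ 2 * (s * s) := by rw [hxs]; ring
          _ ≤ 4 * x ^ 2 * (2 * n - 2 * k) := by gcongr
  have p3 : 0 < 1 - 16 * x := by linarith
  have p4 : (2 * k / (D + 1) : ℝ) ≤ 2 * x := by
    rw [div_le_iff₀ (by linarith)]
    rw [hxs]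
    nlinarith
  calc (4 * n / 2 ^ k + 5 / 8 * (1 + 2 * k / (2 * n - 2 * k : ℝ)) ^ (2 * k) /
        (1 - (4 * k * (D + 1) : ℝ) / (n - k + 1 : ℝ)))
      ≤ 4 / n + 5 / 8 * Real.exp (4 * x ^ 2) / (1 - 16 * x) := by
        gcongr
    _ ≤ (5 / 8 + ε) * (1 - 2 * x) := h1.le
    _ ≤ (5 / 8 + ε) * (1 - 2 * k / (D + 1 : ℝ)) := by
        gcongr

end Pool.Agent.Lib.MP_87840f_co
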