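import Pool.Agent.Lib.MP_87840f_co.Defs
import Pool.Agent.Lib.MP_87840f_co.Constr

/-!
# MP_87840f_co: a large 3-chromatic uniform clique from a regular tournament

Vertices are pairs `(i, x)`. `out t i` is the set of the labels beaten by `i` in a tournament on
`{0, ..., t-1}` with all outdegrees at most `t / 2`. The block of `i` is
`{i} × ({0, ..., t} \ out t i)`. The edges of `FF t` are the blocks `i` together with one of
`(j, j)`, `(j, i)` for every `j ∈ out t i`. Every cover of `FF t` contains a cover with exactly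
`t` elements.
-/

open Finset

namespace Pool.Agent.Lib.MP_87840f_co

namespace Tourn

/-- `i` beats `j` -/
def Beats (i j : ℕ) : Prop := (i < j ∧ (i + j) % 2 = 1) ∨ (j < i ∧ (i + j) % 2 = 0)

instance (i j : ℕ) : Decidable (Beats i j) := by unfold Beats; infer_instance

theorem Beats.ne {i j : ℕ} (h : Beats i j) : i ≠ j := by
  unfold Beats at h; omega

theorem beats_total {i j : ℕ} (h : i ≠ j) : Beats i j ∨ Beats j i := by
  unfold Beats; omega

theorem Beats.asymm {i j : ℕ} (h : Beats i j) : ¬ Beats j i := by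
  unfold Beats at h ⊢; omega

/-- the labels beaten by `i` -/
def out (t i : ℕ) : Finset ℕ := (range t).filter (fun j => Beats i j)

theorem mem_out {t i j : ℕ} : j ∈ out t i ↔ j < t ∧ Beats i j := by
  simp [out]

theorem card_out {t i : ℕ} (hi : i < t) : (out t i).card ≤ t / 2 := by
  rw [← card_range (t / 2)]
  refine card_le_card_of_injOn (fun j => (j - i % 2) / 2) ?_ ?_
  · intro j hj
    have h := mem_out.1 hj
    have h2 := h.2
    unfold Beats at h2
    simp only [coe_range, Set.mem_Iio]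
    omega
  · intro j hj k hk hjk
    have h1 := (mem_out.1 hj).2
    have h2 := (mem_out.1 hk).2
    unfold Beats at h1 h2
    simp only at hjk
    omega

/-- the edge of `i` for the set `A` -/
def EE (t i : ℕ) (A : Finset ℕ) : Finset (ℕ × ℕ) :=
  (range (t + 1) \ out t i).image (fun x => (i, x)) ∪
    (out t i).image (fun j => (j, if j ∈ A then i else j))

/-- the edges without the new vertex -/
def FF (t : ℕ) : Finset (Finset (ℕ × ℕ)) :=
  (range t).biUnion fun i => (out t i).powerset.image (fun A => EE t i A)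

theorem mem_FF {t : ℕ} {X : Finset (ℕ × ℕ)} :
    X ∈ FF t ↔ ∃ i < t, ∃ A ⊆ out t i, EE t i A = X := by
  simp [FF]

theorem mem_EE {t i : ℕ} {A : Finset ℕ} {p : ℕ × ℕ} : p ∈ EE t i A ↔
    (p.1 = i ∧ p.2 < t + 1 ∧ p.2 ∉ out t i) ∨
      (p.1 ∈ out t i ∧ p.2 = if p.1 ∈ A then i else p.1) := by
  obtain ⟨a, b⟩ := p
  simp only [EE, mem_union, mem_image, mem_sdiff, mem_range, Prod.mk.injEq]
  constructor
  · rintro (⟨x, ⟨hx1, hx2⟩, rfl, rfl⟩ | ⟨j, hj, rfl, rfl⟩)
    · exact Or.inl ⟨rfl, hx1, hx2⟩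
    · exact Or.inr ⟨hj, rfl⟩
  · rintro (⟨rfl, h1, h2⟩ | ⟨h1, rfl⟩)
    · exact Or.inl ⟨b, ⟨h1, h2⟩, rfl, rfl⟩
    · exact Or.inr ⟨a, h1, rfl, rfl⟩

theorem card_EE {t i : ℕ} {A : Finset ℕ} : (EE t i A).card = t + 1 := by
  unfold EE
  rw [card_union_of_disjoint, card_image_of_injective, card_image_of_injOn, card_sdiff_of_subset,
    card_range]
  · have h : (out t i).card ≤ (range t).card := card_filter_le _ _
    rw [card_range] at h
    omega
  · intro x hx
    have := (mem_out.1 hx).1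
    simp only [mem_range]
    omega
  · intro j _ k _ h
    simp only [Prod.mk.injEq] at h
    exact h.1
  · intro x y h
    simpa using h
  · rw [disjoint_left]
    intro p hp hq
    simp only [mem_image] at hp hq
    obtain ⟨x, _, rfl⟩ := hp
    obtain ⟨j, hj, h⟩ := hq
    simp only [Prod.mk.injEq] at h
    exact (mem_out.1 hj).2.ne h.1.symm

/-- the vertices of `FF t` -/
def VV (t : ℕ) : Finset (ℕ × ℕ) := range t ×ˢ range (t + 1)

theorem EE_sub {t i : ℕ} (hi : i < t) {A : Finset ℕ} : EE t i A ⊆ VV t := by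
  intro p hp
  rw [mem_EE] at hp
  rw [VV, mem_product, mem_range, mem_range]
  rcases hp with ⟨h1, h2, -⟩ | ⟨h1, h2⟩
  · exact ⟨h1 ▸ hi, h2⟩
  · have h3 := (mem_out.1 h1).1
    refine ⟨h3, ?_⟩
    rw [h2]
    split_ifs <;> omega

/-- `S` meets every edge of `FF t` -/
def Cover (t : ℕ) (S : ℕ × ℕ → Prop) : Prop := ∀ X ∈ FF t, ∃ p ∈ X, S p

/-- the covers with `t` elements -/
def ZZ (t : ℕ) : Finset (Finset (ℕ × ℕ)) :=
  ((VV t).powersetCard t).filter (fun Z => ∀ X ∈ FF t, ∃ p ∈ X, p ∈ Z)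

theorem mem_ZZ {t : ℕ} {Z : Finset (ℕ × ℕ)} : Z ∈ ZZ t ↔
    (Z ⊆ VV t ∧ Z.card = t) ∧ ∀ X ∈ FF t, ∃ p ∈ X, p ∈ Z := by
  simp [ZZ, mem_powersetCard]

/-- Every cover contains a cover with exactly `t` elements. -/
theorem exists_ZZ {t : ℕ} {S : ℕ × ℕ → Prop} (hS : ∀ X ∈ FF t, ∃ p ∈ X, S p) :
    ∃ Z ∈ ZZ t, ∀ p ∈ Z, S p := by
  classical
  -- missed labels
  have h1 : ∀ i < t, (∀ x, x < t + 1 → x ∉ out t i → ¬ S (i, x)) →
      ∃ j ∈ out t i, S (j, j) ∧ S (j, i) := by
    intro i hi hm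
    by_contra hcon
    push Not at hcon
    obtain ⟨p, hp, hpS⟩ := hS (EE t i ((out t i).filter (fun j => S (j, j))))
      (mem_FF.2 ⟨i, hi, _, filter_subset _ _, rfl⟩)
    rw [mem_EE] at hp
    obtain ⟨a, b⟩ := p
    rcases hp with ⟨h2, h3, h4⟩ | ⟨h2, h3⟩
    · simp only at h2 h3 h4
      subst h2
      exact hm b h3 h4 hpS
    · simp only at h2 h3
      by_cases h5 : S (a, a)
      · have h6 : a ∈ (out t i).filter (fun j => S (j, j)) := mem_filter.2 ⟨h2, h5⟩
        rw [if_pos h6] at h3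
        subst h3
        exact hcon a h2 h5 hpS
      · have h6 : a ∉ (out t i).filter (fun j => S (j, j)) := fun h => h5 (mem_filter.1 h).2
        rw [if_neg h6] at h3
        subst h3
        exact h5 hpS
  -- the chosen element for each label
  have h2 : ∀ k, ∃ q : ℕ × ℕ, k < t → S q ∧ q ∈ VV t ∧
      ((q.1 = k ∧ q.2 ∉ out t k ∧ (S (k, k) → q.2 = k)) ∨
        ((∀ x, x < t + 1 → x ∉ out t k → ¬ S (k, x)) ∧ q.2 = k ∧ q.1 ∈ out t k ∧
          S (q.1, q.1))) := by
    intro k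
    by_cases hk : k < t
    · by_cases hm : ∀ x, x < t + 1 → x ∉ out t k → ¬ S (k, x)
      · obtain ⟨j, hj, h3, h4⟩ := h1 k hk hm
        refine ⟨(j, k), fun _ => ⟨h4, ?_, Or.inr ⟨hm, rfl, hj, h3⟩⟩⟩
        rw [VV, mem_product, mem_range, mem_range]
        exact ⟨(mem_out.1 hj).1, by omega⟩
      · push Not at hm
        obtain ⟨x, hx1, hx2, hx3⟩ := hm
        by_cases hkk : S (k, k)
        · refine ⟨(k, k), fun _ => ⟨hkk, ?_, Or.inl ⟨rfl, ?_, fun _ => rfl⟩⟩⟩
          · rw [VV, mem_product, mem_range, mem_range]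
            exact ⟨hk, by omega⟩
          · intro h
            exact (mem_out.1 h).2.ne rfl
        · refine ⟨(k, x), fun _ => ⟨hx3, ?_, Or.inl ⟨rfl, hx2, fun h => absurd h hkk⟩⟩⟩
          rw [VV, mem_product, mem_range, mem_range]
          exact ⟨hk, hx1⟩
    · exact ⟨(0, 0), fun h => absurd h hk⟩
  choose z hz using h2
  have hinj : Set.InjOn z (range t : Finset ℕ) := by
    intro k hk l hl hkl
    rw [coe_range, Set.mem_Iio] at hk hl
    obtain ⟨k1, k2, k3⟩ := hz k hk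
    obtain ⟨l1, l2, l3⟩ := hz l hl
    rcases k3 with ⟨a1, a2, a3⟩ | ⟨a1, a2, a3, a4⟩
    · rcases l3 with ⟨b1, b2, b3⟩ | ⟨b1, b2, b3, b4⟩
      · rw [← a1, ← b1, hkl]
      · exfalso
        -- `z k = z l`, first coordinate `k`, and `S (k, k)`
        have e1 : (z l).1 = k := by rw [← hkl]; exact a1
        rw [e1] at b4 b3
        have e2 := a3 b4
        rw [hkl, b2] at e2
        exact (mem_out.1 b3).2.ne e2
    · rcases l3 with ⟨b1, b2, b3⟩ | ⟨b1, b2, b3, b4⟩
      · exfalso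
        have e1 : (z k).1 = l := by rw [hkl]; exact b1
        rw [e1] at a4 a3
        have e2 := b3 a4
        rw [← hkl, a2] at e2
        exact (mem_out.1 a3).2.ne e2
      · rw [← a2, ← b2, hkl]
  refine ⟨(range t).image z, mem_ZZ.2 ⟨⟨?_, ?_⟩, ?_⟩, ?_⟩
  · intro p hp
    obtain ⟨k, hk, rfl⟩ := mem_image.1 hp
    exact (hz k (mem_range.1 hk)).2.1
  · rw [card_image_of_injOn hinj, card_range]
  · intro X hX
    obtain ⟨i, hi, A, hA, rfl⟩ := mem_FF.1 hX
    obtain ⟨h3, h4, h5⟩ := hz i hi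
    rw [VV, mem_product, mem_range, mem_range] at h4
    rcases h5 with ⟨a1, a2, a3⟩ | ⟨a1, a2, a3, a4⟩
    · refine ⟨z i, mem_EE.2 (Or.inl ⟨a1, h4.2, a2⟩), mem_image_of_mem _ (mem_range.2 hi)⟩
    · by_cases hj : (z i).1 ∈ A
      · refine ⟨z i, mem_EE.2 (Or.inr ⟨a3, ?_⟩), mem_image_of_mem _ (mem_range.2 hi)⟩
        rw [if_pos hj, a2]
      · -- the centre of the block `j = (z i).1` is chosen
        set j := (z i).1 with hjdef
        have hjt : j < t := (mem_out.1 a3).1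
        obtain ⟨c1, c2, c3⟩ := hz j hjt
        refine ⟨z j, mem_EE.2 (Or.inr ?_), mem_image_of_mem _ (mem_range.2 hjt)⟩
        rcases c3 with ⟨b1, b2, b3⟩ | ⟨b1, b2, b3, b4⟩
        · rw [b1, if_neg hj, b3 a4]
          exact ⟨a3, rfl⟩
        · exfalso
          exact b1 j (by omega) (fun h => (mem_out.1 h).2.ne rfl) a4
  · intro p hp
    obtain ⟨k, hk, rfl⟩ := mem_image.1 hp
    exact (hz k (mem_range.1 hk)).1

/-- the new vertex -/
def omg (t : ℕ) : ℕ × ℕ := (t, 0)

theorem omg_notMem (t : ℕ) : omg t ∉ VV t := by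
  rw [VV, mem_product, mem_range, mem_range]
  rintro ⟨h, -⟩
  exact lt_irrefl t h

/-- the clique: the edges of `FF t` and the covers with `t` elements together with the new vertex -/
def KK (t : ℕ) : Finset (Finset (ℕ × ℕ)) := FF t ∪ (ZZ t).image (insert (omg t))

theorem meet_FF {t i j : ℕ} (hi : i < t) (hj : j < t) (A B : Finset ℕ) :
    ∃ p, p ∈ EE t i A ∧ p ∈ EE t j B := by
  have key : ∀ i j : ℕ, i < t → j < t → ∀ A B : Finset ℕ, Beats i j →
      ∃ p, p ∈ EE t i A ∧ p ∈ EE t j B := by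
    intro i j hi hj A B h
    refine ⟨(j, if j ∈ A then i else j), mem_EE.2 (Or.inr ⟨mem_out.2 ⟨hj, h⟩, rfl⟩),
      mem_EE.2 (Or.inl ⟨rfl, ?_, ?_⟩)⟩
    · split_ifs <;> simp only <;> omega
    · intro h2
      have h3 := (mem_out.1 h2).2
      simp only at h3
      split_ifs at h3
      · exact h.asymm h3
      · exact h3.ne rfl
  rcases eq_or_ne i j with rfl | hij
  · refine ⟨(i, i), mem_EE.2 (Or.inl ⟨rfl, by simp only; omega, ?_⟩),
      mem_EE.2 (Or.inl ⟨rfl, by simp only; omega, ?_⟩)⟩ <;>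
    exact fun h => (mem_out.1 h).2.ne rfl
  · rcases beats_total hij with h | h
    · exact key i j hi hj A B h
    · obtain ⟨p, h1, h2⟩ := key j i hj hi B A h
      exact ⟨p, h2, h1⟩

theorem clique (t : ℕ) : IsUniformClique (t + 1) (KK t) := by
  refine ⟨?_, ?_⟩
  · intro X hX
    rw [KK, mem_union, mem_image] at hX
    rcases hX with hX | ⟨Z, hZ, rfl⟩
    · obtain ⟨i, -, A, -, rfl⟩ := mem_FF.1 hX
      exact card_EE
    · obtain ⟨⟨h1, h2⟩, -⟩ := mem_ZZ.1 hZ
      rw [card_insert_of_notMem (fun h => omg_notMem t (h1 h)), h2]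
  · intro X hX Y hY
    rw [KK, mem_union, mem_image] at hX hY
    rcases hX with hX | ⟨Z, hZ, rfl⟩
    · rcases hY with hY | ⟨W, hW, rfl⟩
      · obtain ⟨i, hi, A, -, rfl⟩ := mem_FF.1 hX
        obtain ⟨j, hj, B, -, rfl⟩ := mem_FF.1 hY
        exact meet_FF hi hj A B
      · obtain ⟨p, hp, hpW⟩ := (mem_ZZ.1 hW).2 X hX
        exact ⟨p, hp, mem_insert_of_mem hpW⟩
    · rcases hY with hY | ⟨W, hW, rfl⟩
      · obtain ⟨p, hp, hpZ⟩ := (mem_ZZ.1 hZ).2 Y hY
        exact ⟨p, mem_insert_of_mem hpZ, hp⟩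
      · exact ⟨omg t, mem_insert_self _ _, mem_insert_self _ _⟩

theorem not_two (t : ℕ) : ¬ ProperlyColourable 2 (KK t) := by
  rintro ⟨c, hc⟩
  by_cases h : ∀ X ∈ FF t, ∃ p ∈ X, c p = c (omg t)
  · obtain ⟨Z, hZ, hZc⟩ := exists_ZZ (S := fun p => c p = c (omg t)) h
    refine hc (insert (omg t) Z) (mem_union_right _ (mem_image_of_mem _ hZ)) ⟨c (omg t), ?_⟩
    intro x hx
    rcases mem_insert.1 hx with rfl | hx
    · rfl
    · exact hZc x hx
  · push Not at h
    obtain ⟨X, hX, hXc⟩ := h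
    have key : ∀ a x : Fin 2, x ≠ a → x = a + 1 := by decide
    exact hc X (mem_union_left _ hX) ⟨c (omg t) + 1, fun x hx => key _ _ (hXc x hx)⟩

/-- the number of the transversals of the blocks -/
theorem card_ZZ (t : ℕ) : (t + 1 - t / 2) ^ t ≤ (ZZ t).card := by
  classical
  have h1 : (Fintype.piFinset (fun i : Fin t => range (t + 1) \ out t i)).card ≤
      (ZZ t).card := by
    refine card_le_card_of_injOn
      (fun g => (univ : Finset (Fin t)).image (fun i : Fin t => ((i : ℕ), g i))) ?_ ?_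
    · intro g hg
      rw [mem_coe, Fintype.mem_piFinset] at hg
      refine mem_coe.2 (mem_ZZ.2 ⟨⟨?_, ?_⟩, ?_⟩)
      · intro p hp
        obtain ⟨i, -, rfl⟩ := mem_image.1 hp
        rw [VV, mem_product, mem_range]
        exact ⟨i.2, (mem_sdiff.1 (hg i)).1⟩
      · rw [card_image_of_injective, card_univ, Fintype.card_fin]
        intro i j hij
        simp only [Prod.mk.injEq] at hij
        exact Fin.ext hij.1
      · intro X hX
        obtain ⟨i, hi, A, -, rfl⟩ := mem_FF.1 hX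
        have h2 := mem_sdiff.1 (hg ⟨i, hi⟩)
        exact ⟨(i, g ⟨i, hi⟩), mem_EE.2 (Or.inl ⟨rfl, mem_range.1 h2.1, h2.2⟩),
          mem_image.2 ⟨⟨i, hi⟩, mem_univ _, rfl⟩⟩
    · intro g _ g' _ h
      funext i
      have h2 : ((i : ℕ), g i) ∈ (univ : Finset (Fin t)).image (fun i : Fin t => ((i : ℕ), g' i)) := by
        have h3 : ((i : ℕ), g i) ∈ (univ : Finset (Fin t)).image (fun i : Fin t => ((i : ℕ), g i)) :=
          mem_image.2 ⟨i, mem_univ _, rfl⟩
        have h' : (univ : Finset (Fin t)).image (fun i : Fin t => ((i : ℕ), g i)) =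
          (univ : Finset (Fin t)).image (fun i : Fin t => ((i : ℕ), g' i)) := h
        rwa [h'] at h3
      obtain ⟨j, -, hj⟩ := mem_image.1 h2
      simp only [Prod.mk.injEq] at hj
      have h4 : j = i := Fin.ext hj.1
      rw [← hj.2, h4]
  refine le_trans ?_ h1
  rw [Fintype.card_piFinset]
  calc (t + 1 - t / 2) ^ t = ∏ _i : Fin t, (t + 1 - t / 2) := by
        rw [prod_const, card_univ, Fintype.card_fin]
    _ ≤ ∏ i : Fin t, (range (t + 1) \ out t i).card := by
        refine prod_le_prod (fun _ _ => Nat.zero_le _) fun i _ => ?_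
        rw [card_sdiff_of_subset, card_range]
        · have := card_out i.2
          omega
        · intro x hx
          have := (mem_out.1 hx).1
          simp only [mem_range]
          omega

/-- the clique with vertices in `ℕ` -/
def LL (t : ℕ) : Finset (Finset ℕ) :=
  (KK t).map (mapEmbedding Nat.pairEquiv.toEmbedding).toEmbedding

theorem card_LL (t : ℕ) : (t + 1 - t / 2) ^ t ≤ (LL t).card := by
  rw [LL, card_map, KK]
  refine (card_ZZ t).trans ?_
  refine le_trans ?_ (card_le_card subset_union_right)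
  rw [card_image_of_injOn]
  intro Z hZ W hW h
  have hZ' : omg t ∉ Z := fun h => omg_notMem t ((mem_ZZ.1 hZ).1.1 h)
  have hW' : omg t ∉ W := fun h => omg_notMem t ((mem_ZZ.1 hW).1.1 h)
  have h' : insert (omg t) Z = insert (omg t) W := h
  rw [← erase_insert hZ', h', erase_insert hW']

theorem LL_clique (t : ℕ) : IsUniformClique (t + 1) (LL t) := by
  obtain ⟨h1, h2⟩ := clique t
  refine ⟨?_, ?_⟩
  · intro X hX
    obtain ⟨Y, hY, rfl⟩ := mem_map.1 hX
    simp only [RelEmbedding.coe_toEmbedding, mapEmbedding_apply, card_map]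
    exact h1 Y hY
  · intro X hX X' hX'
    obtain ⟨Y, hY, rfl⟩ := mem_map.1 hX
    obtain ⟨Y', hY', rfl⟩ := mem_map.1 hX'
    obtain ⟨p, hp, hp'⟩ := h2 Y hY Y' hY'
    simp only [RelEmbedding.coe_toEmbedding, mapEmbedding_apply]
    exact ⟨_, mem_map_of_mem _ hp, mem_map_of_mem _ hp'⟩

theorem LL_not_two (t : ℕ) : ¬ ProperlyColourable 2 (LL t) := by
  rintro ⟨c, hc⟩
  refine not_two t ⟨fun p => c (Nat.pairEquiv p), fun Y hY => ?_⟩
  rintro ⟨i, hi⟩
  refine hc _ (mem_map_of_mem _ hY) ⟨i, ?_⟩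
  intro x hx
  simp only [RelEmbedding.coe_toEmbedding, mapEmbedding_apply] at hx
  obtain ⟨p, hp, rfl⟩ := mem_map.1 hx
  exact hi p hp

/-- A 3-chromatic `n`-uniform clique with at least `(n/2 + 1)^(n-1)` edges. -/
theorem exists_clique (n : ℕ) (hn : 2 ≤ n) :
    ∃ F : Finset (Finset ℕ), IsThreeChromaticClique n F ∧ (n / 2 + 1) ^ (n - 1) ≤ F.card := by
  obtain ⟨t, rfl⟩ : ∃ t, n = t + 1 := ⟨n - 1, by omega⟩
  have h1 := card_LL t
  have h2 : (t + 1) / 2 + 1 = t + 1 - t / 2 := by omega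
  have h3 : t + 1 - 1 = t := rfl
  refine ⟨LL t, ⟨LL_clique t, ?_, LL_not_two t⟩, ?_⟩
  · refine Constr.three hn (LL_clique t) ?_
    rw [← card_pos]
    refine lt_of_lt_of_le (Nat.pow_pos ?_) h1
    omega
  · rw [h2, h3]
    exact h1

end Tourn

end Pool.Agent.Lib.MP_87840f_co
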