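import Mathlib
import Pool.Agent.Lib.MP_87840f_co.SExpose
import Pool.Agent.Lib.MP_87840f_co.Kernel
import Pool.Agent.Lib.MP_87840f_co.Count
import Pool.Agent.Lib.MP_87840f_co.Defs
import Pool.Agent.Lib.MP_87840f_co.Cover

section

section

/-!
# MP_87840f_co: sharp local lemma, the singleton case
-/

open Finset

namespace Pool.Agent.Lib.MP_87840f_co

variable {V : Type*} [DecidableEq V]

theorem Phi_of_empty_right (𝒜 : Finset (Finset V)) : Phi 𝒜 ∅ = 0 := by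
  unfold Phi
  refine Finset.sum_eq_zero fun x _ => ?_
  exact wt_eq_zero fun A _ B hB => absurd hB (Finset.notMem_empty B)

theorem Phi_singleton {𝒜 ℬ : Finset (Finset V)} (h : Cross 𝒜 ℬ) (ih : IH 𝒜 ℬ)
    (hs : ∃ A ∈ 𝒜, A.card ≤ 1) : Phi 𝒜 ℬ ≤ 1 := by
  obtain ⟨A, hA, hAc⟩ := hs
  rcases ℬ.eq_empty_or_nonempty with hB | ⟨B, hB⟩
  · rw [hB, Phi_of_empty_right]; exact zero_le_one
  -- `A` is a singleton
  have hAB := h A hA B hB
  have hAne : A.Nonempty := hAB.mono Finset.inter_subset_left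
  have hA1 : A.card = 1 := le_antisymm hAc hAne.card_pos
  obtain ⟨y, rfl⟩ := Finset.card_eq_one.1 hA1
  have hall : ∀ B ∈ ℬ, y ∈ B := by
    intro B hB
    obtain ⟨z, hz⟩ := h _ hA B hB
    rw [Finset.mem_inter, Finset.mem_singleton] at hz
    rw [← hz.1]; exact hz.2
  have hint : ∀ B ∈ ℬ, ({y} : Finset V) ∩ B = {y} := fun B hB =>
    Finset.inter_eq_left.2 (Finset.singleton_subset_iff.2 (hall B hB))
  by_cases hbig : ∃ B ∈ ℬ, 2 ≤ B.card
  · obtain ⟨B', hB', h2⟩ := hbig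
    have h1 := wt_le hA hB' (hint B' hB')
    have h3 : (4 : ℝ) / 2 ^ (({y} : Finset V).card + B'.card) ≤ 1 / 2 := by
      rw [Finset.card_singleton]
      have h4 : (2 : ℝ) ^ 3 ≤ 2 ^ (1 + B'.card) := pow_le_pow_right₀ (by norm_num) (by omega)
      rw [div_le_div_iff₀ (by positivity) (by norm_num)]
      linarith
    have hy : y ∈ ground 𝒜 ℬ := by
      unfold ground
      rw [Finset.mem_union, Finset.mem_biUnion]
      exact Or.inl ⟨{y}, hA, Finset.mem_singleton_self y⟩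
    have h5 := Phi_all h ih hy hall
    linarith
  · push Not at hbig
    have hBy : ∀ B ∈ ℬ, B = {y} := by
      intro B hB
      have h1 : B.card ≤ 1 := by have := hbig B hB; omega
      exact (Finset.eq_of_subset_of_card_le (Finset.singleton_subset_iff.2 (hall B hB))
        (by rw [Finset.card_singleton]; exact h1)).symm
    have hwy : wt 𝒜 ℬ y ≤ 1 := by
      have h1 := wt_le hA hB (hint B hB)
      rw [hBy B hB, Finset.card_singleton] at h1
      norm_num at h1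
      exact h1
    have hw0 : ∀ x, x ≠ y → wt 𝒜 ℬ x = 0 := by
      intro x hx
      refine wt_eq_zero fun A' _ B' hB' hc => hx ?_
      have h1 : x ∈ A' ∩ B' := by rw [hc]; exact Finset.mem_singleton_self x
      have h2 := (Finset.mem_inter.1 h1).2
      rw [hBy B' hB', Finset.mem_singleton] at h2
      exact h2
    unfold Phi
    have hy : y ∈ 𝒜.biUnion id := Finset.mem_biUnion.2 ⟨{y}, hA, Finset.mem_singleton_self y⟩
    rw [Finset.sum_eq_single_of_mem y hy fun x _ hx => hw0 x hx]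
    exact hwy

end Pool.Agent.Lib.MP_87840f_co
end

section

/-!
# MP_87840f_co: sharp local lemma, sizes (2,3), leaf case
-/

open Finset

namespace Pool.Agent.Lib.MP_87840f_co

variable {V : Type*} [DecidableEq V]

/-- `Phi_named` with a bound for the number of colourings. -/
theorem leaf_named {𝒜 ℬ : Finset (Finset V)} (h : Cross 𝒜 ℬ) (ih : IH 𝒜 ℬ) {m : ℕ}
    (e : Fin m → V) (he : Function.Injective e) (h0 : ∃ i, e i ∈ ground 𝒜 ℬ)
    (LA LB : Finset (Finset (Fin m)))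
    (hLA : ∀ J ∈ LA, J.image e ∈ 𝒜)
    (hLB : ∀ J ∈ LB, ∀ A ∈ 𝒜, (∃ j ∈ J, e j ∈ A) ∨ ∃ K ∈ LA, A = K.image e) (N : ℕ)
    (hN : ((univ : Finset (Fin m → Bool)).filter (fun c =>
        (∀ J ∈ LA, ∃ j ∈ J, c j = false) ∧ (∀ J ∈ LB, ∃ j ∈ J, c j = true))).card ≤ N) :
    Phi 𝒜 ℬ ≤ ∑ i, wt 𝒜 ℬ (e i) + (N : ℝ) / 2 ^ m := by
  refine (Phi_named h ih e he h0 LA LB hLA hLB).trans ?_
  have : (((univ : Finset (Fin m → Bool)).filter (fun c =>
        (∀ J ∈ LA, ∃ j ∈ J, c j = false) ∧ (∀ J ∈ LB, ∃ j ∈ J, c j = true))).card : ℝ) ≤ N := by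
    exact_mod_cast hN
  have h2 := div_le_div_of_nonneg_right this (by positivity : (0 : ℝ) ≤ 2 ^ m)
  linarith

theorem Psi.size {𝒜 ℬ : Finset (Finset V)} (h : Psi 𝒜 ℬ) (y : V) :
    ∀ A ∈ 𝒜, ∀ B ∈ ℬ, A ∩ B = {y} → 5 ≤ A.card + B.card := by
  intro A hA B hB _
  have := h.hA A hA
  have := h.hB B hB
  omega

/-- Weights are `1/8` (and then there is a neighbour) or at most `1/16`. -/
theorem Psi.dich {𝒜 ℬ : Finset (Finset V)} (h : Psi 𝒜 ℬ) (y : V) :
    (wt 𝒜 ℬ y = 1 / 8 ∧ ∃ t, t ≠ y ∧ ({y, t} : Finset V) ∈ 𝒜) ∨ wt 𝒜 ℬ y ≤ 1 / 16 := by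
  rcases wt_eq_or_le 5 (h.size y) with ⟨h1, ⟨A, hA, B, hB, hAB⟩, h3⟩ | h1
  · left
    refine ⟨by rw [h1]; norm_num, ?_⟩
    have h4 := h3 A hA B hB hAB
    have h5 := h.hA A hA
    have h6 := h.hB B hB
    have h7 : A.card = 2 := by omega
    have hyA : y ∈ A := by
      have : y ∈ A ∩ B := by rw [hAB]; exact Finset.mem_singleton_self y
      exact (Finset.mem_inter.1 this).1
    obtain ⟨p, q, hpq, rfl⟩ := Finset.card_eq_two.1 h7
    rw [Finset.mem_insert, Finset.mem_singleton] at hyA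
    rcases hyA with rfl | rfl
    · exact ⟨q, hpq.symm, hA⟩
    · exact ⟨p, hpq, by rw [Finset.pair_comm]; exact hA⟩
  · right
    refine h1.trans (by norm_num)

/-- Pair members have weight `1/8`. -/
theorem Psi.wt_left {𝒜 ℬ : Finset (Finset V)} (h : Psi 𝒜 ℬ) {x s : V} (hxs : x ≠ s)
    (hs : ({x, s} : Finset V) ∈ 𝒜) : wt 𝒜 ℬ x = 1 / 8 :=
  h.heavy _ hs (Finset.card_pair hxs) x (Finset.mem_insert_self _ _)

theorem Psi.wt_right {𝒜 ℬ : Finset (Finset V)} (h : Psi 𝒜 ℬ) {x s : V} (hxs : x ≠ s)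
    (hs : ({x, s} : Finset V) ∈ 𝒜) : wt 𝒜 ℬ s = 1 / 8 :=
  h.heavy _ hs (Finset.card_pair hxs) s (Finset.mem_insert_of_mem (Finset.mem_singleton_self _))

/-- F1. -/
theorem Psi.f1 {𝒜 ℬ : Finset (Finset V)} (h : Psi 𝒜 ℬ) {x s : V} (hxs : x ≠ s)
    (hs : ({x, s} : Finset V) ∈ 𝒜) {B : Finset V} (hB : B ∈ ℬ) (hx : x ∉ B) :
    s ∈ B ∧ B.card = 3 := by
  have h1 : s ∈ B := by
    obtain ⟨z, hz⟩ := h.cross _ hs B hB
    rw [Finset.mem_inter, Finset.mem_insert, Finset.mem_singleton] at hz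
    rcases hz.1 with rfl | rfl
    · exact absurd hz.2 hx
    · exact hz.2
  refine ⟨h1, ?_⟩
  have h2 : ({x, s} : Finset V) ∩ B = {s} := by
    ext z
    simp only [Finset.mem_inter, Finset.mem_insert, Finset.mem_singleton]
    constructor
    · rintro ⟨rfl | rfl, h3⟩
      · exact absurd h3 hx
      · rfl
    · rintro rfl
      exact ⟨Or.inr rfl, h1⟩
  have h3 := wt_le hs hB h2
  rw [h.wt_right hxs hs, Finset.card_pair hxs] at h3
  have h4 := h.hB B hB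
  by_contra hne
  have h5 : 4 ≤ B.card := by omega
  have h6 : (2 : ℝ) ^ 6 ≤ 2 ^ (2 + B.card) := pow_le_pow_right₀ (by norm_num) (by omega)
  rw [div_le_div_iff₀ (by norm_num) (by positivity)] at h3
  norm_num at h6
  linarith

/-- The situation around a leaf `x`. -/
structure Leaf (𝒜 ℬ : Finset (Finset V)) (x a y z : V) : Prop where
  psi : Psi 𝒜 ℬ
  xa : x ≠ a
  xy : x ≠ y
  xz : x ≠ z
  ay : a ≠ y
  az : a ≠ z
  yz : y ≠ z
  mem : ({x, a} : Finset V) ∈ 𝒜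
  huniq : ∀ b, b ≠ x → ({x, b} : Finset V) ∈ 𝒜 → b = a
  cover : ∀ A ∈ 𝒜, (y ∈ A ∨ z ∈ A) ∨ A = {x, a}

theorem Leaf.symm {𝒜 ℬ : Finset (Finset V)} {x a y z : V} (H : Leaf 𝒜 ℬ x a y z) :
    Leaf 𝒜 ℬ x a z y :=
  ⟨H.psi, H.xa, H.xz, H.xy, H.az, H.ay, H.yz.symm, H.mem, H.huniq, fun A hA => by
    rcases H.cover A hA with (h | h) | h
    · exact Or.inl (Or.inr h)
    · exact Or.inl (Or.inl h)
    · exact Or.inr h⟩

theorem Leaf.ground {𝒜 ℬ : Finset (Finset V)} {x a y z : V} (H : Leaf 𝒜 ℬ x a y z) :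
    x ∈ ground 𝒜 ℬ := by
  unfold MP_87840f_co.ground
  rw [Finset.mem_union, Finset.mem_biUnion]
  exact Or.inl ⟨_, H.mem, Finset.mem_insert_self _ _⟩

theorem Leaf.wtx {𝒜 ℬ : Finset (Finset V)} {x a y z : V} (H : Leaf 𝒜 ℬ x a y z) :
    wt 𝒜 ℬ x = 1 / 8 := H.psi.wt_left H.xa H.mem

theorem Leaf.wta {𝒜 ℬ : Finset (Finset V)} {x a y z : V} (H : Leaf 𝒜 ℬ x a y z) :
    wt 𝒜 ℬ a = 1 / 8 := H.psi.wt_right H.xa H.mem

theorem Leaf.le_eighth {𝒜 ℬ : Finset (Finset V)} {x a y z : V} (H : Leaf 𝒜 ℬ x a y z) (v : V) :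
    wt 𝒜 ℬ v ≤ 1 / 8 := by
  rcases H.psi.dich v with ⟨h, _⟩ | h
  · exact h.le
  · linarith

theorem leaf_inj4 {x a y z : V} (h1 : x ≠ a) (h2 : x ≠ y) (h3 : x ≠ z) (h4 : a ≠ y) (h5 : a ≠ z)
    (h6 : y ≠ z) : Function.Injective ![x, a, y, z] := by
  intro i j hij
  fin_cases i <;> fin_cases j <;> simp_all [eq_comm]

theorem leaf_inj5 {x a y z t : V} (h1 : x ≠ a) (h2 : x ≠ y) (h3 : x ≠ z) (h4 : a ≠ y) (h5 : a ≠ z)
    (h6 : y ≠ z) (t1 : t ≠ x) (t2 : t ≠ a) (t3 : t ≠ y) (t4 : t ≠ z) :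
    Function.Injective ![x, a, y, z, t] := by
  intro i j hij
  fin_cases i <;> fin_cases j <;> simp_all [eq_comm]

theorem leaf_inj6 {x a y z t s : V} (h1 : x ≠ a) (h2 : x ≠ y) (h3 : x ≠ z) (h4 : a ≠ y) (h5 : a ≠ z)
    (h6 : y ≠ z) (t1 : t ≠ x) (t2 : t ≠ a) (t3 : t ≠ y) (t4 : t ≠ z)
    (s1 : s ≠ x) (s2 : s ≠ a) (s3 : s ≠ y) (s4 : s ≠ z) (s5 : s ≠ t) :
    Function.Injective ![x, a, y, z, t, s] := by
  intro i j hij
  fin_cases i <;> fin_cases j <;> simp_all [eq_comm]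

theorem Leaf.small {𝒜 ℬ : Finset (Finset V)} {x a y z : V} (H : Leaf 𝒜 ℬ x a y z)
    (hw : wt 𝒜 ℬ y + wt 𝒜 ℬ z ≤ 1 / 8) : Phi 𝒜 ℬ ≤ 15 / 16 := by
  have h1 := leaf_named H.psi.cross H.psi.ih ![x, a, y, z]
    (leaf_inj4 H.xa H.xy H.xz H.ay H.az H.yz) ⟨0, H.ground⟩ {{0, 1}} {{2, 3}} (by
      intro J hJ
      rw [Finset.mem_singleton] at hJ
      subst hJ
      simpa using H.mem) (by
      intro J hJ A hA
      rw [Finset.mem_singleton] at hJ
      subst hJ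
      rcases H.cover A hA with (h | h) | h
      · exact Or.inl ⟨2, by decide, h⟩
      · exact Or.inl ⟨3, by decide, h⟩
      · exact Or.inr ⟨{0, 1}, by decide, by rw [h]; simp⟩) 9 (by decide)
  simp only [Fin.sum_univ_four, Matrix.cons_val] at h1
  rw [H.wtx, H.wta] at h1
  norm_num at h1
  linarith

theorem Leaf.case_yz {𝒜 ℬ : Finset (Finset V)} {x a y z : V} (H : Leaf 𝒜 ℬ x a y z)
    (hyz : ({y, z} : Finset V) ∈ 𝒜) : Phi 𝒜 ℬ ≤ 15 / 16 := by
  have h1 := leaf_named H.psi.cross H.psi.ih ![x, a, y, z]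
    (leaf_inj4 H.xa H.xy H.xz H.ay H.az H.yz) ⟨0, H.ground⟩ {{0, 1}, {2, 3}} {{2, 3}} (by
      intro J hJ
      rw [Finset.mem_insert, Finset.mem_singleton] at hJ
      rcases hJ with rfl | rfl
      · simpa using H.mem
      · simpa using hyz) (by
      intro J hJ A hA
      rw [Finset.mem_singleton] at hJ
      subst hJ
      rcases H.cover A hA with (h | h) | h
      · exact Or.inl ⟨2, by decide, h⟩
      · exact Or.inl ⟨3, by decide, h⟩
      · exact Or.inr ⟨{0, 1}, by decide, by rw [h]; simp⟩) 6 (by decide)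
  simp only [Fin.sum_univ_four, Matrix.cons_val] at h1
  rw [H.wtx, H.wta] at h1
  have h2 := H.le_eighth y
  have h3 := H.le_eighth z
  norm_num at h1
  linarith

theorem Leaf.case_ay {𝒜 ℬ : Finset (Finset V)} {x a y z : V} (H : Leaf 𝒜 ℬ x a y z)
    (hay : ({a, y} : Finset V) ∈ 𝒜) : Phi 𝒜 ℬ ≤ 15 / 16 := by
  have h1 := leaf_named H.psi.cross H.psi.ih ![x, a, y, z]
    (leaf_inj4 H.xa H.xy H.xz H.ay H.az H.yz) ⟨0, H.ground⟩ {{0, 1}, {1, 2}} {{2, 3}} (by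
      intro J hJ
      rw [Finset.mem_insert, Finset.mem_singleton] at hJ
      rcases hJ with rfl | rfl
      · simpa using H.mem
      · simpa using hay) (by
      intro J hJ A hA
      rw [Finset.mem_singleton] at hJ
      subst hJ
      rcases H.cover A hA with (h | h) | h
      · exact Or.inl ⟨2, by decide, h⟩
      · exact Or.inl ⟨3, by decide, h⟩
      · exact Or.inr ⟨{0, 1}, by decide, by rw [h]; simp⟩) 7 (by decide)
  simp only [Fin.sum_univ_four, Matrix.cons_val] at h1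
  rw [H.wtx, H.wta] at h1
  have h2 := H.le_eighth y
  have h3 := H.le_eighth z
  norm_num at h1
  linarith

theorem Leaf.case_t {𝒜 ℬ : Finset (Finset V)} {x a y z : V} (H : Leaf 𝒜 ℬ x a y z) {t : V}
    (t1 : t ≠ x) (t2 : t ≠ a) (t3 : t ≠ y) (t4 : t ≠ z) (hyt : ({y, t} : Finset V) ∈ 𝒜)
    (hz : wt 𝒜 ℬ z ≤ 1 / 16) : Phi 𝒜 ℬ ≤ 15 / 16 := by
  have h1 := leaf_named H.psi.cross H.psi.ih ![x, a, y, z, t]
    (leaf_inj5 H.xa H.xy H.xz H.ay H.az H.yz t1 t2 t3 t4) ⟨0, H.ground⟩ {{0, 1}, {2, 4}} {{2, 3}} (by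
      intro J hJ
      rw [Finset.mem_insert, Finset.mem_singleton] at hJ
      rcases hJ with rfl | rfl
      · simpa using H.mem
      · simpa using hyt) (by
      intro J hJ A hA
      rw [Finset.mem_singleton] at hJ
      subst hJ
      rcases H.cover A hA with (h | h) | h
      · exact Or.inl ⟨2, by decide, h⟩
      · exact Or.inl ⟨3, by decide, h⟩
      · exact Or.inr ⟨{0, 1}, by decide, by rw [h]; simp⟩) 12 (by decide)
  simp only [Fin.sum_univ_five, Matrix.cons_val] at h1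
  rw [H.wtx, H.wta] at h1
  have h2 := H.le_eighth y
  have h3 := H.le_eighth t
  norm_num at h1
  linarith

theorem Leaf.case_tt {𝒜 ℬ : Finset (Finset V)} {x a y z : V} (H : Leaf 𝒜 ℬ x a y z) {t : V}
    (t1 : t ≠ x) (t2 : t ≠ a) (t3 : t ≠ y) (t4 : t ≠ z) (hyt : ({y, t} : Finset V) ∈ 𝒜)
    (hzt : ({z, t} : Finset V) ∈ 𝒜) : Phi 𝒜 ℬ ≤ 15 / 16 := by
  have h1 := leaf_named H.psi.cross H.psi.ih ![x, a, y, z, t]
    (leaf_inj5 H.xa H.xy H.xz H.ay H.az H.yz t1 t2 t3 t4) ⟨0, H.ground⟩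
    {{0, 1}, {2, 4}, {3, 4}} {{2, 3}} (by
      intro J hJ
      rw [Finset.mem_insert, Finset.mem_insert, Finset.mem_singleton] at hJ
      rcases hJ with rfl | rfl | rfl
      · simpa using H.mem
      · simpa using hyt
      · simpa using hzt) (by
      intro J hJ A hA
      rw [Finset.mem_singleton] at hJ
      subst hJ
      rcases H.cover A hA with (h | h) | h
      · exact Or.inl ⟨2, by decide, h⟩
      · exact Or.inl ⟨3, by decide, h⟩
      · exact Or.inr ⟨{0, 1}, by decide, by rw [h]; simp⟩) 9 (by decide)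
  simp only [Fin.sum_univ_five, Matrix.cons_val] at h1
  rw [H.wtx, H.wta] at h1
  have h2 := H.le_eighth y
  have h3 := H.le_eighth t
  have h4 := H.le_eighth z
  norm_num at h1
  linarith

theorem Leaf.case_ts {𝒜 ℬ : Finset (Finset V)} {x a y z : V} (H : Leaf 𝒜 ℬ x a y z) {t s : V}
    (t1 : t ≠ x) (t2 : t ≠ a) (t3 : t ≠ y) (t4 : t ≠ z) (hyt : ({y, t} : Finset V) ∈ 𝒜)
    (s1 : s ≠ x) (s2 : s ≠ a) (s3 : s ≠ y) (s4 : s ≠ z) (s5 : s ≠ t)
    (hzs : ({z, s} : Finset V) ∈ 𝒜) (J : Finset (Fin 6))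
    (hJ : (J = {0, 4, 3} ∨ J = {0, 4, 5}) ∨ (J = {1, 4, 3} ∨ J = {1, 4, 5}))
    (hJB : ∀ A ∈ 𝒜, ∃ j ∈ J, (![x, a, y, z, t, s] : Fin 6 → V) j ∈ A) : Phi 𝒜 ℬ ≤ 15 / 16 := by
  have h1 := leaf_named H.psi.cross H.psi.ih ![x, a, y, z, t, s]
    (leaf_inj6 H.xa H.xy H.xz H.ay H.az H.yz t1 t2 t3 t4 s1 s2 s3 s4 s5) ⟨0, H.ground⟩
    {{0, 1}, {2, 4}, {3, 5}} {{2, 3}, J} (by
      intro J hJ
      rw [Finset.mem_insert, Finset.mem_insert, Finset.mem_singleton] at hJ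
      rcases hJ with rfl | rfl | rfl
      · simpa using H.mem
      · simpa using hyt
      · simpa using hzs) (by
      intro K hK A hA
      rw [Finset.mem_insert, Finset.mem_singleton] at hK
      rcases hK with rfl | rfl
      · rcases H.cover A hA with (h | h) | h
        · exact Or.inl ⟨2, by decide, h⟩
        · exact Or.inl ⟨3, by decide, h⟩
        · exact Or.inr ⟨{0, 1}, by decide, by rw [h]; simp⟩
      · exact Or.inl (hJB A hA)) 11 (by
        rcases hJ with (rfl | rfl) | (rfl | rfl) <;> decide)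
  simp only [Fin.sum_univ_six, Matrix.cons_val] at h1
  rw [H.wtx, H.wta] at h1
  have h2 := H.le_eighth y
  have h3 := H.le_eighth t
  have h4 := H.le_eighth z
  have h5 := H.le_eighth s
  norm_num at h1
  linarith

theorem Leaf.main {𝒜 ℬ : Finset (Finset V)} {x a y z : V} (H : Leaf 𝒜 ℬ x a y z)
    {t : V} (ty : t ≠ y) (hyt : ({y, t} : Finset V) ∈ 𝒜) : Phi 𝒜 ℬ ≤ 15 / 16 := by
  have t1 : t ≠ x := by
    rintro rfl
    exact H.ay (H.huniq y H.xy.symm (by rw [Finset.pair_comm]; exact hyt)).symm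
  by_cases t2 : t = a
  · subst t2
    exact H.case_ay (by rw [Finset.pair_comm]; exact hyt)
  by_cases t4 : t = z
  · subst t4
    exact H.case_yz hyt
  rcases H.psi.dich z with ⟨_, s, sz, hzs⟩ | hz
  swap
  · exact H.case_t t1 t2 ty t4 hyt hz
  have s1 : s ≠ x := by
    rintro rfl
    exact H.az (H.huniq z H.xz.symm (by rw [Finset.pair_comm]; exact hzs)).symm
  by_cases s2 : s = a
  · subst s2
    exact H.symm.case_ay (by rw [Finset.pair_comm]; exact hzs)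
  by_cases s3 : s = y
  · subst s3
    exact H.case_yz (by rw [Finset.pair_comm]; exact hzs)
  by_cases s5 : s = t
  · subst s5
    exact H.case_tt t1 t2 ty t4 hyt hzs
  obtain ⟨B, hB, hyB⟩ := H.psi.miss y
  obtain ⟨htB, hB3⟩ := H.psi.f1 ty.symm hyt hB hyB
  have hxa : x ∈ B ∨ a ∈ B := by
    obtain ⟨w, hw⟩ := H.psi.cross _ H.mem B hB
    rw [Finset.mem_inter, Finset.mem_insert, Finset.mem_singleton] at hw
    rcases hw.1 with rfl | rfl
    · exact Or.inl hw.2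
    · exact Or.inr hw.2
  have hzsB : z ∈ B ∨ s ∈ B := by
    obtain ⟨w, hw⟩ := H.psi.cross _ hzs B hB
    rw [Finset.mem_inter, Finset.mem_insert, Finset.mem_singleton] at hw
    rcases hw.1 with rfl | rfl
    · exact Or.inl hw.2
    · exact Or.inr hw.2
  have key : ∀ i u : V, i ∈ B → u ∈ B → i ≠ t → u ≠ t → i ≠ u → B = {i, t, u} := by
    intro i u hi hu h1 h2 h3
    refine (Finset.eq_of_subset_of_card_le ?_ ?_).symm
    · intro w hw
      rw [Finset.mem_insert, Finset.mem_insert, Finset.mem_singleton] at hw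
      rcases hw with rfl | rfl | rfl
      · exact hi
      · exact htB
      · exact hu
    · rw [hB3, Finset.card_eq_three.2 ⟨i, t, u, h1, h3, fun h => h2 h.symm, rfl⟩]
  have key2 : ∀ i u : V, i ∈ B → u ∈ B → i ≠ t → u ≠ t → i ≠ u → ∀ A ∈ 𝒜,
      i ∈ A ∨ t ∈ A ∨ u ∈ A := by
    intro i u hi hu h1 h2 h3 A hA
    obtain ⟨w, hw⟩ := H.psi.cross A hA B hB
    rw [Finset.mem_inter] at hw
    have h4 := hw.2
    rw [key i u hi hu h1 h2 h3, Finset.mem_insert, Finset.mem_insert, Finset.mem_singleton] at h4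
    rcases h4 with rfl | rfl | rfl
    · exact Or.inl hw.1
    · exact Or.inr (Or.inl hw.1)
    · exact Or.inr (Or.inr hw.1)
  rcases hxa with hi | hi <;> rcases hzsB with hu | hu
  · refine H.case_ts t1 t2 ty t4 hyt s1 s2 s3 sz s5 hzs {0, 4, 3} (by simp) fun A hA => ?_
    rcases key2 x z hi hu t1.symm (fun h => t4 h.symm) H.xz A hA with h | h | h
    · exact ⟨0, by decide, h⟩
    · exact ⟨4, by decide, h⟩
    · exact ⟨3, by decide, h⟩
  · refine H.case_ts t1 t2 ty t4 hyt s1 s2 s3 sz s5 hzs {0, 4, 5} (by simp) fun A hA => ?_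
    rcases key2 x s hi hu t1.symm s5 s1.symm A hA with h | h | h
    · exact ⟨0, by decide, h⟩
    · exact ⟨4, by decide, h⟩
    · exact ⟨5, by decide, h⟩
  · refine H.case_ts t1 t2 ty t4 hyt s1 s2 s3 sz s5 hzs {1, 4, 3} (by simp) fun A hA => ?_
    rcases key2 a z hi hu (fun h => t2 h.symm) (fun h => t4 h.symm) H.az A hA with h | h | h
    · exact ⟨1, by decide, h⟩
    · exact ⟨4, by decide, h⟩
    · exact ⟨3, by decide, h⟩
  · refine H.case_ts t1 t2 ty t4 hyt s1 s2 s3 sz s5 hzs {1, 4, 5} (by simp) fun A hA => ?_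
    rcases key2 a s hi hu (fun h => t2 h.symm) s5 (fun h => s2 h.symm) A hA with h | h | h
    · exact ⟨1, by decide, h⟩
    · exact ⟨4, by decide, h⟩
    · exact ⟨5, by decide, h⟩

theorem Psi.leaf {𝒜 ℬ : Finset (Finset V)} (h : Psi 𝒜 ℬ) {x a : V} (hxa : x ≠ a)
    (ha : ({x, a} : Finset V) ∈ 𝒜) (huniq : ∀ b, b ≠ x → ({x, b} : Finset V) ∈ 𝒜 → b = a) :
    Phi 𝒜 ℬ ≤ 15 / 16 := by
  obtain ⟨B, hB, haB⟩ := h.miss a
  obtain ⟨hxB, hB3⟩ := h.f1 hxa.symm (by rw [Finset.pair_comm]; exact ha) hB haB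
  have hcard : (B.erase x).card = 2 := by rw [Finset.card_erase_of_mem hxB, hB3]
  obtain ⟨y, z, hyz, hBe⟩ := Finset.card_eq_two.1 hcard
  have hy : y ∈ B.erase x := by rw [hBe]; simp
  have hz : z ∈ B.erase x := by rw [hBe]; simp
  have hBmem : ∀ w ∈ B, w = x ∨ w = y ∨ w = z := by
    intro w hw
    by_cases hwx : w = x
    · exact Or.inl hwx
    · have : w ∈ B.erase x := Finset.mem_erase.2 ⟨hwx, hw⟩
      rw [hBe, Finset.mem_insert, Finset.mem_singleton] at this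
      exact Or.inr this
  rw [Finset.mem_erase] at hy hz
  have H : Leaf 𝒜 ℬ x a y z := by
    refine ⟨h, hxa, hy.1.symm, hz.1.symm, ?_, ?_, hyz, ha, huniq, ?_⟩
    · rintro rfl; exact haB hy.2
    · rintro rfl; exact haB hz.2
    · intro A hA
      by_cases hAyz : y ∈ A ∨ z ∈ A
      · exact Or.inl hAyz
      push Not at hAyz
      right
      have hxA : x ∈ A := by
        obtain ⟨w, hw⟩ := h.cross A hA B hB
        rw [Finset.mem_inter] at hw
        rcases hBmem w hw.2 with rfl | rfl | rfl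
        · exact hw.1
        · exact absurd hw.1 hAyz.1
        · exact absurd hw.1 hAyz.2
      by_cases h2 : A.card = 2
      · obtain ⟨p, q, hpq, rfl⟩ := Finset.card_eq_two.1 h2
        rw [Finset.mem_insert, Finset.mem_singleton] at hxA
        rcases hxA with rfl | rfl
        · rw [huniq q hpq.symm hA]
        · rw [Finset.pair_comm] at hA ⊢
          rw [huniq p hpq hA]
      · exfalso
        have h3 := h.hA A hA
        have h4 : A ∩ B = {x} := by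
          ext w
          rw [Finset.mem_inter, Finset.mem_singleton]
          constructor
          · rintro ⟨hwA, hwB⟩
            rcases hBmem w hwB with rfl | rfl | rfl
            · rfl
            · exact absurd hwA hAyz.1
            · exact absurd hwA hAyz.2
          · rintro rfl; exact ⟨hxA, hxB⟩
        have h5 := wt_le hA hB h4
        rw [h.wt_left hxa ha, hB3] at h5
        have h6 : (2 : ℝ) ^ 6 ≤ 2 ^ (A.card + 3) := pow_le_pow_right₀ (by norm_num) (by omega)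
        rw [div_le_div_iff₀ (by norm_num) (by positivity)] at h5
        norm_num at h6
        linarith
  rcases h.dich y with ⟨_, t, hty, hyt⟩ | hwy
  · exact H.main hty hyt
  rcases h.dich z with ⟨_, t, htz, hzt⟩ | hwz
  · exact H.symm.main htz hzt
  · exact H.small (by linarith)

end Pool.Agent.Lib.MP_87840f_co
end

section

/-!
# MP_87840f_co: assembly of the sharp local lemma
-/

open Finset

namespace Pool.Agent.Lib.MP_87840f_co

variable {V : Type*} [DecidableEq V]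

/-- Lemma psi. -/
theorem Phi_two_three {𝒜 ℬ : Finset (Finset V)} (h : Cross 𝒜 ℬ) (ih : IH 𝒜 ℬ)
    (hA : ∀ A ∈ 𝒜, 2 ≤ A.card) (hB : ∀ B ∈ ℬ, 3 ≤ B.card) (h2 : ∃ A ∈ 𝒜, A.card = 2) :
    Phi 𝒜 ℬ ≤ 15 / 16 := by
  have hsz : ∀ x, ∀ A ∈ 𝒜, ∀ B ∈ ℬ, A ∩ B = {x} → 5 ≤ A.card + B.card := by
    intro x A hA' B hB' _
    have h1 := hA A hA'
    have h2 := hB B hB'
    omega
  have hw : ∀ x, wt 𝒜 ℬ x ≤ 1 / 8 := by
    intro x
    have h1 := wt_le_of_forall 5 (hsz x)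
    norm_num at h1 ⊢
    exact h1
  -- light pair
  by_cases hlight : ∃ A ∈ 𝒜, A.card = 2 ∧ ∑ x ∈ A, wt 𝒜 ℬ x ≤ 3 / 16
  · obtain ⟨A, hAA, hA2, hAs⟩ := hlight
    have h1 := Phi_member h ih hAA (Finset.card_pos.1 (by omega))
    rw [hA2] at h1
    norm_num at h1 ⊢
    linarith
  push Not at hlight
  have heavy : ∀ A ∈ 𝒜, A.card = 2 → ∀ x ∈ A, wt 𝒜 ℬ x = 1 / 8 := by
    intro A hAA hA2 x hx
    rcases wt_eq_or_le 5 (hsz x) with h1 | h1
    · rw [h1.1]; norm_num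
    · exfalso
      have h3 := hlight A hAA hA2
      obtain ⟨y, hy⟩ : ∃ y, A.erase x = {y} := by
        apply Finset.card_eq_one.1
        rw [Finset.card_erase_of_mem hx, hA2]
      have h4 : ∑ z ∈ A, wt 𝒜 ℬ z = wt 𝒜 ℬ x + wt 𝒜 ℬ y := by
        rw [← Finset.add_sum_erase A _ hx, hy, Finset.sum_singleton]
      have h5 := hw y
      rw [h4] at h3
      norm_num at h1 h3 h5
      linarith
  -- some element in all `B`
  by_cases hall : ∃ x, ∀ B ∈ ℬ, x ∈ B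
  · obtain ⟨x, hx⟩ := hall
    rcases ℬ.eq_empty_or_nonempty with hE | ⟨B, hBB⟩
    · rw [hE, Phi_of_empty_right]; norm_num
    · have hxg : x ∈ ground 𝒜 ℬ := by
        unfold ground
        rw [Finset.mem_union]
        right
        exact Finset.mem_biUnion.2 ⟨B, hBB, hx B hBB⟩
      have h1 := Phi_all h ih hxg hx
      have h3 := hw x
      linarith
  push Not at hall
  have hpsi : Psi 𝒜 ℬ := ⟨h, ih, hA, hB, heavy, hall⟩
  by_cases hleaf : ∃ x a, x ≠ a ∧ ({x, a} : Finset V) ∈ 𝒜 ∧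
      ∀ b, b ≠ x → ({x, b} : Finset V) ∈ 𝒜 → b = a
  · obtain ⟨x, a, hxa, ha, hu⟩ := hleaf
    exact hpsi.leaf hxa ha hu
  · have hdeg : ∀ t : V, (∃ s, s ≠ t ∧ ({t, s} : Finset V) ∈ 𝒜) →
        ∃ s s', s ≠ s' ∧ s ≠ t ∧ s' ≠ t ∧ ({t, s} : Finset V) ∈ 𝒜 ∧
          ({t, s'} : Finset V) ∈ 𝒜 := by
      rintro t ⟨s, hst, hs⟩
      by_contra hno
      apply hleaf
      refine ⟨t, s, hst.symm, hs, fun b hb hb2 => ?_⟩
      by_contra hbs
      exact hno ⟨s, b, fun h => hbs h.symm, hst, hb, hs, hb2⟩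
    obtain ⟨A, hAA, hA2⟩ := h2
    obtain ⟨x, y, hxy, rfl⟩ := Finset.card_eq_two.1 hA2
    obtain ⟨a, b, hab, hax, hbx, ha, hb⟩ := hdeg x ⟨y, hxy.symm, hAA⟩
    exact hpsi.degree_two hab hax.symm hbx.symm ha hb hdeg

/-- The red state at an element of weight `1/16`. -/
private theorem loc_red {𝒜 ℬ : Finset (Finset V)} (h : Cross 𝒜 ℬ)
    (ih : ∀ 𝒜' ℬ' : Finset (Finset V), Cross 𝒜' ℬ' →
      (ground 𝒜' ℬ').card < (ground 𝒜 ℬ).card → Phi 𝒜' ℬ' ≤ 1)
    (hA : ∀ A ∈ 𝒜, 3 ≤ A.card) (hB : ∀ B ∈ ℬ, 3 ≤ B.card) {x : V} {A : Finset V} (hAA : A ∈ 𝒜)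
    (hA3 : A.card = 3) (hx : x ∈ A) :
    Phi (res 𝒜 {x} ∅) (res ℬ ∅ {x}) ≤ 15 / 16 := by
  have hc : Cross (res 𝒜 {x} ∅) (res ℬ ∅ {x}) := cross_res h (Finset.disjoint_empty_right _)
  have hxg : x ∈ ground 𝒜 ℬ := by
    unfold ground
    rw [Finset.mem_union]
    left
    exact Finset.mem_biUnion.2 ⟨A, hAA, hx⟩
  have hlt : (ground (res 𝒜 {x} ∅) (res ℬ ∅ {x})).card < (ground 𝒜 ℬ).card := by
    apply Finset.card_lt_card
    refine ⟨fun y hy => ?_, fun hsub => ?_⟩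
    · exact (Finset.mem_sdiff.1 (ground_res 𝒜 ℬ {x} ∅ hy)).1
    · have h1 := ground_res 𝒜 ℬ {x} ∅ (hsub hxg)
      rw [Finset.mem_sdiff] at h1
      exact h1.2 (by simp)
  refine Phi_two_three hc (fun 𝒜' ℬ' hc' hl' => ih 𝒜' ℬ' hc' (hl'.trans hlt)) ?_ ?_ ?_
  · intro A' hA'
    unfold res at hA'
    obtain ⟨A'', hA'', rfl⟩ := Finset.mem_image.1 hA'
    have h1 := hA A'' (Finset.mem_filter.1 hA'').1
    have h2 := Finset.le_card_sdiff ({x} : Finset V) A''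
    rw [Finset.card_singleton] at h2
    omega
  · intro B' hB'
    unfold res at hB'
    obtain ⟨B'', hB'', rfl⟩ := Finset.mem_image.1 hB'
    rw [Finset.sdiff_empty]
    exact hB B'' (Finset.mem_filter.1 hB'').1
  · refine ⟨A \ {x}, ?_, ?_⟩
    · unfold res
      exact Finset.mem_image.2 ⟨A, Finset.mem_filter.2 ⟨hAA, Finset.disjoint_empty_right _⟩, rfl⟩
    · rw [Finset.card_sdiff_of_subset (Finset.singleton_subset_iff.2 hx), hA3,
        Finset.card_singleton]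

private theorem loc_pow {r : ℕ} (hr : 4 ≤ r) : (r : ℝ) * (4 / 2 ^ (r + r)) ≤ 1 / 2 ^ r := by
  have h1 : 4 * r ≤ 2 ^ r := by
    induction r, hr using Nat.le_induction with
    | base => norm_num
    | succ n hn ih => rw [pow_succ]; omega
  have h2 : (4 : ℝ) * r ≤ 2 ^ r := by exact_mod_cast h1
  have h3 : (0 : ℝ) < 2 ^ r := by positivity
  rw [pow_add, ← mul_div_assoc, div_le_div_iff₀ (by positivity) h3]
  nlinarith

/-- The main case distinction, with a smallest set in `𝒜`. -/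
private theorem loc_main {𝒜 ℬ : Finset (Finset V)} (h : Cross 𝒜 ℬ)
    (ih : ∀ 𝒜' ℬ' : Finset (Finset V), Cross 𝒜' ℬ' →
      (ground 𝒜' ℬ').card < (ground 𝒜 ℬ).card → Phi 𝒜' ℬ' ≤ 1) {C : Finset V} (hC : C ∈ 𝒜)
    (hA : ∀ A ∈ 𝒜, C.card ≤ A.card) (hB : ∀ B ∈ ℬ, C.card ≤ B.card) : Phi 𝒜 ℬ ≤ 1 := by
  have hgc : ground ℬ 𝒜 = ground 𝒜 ℬ := by unfold ground; exact Finset.union_comm _ _
  have hsz : ∀ x, ∀ A ∈ 𝒜, ∀ B ∈ ℬ, A ∩ B = {x} → C.card + C.card ≤ A.card + B.card := by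
    intro x A hA' B hB' _
    exact add_le_add (hA A hA') (hB B hB')
  rcases Nat.lt_or_ge C.card 2 with hr | hr
  · exact Phi_singleton h ih ⟨C, hC, by omega⟩
  have hne : C.Nonempty := Finset.card_pos.1 (by omega)
  have hmem := Phi_member h ih hC hne
  -- bound of the sum over `C`
  have hsum : ∀ c : ℝ, (∀ x, wt 𝒜 ℬ x ≤ c) → ∑ x ∈ C, wt 𝒜 ℬ x ≤ C.card * c := by
    intro c hc
    have := Finset.sum_le_card_nsmul C (fun x => wt 𝒜 ℬ x) c (fun x _ => hc x)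
    rwa [nsmul_eq_mul] at this
  rcases Nat.lt_or_ge C.card 3 with hr3 | hr3
  · have hC2 : C.card = 2 := by omega
    rw [hC2] at hsz hmem hA hB
    by_cases hheavy : ∃ x, wt 𝒜 ℬ x = 1 / 4
    · obtain ⟨x, hx⟩ := hheavy
      exact Phi_heavy h ih hA hB hx
    · push Not at hheavy
      have hw : ∀ x, wt 𝒜 ℬ x ≤ 1 / 8 := by
        intro x
        rcases wt_eq_or_le (2 + 2) (hsz x) with h1 | h1
        · exact absurd (by rw [h1.1]; norm_num) (hheavy x)
        · norm_num at h1 ⊢; exact h1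
      have h1 := hsum _ hw
      rw [hC2] at h1
      norm_num at h1 hmem
      linarith
  rcases Nat.lt_or_ge C.card 4 with hr4 | hr4
  · have hC3 : C.card = 3 := by omega
    rw [hC3] at hsz hmem hA hB
    by_cases hheavy : ∃ x, wt 𝒜 ℬ x = 1 / 16
    · obtain ⟨x, hx⟩ := hheavy
      obtain ⟨-, ⟨A, hAA, B, hBB, hAB⟩, hall⟩ : wt 𝒜 ℬ x = 4 / 2 ^ (3 + 3) ∧
          (∃ A ∈ 𝒜, ∃ B ∈ ℬ, A ∩ B = {x}) ∧
          ∀ A ∈ 𝒜, ∀ B ∈ ℬ, A ∩ B = {x} → A.card + B.card = 3 + 3 := by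
        rcases wt_eq_or_le (3 + 3) (hsz x) with h1 | h1
        · exact h1
        · rw [hx] at h1; norm_num at h1
      have h6 := hall A hAA B hBB hAB
      have hA3 := hA A hAA
      have hB3 := hB B hBB
      have hxAB : x ∈ A ∩ B := by rw [hAB]; exact Finset.mem_singleton_self x
      rw [Finset.mem_inter] at hxAB
      have hred := loc_red h ih hA hB hAA (by omega) hxAB.1
      have hblue := loc_red h.symm (by rw [hgc]; exact ih) hB hA hBB (by omega) hxAB.2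
      have h7 := Phi_one h x
      rw [Phi_comm (res 𝒜 ∅ {x}) (res ℬ {x} ∅)] at h7
      rw [hx] at h7
      linarith
    · push Not at hheavy
      have hw : ∀ x, wt 𝒜 ℬ x ≤ 1 / 32 := by
        intro x
        rcases wt_eq_or_le (3 + 3) (hsz x) with h1 | h1
        · exact absurd (by rw [h1.1]; norm_num) (hheavy x)
        · norm_num at h1 ⊢; exact h1
      have h1 := hsum _ hw
      rw [hC3] at h1
      norm_num at h1 hmem
      linarith
  · have hw : ∀ x, wt 𝒜 ℬ x ≤ 4 / 2 ^ (C.card + C.card) := fun x => wt_le_of_forall _ (hsz x)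
    have h1 := hsum _ hw
    have h2 := loc_pow hr4
    linarith

theorem Phi_le_one {𝒜 ℬ : Finset (Finset V)} (h : Cross 𝒜 ℬ) : Phi 𝒜 ℬ ≤ 1 := by
  obtain ⟨n, hn⟩ : ∃ n, (ground 𝒜 ℬ).card = n := ⟨_, rfl⟩
  induction n using Nat.strong_induction_on generalizing 𝒜 ℬ with
  | _ n ihn =>
  have ih : ∀ 𝒜' ℬ' : Finset (Finset V), Cross 𝒜' ℬ' →
      (ground 𝒜' ℬ').card < (ground 𝒜 ℬ).card → Phi 𝒜' ℬ' ≤ 1 := by
    intro 𝒜' ℬ' hc hl
    exact ihn _ (by omega) hc rfl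
  have hgc : ground ℬ 𝒜 = ground 𝒜 ℬ := by unfold ground; exact Finset.union_comm _ _
  rcases (𝒜 ∪ ℬ).eq_empty_or_nonempty with hE | hne
  · have hB : ℬ = ∅ := by
      rw [← Finset.subset_empty, ← hE]; exact Finset.subset_union_right
    rw [hB, Phi_of_empty_right]
    exact zero_le_one
  · obtain ⟨C, hC, hmin⟩ := Finset.exists_min_image (𝒜 ∪ ℬ) Finset.card hne
    have hA : ∀ A ∈ 𝒜, C.card ≤ A.card := fun A hA => hmin A (Finset.mem_union_left _ hA)
    have hB : ∀ B ∈ ℬ, C.card ≤ B.card := fun B hB => hmin B (Finset.mem_union_right _ hB)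
    rcases Finset.mem_union.1 hC with hC | hC
    · exact loc_main h ih hC hA hB
    · rw [Phi_comm]
      exact loc_main h.symm (by rw [hgc]; exact ih) hC hB hA

/-- SHARP LOCAL LEMMA. -/
theorem sharp_local_lemma {ι : Type*} (S : Finset ι) (a b : ι → Finset V) (u : ι → V)
    (hinj : ∀ i ∈ S, ∀ j ∈ S, u i = u j → i = j)
    (htight : ∀ i ∈ S, a i ∩ b i = {u i})
    (hcross : ∀ i ∈ S, ∀ j ∈ S, (a i ∩ b j).Nonempty)
    (hmax : ∀ i ∈ S, ∀ j ∈ S, ∀ l ∈ S, a j ∩ b l = {u i} →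
      (a j).card + (b l).card ≤ (a i).card + (b i).card) :
    ∑ i ∈ S, (4 : ℝ) / 2 ^ ((a i).card + (b i).card) ≤ 1 := by
  have hc : Cross (S.image a) (S.image b) := by
    intro A hA B hB
    obtain ⟨i, hi, rfl⟩ := Finset.mem_image.1 hA
    obtain ⟨j, hj, rfl⟩ := Finset.mem_image.1 hB
    exact hcross i hi j hj
  refine le_trans ?_ (Phi_le_one hc)
  have h1 : ∑ i ∈ S, (4 : ℝ) / 2 ^ ((a i).card + (b i).card)
      ≤ ∑ i ∈ S, wt (S.image a) (S.image b) (u i) := by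
    refine Finset.sum_le_sum fun i hi => ?_
    have hne : (tp (S.image a) (S.image b) (u i)).Nonempty := by
      refine ⟨(a i, b i), ?_⟩
      unfold tp
      exact Finset.mem_filter.2 ⟨Finset.mem_product.2 ⟨Finset.mem_image_of_mem _ hi,
        Finset.mem_image_of_mem _ hi⟩, htight i hi⟩
    have hmx : mx (S.image a) (S.image b) (u i) ≤ (a i).card + (b i).card := by
      unfold mx
      refine Finset.sup_le fun p hp => ?_
      unfold tp at hp
      obtain ⟨hp1, hp2⟩ := Finset.mem_filter.1 hp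
      obtain ⟨hp3, hp4⟩ := Finset.mem_product.1 hp1
      obtain ⟨j, hj, hj2⟩ := Finset.mem_image.1 hp3
      obtain ⟨l, hl, hl2⟩ := Finset.mem_image.1 hp4
      rw [← hj2, ← hl2] at hp2 ⊢
      exact hmax i hi j hj l hl hp2
    unfold wt
    rw [if_pos hne]
    have h2 : (2 : ℝ) ^ mx (S.image a) (S.image b) (u i) ≤ 2 ^ ((a i).card + (b i).card) :=
      pow_le_pow_right₀ (by norm_num) hmx
    exact div_le_div_of_nonneg_left (by norm_num) (by positivity) h2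
  refine h1.trans ?_
  have h2 : ∑ i ∈ S, wt (S.image a) (S.image b) (u i)
      = ∑ x ∈ S.image u, wt (S.image a) (S.image b) x :=
    (Finset.sum_image fun i hi j hj hij => hinj i hi j hj hij).symm
  rw [h2]
  unfold Phi
  refine Finset.sum_le_sum_of_subset_of_nonneg ?_ fun x _ _ => wt_nonneg _ _ x
  intro x hx
  obtain ⟨i, hi, rfl⟩ := Finset.mem_image.1 hx
  refine Finset.mem_biUnion.2 ⟨a i, Finset.mem_image_of_mem _ hi, ?_⟩
  have h3 : u i ∈ a i ∩ b i := by rw [htight i hi]; exact Finset.mem_singleton_self _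
  exact (Finset.mem_inter.1 h3).1

end Pool.Agent.Lib.MP_87840f_co
end

section

/-!
# MP_87840f_co: main counting with maximal pairs (K9)
-/

set_option linter.unusedSectionVars false

open Finset

namespace Pool.Agent.Lib.MP_87840f_co

section scount

variable {V : Type*} [Fintype V] [DecidableEq V]

/-- The oriented pairs over `I` in half conflict with `i`. -/
def scH (U I : Finset V) (A B : V → Finset V) (i : V × Bool) : Finset (V × Bool) :=
  (I ×ˢ (univ : Finset Bool)).filter (fun j => j.1 ≠ i.1 ∧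
    ¬ ((mcP A B i \ U) ∩ (mcQ A B j \ U) = ∅ ↔ (mcP A B j \ U) ∩ (mcQ A B i \ U) = ∅))

/-- The hypotheses, for oriented pairs. -/
structure SMC (n k : ℕ) (U I : Finset V) (F : Finset (Finset V)) (A B : V → Finset V) :
    Prop where
  sub : I ⊆ U
  PF : ∀ i : V × Bool, i.1 ∈ I → mcP A B i ∈ F
  QF : ∀ i : V × Bool, i.1 ∈ I → mcQ A B i ∈ F
  cn : ∀ P ∈ F, P.card = n
  cl : ∀ P ∈ F, ∀ Q ∈ F, (P ∩ Q).Nonempty
  tight : ∀ i : V × Bool, i.1 ∈ I → mcP A B i ∩ mcQ A B i = {i.1}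
  max : ∀ i : V × Bool, i.1 ∈ I → ∀ P ∈ F, ∀ Q ∈ F, P ∩ Q = {i.1} →
    (P ∩ U).card + (Q ∩ U).card ≤ (mcP A B i ∩ U).card + (mcQ A B i ∩ U).card
  kF : ∀ P ∈ F, (P ∩ U).card ≤ k
  kn : k < n

variable {n k : ℕ} {U I : Finset V} {F : Finset (Finset V)} {A B : V → Finset V}

theorem SMC.dis (h : SMC n k U I F A B) {i : V × Bool} (hi : i.1 ∈ I) {x : V}
    (h1 : x ∈ mcP A B i \ U) (h2 : x ∈ mcQ A B i \ U) : False := by
  rw [mem_sdiff] at h1 h2
  have h3 : x ∈ mcP A B i ∩ mcQ A B i := mem_inter.2 ⟨h1.1, h2.1⟩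
  rw [h.tight i hi, mem_singleton] at h3
  exact h1.2 (h3 ▸ h.sub hi)

theorem SMC.cP' (h : SMC n k U I F A B) {i : V × Bool} (hi : i.1 ∈ I) :
    (mcP A B i \ U).card = n - (mcP A B i ∩ U).card := by
  have h1 := card_sdiff_add_card_inter (mcP A B i) U
  rw [h.cn _ (h.PF i hi)] at h1
  omega

theorem SMC.cQ' (h : SMC n k U I F A B) {i : V × Bool} (hi : i.1 ∈ I) :
    (mcQ A B i \ U).card = n - (mcQ A B i ∩ U).card := by
  have h1 := card_sdiff_add_card_inter (mcQ A B i) U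
  rw [h.cn _ (h.QF i hi)] at h1
  omega

/-- A half conflict has small probability. -/
theorem SMC.half (h : SMC n k U I F A B) {i j : V × Bool} (hi : i.1 ∈ I)
    (hj : j ∈ scH U I A B i)
    (S : Finset (V ≃ Fin (Fintype.card V))) (hS : ∀ f ∈ S, f ∈ mcE U A B i ∧ f ∈ mcE U A B j) :
    S.card * (n - k + 1) ≤ (mcE U A B i).card := by
  unfold scH at hj
  rw [mem_filter, mem_product] at hj
  obtain ⟨⟨hjU, -⟩, -, hnot⟩ := hj
  have hkP := h.kF _ (h.PF j hjU)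
  have hkQ := h.kF _ (h.QF j hjU)
  have hcP := h.cP' hjU
  have hcQ := h.cQ' hjU
  by_cases h1 : (mcP A B i \ U) ∩ (mcQ A B j \ U) = ∅
  · have h2 : (mcP A B j \ U) ∩ (mcQ A B i \ U) ≠ ∅ := fun h2 => hnot ⟨fun _ => h2, fun _ => h1⟩
    obtain ⟨y, hy⟩ := nonempty_iff_ne_empty.2 h2
    rw [mem_inter] at hy
    have hb := swap_bound (mcP A B i \ U) (mcQ A B i \ U) (mcQ A B j \ U) y
      (fun hy' => h.dis hi hy' hy.2) (fun hy' => h.dis hjU hy.1 hy')
      (disjoint_iff_inter_eq_empty.2 h1) hy.2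
    refine le_trans ?_ hb
    refine Nat.mul_le_mul (card_le_card fun f hf => ?_) (by omega)
    obtain ⟨hf1, hf2⟩ := hS f hf
    refine mem_filter.2 ⟨hf1, fun c hc => ?_⟩
    exact (mem_before.1 hf2) y hy.1 c hc
  · have h2 : (mcP A B j \ U) ∩ (mcQ A B i \ U) = ∅ := by
      by_contra h2
      exact hnot ⟨fun h3 => absurd h3 h1, fun h3 => absurd h3 h2⟩
    obtain ⟨y, hy⟩ := nonempty_iff_ne_empty.2 h1
    rw [mem_inter] at hy
    have hb := swap_bound_rev (mcQ A B i \ U) (mcP A B i \ U) (mcP A B j \ U) y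
      (fun hy' => h.dis hi hy.1 hy') (fun hy' => h.dis hjU hy' hy.2)
      (disjoint_iff_inter_eq_empty.2 (by rw [inter_comm]; exact h2)) hy.1
    refine le_trans ?_ hb
    refine Nat.mul_le_mul (card_le_card fun f hf => ?_) (by omega)
    obtain ⟨hf1, hf2⟩ := hS f hf
    refine mem_filter.2 ⟨hf1, fun c hc => ?_⟩
    exact (mem_before.1 hf2) c hc y hy.2

theorem SMC.cardH (h : SMC n k U I F A B) {D : ℕ}
    (hD : ∀ z ∈ U, (I.filter (fun u => u ≠ z ∧ (z ∈ A u ∨ z ∈ B u))).card ≤ D)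
    {i : V × Bool} (hi : i.1 ∈ I) : (scH U I A B i).card ≤ 4 * k * (D + 1) := by
  have hsub : scH U I A B i ⊆ (((A i.1 ∪ B i.1) ∩ U).biUnion
      (fun z => I.filter (fun v => z ∈ A v ∨ z ∈ B v))) ×ˢ (univ : Finset Bool) := by
    intro j hj
    unfold scH at hj
    rw [mem_filter, mem_product] at hj
    obtain ⟨⟨hjU, -⟩, -, hnot⟩ := hj
    rw [mem_product]
    refine ⟨?_, mem_univ _⟩
    have key : ∃ z ∈ U, (z ∈ mcP A B i ∨ z ∈ mcQ A B i) ∧ (z ∈ mcP A B j ∨ z ∈ mcQ A B j) := by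
      by_cases h1 : (mcP A B i \ U) ∩ (mcQ A B j \ U) = ∅
      · obtain ⟨z, hz⟩ := h.cl _ (h.PF i hi) _ (h.QF j hjU)
        rw [mem_inter] at hz
        refine ⟨z, ?_, Or.inl hz.1, Or.inr hz.2⟩
        by_contra hzU
        have : z ∈ (mcP A B i \ U) ∩ (mcQ A B j \ U) :=
          mem_inter.2 ⟨mem_sdiff.2 ⟨hz.1, hzU⟩, mem_sdiff.2 ⟨hz.2, hzU⟩⟩
        rw [h1] at this
        exact absurd this (notMem_empty _)
      · have h2 : (mcP A B j \ U) ∩ (mcQ A B i \ U) = ∅ := by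
          by_contra h2
          exact hnot ⟨fun h3 => absurd h3 h1, fun h3 => absurd h3 h2⟩
        obtain ⟨z, hz⟩ := h.cl _ (h.PF j hjU) _ (h.QF i hi)
        rw [mem_inter] at hz
        refine ⟨z, ?_, Or.inr hz.2, Or.inl hz.1⟩
        by_contra hzU
        have : z ∈ (mcP A B j \ U) ∩ (mcQ A B i \ U) :=
          mem_inter.2 ⟨mem_sdiff.2 ⟨hz.1, hzU⟩, mem_sdiff.2 ⟨hz.2, hzU⟩⟩
        rw [h2] at this
        exact absurd this (notMem_empty _)
    obtain ⟨z, hzU, h1, h2⟩ := key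
    rw [mem_biUnion]
    refine ⟨z, mem_inter.2 ⟨mc_mem_union h1, hzU⟩, mem_filter.2 ⟨hjU, ?_⟩⟩
    exact mem_union.1 (mc_mem_union h2)
  have hcard1 : ((A i.1 ∪ B i.1) ∩ U).card ≤ 2 * k := by
    have h1 := h.kF _ (h.PF (i.1, true) hi)
    have h2 := h.kF _ (h.PF (i.1, false) hi)
    simp only [mcP] at h1 h2
    rw [union_inter_distrib_right]
    refine (card_union_le _ _).trans ?_
    simp at h1 h2
    omega
  have hcard2 : ∀ z ∈ (A i.1 ∪ B i.1) ∩ U, (I.filter (fun v => z ∈ A v ∨ z ∈ B v)).card ≤ D + 1 := by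
    intro z hz
    have hzU := (mem_inter.1 hz).2
    have hs : I.filter (fun v => z ∈ A v ∨ z ∈ B v) ⊆
        insert z (I.filter (fun u => u ≠ z ∧ (z ∈ A u ∨ z ∈ B u))) := by
      intro v hv
      rw [mem_filter] at hv
      rw [mem_insert, mem_filter]
      by_cases hvz : v = z
      · exact Or.inl hvz
      · exact Or.inr ⟨hv.1, hvz, hv.2⟩
    exact (card_le_card hs).trans ((card_insert_le _ _).trans (Nat.add_le_add_right (hD z hzU) 1))
  refine (card_le_card hsub).trans ?_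
  rw [card_product, card_univ, Fintype.card_bool]
  have h3 : (((A i.1 ∪ B i.1) ∩ U).biUnion (fun z => I.filter (fun v => z ∈ A v ∨ z ∈ B v))).card ≤
      (2 * k) * (D + 1) :=
    (card_biUnion_le_card_mul _ _ _ hcard2).trans (Nat.mul_le_mul_right _ hcard1)
  calc _ ≤ (2 * k) * (D + 1) * 2 := Nat.mul_le_mul_right _ h3
    _ = 4 * k * (D + 1) := by ring

/-- The numberings for which `i` is chosen. -/
def scG (U I : Finset V) (A B : V → Finset V) (i : V × Bool) :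
    Finset (V ≃ Fin (Fintype.card V)) :=
  (mcE U A B i).filter (fun f => ∀ j ∈ scH U I A B i, f ∉ mcE U A B j)

theorem SMC.good (h : SMC n k U I F A B) {D : ℕ}
    (hD : ∀ z ∈ U, (I.filter (fun u => u ≠ z ∧ (z ∈ A u ∨ z ∈ B u))).card ≤ D)
    {i : V × Bool} (hi : i.1 ∈ I) :
    (1 - (4 * k * (D + 1) : ℝ) / (n - k + 1 : ℝ)) * (mcE U A B i).card ≤
      (scG U I A B i).card := by
  have hkn : (k : ℝ) < n := by exact_mod_cast h.kn
  have hpos : (0:ℝ) < n - k + 1 := by linarith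
  have h1 : (mcE U A B i).card ≤ (scG U I A B i).card +
      ∑ j ∈ scH U I A B i, ((mcE U A B i).filter (fun f => f ∈ mcE U A B j)).card := by
    have hs : mcE U A B i ⊆ scG U I A B i ∪
        (scH U I A B i).biUnion (fun j => (mcE U A B i).filter (fun f => f ∈ mcE U A B j)) := by
      intro f hf
      rw [mem_union, mem_biUnion]
      by_cases hg : ∀ j ∈ scH U I A B i, f ∉ mcE U A B j
      · exact Or.inl (mem_filter.2 ⟨hf, hg⟩)
      · push Not at hg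
        obtain ⟨j, hj, hfj⟩ := hg
        exact Or.inr ⟨j, hj, mem_filter.2 ⟨hf, hfj⟩⟩
    refine (card_le_card hs).trans ((card_union_le _ _).trans ?_)
    exact Nat.add_le_add_left card_biUnion_le _
  have h2 : ∀ j ∈ scH U I A B i, (((mcE U A B i).filter (fun f => f ∈ mcE U A B j)).card : ℝ) ≤
      (mcE U A B i).card / (n - k + 1 : ℝ) := by
    intro j hj
    have h3 := h.half hi hj _ (fun f hf => mem_filter.1 hf)
    rw [le_div_iff₀ hpos]
    have h4 : (((mcE U A B i).filter (fun f => f ∈ mcE U A B j)).card * (n - k + 1) : ℝ) ≤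
        (mcE U A B i).card := by
      have h5 : ((n - k + 1 : ℕ) : ℝ) = (n - k + 1 : ℝ) := by
        rw [Nat.cast_add, Nat.cast_sub h.kn.le, Nat.cast_one]
      rw [← h5]
      exact_mod_cast h3
    exact h4
  have h3 : (∑ j ∈ scH U I A B i, (((mcE U A B i).filter (fun f => f ∈ mcE U A B j)).card : ℝ)) ≤
      (4 * k * (D + 1) : ℝ) * ((mcE U A B i).card / (n - k + 1 : ℝ)) := by
    refine (sum_le_card_nsmul _ _ _ h2).trans ?_
    rw [nsmul_eq_mul]
    refine mul_le_mul_of_nonneg_right ?_ (by positivity)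
    exact_mod_cast h.cardH hD hi
  have h4 : ((mcE U A B i).card : ℝ) ≤ (scG U I A B i).card +
      ∑ j ∈ scH U I A B i, (((mcE U A B i).filter (fun f => f ∈ mcE U A B j)).card : ℝ) := by
    exact_mod_cast h1
  have h5 : (1 - (4 * k * (D + 1) : ℝ) / (n - k + 1 : ℝ)) * (mcE U A B i).card =
      (mcE U A B i).card - (4 * k * (D + 1) : ℝ) * ((mcE U A B i).card / (n - k + 1 : ℝ)) := by
    ring
  rw [h5]
  linarith

theorem SMC.nonempty_P (h : SMC n k U I F A B) {i : V × Bool} (hi : i.1 ∈ I) :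
    (mcP A B i \ U).Nonempty := by
  rw [← card_pos, h.cP' hi]
  have := h.kF _ (h.PF i hi)
  have := h.kn
  omega

theorem SMC.nonempty_Q (h : SMC n k U I F A B) {i : V × Bool} (hi : i.1 ∈ I) :
    (mcQ A B i \ U).Nonempty := by
  rw [← card_pos, h.cQ' hi]
  have := h.kF _ (h.QF i hi)
  have := h.kn
  omega

theorem SMC.inj (h : SMC n k U I F A B) {f : V ≃ Fin (Fintype.card V)} {i j : V × Bool}
    (hi : i.1 ∈ I)
    (hfi : f ∈ mcE U A B i) (hfj : f ∈ mcE U A B j) (hij : i.1 = j.1) : i = j := by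
  obtain ⟨u, e⟩ := i
  obtain ⟨v, e'⟩ := j
  simp only at hij hi
  subst hij
  obtain ⟨x, hx⟩ := h.nonempty_P (i := (u, e)) hi
  obtain ⟨y, hy⟩ := h.nonempty_Q (i := (u, e)) hi
  have h1 := (mem_before.1 hfi) x hx y hy
  by_contra hne
  have hee : e' = !e := by
    cases e <;> cases e' <;> simp_all
  have hP : mcP A B (u, e') = mcQ A B (u, e) := by
    rw [hee]; cases e <;> simp [mcP, mcQ]
  have hQ : mcQ A B (u, e') = mcP A B (u, e) := by
    rw [hee]; cases e <;> simp [mcP, mcQ]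
  unfold mcE at hfj
  rw [hP, hQ] at hfj
  have h2 := (mem_before.1 hfj) y hy x hx
  exact absurd (h1.trans h2) (lt_irrefl _)

/-- For two chosen oriented pairs the outer parts are disjoint. -/
theorem SMC.outer (h : SMC n k U I F A B) (f : V ≃ Fin (Fintype.card V)) {i j : V × Bool}
    (hi : i.1 ∈ I) (hj : j.1 ∈ I) (hfi : f ∈ scG U I A B i) (hfj : f ∈ scG U I A B j) :
    (mcP A B i \ U) ∩ (mcQ A B j \ U) = ∅ := by
  obtain ⟨hEi, hHi⟩ := mem_filter.1 hfi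
  obtain ⟨hEj, -⟩ := mem_filter.1 hfj
  by_cases hij : j.1 = i.1
  · have hij' := h.inj hj hEj hEi hij
    subst hij'
    rw [← disjoint_iff_inter_eq_empty, disjoint_left]
    intro x hx hx'
    exact h.dis hi hx hx'
  · have hnH : ¬ j ∈ scH U I A B i := fun hjH => hHi j hjH hEj
    unfold scH at hnH
    rw [mem_filter, mem_product] at hnH
    have hiff : (mcP A B i \ U) ∩ (mcQ A B j \ U) = ∅ ↔ (mcP A B j \ U) ∩ (mcQ A B i \ U) = ∅ := by
      by_contra hcon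
      exact hnH ⟨⟨hj, mem_univ _⟩, hij, hcon⟩
    by_contra hne
    have hne2 : (mcP A B j \ U) ∩ (mcQ A B i \ U) ≠ ∅ := fun h3 => hne (hiff.2 h3)
    obtain ⟨x, hx⟩ := nonempty_iff_ne_empty.2 hne
    obtain ⟨y, hy⟩ := nonempty_iff_ne_empty.2 hne2
    rw [mem_inter] at hx hy
    have h1 := (mem_before.1 hEi) x hx.1 y hy.2
    have h2 := (mem_before.1 hEj) y hy.1 x hx.2
    exact absurd (h1.trans h2) (lt_irrefl _)

theorem SMC.local (h : SMC n k U I F A B) (f : V ≃ Fin (Fintype.card V)) :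
    ∑ i ∈ (I ×ˢ (univ : Finset Bool)).filter (fun i => f ∈ scG U I A B i),
      (4 : ℝ) / 2 ^ ((mcP A B i ∩ U).card + (mcQ A B i ∩ U).card) ≤ 1 := by
  have hmem : ∀ i ∈ (I ×ˢ (univ : Finset Bool)).filter (fun i => f ∈ scG U I A B i),
      i.1 ∈ I ∧ f ∈ scG U I A B i := by
    intro i hi
    rw [mem_filter, mem_product] at hi
    exact ⟨hi.1.1, hi.2⟩
  refine sharp_local_lemma _ (fun i => mcP A B i ∩ U) (fun i => mcQ A B i ∩ U) (fun i => i.1)
    ?_ ?_ ?_ ?_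
  · intro i hi j hj hij
    obtain ⟨hiU, hfi⟩ := hmem i hi
    obtain ⟨-, hfj⟩ := hmem j hj
    exact h.inj hiU (mem_filter.1 hfi).1 (mem_filter.1 hfj).1 hij
  · intro i hi
    obtain ⟨hiU, -⟩ := hmem i hi
    have h1 := h.tight i hiU
    ext x
    simp only [mem_inter, mem_singleton]
    constructor
    · rintro ⟨⟨hx1, -⟩, hx2, -⟩
      have : x ∈ mcP A B i ∩ mcQ A B i := mem_inter.2 ⟨hx1, hx2⟩
      rw [h1, mem_singleton] at this
      exact this
    · rintro rfl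
      have : i.1 ∈ mcP A B i ∩ mcQ A B i := by rw [h1]; exact mem_singleton_self _
      rw [mem_inter] at this
      exact ⟨⟨this.1, h.sub hiU⟩, this.2, h.sub hiU⟩
  · intro i hi j hj
    obtain ⟨hiU, hfi⟩ := hmem i hi
    obtain ⟨hjU, hfj⟩ := hmem j hj
    have he := h.outer f hiU hjU hfi hfj
    obtain ⟨z, hz⟩ := h.cl _ (h.PF i hiU) _ (h.QF j hjU)
    rw [mem_inter] at hz
    have hzU : z ∈ U := by
      by_contra hzU
      have : z ∈ (mcP A B i \ U) ∩ (mcQ A B j \ U) :=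
        mem_inter.2 ⟨mem_sdiff.2 ⟨hz.1, hzU⟩, mem_sdiff.2 ⟨hz.2, hzU⟩⟩
      rw [he] at this
      exact absurd this (notMem_empty _)
    exact ⟨z, mem_inter.2 ⟨mem_inter.2 ⟨hz.1, hzU⟩, mem_inter.2 ⟨hz.2, hzU⟩⟩⟩
  · intro i hi j hj l hl hjl
    obtain ⟨hiU, hfi⟩ := hmem i hi
    obtain ⟨hjU, hfj⟩ := hmem j hj
    obtain ⟨hlU, hfl⟩ := hmem l hl
    have he := h.outer f hjU hlU hfj hfl
    have h1 : mcP A B j ∩ mcQ A B l = {i.1} := by
      rw [← hjl]
      ext x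
      simp only [mem_inter]
      constructor
      · rintro ⟨hx1, hx2⟩
        have hxU : x ∈ U := by
          by_contra hxU
          have : x ∈ (mcP A B j \ U) ∩ (mcQ A B l \ U) :=
            mem_inter.2 ⟨mem_sdiff.2 ⟨hx1, hxU⟩, mem_sdiff.2 ⟨hx2, hxU⟩⟩
          rw [he] at this
          exact absurd this (notMem_empty _)
        exact ⟨⟨hx1, hxU⟩, hx2, hxU⟩
      · rintro ⟨⟨hx1, -⟩, hx2, -⟩
        exact ⟨hx1, hx2⟩
    exact h.max i hiU _ (h.PF j hjU) _ (h.QF l hlU) h1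

theorem SMC.total (h : SMC n k U I F A B) :
    ∑ i ∈ I ×ˢ (univ : Finset Bool), (4 : ℝ) / 2 ^ ((mcP A B i ∩ U).card + (mcQ A B i ∩ U).card) *
      (scG U I A B i).card ≤ (Fintype.card V).factorial := by
  have h1 : ∀ i ∈ I ×ˢ (univ : Finset Bool),
      (4 : ℝ) / 2 ^ ((mcP A B i ∩ U).card + (mcQ A B i ∩ U).card) * (scG U I A B i).card =
      ∑ f : V ≃ Fin (Fintype.card V), if f ∈ scG U I A B i then
        (4 : ℝ) / 2 ^ ((mcP A B i ∩ U).card + (mcQ A B i ∩ U).card) else 0 := by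
    intro i _
    rw [sum_ite_mem, univ_inter, sum_const, nsmul_eq_mul, mul_comm]
  rw [sum_congr rfl h1, sum_comm]
  have h2 : ∀ f ∈ (univ : Finset (V ≃ Fin (Fintype.card V))),
      (∑ i ∈ I ×ˢ (univ : Finset Bool), if f ∈ scG U I A B i then
        (4 : ℝ) / 2 ^ ((mcP A B i ∩ U).card + (mcQ A B i ∩ U).card) else 0) ≤ 1 := by
    intro f _
    rw [← sum_filter]
    exact h.local f
  refine (sum_le_card_nsmul _ _ _ h2).trans (le_of_eq ?_)
  rw [nsmul_eq_mul, card_univ, Fintype.card_equiv (Fintype.equivFin V), mul_one]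

theorem smc_mk (hIU : I ⊆ U) (hn : ∀ P ∈ F, P.card = n)
    (hcl : ∀ P ∈ F, ∀ Q ∈ F, (P ∩ Q).Nonempty)
    (hA : ∀ u ∈ I, A u ∈ F) (hB : ∀ u ∈ I, B u ∈ F)
    (htight : ∀ u ∈ I, A u ∩ B u = {u})
    (hmax : ∀ u ∈ I, ∀ P ∈ F, ∀ Q ∈ F, P ∩ Q = {u} →
      (P ∩ U).card + (Q ∩ U).card ≤ (A u ∩ U).card + (B u ∩ U).card)
    (hk : ∀ P ∈ F, (P ∩ U).card ≤ k) (hkn : k < n) :
    SMC n k U I F A B where
  sub := hIU
  PF := by
    rintro ⟨u, e⟩ hu
    cases e
    · exact hB u hu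
    · exact hA u hu
  QF := by
    rintro ⟨u, e⟩ hu
    cases e
    · exact hA u hu
    · exact hB u hu
  cn := hn
  cl := hcl
  tight := by
    rintro ⟨u, e⟩ hu
    cases e
    · show B u ∩ A u = {u}
      rw [inter_comm]; exact htight u hu
    · exact htight u hu
  max := by
    rintro ⟨u, e⟩ hu P hP Q hQ hPQ
    have := hmax u hu P hP Q hQ hPQ
    cases e
    · show _ ≤ (B u ∩ U).card + (A u ∩ U).card
      omega
    · exact this
  kF := hk
  kn := hkn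

end scount

theorem main_count_sharp {V : Type*} [DecidableEq V] [Fintype V] (n k D : ℕ)
    (F : Finset (Finset V)) (U I : Finset V)
    (hIU : I ⊆ U) (A B : V → Finset V)
    (hn : ∀ P ∈ F, P.card = n) (hcl : ∀ P ∈ F, ∀ Q ∈ F, (P ∩ Q).Nonempty)
    (hA : ∀ u ∈ I, A u ∈ F) (hB : ∀ u ∈ I, B u ∈ F)
    (htight : ∀ u ∈ I, A u ∩ B u = {u})
    (hmax : ∀ u ∈ I, ∀ P ∈ F, ∀ Q ∈ F, P ∩ Q = {u} →
      (P ∩ U).card + (Q ∩ U).card ≤ (A u ∩ U).card + (B u ∩ U).card)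
    (hk : ∀ P ∈ F, (P ∩ U).card ≤ k) (hkn : k < n)
    (hD : ∀ z ∈ U, (I.filter (fun u => u ≠ z ∧ (z ∈ A u ∨ z ∈ B u))).card ≤ D) :
    (1 - (4 * k * (D + 1) : ℝ) / (n - k + 1 : ℝ)) *
      ∑ u ∈ I, 2 * ((4 : ℝ) / 2 ^ ((A u ∩ U).card + (B u ∩ U).card)) /
        ((2 * n - (A u ∩ U).card - (B u ∩ U).card).choose (n - (A u ∩ U).card) : ℝ) ≤ 1 := by
  have h := smc_mk hIU hn hcl hA hB htight hmax hk hkn
  set δ : ℝ := (4 * k * (D + 1) : ℝ) / (n - k + 1 : ℝ) with hδ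
  have hsum0 : 0 ≤ ∑ u ∈ I, 2 * ((4 : ℝ) / 2 ^ ((A u ∩ U).card + (B u ∩ U).card)) /
        ((2 * n - (A u ∩ U).card - (B u ∩ U).card).choose (n - (A u ∩ U).card) : ℝ) :=
    sum_nonneg fun u _ => by positivity
  rcases le_or_gt (1 - δ) 0 with h0 | h0
  · exact (mul_nonpos_of_nonpos_of_nonneg h0 hsum0).trans (by norm_num)
  have hN : (0:ℝ) < (Fintype.card V).factorial := by exact_mod_cast Nat.factorial_pos _
  -- probabilities
  have hprob : ∀ i ∈ I ×ˢ (univ : Finset Bool),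
      ((Fintype.card V).factorial : ℝ) /
        ((2 * n - (A i.1 ∩ U).card - (B i.1 ∩ U).card).choose (n - (A i.1 ∩ U).card) : ℝ) ≤
        (mcE U A B i).card := by
    intro i hi
    have hiU := (mem_product.1 hi).1
    have h1 := card_before_ge (mcP A B i \ U) (mcQ A B i \ U)
      (disjoint_left.2 fun x hx hx' => h.dis hiU hx hx')
    have hkA' := hk _ (hA i.1 hiU)
    have hkB' := hk _ (hB i.1 hiU)
    have h2 : ((mcP A B i \ U).card + (mcQ A B i \ U).card).choose (mcP A B i \ U).card =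
        (2 * n - (A i.1 ∩ U).card - (B i.1 ∩ U).card).choose (n - (A i.1 ∩ U).card) := by
      rw [h.cP' hiU, h.cQ' hiU]
      obtain ⟨u, e⟩ := i
      simp only at hkA' hkB' hiU ⊢
      cases e
      · show ((n - (B u ∩ U).card) + (n - (A u ∩ U).card)).choose (n - (B u ∩ U).card) = _
        rw [show 2 * n - (A u ∩ U).card - (B u ∩ U).card =
          (n - (B u ∩ U).card) + (n - (A u ∩ U).card) by omega]
        exact Nat.choose_symm_add
      · show ((n - (A u ∩ U).card) + (n - (B u ∩ U).card)).choose (n - (A u ∩ U).card) = _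
        congr 1
        omega
    rw [h2] at h1
    have h3 : 0 < (2 * n - (A i.1 ∩ U).card - (B i.1 ∩ U).card).choose (n - (A i.1 ∩ U).card) :=
      Nat.choose_pos (by omega)
    rw [div_le_iff₀ (by exact_mod_cast h3)]
    exact_mod_cast h1
  have hw : ∀ i : V × Bool, (mcP A B i ∩ U).card + (mcQ A B i ∩ U).card =
      (A i.1 ∩ U).card + (B i.1 ∩ U).card := by
    rintro ⟨u, e⟩
    cases e
    · exact add_comm _ _
    · rfl
  have h1 : (1 - δ) * ∑ i ∈ I ×ˢ (univ : Finset Bool),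
      (4 : ℝ) / 2 ^ ((A i.1 ∩ U).card + (B i.1 ∩ U).card) * (((Fintype.card V).factorial : ℝ) /
        ((2 * n - (A i.1 ∩ U).card - (B i.1 ∩ U).card).choose (n - (A i.1 ∩ U).card) : ℝ)) ≤
      (Fintype.card V).factorial := by
    refine le_trans ?_ h.total
    rw [mul_sum]
    refine sum_le_sum fun i hi => ?_
    have hiU := (mem_product.1 hi).1
    rw [hw i]
    have h2 := h.good hD hiU
    have h3 := hprob i hi
    have h4 : (1 - δ) * (((Fintype.card V).factorial : ℝ) /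
        ((2 * n - (A i.1 ∩ U).card - (B i.1 ∩ U).card).choose (n - (A i.1 ∩ U).card) : ℝ)) ≤
        (scG U I A B i).card := (mul_le_mul_of_nonneg_left h3 h0.le).trans h2
    calc (1 - δ) * ((4 : ℝ) / 2 ^ ((A i.1 ∩ U).card + (B i.1 ∩ U).card) *
          (((Fintype.card V).factorial : ℝ) /
          ((2 * n - (A i.1 ∩ U).card - (B i.1 ∩ U).card).choose (n - (A i.1 ∩ U).card) : ℝ)))
        = (4 : ℝ) / 2 ^ ((A i.1 ∩ U).card + (B i.1 ∩ U).card) * ((1 - δ) *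
          (((Fintype.card V).factorial : ℝ) /
          ((2 * n - (A i.1 ∩ U).card - (B i.1 ∩ U).card).choose (n - (A i.1 ∩ U).card) : ℝ))) := by ring
      _ ≤ _ := mul_le_mul_of_nonneg_left h4 (by positivity)
  have h2 : ∑ i ∈ I ×ˢ (univ : Finset Bool),
      (4 : ℝ) / 2 ^ ((A i.1 ∩ U).card + (B i.1 ∩ U).card) * (((Fintype.card V).factorial : ℝ) /
        ((2 * n - (A i.1 ∩ U).card - (B i.1 ∩ U).card).choose (n - (A i.1 ∩ U).card) : ℝ)) =
      (Fintype.card V).factorial * ∑ u ∈ I, 2 * ((4 : ℝ) / 2 ^ ((A u ∩ U).card + (B u ∩ U).card)) /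
        ((2 * n - (A u ∩ U).card - (B u ∩ U).card).choose (n - (A u ∩ U).card) : ℝ) := by
    rw [sum_product, mul_sum]
    refine sum_congr rfl fun u _ => ?_
    rw [Fintype.sum_bool]
    ring
  rw [h2] at h1
  have h3 : (Fintype.card V).factorial * ((1 - δ) *
      ∑ u ∈ I, 2 * ((4 : ℝ) / 2 ^ ((A u ∩ U).card + (B u ∩ U).card)) /
        ((2 * n - (A u ∩ U).card - (B u ∩ U).card).choose (n - (A u ∩ U).card) : ℝ)) ≤
      (Fintype.card V).factorial * (1 : ℝ) := by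
    linarith
  exact le_of_mul_le_mul_left h3 hN

end Pool.Agent.Lib.MP_87840f_co
end

section

/-!
# K10: the sharp finite inequality
-/

open Finset

namespace Pool.Agent.Lib.MP_87840f_co

variable {V : Type*} [DecidableEq V]

/-- The sharp finite inequality: combination of everything. -/
theorem finite_bound_sharp [Fintype V] {n k L D : ℕ} {F : Finset (Finset V)}
    (hk : 1 ≤ k) (hkn : k < n) (hL : 0 < L) (hD : 0 < D)
    (hδ : (4 * k * (D + 1) : ℝ) < (n - k + 1 : ℝ))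
    (hc : IsUniformClique n F) (h2 : ¬ ProperlyColourable 2 F) :
    ((F.biUnion id).card : ℝ) * (1 - 2 * k / (L : ℝ) - 2 * k * (L + 1) / (D : ℝ)) ≤
      (4 * n / 2 ^ k + 1 / 2 * (1 + 2 * k / (2 * n - 2 * k : ℝ)) ^ (2 * k) /
        (1 - (4 * k * (D + 1) : ℝ) / (n - k + 1 : ℝ))) * ((2 * n - 2).choose (n - 1) : ℝ) := by
  classical
  obtain ⟨W, hW1, hW2⟩ := kernel hkn hc h2
  set V0 := F.biUnion id with hV0
  set U0 := V0 \ W with hU0
  have hmeet : ∀ P ∈ F, ∀ Q ∈ F, (P ∩ Q).Nonempty := by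
    intro P hP Q hQ
    obtain ⟨x, hx1, hx2⟩ := hc.2 P hP Q hQ
    exact ⟨x, Finset.mem_inter.mpr ⟨hx1, hx2⟩⟩
  have hk0 : ∀ P ∈ F, (P ∩ U0).card ≤ k := by
    intro P hP
    refine (Finset.card_le_card ?_).trans (hW1 P hP)
    intro x hx
    rw [Finset.mem_inter, hU0, Finset.mem_sdiff] at hx
    exact Finset.mem_sdiff.mpr ⟨hx.1, hx.2.2⟩
  -- the pairs tight at `u`
  set T : V → Finset (Finset V × Finset V) := fun u =>
    (F ×ˢ F).filter (fun p => p.1 ∩ p.2 = {u}) with hT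
  have hTmem : ∀ u p, p ∈ T u ↔ (p.1 ∈ F ∧ p.2 ∈ F) ∧ p.1 ∩ p.2 = {u} := by
    intro u p
    rw [hT]
    simp only [Finset.mem_filter, Finset.mem_product]
  have hTne : ∀ u ∈ U0, (T u).Nonempty := by
    intro u hu
    have hu0 : u ∈ V0 := (Finset.mem_sdiff.mp hu).1
    rw [hV0, Finset.mem_biUnion] at hu0
    obtain ⟨A', hA', huA'⟩ := hu0
    obtain ⟨A, hA, B, hB, hAB⟩ := exists_tight_pair hc h2 u ⟨A', hA', huA'⟩
    exact ⟨(A, B), (hTmem _ _).mpr ⟨⟨hA, hB⟩, hAB⟩⟩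
  obtain ⟨U, I, d, hIU, hUU0, hdT, hdmax, hdD, hcU, hcI⟩ := selection U0 T k L D hL hD hTne
    (fun u _ p hp => by
      have h := (hTmem _ _).mp hp
      exact ⟨hk0 _ h.1.1, hk0 _ h.1.2⟩)
  -- the main count
  have hkU : ∀ P ∈ F, (P ∩ U).card ≤ k := fun P hP =>
    (Finset.card_le_card (Finset.inter_subset_inter_left hUU0)).trans (hk0 P hP)
  have hmain := main_count_sharp n k D F U I hIU (fun u => (d u).1) (fun u => (d u).2)
    hc.1 hmeet (fun u hu => ((hTmem _ _).mp (hdT u hu)).1.1)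
    (fun u hu => ((hTmem _ _).mp (hdT u hu)).1.2)
    (fun u hu => ((hTmem _ _).mp (hdT u hu)).2)
    (fun u hu P hP Q hQ hPQ => hdmax u hu (P, Q) ((hTmem _ _).mpr ⟨⟨hP, hQ⟩, hPQ⟩))
    hkU hkn hdD
  -- real numbers
  obtain ⟨N, hN⟩ : ∃ N : ℝ, N = ((2 * n - 2).choose (n - 1) : ℝ) := ⟨_, rfl⟩
  obtain ⟨η, hη⟩ : ∃ η : ℝ, η = (1 + 2 * k / (2 * n - 2 * k : ℝ)) ^ (2 * k) := ⟨_, rfl⟩
  obtain ⟨δ, hδ'⟩ : ∃ δ : ℝ, δ = (4 * k * (D + 1) : ℝ) / (n - k + 1 : ℝ) := ⟨_, rfl⟩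
  rw [← hδ'] at hmain ⊢
  rw [← hη, ← hN]
  have hknR : (k : ℝ) < n := by exact_mod_cast hkn
  have hN0 : 0 < N := by
    rw [hN]
    exact_mod_cast Nat.choose_pos (by omega)
  have hη0 : 0 < η := by
    rw [hη]
    have : (0 : ℝ) ≤ 2 * k / (2 * n - 2 * k : ℝ) := div_nonneg (by positivity) (by linarith)
    positivity
  have hδ1 : δ < 1 := by
    rw [hδ', div_lt_one (by linarith)]
    exact hδ
  have hterm : ∀ u ∈ I, 2 / (N * η) ≤
      2 * ((4 : ℝ) / 2 ^ (((d u).1 ∩ U).card + ((d u).2 ∩ U).card)) /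
        ((2 * n - ((d u).1 ∩ U).card - ((d u).2 ∩ U).card).choose (n - ((d u).1 ∩ U).card) : ℝ) := by
    intro u hu
    have hdu := (hTmem _ _).mp (hdT u hu)
    have huAB : u ∈ (d u).1 ∩ (d u).2 := by
      rw [hdu.2]
      exact Finset.mem_singleton_self u
    rw [Finset.mem_inter] at huAB
    have huU : u ∈ U := hIU hu
    have hr1 : 1 ≤ ((d u).1 ∩ U).card :=
      Finset.card_pos.mpr ⟨u, Finset.mem_inter.mpr ⟨huAB.1, huU⟩⟩
    have hs1 : 1 ≤ ((d u).2 ∩ U).card :=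
      Finset.card_pos.mpr ⟨u, Finset.mem_inter.mpr ⟨huAB.2, huU⟩⟩
    have hrk := hkU _ hdu.1.1
    have hsk := hkU _ hdu.1.2
    have hch := choose_le_of_remove n k _ _ hr1 hs1 hrk hsk hkn
    rw [← hN, ← hη] at hch
    obtain ⟨r, hr⟩ : ∃ r, r = ((d u).1 ∩ U).card := ⟨_, rfl⟩
    obtain ⟨s, hs⟩ : ∃ s, s = ((d u).2 ∩ U).card := ⟨_, rfl⟩
    rw [← hr, ← hs] at hch ⊢
    rw [← hr] at hr1 hrk
    rw [← hs] at hs1 hsk
    have hCpos : (0 : ℝ) < ((2 * n - r - s).choose (n - r) : ℝ) := by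
      exact_mod_cast Nat.choose_pos (by omega)
    have h2pos : (0 : ℝ) < 2 ^ (r + s) := by positivity
    rw [div_le_div_iff₀ (by positivity) hCpos]
    have e1 : 2 * ((4 : ℝ) / 2 ^ (r + s)) * (N * η) = 2 * (4 * N * η) / 2 ^ (r + s) := by ring
    rw [e1, le_div_iff₀ h2pos]
    linarith
  have hsum : (I.card : ℝ) * (2 / (N * η)) ≤ ∑ u ∈ I,
      2 * ((4 : ℝ) / 2 ^ (((d u).1 ∩ U).card + ((d u).2 ∩ U).card)) /
        ((2 * n - ((d u).1 ∩ U).card - ((d u).2 ∩ U).card).choose (n - ((d u).1 ∩ U).card) : ℝ) := by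
    rw [← nsmul_eq_mul, ← Finset.sum_const]
    exact Finset.sum_le_sum hterm
  have h1δ : 0 < 1 - δ := by linarith
  have hIc : (I.card : ℝ) ≤ 1 / 2 * η / (1 - δ) * N := by
    have h1 : (1 - δ) * ((I.card : ℝ) * (2 / (N * η))) ≤ 1 :=
      (mul_le_mul_of_nonneg_left hsum h1δ.le).trans hmain
    have h2 : (1 - δ) * ((I.card : ℝ) * (2 / (N * η))) = (I.card : ℝ) * (1 - δ) * 2 / (N * η) := by
      ring
    rw [h2, div_le_iff₀ (by positivity)] at h1
    have h3 : 1 / 2 * η / (1 - δ) * N = 1 / 2 * η * N / (1 - δ) := by ring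
    rw [h3, le_div_iff₀ h1δ]
    linarith
  have hWc : (W.card : ℝ) ≤ 4 * n / 2 ^ k * N := by
    have h1 : (W.card : ℝ) ≤ 2 * n * ((2 * n - k - 1).choose n : ℝ) := by
      have h3 : W.card ≤ 2 * n * (2 * n - k - 1).choose n :=
        hW2.trans (Nat.mul_le_mul_right _ (by omega))
      exact_mod_cast h3
    have h2 := kernel_binom n k hk hkn
    rw [← hN] at h2
    have h3 : (2 : ℝ) ^ k = 2 * 2 ^ (k - 1) := by
      rw [← pow_succ', Nat.sub_add_cancel hk]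
    have h4 : (0 : ℝ) < 2 ^ (k - 1) := by positivity
    have h5 : ((2 * n - k - 1).choose n : ℝ) ≤ N / 2 ^ (k - 1) := by
      rw [le_div_iff₀ h4]
      exact h2
    calc (W.card : ℝ) ≤ 2 * n * ((2 * n - k - 1).choose n : ℝ) := h1
      _ ≤ 2 * n * (N / 2 ^ (k - 1)) := mul_le_mul_of_nonneg_left h5 (by positivity)
      _ = 4 * n / 2 ^ k * N := by
          rw [h3]
          field_simp
          ring
  have hLR : (0 : ℝ) < L := by exact_mod_cast hL
  have hDR : (0 : ℝ) < D := by exact_mod_cast hD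
  have hU0c : U0.card ≤ V0.card := Finset.card_le_card Finset.sdiff_subset
  have hcUc : ((U0 \ U).card : ℝ) ≤ 2 * k / (L : ℝ) * V0.card := by
    have h1 : L * (U0 \ U).card ≤ 2 * k * V0.card := hcU.trans (Nat.mul_le_mul_left _ hU0c)
    have h2 : (L : ℝ) * (U0 \ U).card ≤ 2 * k * V0.card := by exact_mod_cast h1
    rw [div_mul_eq_mul_div, le_div_iff₀ hLR]
    linarith
  have hcIc : ((U \ I).card : ℝ) ≤ 2 * k * (L + 1) / (D : ℝ) * V0.card := by
    have h1 : D * (U \ I).card ≤ (L + 1) * (2 * k * V0.card) :=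
      hcI.trans (Nat.mul_le_mul_left _ (Nat.mul_le_mul_left _ hU0c))
    have h2 : (D : ℝ) * (U \ I).card ≤ (L + 1) * (2 * k * V0.card) := by exact_mod_cast h1
    rw [div_mul_eq_mul_div, le_div_iff₀ hDR]
    linarith
  have hVc : (V0.card : ℝ) ≤ W.card + ((U0 \ U).card + ((U \ I).card + I.card)) := by
    have h1 : V0 ⊆ W ∪ ((U0 \ U) ∪ ((U \ I) ∪ I)) := by
      intro x hx
      by_cases hxW : x ∈ W
      · exact Finset.mem_union_left _ hxW
      · refine Finset.mem_union_right _ ?_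
        have hx0 : x ∈ U0 := Finset.mem_sdiff.mpr ⟨hx, hxW⟩
        by_cases hxU : x ∈ U
        · refine Finset.mem_union_right _ ?_
          by_cases hxI : x ∈ I
          · exact Finset.mem_union_right _ hxI
          · exact Finset.mem_union_left _ (Finset.mem_sdiff.mpr ⟨hxU, hxI⟩)
        · exact Finset.mem_union_left _ (Finset.mem_sdiff.mpr ⟨hx0, hxU⟩)
    have h2 := (Finset.card_le_card h1).trans (Finset.card_union_le _ _)
    have h3 := Finset.card_union_le (U0 \ U) ((U \ I) ∪ I)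
    have h4 := Finset.card_union_le (U \ I) I
    have h5 : V0.card ≤ W.card + ((U0 \ U).card + ((U \ I).card + I.card)) := by omega
    exact_mod_cast h5
  have h9 : (V0.card : ℝ) * (1 - 2 * k / (L : ℝ) - 2 * k * (L + 1) / (D : ℝ)) =
      V0.card - 2 * k / (L : ℝ) * V0.card - 2 * k * (L + 1) / (D : ℝ) * V0.card := by ring
  rw [add_mul, h9]
  linarith

end Pool.Agent.Lib.MP_87840f_co
end
end

section

section

open Finset Filter Topology

namespace Pool.Agent.Lib.MP_87840f_co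

/-- the number of coloured vertices -/
private def slK (n : ℕ) : ℕ := 2 * Nat.log 2 n + 2

private lemma sl_tendsto_rpow (r : ℝ) (hr : 0 < r) :
    Tendsto (fun n : ℕ => (slK n : ℝ) / (n : ℝ) ^ r) atTop (𝓝 0) := by
  have h1 : Tendsto (fun x : ℝ => Real.log x / x ^ r) atTop (𝓝 0) :=
    (isLittleO_log_rpow_atTop hr).tendsto_div_nhds_zero
  have h2 : Tendsto (fun n : ℕ => Real.log (n : ℝ) / (n : ℝ) ^ r) atTop (𝓝 0) :=
    h1.comp tendsto_natCast_atTop_atTop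
  have h4 : Tendsto (fun n : ℕ => 2 / (n : ℝ) ^ r) atTop (𝓝 0) := by
    refine Tendsto.div_atTop tendsto_const_nhds ?_
    exact (tendsto_rpow_atTop hr).comp tendsto_natCast_atTop_atTop
  have h5 : Tendsto (fun n : ℕ => 2 / Real.log 2 * (Real.log (n : ℝ) / (n : ℝ) ^ r)
      + 2 / (n : ℝ) ^ r) atTop (𝓝 0) := by
    have := (h2.const_mul (2 / Real.log 2)).add h4
    simpa using this
  refine squeeze_zero (fun n => by positivity) (fun n => ?_) h5
  have hlog2 : 0 < Real.log 2 := Real.log_pos (by norm_num)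
  have h6 : (Nat.log 2 n : ℝ) ≤ Real.log n / Real.log 2 := by
    have h7 := Real.natLog_le_logb n 2
    rw [Real.logb] at h7
    exact_mod_cast h7
  unfold slK
  push_cast
  have h8 : (0 : ℝ) ≤ (n : ℝ) ^ r := by positivity
  calc (2 * (Nat.log 2 n : ℝ) + 2) / (n : ℝ) ^ r
      ≤ (2 * (Real.log n / Real.log 2) + 2) / (n : ℝ) ^ r := by gcongr
    _ = 2 / Real.log 2 * (Real.log (n : ℝ) / (n : ℝ) ^ r) + 2 / (n : ℝ) ^ r := by ring

private lemma sl_tendsto_inv : Tendsto (fun n : ℕ => 2 / (slK n : ℝ)) atTop (𝓝 0) := by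
  refine Tendsto.div_atTop tendsto_const_nhds ?_
  refine tendsto_natCast_atTop_atTop.comp ?_
  rw [tendsto_atTop]
  intro b
  filter_upwards [eventually_ge_atTop (2 ^ b)] with n hn
  have : b ≤ Nat.log 2 n := Nat.le_log_of_pow_le (by norm_num) hn
  unfold slK
  omega

theorem limit_bound_sharp (ε : ℝ) (hε : 0 < ε) : ∃ n₀ : ℕ, ∀ n ≥ n₀, ∃ k L D : ℕ, 1 ≤ k ∧ k < n ∧
    0 < L ∧ 0 < D ∧ (4 * k * (D + 1) : ℝ) < (n - k + 1 : ℝ) ∧
    0 < 1 - 2 * k / (L : ℝ) - 2 * k * (L + 1) / (D : ℝ) ∧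
      (4 * n / 2 ^ k + 1 / 2 * (1 + 2 * k / (2 * n - 2 * k : ℝ)) ^ (2 * k) /
        (1 - (4 * k * (D + 1) : ℝ) / (n - k + 1 : ℝ))) ≤
        (1 / 2 + ε) * (1 - 2 * k / (L : ℝ) - 2 * k * (L + 1) / (D : ℝ)) := by
  set X : ℕ → ℝ := fun n => (slK n : ℝ) / √(n : ℝ) with hX
  have hx : Tendsto X atTop (𝓝 0) := by
    have := sl_tendsto_rpow (1 / 2) (by norm_num)
    refine this.congr fun n => ?_
    show (slK n : ℝ) / (n : ℝ) ^ (1 / 2 : ℝ) = (slK n : ℝ) / √(n : ℝ)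
    rw [Real.sqrt_eq_rpow]
  set Wf : ℕ → ℝ := fun n => (slK n : ℝ) / (n : ℝ) ^ (1 / 6 : ℝ) with hWf
  have hw : Tendsto Wf atTop (𝓝 0) := sl_tendsto_rpow (1 / 6) (by norm_num)
  have hv := sl_tendsto_inv
  have hlhs : Tendsto (fun n : ℕ => 4 / (n : ℝ) + 1 / 2 * Real.exp (4 * X n ^ 2) /
      (1 - 16 * X n)) atTop (𝓝 (0 + 1 / 2 * Real.exp (4 * 0 ^ 2) / (1 - 16 * 0))) := by
    refine Tendsto.add ?_ (Tendsto.div ?_ ?_ (by norm_num))
    · exact tendsto_const_nhds.div_atTop tendsto_natCast_atTop_atTop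
    · exact ((Real.continuous_exp.tendsto _).comp ((hx.pow 2).const_mul 4)).const_mul _
    · exact (hx.const_mul 16).const_sub 1
  have hone : Tendsto (fun n : ℕ => 1 - 2 / (slK n : ℝ) - 8 * Wf n ^ 3) atTop
      (𝓝 (1 - 0 - 8 * 0 ^ 3)) := (hv.const_sub 1).sub ((hw.pow 3).const_mul 8)
  have hrhs : Tendsto (fun n : ℕ => (1 / 2 + ε) * (1 - 2 / (slK n : ℝ) - 8 * Wf n ^ 3)) atTop
      (𝓝 ((1 / 2 + ε) * (1 - 0 - 8 * 0 ^ 3))) := hone.const_mul _
  have hev1 := hlhs.eventually_lt hrhs (by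
    rw [zero_pow two_ne_zero, mul_zero, Real.exp_zero]
    norm_num
    linarith)
  have hev2 : ∀ᶠ n in atTop, X n < 1 / 32 := hx.eventually_lt_const (by norm_num)
  have hev3 : ∀ᶠ n : ℕ in atTop, 0 < 1 - 2 / (slK n : ℝ) - 8 * Wf n ^ 3 :=
    hone.eventually_const_lt (by norm_num)
  obtain ⟨n₀, hn₀⟩ := eventually_atTop.1
    (hev1.and (hev2.and (hev3.and (eventually_ge_atTop 16))))
  refine ⟨n₀, fun n hn => ?_⟩
  obtain ⟨h1, h2, hpos, h3⟩ := hn₀ n hn
  set k := slK n with hk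
  have hkdef : k = 2 * Nat.log 2 n + 2 := rfl
  set D := Nat.sqrt n with hD
  set s : ℝ := √(n : ℝ) with hs
  have hn16 : (16 : ℝ) ≤ n := by exact_mod_cast h3
  have hs4 : 4 ≤ s := by
    rw [hs]
    refine Real.le_sqrt_of_sq_le ?_
    linarith
  have hs0 : 0 < s := by linarith
  have hss : s * s = n := Real.mul_self_sqrt (by positivity)
  obtain ⟨x, hxdef⟩ : ∃ x, x = X n := ⟨_, rfl⟩
  rw [← hxdef] at h1 h2
  have hxs : (k : ℝ) = x * s := by
    rw [hxdef, hX]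
    show (k : ℝ) = (k : ℝ) / s * s
    rw [div_mul_cancel₀ _ hs0.ne']
  obtain ⟨w, hwdef⟩ : ∃ w, w = Wf n := ⟨_, rfl⟩
  rw [← hwdef] at h1 hpos
  have hws : (k : ℝ) ^ 3 = w ^ 3 * s := by
    have hp : (0 : ℝ) < (n : ℝ) ^ (1 / 6 : ℝ) := by
      apply Real.rpow_pos_of_pos
      linarith
    have h4 : ((n : ℝ) ^ (1 / 6 : ℝ)) ^ 3 = s := by
      rw [← Real.rpow_natCast, ← Real.rpow_mul (by linarith), hs, Real.sqrt_eq_rpow]
      norm_num
    have h5 : (k : ℝ) = w * (n : ℝ) ^ (1 / 6 : ℝ) := by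
      rw [hwdef, hWf]
      show (k : ℝ) = (k : ℝ) / (n : ℝ) ^ (1 / 6 : ℝ) * (n : ℝ) ^ (1 / 6 : ℝ)
      rw [div_mul_cancel₀ _ hp.ne']
    rw [h5, mul_pow, h4]
  have hx0 : 0 ≤ x := by rw [hxdef, hX]; positivity
  have hk2 : (2 : ℝ) ≤ k := by
    have : 2 ≤ k := by omega
    exact_mod_cast this
  have hks : (k : ℝ) ≤ s / 32 := by
    rw [hxs]
    nlinarith
  have hDs : (D : ℝ) ≤ s := by
    rw [hs]
    refine Real.le_sqrt_of_sq_le ?_
    have : D * D ≤ n := Nat.sqrt_le n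
    rw [sq]
    exact_mod_cast this
  have hDs' : s < D + 1 := by
    have h4 : n < (D + 1) * (D + 1) := Nat.lt_succ_sqrt n
    have h5 : (n : ℝ) < (D + 1) * (D + 1) := by exact_mod_cast h4
    rw [← hss] at h5
    by_contra hcon
    push Not at hcon
    have h6 : (0:ℝ) ≤ D + 1 := by positivity
    nlinarith
  have hDhalf : s / 2 ≤ D := by linarith
  have hD0 : (0 : ℝ) < D := by linarith
  have hkn : (k : ℝ) < n := by nlinarith
  have hden : s * s / 2 ≤ n - k + 1 := by nlinarith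
  have hden0 : (0 : ℝ) < n - k + 1 := by nlinarith
  have hD1 : ((D : ℝ) + 1) ≤ 2 * s := by linarith
  have hc : (4 * k * (D + 1) : ℝ) ≤ 16 * x * (n - k + 1) := by
    have h5 : (4 * k * (D + 1) : ℝ) ≤ 4 * (x * s) * (2 * s) := by
      rw [hxs]
      gcongr
    have h6 : 4 * (x * s) * (2 * s) = 16 * x * (s * s / 2) := by ring
    have h7 : 16 * x * (s * s / 2) ≤ 16 * x * (n - k + 1) := by gcongr
    linarith
  have hc' : (4 * k * (D + 1) : ℝ) / (n - k + 1 : ℝ) ≤ 16 * x := by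
    rw [div_le_iff₀ hden0]
    exact hc
  have hc1 : (4 * k * (D + 1) : ℝ) < (n - k + 1 : ℝ) := by
    refine hc.trans_lt ?_
    nlinarith
  have q1 : 2 * (k : ℝ) / ((k ^ 2 : ℕ) : ℝ) = 2 / k := by
    push_cast
    have : (k : ℝ) ≠ 0 := by linarith
    field_simp
  have q2 : 2 * (k : ℝ) * (((k ^ 2 : ℕ) : ℝ) + 1) / (D : ℝ) ≤ 8 * w ^ 3 := by
    rw [div_le_iff₀ hD0]
    push_cast
    have hk3 : 0 ≤ (k : ℝ) ^ 3 := by positivity
    have hw3 : 0 ≤ w ^ 3 := by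
      by_contra hcon
      push Not at hcon
      nlinarith
    have h5 : 2 * (k : ℝ) * ((k : ℝ) ^ 2 + 1) ≤ 4 * (k : ℝ) ^ 3 := by nlinarith
    have h6 : 4 * (k : ℝ) ^ 3 = 8 * w ^ 3 * (s / 2) := by rw [hws]; ring
    have h7 : 8 * w ^ 3 * (s / 2) ≤ 8 * w ^ 3 * D := by gcongr
    linarith
  have q3 : 1 - 2 / (k : ℝ) - 8 * w ^ 3 ≤
      1 - 2 * (k : ℝ) / ((k ^ 2 : ℕ) : ℝ) - 2 * k * (((k ^ 2 : ℕ) : ℝ) + 1) / (D : ℝ) := by
    rw [q1]
    linarith
  have hkpos : 0 < k := by omega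
  refine ⟨k, k ^ 2, D, by omega, by exact_mod_cast hkn, by positivity, by exact_mod_cast hD0, hc1,
    hpos.trans_le q3, ?_⟩
  -- the three parts
  have p1 : (4 * n / 2 ^ k : ℝ) ≤ 4 / n := by
    have h5 : n * n ≤ 2 ^ k := by
      have h6 : n < 2 ^ (Nat.log 2 n + 1) := Nat.lt_pow_succ_log_self (by norm_num) n
      have h7 : 2 ^ k = 2 ^ (Nat.log 2 n + 1) * 2 ^ (Nat.log 2 n + 1) := by
        rw [← pow_add]
        congr 1
        omega
      rw [h7]
      exact Nat.mul_le_mul h6.le h6.le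
    have h8 : (n : ℝ) * n ≤ 2 ^ k := by exact_mod_cast h5
    rw [div_le_div_iff₀ (by positivity) (by linarith)]
    nlinarith
  have p2 : (1 + 2 * k / (2 * n - 2 * k : ℝ)) ^ (2 * k) ≤ Real.exp (4 * x ^ 2) := by
    have h5 : (0 : ℝ) < 2 * n - 2 * k := by linarith
    have h6 : 1 + 2 * k / (2 * n - 2 * k : ℝ) ≤ Real.exp (2 * k / (2 * n - 2 * k : ℝ)) := by
      rw [add_comm]
      exact Real.add_one_le_exp _
    have h7 : (0 : ℝ) ≤ 1 + 2 * k / (2 * n - 2 * k : ℝ) := by positivity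
    calc (1 + 2 * k / (2 * n - 2 * k : ℝ)) ^ (2 * k)
        ≤ Real.exp (2 * k / (2 * n - 2 * k : ℝ)) ^ (2 * k) := by gcongr
      _ = Real.exp ((2 * k : ℕ) * (2 * k / (2 * n - 2 * k : ℝ))) := by rw [Real.exp_nat_mul]
      _ ≤ Real.exp (4 * x ^ 2) := by
        apply Real.exp_le_exp.2
        push_cast
        rw [mul_div_assoc', div_le_iff₀ h5]
        have h8 : s * s ≤ 2 * n - 2 * k := by nlinarith
        calc (2 * k * (2 * k) : ℝ) = 4 * x ^ 2 * (s * s) := by rw [hxs]; ring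
          _ ≤ 4 * x ^ 2 * (2 * n - 2 * k) := by gcongr
  have p3 : 0 < 1 - 16 * x := by linarith
  calc (4 * n / 2 ^ k + 1 / 2 * (1 + 2 * k / (2 * n - 2 * k : ℝ)) ^ (2 * k) /
        (1 - (4 * k * (D + 1) : ℝ) / (n - k + 1 : ℝ)))
      ≤ 4 / n + 1 / 2 * Real.exp (4 * x ^ 2) / (1 - 16 * x) := by
        gcongr
    _ ≤ (1 / 2 + ε) * (1 - 2 / (k : ℝ) - 8 * w ^ 3) := h1.le
    _ ≤ (1 / 2 + ε) * (1 - 2 * (k : ℝ) / ((k ^ 2 : ℕ) : ℝ)
          - 2 * k * (((k ^ 2 : ℕ) : ℝ) + 1) / (D : ℝ)) := by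
        gcongr

end Pool.Agent.Lib.MP_87840f_co
end

section

/-!
# Transfer of a clique to `Fin m`
-/

open Finset

namespace Pool.Agent.Lib.MP_87840f_co

theorem transfer {α : Type*} [DecidableEq α] {n : ℕ} {F : Finset (Finset α)}
    (hc : IsUniformClique n F) (h2 : ¬ ProperlyColourable 2 F) :
    ∃ m : ℕ, ∃ G : Finset (Finset (Fin m)), IsUniformClique n G ∧ ¬ ProperlyColourable 2 G ∧
      (G.biUnion id).card = (F.biUnion id).card := by
  classical
  set V := F.biUnion id with hV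
  have hsub : ∀ A ∈ F, A ⊆ V := fun A hA => subset_biUnion_of_mem id hA
  let e : V ≃ Fin V.card := V.equivFin
  let ψ : Fin V.card → α := fun j => ((e.symm j : V) : α)
  have hψ : Function.Injective ψ := fun i j h => e.symm.injective (Subtype.ext h)
  have hψe : ∀ x (hx : x ∈ V), ψ (e ⟨x, hx⟩) = x := by
    intro x hx
    simp [ψ]
  have hψV : ∀ j, ψ j ∈ V := fun j => (e.symm j).2
  let φ : Finset α → Finset (Fin V.card) := fun A => univ.filter fun j => ψ j ∈ A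
  have hφ : ∀ (A : Finset α) j, j ∈ φ A ↔ ψ j ∈ A := by
    intro A j
    simp [φ]
  refine ⟨V.card, F.image φ, ⟨?_, ?_⟩, ?_, ?_⟩
  · intro B hB
    obtain ⟨A, hA, rfl⟩ := mem_image.1 hB
    rw [← hc.1 A hA, ← card_image_of_injective (φ A) hψ]
    congr 1
    ext x
    rw [mem_image]
    constructor
    · rintro ⟨j, hj, rfl⟩
      exact (hφ A j).1 hj
    · intro hx
      have hxV := hsub A hA hx
      exact ⟨e ⟨x, hxV⟩, (hφ _ _).2 (by rw [hψe x hxV]; exact hx), hψe x hxV⟩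
  · intro B hB B' hB'
    obtain ⟨A, hA, rfl⟩ := mem_image.1 hB
    obtain ⟨A', hA', rfl⟩ := mem_image.1 hB'
    obtain ⟨x, hx, hx'⟩ := hc.2 A hA A' hA'
    have hxV := hsub A hA hx
    exact ⟨e ⟨x, hxV⟩, (hφ _ _).2 (by rw [hψe x hxV]; exact hx),
      (hφ _ _).2 (by rw [hψe x hxV]; exact hx')⟩
  · rintro ⟨c, hcol⟩
    apply h2
    refine ⟨fun x => if h : x ∈ V then c (e ⟨x, h⟩) else 0, fun A hA => ?_⟩
    rintro ⟨i, hi⟩
    apply hcol (φ A) (mem_image_of_mem φ hA)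
    refine ⟨i, fun j hj => ?_⟩
    have h3 := hi (ψ j) ((hφ A j).1 hj)
    beta_reduce at h3
    rw [dif_pos (hψV j)] at h3
    rw [← h3]
    congr 1
    simp [ψ]
  · have : (F.image φ).biUnion id = univ := by
      ext j
      simp only [mem_biUnion, mem_univ, iff_true]
      obtain ⟨A, hA, hj⟩ := mem_biUnion.1 (hψV j)
      exact ⟨φ A, mem_image_of_mem φ hA, (hφ A j).2 hj⟩
    rw [this, card_univ, Fintype.card_fin]

end Pool.Agent.Lib.MP_87840f_co
end
end
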